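import Mathlib

/-! Uniform hypergraphs without isolated vertices and their domination number. -/

namespace Pool.Agent.Lib.MP_0828a1_co

/-- the edge set `E` on the vertex set `Fin n` is `k`-uniform and has no isolated vertex -/
def UniformNoIsolated (k : ℕ) {n : ℕ} (E : Finset (Finset (Fin n))) : Prop :=
  (∀ e ∈ E, e.card = k) ∧ ∀ v : Fin n, ∃ e ∈ E, v ∈ e

/-- every vertex outside `D` is adjacent to a vertex of `D` -/
def Dominating {n : ℕ} (E : Finset (Finset (Fin n))) (D : Finset (Fin n)) : Prop :=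
  ∀ v : Fin n, v ∉ D → ∃ u ∈ D, u ≠ v ∧ ∃ e ∈ E, u ∈ e ∧ v ∈ e

/-- the domination number: least size of a dominating set -/
noncomputable def domNumber {n : ℕ} (E : Finset (Finset (Fin n))) : ℕ :=
  sInf {c | ∃ D : Finset (Fin n), D.card = c ∧ Dominating E D}

/-- the set of all ratios whose supremum is `z_k(x,y)` -/
def ratios (k : ℕ) (x y : ℝ) : Set ℝ :=
  {t | ∃ (n : ℕ) (E : Finset (Finset (Fin n))), 0 < n ∧ UniformNoIsolated k E ∧
    t = (domNumber E : ℝ) / (x * n + y * E.card)}

end Pool.Agent.Lib.MP_0828a1_co
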