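import Mathlib
import Pool.Agent.Lib.MP_0828a1_co.Defs

/-! The ratios of `ratios` over hypergraphs in which every vertex lies in at most three edges. -/

namespace Pool.Agent.Lib.MP_0828a1_co

/-- all ratios `γ / (x n + y m)` over `k`-uniform hypergraphs without isolated vertices and with
maximum degree at most three -/
def ratios3 (k : ℕ) (x y : ℝ) : Set ℝ :=
  {t | ∃ (n : ℕ) (E : Finset (Finset (Fin n))), 0 < n ∧ UniformNoIsolated k E ∧
    (∀ v : Fin n, (E.filter fun e => v ∈ e).card ≤ 3) ∧
    t = (domNumber E : ℝ) / (x * n + y * E.card)}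

end Pool.Agent.Lib.MP_0828a1_co
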