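import Pool.Agent.Lib.MP_0828a1_co.Frac

/-! Domination in uniform hypergraphs of maximum degree three: the reduction and the example. -/

open Finset

namespace Pool.Agent.Lib.MP_0828a1_co

lemma deg_bound {I P : Type*} [Fintype I] [DecidableEq P] {F : I → Finset P} {r : ℕ} (hr0 : 0 < r)
    (hr : ∀ p, r ≤ #(univ.filter fun i => p ∈ F i)) (X : Finset P) (h3 : ∀ i, #(F i ∩ X) ≤ 3) :
    6 * r * tau F X ≤ 6 * NN F X + r * #X := by
  classical
  have r0 : (0 : ℝ) < r := by exact_mod_cast hr0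
  have := frac_bound X F (fun p => let ⟨i, hi⟩ := card_pos.1 (hr0.trans_le (hr p));
    ⟨i, (mem_filter.1 hi).2⟩) h3 (fun i => if (F i ∩ X).Nonempty then 1 / r else 0)
    (fun i => by positivity) fun p hp => by
      rw [cov, sum_congr rfl fun i hi => if_pos ⟨p, mem_inter.2 ⟨(mem_filter.1 hi).2, hp⟩⟩,
        sum_const, nsmul_eq_mul, mul_one_div, one_le_div r0]
      exact_mod_cast hr p
  rw [← sum_filter, sum_const, nsmul_eq_mul] at this
  have h1 := mul_le_mul_of_nonneg_left this r0.le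
  have e : (#(univ.filter fun i => (F i ∩ X).Nonempty) : ℝ) = NN F X := by
    unfold NN; congr
  rw [e] at h1
  field_simp at h1
  have : (6 * r * tau F X : ℝ) ≤ 6 * NN F X + r * #X := by linarith
  exact_mod_cast this

theorem dom_sys {r n : ℕ} (hr0 : 0 < r) {E : Finset (Finset (Fin n))}
    (h : UniformNoIsolated (r + 1) E) (h3 : ∀ v, #(E.filter fun e => v ∈ e) ≤ 3) :
    ∃ (G : Finset (Finset (Fin n))) (F : Fin n → Finset G), #G ≤ #E ∧
      (∀ p, r ≤ #(univ.filter fun i => p ∈ F i)) ∧ (∀ i, #(F i) ≤ 3) ∧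
      domNumber E ≤ tau F univ ∧ NN F univ + #G ≤ n := by
  classical
  obtain ⟨G, hG, hmin⟩ := exists_min_image (E.powerset.filter fun G => ∀ v, ∃ e ∈ G, v ∈ e)
    card ⟨E, by simpa using h.2⟩
  simp only [mem_filter, mem_powerset] at hG hmin
  have hpriv : ∀ e : G, ∃ v, v ∈ e.1 ∧ ∀ e' : G, v ∈ e'.1 → e' = e := fun e => by
    by_contra hn
    push Not at hn
    have := hmin (G.erase e) ⟨(erase_subset _ _).trans hG.1, fun v => by
      obtain ⟨f, hf, hv⟩ := hG.2 v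
      by_cases hfe : f = e
      · obtain ⟨e', h1, h2⟩ := hn v (hfe ▸ hv)
        exact ⟨e', mem_erase.2 ⟨fun he => h2 (Subtype.ext he), e'.2⟩, h1⟩
      · exact ⟨f, mem_erase.2 ⟨hfe, hf⟩, hv⟩⟩
    have h2 := card_erase_add_one e.2
    omega
  choose priv hp1 hp2 using hpriv
  set F : Fin n → Finset G := fun v => univ.filter fun e => v ∈ e.1 ∧ v ≠ priv e with hFdef
  have hr : ∀ e : G, r ≤ #(univ.filter fun v => e ∈ F v) := fun e => by
    have : (univ.filter fun v => e ∈ F v) = e.1.erase (priv e) := by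
      ext v; simp [hFdef, and_comm]
    rw [this, card_erase_of_mem (hp1 e), h.1 e (hG.1 e.2)]; omega
  have hF : ∀ p, ∃ i, p ∈ F i := fun p => by
    obtain ⟨i, hi⟩ := card_pos.1 (hr0.trans_le (hr p))
    exact ⟨i, (mem_filter.1 hi).2⟩
  refine ⟨G, F, card_le_card hG.1, hr, fun v => le_trans ?_ (h3 v), ?_, ?_⟩
  · exact card_le_card_of_injOn Subtype.val (fun e he => mem_filter.2
      ⟨hG.1 e.2, (mem_filter.1 he).2.1⟩) Subtype.val_injective.injOn
  · obtain ⟨C, hC, hc⟩ := exists_opt hF (univ : Finset G)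
    refine hC ▸ domNumber_le fun v hv => ?_
    obtain ⟨e, he, hve⟩ := hG.2 v
    obtain ⟨u, hu, hue⟩ := hc ⟨e, he⟩ (mem_univ _)
    exact ⟨u, hu, fun huv => hv (huv ▸ hu), e, hG.1 he, (mem_filter.1 hue).2.1, hve⟩
  · have hinj : Function.Injective priv := fun e e' he => hp2 e' e (he ▸ hp1 e)
    have hc : #(univ.image priv) = #G := by
      rw [card_image_of_injective _ hinj]; simp
    have hd : Disjoint (univ.filter fun i => (F i ∩ univ).Nonempty) (univ.image priv) :=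
      disjoint_left.2 fun v hv hv' => by
        obtain ⟨e, he⟩ := (mem_filter.1 hv).2
        obtain ⟨e', -, rfl⟩ := mem_image.1 hv'
        have := (mem_filter.1 (mem_inter.1 he).1).2
        exact this.2 (by rw [hp2 e' e this.1])
    have := card_le_univ ((univ.filter fun i => (F i ∩ univ).Nonempty) ∪ univ.image priv)
    rw [card_union_of_disjoint hd, hc, Fintype.card_fin] at this
    unfold NN
    convert this

/-- six single points and the ten blocks of the design on six points -/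
def blk : Fin 16 → Finset (Fin 6) := ![{0}, {1}, {2}, {3}, {4}, {5}, {0, 1, 2}, {0, 4, 5},
  {1, 3, 4}, {2, 3, 5}, {0, 1, 3}, {0, 2, 4}, {0, 3, 5}, {1, 2, 5}, {1, 4, 5}, {2, 3, 4}]

lemma ex_blk {V : Type} [Fintype V] {n k : ℕ} (hn : Fintype.card V = n) (g : V → Fin 16)
    (hk : ∀ e, #(univ.filter fun v => e ∈ blk (g v)) = k) (hp : ∀ e, ∃ v, blk (g v) = {e}) :
    ∃ E : Finset (Finset (Fin n)), UniformNoIsolated k E ∧
      (∀ v, #(E.filter fun e => v ∈ e) ≤ 3) ∧ #E ≤ 6 ∧ 3 ≤ domNumber E := by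
  set σ := (Fintype.equivFinOfCardEq hn).symm
  set ed : Fin 6 → Finset (Fin n) := fun e => univ.filter fun v => e ∈ blk (g (σ v)) with hed
  have me : ∀ e v, v ∈ ed e ↔ e ∈ blk (g (σ v)) := fun e v => by simp [hed]
  refine ⟨univ.image ed, ⟨fun s hs => ?_, fun v => ?_⟩, fun v => ?_, card_image_le, ?_⟩
  · obtain ⟨e, -, rfl⟩ := mem_image.1 hs
    exact (card_equiv σ (by simp [hed])).trans (hk e)
  · obtain ⟨e, he⟩ := (by decide : ∀ a, (blk a).Nonempty) (g (σ v))
    exact ⟨_, mem_image_of_mem _ (mem_univ e), (me e v).2 he⟩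
  · refine le_trans (card_le_card (t := (blk (g (σ v))).image ed) fun s hs => ?_)
      (card_image_le.trans ((by decide : ∀ a, #(blk a) ≤ 3) _))
    obtain ⟨e, -, rfl⟩ := mem_image.1 (mem_filter.1 hs).1
    exact mem_image_of_mem _ ((me e v).1 (mem_filter.1 hs).2)
  · obtain ⟨D, hD, hd⟩ := exists_dom (univ.image ed)
    have key : ∀ e, ∃ u ∈ D, e ∈ blk (g (σ u)) := fun e => by
      obtain ⟨v, hv⟩ := hp e
      rw [← σ.apply_symm_apply v] at hv
      by_cases h : σ.symm v ∈ D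
      · exact ⟨_, h, hv ▸ mem_singleton_self e⟩
      · obtain ⟨u, hu, -, s, hs, h1, h2⟩ := hd _ h
        obtain ⟨e', -, rfl⟩ := mem_image.1 hs
        rw [me, hv, mem_singleton] at h2
        exact ⟨u, hu, h2 ▸ (me _ u).1 h1⟩
    obtain ⟨u, hu, -⟩ := key 0
    by_contra hc
    have : Nonempty (Fin n) := ⟨u⟩
    obtain ⟨z, hz⟩ := card_le_one_iff_subset_singleton.1
      (show #(D.erase u) ≤ 1 by rw [card_erase_of_mem hu]; omega)
    obtain ⟨e, h1, h2⟩ := (by decide : ∀ a b, ∃ e, e ∉ blk a ∧ e ∉ blk b) (g (σ u)) (g (σ z))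
    obtain ⟨t, ht, h⟩ := key e
    by_cases htu : t = u
    · exact h1 (htu ▸ h)
    · exact h2 (mem_singleton.1 (hz (mem_erase.2 ⟨htu, ht⟩)) ▸ h)

lemma ex_six {r : ℕ} (hr : 2 ≤ r) : ∃ E : Finset (Finset (Fin (2 * r + 6))),
    UniformNoIsolated (r + 1) E ∧ (∀ v, #(E.filter fun e => v ∈ e) ≤ 3) ∧ #E ≤ 6 ∧
      3 ≤ domNumber E := by
  have cnt : ∀ (c j s : ℕ) (g : Fin c → Fin 16), (∀ e, #(univ.filter fun a => e ∈ blk (g a)) = s) →
      ∀ e, #(univ.filter fun v : Fin c ⊕ Fin j × Fin 4 =>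
        e ∈ blk (Sum.elim g (fun p => ![6, 7, 8, 9] p.2) v)) = s + j * 2 := fun c j s g h e => by
    rw [card_filter, Fintype.sum_sum_type, Fintype.sum_prod_type]
    refine congrArg₂ (· + ·) ((card_filter _ _).symm.trans (h e)) ?_
    exact (sum_congr rfl fun i _ => (by decide :
      ∀ e, ∑ b : Fin 4, (if e ∈ blk (![6, 7, 8, 9] b) then 1 else 0) = 2) e).trans (by simp)
  obtain ⟨j, rfl | rfl⟩ : ∃ j, r = 2 * j ∨ r = 2 * j + 3 := ⟨if r % 2 = 0 then r / 2 else
    (r - 3) / 2, by split_ifs <;> omega⟩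
  · exact ex_blk (by simp; omega) _
      (fun e => (cnt 6 j 1 ![0, 1, 2, 3, 4, 5] (by decide) e).trans (by omega))
      fun e => ⟨.inl e, (by decide : ∀ e, blk (![0, 1, 2, 3, 4, 5] e) = {e}) e⟩
  · exact ex_blk (by simp; omega) _ (fun e => (cnt 12 j 4
      ![0, 1, 2, 3, 4, 5, 10, 11, 12, 13, 14, 15] (by decide) e).trans (by omega))
      fun e => ⟨.inl (![0, 1, 2, 3, 4, 5] e), (by decide : ∀ e, blk
        (![0, 1, 2, 3, 4, 5, 10, 11, 12, 13, 14, 15] ((![0, 1, 2, 3, 4, 5] : Fin 6 → Fin 12) e))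
          = {e}) e⟩

end Pool.Agent.Lib.MP_0828a1_co
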