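import Mathlib
import Pool.Agent.Lib.MP_0828a1_co.Defs

-- part Pool.Agent.Lib.MP_0828a1_co.Cover
section

/-! Covering numbers of set systems: critical sets, a Gallai type lemma and a structure lemma. -/

open Finset

namespace Pool.Agent.Lib.MP_0828a1_co

variable {I P : Type*} [Fintype I] [DecidableEq P] (F : I → Finset P)

/-- `C` covers `X` -/
def Covers (C : Finset I) (X : Finset P) : Prop := ∀ p ∈ X, ∃ i ∈ C, p ∈ F i

/-- covering number -/
noncomputable def tau (X : Finset P) : ℕ := sInf {n | ∃ C : Finset I, C.card = n ∧ Covers F C X}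

/-- two points lie in a common set -/
def Adj (p q : P) : Prop := ∃ i, p ∈ F i ∧ q ∈ F i

/-- no set meets both `X` and `Y` -/
def Sep (X Y : Finset P) : Prop := ∀ p ∈ X, ∀ q ∈ Y, ¬ Adj F p q

/-- number of sets meeting `X` -/
noncomputable def NN (X : Finset P) : ℕ := by
  classical exact (univ.filter fun i => (F i ∩ X).Nonempty).card

/-- deficiency -/
noncomputable def del (X : Finset P) : ℤ := 2 * (tau F X : ℤ) - X.card

/-- every point is critical -/
def Crit (K : Finset P) : Prop := ∀ k ∈ K, tau F (K.erase k) < tau F K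

/-- connectedness -/
def Conn (K : Finset P) : Prop := ∀ K0 ⊆ K, K0.Nonempty → Sep F K0 (K \ K0) → K0 = K

/-- `K` is a critical component of `W` -/
structure Hang (W K : Finset P) : Prop where
  sub : K ⊆ W
  ne : K.Nonempty
  crit : Crit F K
  conn : Conn F K
  sep : Sep F K (W \ K)

variable {F}

lemma Adj.symm {p q : P} (h : Adj F p q) : Adj F q p := let ⟨i, a, b⟩ := h; ⟨i, b, a⟩

lemma Sep.symm {X Y : Finset P} (h : Sep F X Y) : Sep F Y X :=
  fun p hp q hq ha => h q hq p hp ha.symm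

lemma Sep.mono {X Y X' Y' : Finset P} (h : Sep F X Y) (hX : X' ⊆ X) (hY : Y' ⊆ Y) :
    Sep F X' Y' := fun p hp q hq => h p (hX hp) q (hY hq)

lemma tau_le {C : Finset I} {X : Finset P} (h : Covers F C X) : tau F X ≤ C.card :=
  Nat.sInf_le ⟨C, rfl, h⟩

section
variable (hF : ∀ p, ∃ i, p ∈ F i)
include hF

lemma exists_opt (X : Finset P) : ∃ C : Finset I, C.card = tau F X ∧ Covers F C X :=
  Nat.sInf_mem (s := {n | ∃ C : Finset I, C.card = n ∧ Covers F C X})
    ⟨_, univ, rfl, fun p _ => let ⟨i, hi⟩ := hF p; ⟨i, mem_univ _, hi⟩⟩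

lemma tau_mono {X Y : Finset P} (h : X ⊆ Y) : tau F X ≤ tau F Y := by
  obtain ⟨C, hC, hc⟩ := exists_opt hF Y
  exact hC ▸ tau_le fun p hp => hc p (h hp)

lemma tau_le_add {X Y Z : Finset P} (h : X ⊆ Y ∪ Z) : tau F X ≤ tau F Y + tau F Z := by
  classical
  obtain ⟨C, hC, hc⟩ := exists_opt hF Y
  obtain ⟨D, hD, hd⟩ := exists_opt hF Z
  refine (tau_le (C := C ∪ D) fun p hp => ?_).trans ((card_union_le _ _).trans (by omega))
  rcases mem_union.1 (h hp) with h1 | h1
  · obtain ⟨i, hi, hp⟩ := hc p h1; exact ⟨i, mem_union_left _ hi, hp⟩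
  · obtain ⟨i, hi, hp⟩ := hd p h1; exact ⟨i, mem_union_right _ hi, hp⟩

omit hF in
lemma tau_le_one {X : Finset P} {i : I} (h : X ⊆ F i) : tau F X ≤ 1 :=
  (tau_le (C := {i}) fun p hp => ⟨i, mem_singleton_self _, h hp⟩).trans (by simp)

lemma tau_pos {X : Finset P} (h : X.Nonempty) : 0 < tau F X := by
  obtain ⟨C, hC, hc⟩ := exists_opt hF X
  obtain ⟨p, hp⟩ := h
  obtain ⟨i, hi, -⟩ := hc p hp
  exact hC ▸ card_pos.2 ⟨i, hi⟩

lemma tau_single (p : P) : tau F {p} = 1 := by
  obtain ⟨i, hi⟩ := hF p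
  exact le_antisymm (tau_le_one (i := i) (by simpa using hi)) (tau_pos hF (by simp))

lemma Sep.disjoint {X Y : Finset P} (h : Sep F X Y) : Disjoint X Y :=
  disjoint_left.2 fun p hp hq => let ⟨i, hi⟩ := hF p; h p hp p hq ⟨i, hi, hi⟩

lemma tau_add {X Y Z : Finset P} (h : Sep F X Y) (hX : X ⊆ Z) (hY : Y ⊆ Z) :
    tau F X + tau F Y ≤ tau F Z := by
  classical
  obtain ⟨C, hC, hc⟩ := exists_opt hF Z
  have h1 : tau F X ≤ (C.filter fun i => (F i ∩ X).Nonempty).card := tau_le fun p hp => by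
    obtain ⟨i, hi, hp'⟩ := hc p (hX hp)
    exact ⟨i, mem_filter.2 ⟨hi, p, mem_inter.2 ⟨hp', hp⟩⟩, hp'⟩
  have h2 : tau F Y ≤ (C.filter fun i => ¬ (F i ∩ X).Nonempty).card := tau_le fun p hp => by
    obtain ⟨i, hi, hp'⟩ := hc p (hY hp)
    refine ⟨i, mem_filter.2 ⟨hi, ?_⟩, hp'⟩
    rintro ⟨q, hq⟩
    exact h q (mem_inter.1 hq).2 p hp ⟨i, (mem_inter.1 hq).1, hp'⟩
  have := card_filter_add_card_filter_not (s := C) (fun i => (F i ∩ X).Nonempty)
  omega

/-- a critical set absorbs points lying in a common set with one of its points -/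
lemma absorb {K B : Finset P} (hK : Crit F K) {k : P} (hk : k ∈ K) {j : I} (hkj : k ∈ F j)
    (hB : B ⊆ F j) : tau F (K ∪ B) ≤ tau F K := by
  have h1 := hK k hk
  have h2 : tau F (K ∪ B) ≤ tau F (K.erase k) + tau F (F j) := tau_le_add hF fun p hp => by
    rcases mem_union.1 hp with h | h
    · by_cases hpk : p = k
      · exact mem_union_right _ (hpk ▸ hkj)
      · exact mem_union_left _ (mem_erase.2 ⟨hpk, h⟩)
    · exact mem_union_right _ (hB h)
  have h3 := tau_le_one (F := F) (X := F j) subset_rfl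
  omega

omit hF in
lemma Hang.sep_of_ne {W K K' : Finset P} (h : Hang F W K) (h' : Hang F W K') (hne : K ≠ K') :
    Sep F K K' := by
  have key : ∀ {K K' : Finset P}, Hang F W K → Hang F W K' → (K ∩ K').Nonempty → K ⊆ K' := by
    intro K K' h h' hn
    have := h.conn (K ∩ K') inter_subset_left hn (h'.sep.mono inter_subset_right fun p hp => by
      simp only [mem_sdiff, mem_inter, not_and] at hp ⊢
      exact ⟨h.sub hp.1, hp.2 hp.1⟩)
    exact this ▸ inter_subset_right
  have hd : ¬ (K ∩ K').Nonempty := fun hn =>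
    hne (Subset.antisymm (key h h' hn) (key h' h (inter_comm K K' ▸ hn)))
  refine h.sep.mono subset_rfl fun p hp => mem_sdiff.2 ⟨h'.sub hp, fun hk => hd ⟨p, ?_⟩⟩
  exact mem_inter.2 ⟨hk, hp⟩

omit hF in
lemma Hang.restrict {W W' K : Finset P} (h : Hang F W K) (h1 : K ⊆ W') (h2 : W' ⊆ W) :
    Hang F W' K :=
  ⟨h1, h.ne, h.crit, h.conn, h.sep.mono subset_rfl (sdiff_subset_sdiff h2 subset_rfl)⟩

omit hF in
lemma Hang.extend {W W' B K : Finset P} (h : Hang F W K) (h1 : W ⊆ W') (h2 : W' ⊆ W ∪ B)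
    (hB : Sep F K B) : Hang F W' K := by
  refine ⟨h.sub.trans h1, h.ne, h.crit, h.conn, fun p hp q hq => ?_⟩
  rcases mem_union.1 (h2 (mem_sdiff.1 hq).1) with h3 | h3
  · exact h.sep p hp q (mem_sdiff.2 ⟨h3, (mem_sdiff.1 hq).2⟩)
  · exact hB p hp q h3

lemma matched (S : Finset P) : ∀ (X : Finset P) (f : P → Finset P), Set.InjOn f S →
    (∀ s ∈ S, Hang F (X \ S) (f s) ∧ ∃ k ∈ f s, Adj F s k) → tau F X ≤ tau F (X \ S) := by
  induction S using Finset.induction_on with
  | empty => intro X f _ _; simp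
  | insert s S hs ih =>
    intro X f hf h
    obtain ⟨hK, k, hk, j, hsj, hkj⟩ := h s (mem_insert_self _ _)
    have h1 := ih (X \ (f s ∪ {s})) f (hf.mono (by simp)) fun s' hs' => by
      obtain ⟨hK', h2⟩ := h s' (mem_insert_of_mem hs')
      refine ⟨hK'.restrict (fun p hp => ?_) fun p hp => ?_, h2⟩
      · have h3 := hK'.sub hp
        have h4 : f s' ≠ f s := fun he =>
          hs (hf (by simp [hs']) (by simp) he ▸ hs')
        have h5 := disjoint_left.1 ((hK'.sep_of_ne hK h4).disjoint hF) hp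
        simp only [mem_sdiff, mem_insert, not_or, mem_union, mem_singleton] at h3 ⊢
        tauto
      · simp only [mem_sdiff, mem_insert, not_or, mem_union, mem_singleton] at hp ⊢
        tauto
    have h2 : tau F X ≤ tau F (f s ∪ {s}) + tau F (X \ (f s ∪ {s})) :=
      tau_le_add hF fun p hp => by
        simp only [mem_union, mem_sdiff] at hp ⊢
        tauto
    have h3 := absorb hF hK.crit hk hkj (B := {s}) (by simpa using hsj)
    have h4 := tau_add hF (X := f s) (Y := (X \ (f s ∪ {s})) \ S) (Z := X \ insert s S)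
      (hK.sep.mono subset_rfl fun p hp => by
        simp only [mem_sdiff, mem_insert, not_or, mem_union, mem_singleton] at hp ⊢
        tauto) hK.sub fun p hp => by
        simp only [mem_sdiff, mem_insert, not_or, mem_union, mem_singleton] at hp ⊢
        tauto
    omega

/-- removing a nonempty set `S` from a connected critical set leaves fewer than `|S|`
critical components -/
lemma few_comps {X : Finset P} (hc : Crit F X) (hn : Conn F X) (n : ℕ) :
    ∀ (S : Finset P) (Y : Finset (Finset P)), S.card = n → S ⊆ X → S.Nonempty →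
      (∀ K ∈ Y, Hang F (X \ S) K) → Y.card < S.card := by
  classical
  induction n using Nat.strong_induction_on with
  | _ n ih =>
  intro S Y hS hSX hne hY
  set nb : P → Finset (Finset P) := fun s => Y.filter fun K => ∃ k ∈ K, Adj F s k with hnb
  by_cases hall : ∀ S' : Finset S, S'.card ≤ (S'.biUnion fun s => nb s).card
  · exfalso
    obtain ⟨f, hf, hf'⟩ := (all_card_le_biUnion_card_iff_existsInjective' (fun s : S => nb s)).1
      hall
    have h1 := matched hF S X (fun p => if h : p ∈ S then f ⟨p, h⟩ else ∅) (by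
      intro a ha b hb hab
      simp only [mem_coe] at ha hb
      simp only [ha, hb, dite_true] at hab
      exact congrArg Subtype.val (hf hab)) fun s hs => by
        have := mem_filter.1 (hf' ⟨s, hs⟩)
        simp only [hs, dite_true]
        exact ⟨hY _ this.1, this.2⟩
    obtain ⟨v, hv⟩ := hne
    have h2 := hc v (hSX hv)
    have h3 : tau F (X \ S) ≤ tau F (X.erase v) := tau_mono hF fun p hp =>
      mem_erase.2 ⟨fun he => (mem_sdiff.1 hp).2 (he ▸ hv), (mem_sdiff.1 hp).1⟩
    omega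
  · push Not at hall
    obtain ⟨S0, hS0⟩ := hall
    set S' := S0.map (Function.Embedding.subtype _) with hS'
    set Nb := S0.biUnion fun s => nb s with hNb
    have hS'c : S'.card = S0.card := card_map _
    have hS'S : S' ⊆ S := fun p hp => by
      obtain ⟨q, -, rfl⟩ := mem_map.1 hp; exact q.2
    have hNY : Nb ⊆ Y := fun K hK => by
      obtain ⟨s, -, h⟩ := mem_biUnion.1 hK; exact (mem_filter.1 h).1
    have hY' : ∀ K ∈ Y \ Nb, Hang F (X \ (S \ S')) K := by
      intro K hK
      refine (hY K (mem_sdiff.1 hK).1).extend (B := S')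
        (sdiff_subset_sdiff subset_rfl sdiff_subset) (fun p hp => ?_) fun p hp q hq ha => ?_
      · simp only [mem_sdiff, mem_union] at hp ⊢
        tauto
      · obtain ⟨q', hq', rfl⟩ := mem_map.1 hq
        exact (mem_sdiff.1 hK).2 (mem_biUnion.2 ⟨q', hq', mem_filter.2
          ⟨(mem_sdiff.1 hK).1, p, hp, ha.symm⟩⟩)
    have h1 := card_sdiff_add_card_eq_card hNY
    have h2 := card_sdiff_add_card_eq_card hS'S
    by_cases h3 : (S \ S').Nonempty
    · have := ih _ (by omega) (S \ S') (Y \ Nb) rfl (sdiff_subset.trans hSX) h3 hY'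
      omega
    · rw [not_nonempty_iff_eq_empty] at h3
      have h4 : Y \ Nb = ∅ := by
        rw [eq_empty_iff_forall_notMem]
        intro K hK
        have h5 := hY' K hK
        rw [h3, sdiff_empty] at h5
        have h6 := hn K h5.sub h5.ne h5.sep
        obtain ⟨v, hv⟩ := hne
        have h7 := (hY K (mem_sdiff.1 hK).1).sub (h6 ▸ hSX hv)
        exact (mem_sdiff.1 h7).2 hv
      rw [h4] at h1
      simp only [card_empty] at h1
      omega

lemma del_add {X X0 : Finset P} (h0 : X0 ⊆ X) (h : Sep F X0 (X \ X0)) :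
    del F X = del F X0 + del F (X \ X0) := by
  have h1 := tau_add hF h h0 sdiff_subset
  have h2 : tau F X ≤ tau F X0 + tau F (X \ X0) := tau_le_add hF fun p hp => by
    simp only [mem_union, mem_sdiff]; tauto
  have h3 := card_sdiff_add_card_eq_card h0
  unfold del; omega

lemma del_remove {X B : Finset P} (hB : B ⊆ X) :
    del F X + B.card ≤ del F (X \ B) + 2 * tau F B := by
  have h2 : tau F X ≤ tau F B + tau F (X \ B) := tau_le_add hF fun p hp => by
    simp only [mem_union, mem_sdiff]; tauto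
  have h3 := card_sdiff_add_card_eq_card hB
  unfold del; omega

/-- structure lemma -/
lemma struct (X : Finset P) : ∃ S ⊆ X, ∃ Y : Finset (Finset P),
    (∀ K ∈ Y, Hang F (X \ S) K ∧ del F K = 1) ∧ del F X + S.card ≤ Y.card := by
  induction X using Finset.strongInductionOn with
  | _ X ih =>
  by_cases h0 : del F X ≤ 0
  · exact ⟨∅, empty_subset _, ∅, by simp, by simpa using h0⟩
  by_cases hc : Crit F X
  swap
  · simp only [Crit, not_forall, not_lt] at hc
    obtain ⟨v, hv, hv'⟩ := hc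
    obtain ⟨S, hS, Y, hY, hcard⟩ := ih (X.erase v) (erase_ssubset hv)
    have hvS : v ∉ S := fun h => by simpa using hS h
    refine ⟨insert v S, insert_subset hv (hS.trans (erase_subset _ _)), Y, fun K hK => ?_, ?_⟩
    · have : X \ insert v S = X.erase v \ S := by ext p; simp; tauto
      rw [this]; exact hY K hK
    · rw [card_insert_of_notMem hvS]
      have := card_erase_add_one hv
      unfold del at hcard ⊢
      push_cast; omega
  by_cases hn : Conn F X
  swap
  · simp only [Conn, not_forall] at hn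
    obtain ⟨X0, h1, h2, h3, h4⟩ := hn
    obtain ⟨S0, hS0, Y0, hY0, hc0⟩ := ih X0 (ssubset_of_subset_of_ne h1 h4)
    obtain ⟨S1, hS1, Y1, hY1, hc1⟩ := ih (X \ X0) (sdiff_ssubset h1 h2)
    have hd : Disjoint Y0 Y1 := disjoint_left.2 fun K hK hK' => by
      obtain ⟨p, hp⟩ := (hY0 K hK).1.ne
      have a1 := (hY0 K hK).1.sub hp
      have a2 := (hY1 K hK').1.sub hp
      simp only [mem_sdiff] at a1 a2
      tauto
    refine ⟨S0 ∪ S1, union_subset (hS0.trans h1) (hS1.trans sdiff_subset), Y0 ∪ Y1,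
      fun K hK => ?_, ?_⟩
    · rcases mem_union.1 hK with h | h
      · refine ⟨(hY0 K h).1.extend (B := X \ X0) (fun p hp => ?_) (fun p hp => ?_)
          (h3.mono ((hY0 K h).1.sub.trans sdiff_subset) subset_rfl), (hY0 K h).2⟩
        · have := @hS1 p
          have := @h1 p
          simp only [mem_sdiff, mem_union] at *
          tauto
        · simp only [mem_sdiff, mem_union] at *
          tauto
      · refine ⟨(hY1 K h).1.extend (B := X0) (fun p hp => ?_) (fun p hp => ?_)
          (h3.symm.mono ((hY1 K h).1.sub.trans sdiff_subset) subset_rfl), (hY1 K h).2⟩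
        · have := @hS0 p
          simp only [mem_sdiff, mem_union] at *
          tauto
        · simp only [mem_sdiff, mem_union] at *
          tauto
    · rw [card_union_of_disjoint hd, del_add hF h1 h3]
      have := card_union_le S0 S1
      push_cast; omega
  have hne : X.Nonempty := by
    rcases X.eq_empty_or_nonempty with rfl | h
    · exfalso; apply h0
      have : tau F (∅ : Finset P) ≤ 0 := tau_le (C := ∅) fun p hp => by simp at hp
      unfold del; simp; omega
    · exact h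
  by_cases h1 : del F X = 1
  · refine ⟨∅, empty_subset _, {X}, fun K hK => ?_, by simp [h1]⟩
    rw [mem_singleton.1 hK, sdiff_empty]
    exact ⟨⟨subset_rfl, hne, hc, hn, fun p _ q hq => by simp at hq⟩, h1⟩
  exfalso
  obtain ⟨u, hu⟩ := hne
  have h2 : ¬ Sep F {u} (X \ {u}) := fun h => by
    have := hn {u} (by simpa using hu) (by simp) h
    apply h1
    rw [← this, del, tau_single hF]; simp
  simp only [Sep, mem_singleton, forall_eq, not_forall, not_not, mem_sdiff] at h2
  obtain ⟨v, ⟨hv, hvu⟩, j, huj, hvj⟩ := h2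
  have hB : ({u, v} : Finset P) ⊆ X := by
    intro p hp; simp only [mem_insert, mem_singleton] at hp; rcases hp with rfl | rfl <;> assumption
  obtain ⟨S, hS, Y, hY, hcard⟩ := ih (X \ {u, v}) (sdiff_ssubset hB (by simp))
  have h3 := del_remove hF hB
  have h4 : tau F {u, v} ≤ 1 := tau_le_one (i := j) (by
    intro p hp; simp only [mem_insert, mem_singleton] at hp; rcases hp with rfl | rfl <;> assumption)
  have h5 := few_comps hF hc hn _ ({u, v} ∪ S) Y rfl (union_subset hB (hS.trans sdiff_subset))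
    ⟨u, by simp⟩ fun K hK => by
      have he : X \ ({u, v} ∪ S) = (X \ {u, v}) \ S := by
        ext p; simp only [mem_sdiff, mem_union]; tauto
      rw [he]; exact (hY K hK).1
  have h6 := card_union_le ({u, v} : Finset P) S
  rw [card_pair (Ne.symm hvu)] at h3 h6
  omega

end

lemma NN_add {X Y Z : Finset P} (h : Sep F X Y) (hX : X ⊆ Z) (hY : Y ⊆ Z) :
    NN F X + NN F Y ≤ NN F Z := by
  classical
  unfold NN
  rw [← card_union_of_disjoint]
  · refine card_le_card fun i hi => ?_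
    simp only [mem_union, mem_filter, mem_univ, true_and] at hi ⊢
    rcases hi with h1 | h1
    · exact h1.mono (inter_subset_inter subset_rfl hX)
    · exact h1.mono (inter_subset_inter subset_rfl hY)
  · refine disjoint_left.2 fun i h1 h2 => ?_
    obtain ⟨p, hp⟩ := (mem_filter.1 h1).2
    obtain ⟨q, hq⟩ := (mem_filter.1 h2).2
    exact h p (mem_inter.1 hp).2 q (mem_inter.1 hq).2
      ⟨i, (mem_inter.1 hp).1, (mem_inter.1 hq).1⟩

lemma NN_remove {X B : Finset P} (E : Finset I)
    (hE : ∀ i ∈ E, (F i ∩ X).Nonempty ∧ F i ∩ X ⊆ B) : NN F (X \ B) + E.card ≤ NN F X := by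
  classical
  unfold NN
  rw [← card_union_of_disjoint]
  · refine card_le_card fun i hi => ?_
    simp only [mem_union, mem_filter, mem_univ, true_and] at hi ⊢
    rcases hi with h1 | h1
    · exact h1.mono (inter_subset_inter subset_rfl sdiff_subset)
    · exact (hE i h1).1
  · refine disjoint_left.2 fun i h1 h2 => ?_
    obtain ⟨p, hp⟩ := (mem_filter.1 h1).2
    simp only [mem_inter, mem_sdiff] at hp
    exact hp.2.2 ((hE i h2).2 (mem_inter.2 ⟨hp.1, hp.2.1⟩))

lemma weight_count {r : ℕ} (hr : ∀ p, r ≤ (univ.filter fun i => p ∈ F i).card) (X : Finset P)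
    (y : P → ℤ) (hy : ∀ p, 0 ≤ y p) (c : ℤ) (hc : ∀ i, ∑ p ∈ F i ∩ X, y p ≤ c) :
    r * ∑ p ∈ X, y p ≤ c * NN F X := by
  classical
  have h1 : ∑ i, ∑ p ∈ F i ∩ X, y p = ∑ p ∈ X, ((univ.filter fun i => p ∈ F i).card : ℤ) * y p := by
    have : ∀ i, ∑ p ∈ F i ∩ X, y p = ∑ p ∈ X, if p ∈ F i then y p else 0 := fun i => by
      rw [← sum_filter, inter_comm, filter_mem_eq_inter]
    simp only [this]
    rw [sum_comm]
    refine sum_congr rfl fun p _ => ?_
    rw [← sum_filter]; simp
  have h2 : ∑ i, ∑ p ∈ F i ∩ X, y p ≤ c * NN F X := by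
    rw [← sum_filter_add_sum_filter_not univ (fun i => (F i ∩ X).Nonempty),
      sum_eq_zero (s := univ.filter fun i => ¬ (F i ∩ X).Nonempty) fun i hi => by
        rw [not_nonempty_iff_eq_empty.1 (mem_filter.1 hi).2]; simp]
    have := sum_le_card_nsmul (univ.filter fun i => (F i ∩ X).Nonempty) _ c fun i _ => hc i
    rw [add_zero, mul_comm]
    simpa [NN] using this
  rw [mul_sum]
  refine le_trans (sum_le_sum fun p _ => mul_le_mul_of_nonneg_right ?_ (hy p)) (h1 ▸ h2)
  exact_mod_cast hr p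

lemma comps_count (hF : ∀ p, ∃ i, p ∈ F i) {a b : ℝ} (Y : Finset (Finset P)) :
    ∀ W : Finset P, (∀ Z ⊆ W, a * Z.card ≤ NN F Z) →
      (∀ K ∈ Y, Hang F W K ∧ a * K.card + b ≤ NN F K) → a * W.card + b * Y.card ≤ NN F W := by
  induction Y using Finset.induction_on with
  | empty => intro W h _; simpa using h W subset_rfl
  | insert K Y hK ih =>
    intro W h hY
    obtain ⟨h1, h2⟩ := hY K (mem_insert_self _ _)
    have h3 := ih (W \ K) (fun Z hZ => h Z (hZ.trans sdiff_subset)) fun K' hK' => by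
      obtain ⟨h4, h5⟩ := hY K' (mem_insert_of_mem hK')
      refine ⟨h4.restrict (fun p hp => mem_sdiff.2 ⟨h4.sub hp, ?_⟩) sdiff_subset, h5⟩
      exact disjoint_left.1 ((h4.sep_of_ne h1 fun he => hK (he ▸ hK')).disjoint hF) hp
    have h4 : (NN F K : ℝ) + NN F (W \ K) ≤ NN F W := by
      exact_mod_cast NN_add h1.sep h1.sub sdiff_subset
    have h5 : ((W \ K).card : ℝ) + K.card = W.card := by
      exact_mod_cast card_sdiff_add_card_eq_card h1.sub
    rw [card_insert_of_notMem hK, ← h5]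
    push_cast; linarith

end Pool.Agent.Lib.MP_0828a1_co
end

-- part Pool.Agent.Lib.MP_0828a1_co.Tri
section

/-! Structure of a minimal counterexample: triples and hanging pairs. -/

open Finset

namespace Pool.Agent.Lib.MP_0828a1_co

variable {I P : Type*} [Fintype I] [DecidableEq P] (F : I → Finset P)

/-- a triple of `X` -/
def Tri (X T : Finset P) : Prop := T ⊆ X ∧ T.card = 3 ∧ ∃ i, T ⊆ F i

/-- a hanging pair of components after removal of `T` -/
structure HP (X T K K' : Finset P) : Prop where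
  ne : K ≠ K'
  h1 : Hang F (X \ T) K
  h2 : Hang F (X \ T) K'
  c1 : K.card ≠ 2
  c2 : K'.card ≠ 2

/-- a single point lying in a triple -/
def Bad (X K : Finset P) : Prop := ∃ v T, K = {v} ∧ Tri F X T ∧ v ∈ T

/-- a weighting gaining two units on `K` -/
def Gain (X K : Finset P) : Prop := ∃ g : P → ℤ, (∀ p, -1 ≤ g p) ∧ (∀ p, p ∉ K → g p ≤ 0) ∧
  2 ≤ ∑ p ∈ X, g p ∧ ∀ i, ∑ p ∈ F i ∩ X, (2 + g p) ≤ 6

/-- a reducible configuration -/
def BP (X : Finset P) : Prop := ∃ v z Q, v ≠ z ∧ v ∈ Q ∧ z ∈ Q ∧ Q ⊆ X ∧ Q.card = 4 ∧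
  tau F Q ≤ 2 ∧ Adj F v z ∧ (∀ i, (v ∈ F i ∨ z ∈ F i) → F i ∩ X ⊆ Q) ∧
  (∀ i, v ∈ F i → z ∈ F i → F i ∩ X ⊆ {v, z})

/-- the properties of a minimal counterexample -/
structure Ctx (X : Finset P) : Prop where
  hF : ∀ p, ∃ i, p ∈ F i
  tr : ∀ i, (F i ∩ X).card ≤ 3
  crit : Crit F X
  conn : Conn F X
  pair : ∀ T, Tri F X T → ∃ K K', HP F X T K K'
  nbp : ¬ BP F X

variable {F} {X T K K' : Finset P}

lemma HP.symm (h : HP F X T K K') : HP F X T K' K := ⟨h.ne.symm, h.h2, h.h1, h.c2, h.c1⟩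

lemma HP.sep (h : HP F X T K K') : Sep F K K' := h.h1.sep_of_ne h.h2 h.ne

lemma Gain.mono (h : Gain F X K) (hK : K ⊆ K') : Gain F X K' :=
  let ⟨g, h1, h2, h3⟩ := h; ⟨g, h1, fun p hp => h2 p fun hk => hp (hK hk), h3⟩

lemma Hang.trace (h : Hang F (X \ T) K) {k : P} (hk : k ∈ K) {j : I} (hj : k ∈ F j) :
    F j ∩ X ⊆ K ∪ T := fun p hp => by
  by_contra hn
  simp only [mem_union, not_or, mem_inter] at hn hp
  exact h.sep k hk p (by simp [hn, hp]) ⟨j, hj, hp.1⟩

lemma Hang.notMem (h : Hang F (X \ T) K) {k : P} (hk : k ∈ K) : k ∉ T :=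
  (mem_sdiff.1 (h.sub hk)).2

lemma Hang.mem (h : Hang F (X \ T) K) {k : P} (hk : k ∈ K) : k ∈ X :=
  (mem_sdiff.1 (h.sub hk)).1

namespace Ctx

variable (c : Ctx F X)
include c

lemma few (S : Finset P) (Y : Finset (Finset P)) (hS : S ⊆ X) (hne : S.Nonempty)
    (h : ∀ K ∈ Y, Hang F (X \ S) K) : Y.card < S.card :=
  few_comps c.hF c.crit c.conn _ S Y rfl hS hne h

lemma no_one {t : P} (ht : t ∈ X) (h : Hang F (X \ {t}) K) : False := by
  have := c.few {t} {K} (by simpa using ht) (by simp) (by simpa using h)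
  simp at this

lemma nbr (hT : T ⊆ X) (h : Hang F (X \ T) K) {t : P} (ht : t ∈ T) :
    ∃ x ∈ T, x ≠ t ∧ ∃ k ∈ K, Adj F k x := by
  by_contra hn
  push Not at hn
  refine c.no_one (hT ht) (h.extend (B := T.erase t)
    (sdiff_subset_sdiff subset_rfl (by simpa using ht)) (fun p hp => ?_) fun p hp q hq =>
      hn q (mem_erase.1 hq).2 (mem_erase.1 hq).1 p hp)
  simp only [mem_sdiff, mem_union, mem_erase, mem_singleton] at hp ⊢
  tauto

lemma adj_or (hT : Tri F X T) (h : HP F X T K K') {t : P} (ht : t ∈ T) :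
    (∃ k ∈ K, Adj F k t) ∨ ∃ k ∈ K', Adj F k t := by
  classical
  by_contra hn
  push Not at hn
  have key : ∀ L, Hang F (X \ T) L → (∀ k ∈ L, ¬ Adj F k t) → Hang F (X \ T.erase t) L :=
    fun L hL h' => hL.extend (B := {t}) (sdiff_subset_sdiff subset_rfl (erase_subset _ _))
      (fun p hp => by
        simp only [mem_sdiff, mem_union, mem_erase, mem_singleton] at hp ⊢
        tauto) fun p hp q hq => by rw [mem_singleton.1 hq]; exact h' p hp
  have h2 : (T.erase t).card = 2 := by rw [card_erase_of_mem ht, hT.2.1]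
  have := c.few (T.erase t) {K, K'} ((erase_subset _ _).trans hT.1) (card_pos.1 (by omega))
    fun L hL => by
      rcases mem_insert.1 hL with rfl | hL
      · exact key _ h.h1 hn.1
      · rw [mem_singleton.1 hL]; exact key _ h.h2 hn.2
  rw [card_pair h.ne] at this
  omega

lemma no_three (hT : Tri F X T) (h : HP F X T K K') {L : Finset P} (hL : Hang F (X \ T) L) :
    L = K ∨ L = K' := by
  classical
  by_contra hn
  push Not at hn
  have := c.few T {L, K, K'} hT.1 (card_pos.1 (by rw [hT.2.1]; omega)) fun M hM => by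
    simp only [mem_insert, mem_singleton] at hM
    rcases hM with rfl | rfl | rfl
    exacts [hL, h.h1, h.h2]
  rw [card_insert_of_notMem (by simp [hn]), card_pair h.ne, hT.2.1] at this
  omega

lemma F2 (hT : T ⊆ X) (h : HP F X T K K') {k z k' : P} {j : I} (hk : k ∈ K) (hkj : k ∈ F j)
    (hz : z ∈ T) (hj : T.erase z ⊆ F j) (hk' : k' ∈ K') (ha : Adj F k' z) : False := by
  obtain ⟨j', hk'j, hzj⟩ := ha
  have h1 := absorb c.hF h.h1.crit hk hkj hj
  have h2 := absorb c.hF h.h2.crit hk' hk'j (B := {z}) (by simpa using hzj)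
  have h3 : tau F X ≤ tau F (K ∪ T.erase z) + tau F (K' ∪ {z} ∪ ((X \ T) \ K) \ K') :=
    tau_le_add c.hF fun p hp => by
      simp only [mem_sdiff, mem_union, mem_erase, mem_singleton]
      tauto
  have h4 : tau F (K' ∪ {z} ∪ ((X \ T) \ K) \ K') ≤
      tau F (K' ∪ {z}) + tau F (((X \ T) \ K) \ K') := tau_le_add c.hF subset_rfl
  have h5 := tau_add c.hF h.h1.sep h.h1.sub sdiff_subset
  have h6 : tau F K' + tau F (((X \ T) \ K) \ K') ≤ tau F ((X \ T) \ K) :=
    tau_add c.hF (h.h2.sep.mono subset_rfl (sdiff_subset_sdiff sdiff_subset subset_rfl))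
      (fun p hp => mem_sdiff.2 ⟨h.h2.sub hp,
        disjoint_left.1 (h.symm.sep.disjoint c.hF) hp⟩) sdiff_subset
  have h7 := c.crit z (hT hz)
  have h8 : tau F (X \ T) ≤ tau F (X.erase z) := tau_mono c.hF fun p hp =>
    mem_erase.2 ⟨fun he => (mem_sdiff.1 hp).2 (he ▸ hz), (mem_sdiff.1 hp).1⟩
  omega

lemma inside1 (hT : T ⊆ X) (h : Hang F (X \ T) K) {t : P} (ht : t ∈ T) {T3 L : Finset P}
    (h3 : T3 ⊆ K ∪ {t}) (hL : Hang F (X \ T3) L) : L ⊆ K ∨ ∃ x ∈ L, x ∈ T := by
  by_contra hn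
  push Not at hn
  obtain ⟨hn1, hn2⟩ := hn
  have hd : ¬ (L ∩ K).Nonempty := fun hne => by
    have := hL.conn (L ∩ K) inter_subset_left hne (h.sep.mono inter_subset_right fun p hp => by
      have a1 : p ∈ L → p ∈ X := hL.mem
      have a2 := hn2 p
      simp only [mem_sdiff, mem_inter] at hp ⊢
      tauto)
    exact hn1 (this ▸ inter_subset_right)
  have hd' : ∀ p ∈ L, p ∉ K := fun p hp hk => hd ⟨p, mem_inter.2 ⟨hp, hk⟩⟩
  refine c.no_one (K := L) (hT ht) ⟨fun p hp => ?_, hL.ne, hL.crit, hL.conn, fun p hp q hq => ?_⟩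
  · exact mem_sdiff.2 ⟨hL.mem hp, fun he => hn2 p hp (mem_singleton.1 he ▸ ht)⟩
  · simp only [mem_sdiff, mem_singleton] at hq
    by_cases hq3 : q ∈ T3
    · have hqK : q ∈ K := by
        have := h3 hq3
        simp only [mem_union, mem_singleton] at this
        tauto
      exact h.sep.symm p (mem_sdiff.2 ⟨mem_sdiff.2 ⟨hL.mem hp, hn2 p hp⟩, hd' p hp⟩) q hqK
    · exact hL.sep p hp q (by simp [hq, hq3])

lemma inside (hT : Tri F X T) (h : Hang F (X \ T) K) {T3 L L' : Finset P} (hT3 : Tri F X T3)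
    (h2 : 2 ≤ (T3 ∩ K).card) (hL : HP F X T3 L L') : L ⊆ K ∨ L' ⊆ K := by
  obtain ⟨k, hk⟩ : (T3 ∩ K).Nonempty := card_pos.1 (by omega)
  obtain ⟨j, hj⟩ := hT3.2.2
  have h4 := h.trace (mem_inter.1 hk).2 (hj (mem_inter.1 hk).1)
  obtain ⟨t, ht, h3⟩ : ∃ t ∈ T, T3 ⊆ K ∪ {t} := by
    have h5 : (T3 \ K).card ≤ 1 := by
      have := card_sdiff_add_card_inter T3 K
      have := hT3.2.1
      omega
    rcases (T3 \ K).eq_empty_or_nonempty with he | ⟨t, ht⟩
    · obtain ⟨t, ht⟩ : T.Nonempty := card_pos.1 (by rw [hT.2.1]; omega)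
      exact ⟨t, ht, (sdiff_eq_empty_iff_subset.1 he).trans subset_union_left⟩
    · have ht' := mem_sdiff.1 ht
      refine ⟨t, ?_, fun p hp => ?_⟩
      · have := h4 (mem_inter.2 ⟨hj ht'.1, hT3.1 ht'.1⟩)
        simp only [mem_union] at this
        tauto
      · by_cases hp' : p ∈ K
        · exact mem_union_left _ hp'
        · exact mem_union_right _ (mem_singleton.2
            (card_le_one.1 h5 p (mem_sdiff.2 ⟨hp, hp'⟩) t ht))
  rcases c.inside1 hT.1 h ht h3 hL.h1 with h5 | ⟨x, hx, hxT⟩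
  · exact Or.inl h5
  rcases c.inside1 hT.1 h ht h3 hL.h2 with h6 | ⟨y, hy, hyT⟩
  · exact Or.inr h6
  obtain ⟨i, hi⟩ := hT.2.2
  exact (hL.sep x hx y hy ⟨i, hi hxT, hi hyT⟩).elim

omit c in
/-- a triple meeting a hanging component in one point -/
lemma tri_one (hT : Tri F X T) (h : Hang F (X \ T) K) {T3 : Finset P} (hT3 : Tri F X T3)
    {k : P} (hk : k ∈ K) (hk3 : k ∈ T3) (h1 : (T3 ∩ K).card ≤ 1) :
    ∃ z ∈ T, T3 = insert k (T.erase z) := by
  obtain ⟨j, hj⟩ := hT3.2.2
  have h4 := h.trace hk (hj hk3)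
  have h5 : T3.erase k ⊆ T := fun p hp => by
    have hp' := mem_erase.1 hp
    rcases mem_union.1 (h4 (mem_inter.2 ⟨hj hp'.2, hT3.1 hp'.2⟩)) with h6 | h6
    · exact (hp'.1 (card_le_one.1 h1 p (mem_inter.2 ⟨hp'.2, h6⟩) k
        (mem_inter.2 ⟨hk3, hk⟩))).elim
    · exact h6
  have h6 : (T3.erase k).card = 2 := by rw [card_erase_of_mem hk3, hT3.2.1]
  obtain ⟨z, hz, hz'⟩ := exists_mem_notMem_of_card_lt_card (s := T3.erase k) (t := T)
    (by rw [h6, hT.2.1]; omega)
  refine ⟨z, hz, ?_⟩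
  rw [← insert_erase hk3]
  congr 1
  refine eq_of_subset_of_card_le (fun p hp => mem_erase.2 ⟨fun he => hz' (he ▸ hp), h5 hp⟩) ?_
  rw [card_erase_of_mem hz, hT.2.1, h6]

lemma trace_tri {T3 : Finset P} (hT3 : Tri F X T3) {j : I} (hj : T3 ⊆ F j) : F j ∩ X = T3 :=
  (eq_of_subset_of_card_le (subset_inter hj hT3.1) (by rw [hT3.2.1]; exact c.tr j)).symm

omit c in
lemma tri_of_trace {j : I} (h : (F j ∩ X).card = 3) : Tri F X (F j ∩ X) :=
  ⟨inter_subset_right, h, j, inter_subset_left⟩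

/-- analysis of a bad single point -/
lemma F3 (hT : Tri F X T) (h : HP F X T K K') (hb : Bad F X K) :
    ∃ T3 K3 z, z ∈ T ∧ Tri F X T3 ∧ T3 = K ∪ T.erase z ∧ HP F X T3 K' K3 ∧ ¬ Bad F X K' ∧
      ¬ Bad F X K3 := by
  obtain ⟨v, T3, rfl, hT3, hv3⟩ := hb
  have hv : v ∈ ({v} : Finset P) := mem_singleton_self v
  obtain ⟨z, hz, he⟩ := tri_one hT h.h1 hT3 hv hv3 ((card_le_card inter_subset_right).trans
    (by simp))
  obtain ⟨j, hj⟩ := hT3.2.2
  have hej : T.erase z ⊆ F j := fun p hp => hj (he ▸ mem_insert_of_mem hp)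
  have hzK : ∀ k ∈ K', ¬ Adj F k z := fun k hk => c.F2 hT.1 h hv (hj hv3) hz hej hk
  have hvz : Adj F v z := by
    rcases c.adj_or hT h hz with ⟨k, hk, ha⟩ | ⟨k, hk, ha⟩
    · exact mem_singleton.1 hk ▸ ha
    · exact (hzK k hk ha).elim
  have hvT : v ∉ T := h.h1.notMem hv
  have hvX : v ∈ X := h.h1.mem hv
  have hvK : v ∉ K' := disjoint_left.1 (h.sep.disjoint c.hF) hv
  have hz3 : z ∉ T3 := by
    rw [he]; simp only [mem_insert, mem_erase, not_or]
    exact ⟨fun e => hvT (e ▸ hz), by simp⟩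
  have hK' : Hang F (X \ T3) K' :=
    (h.h2.restrict (W' := (X \ T).erase v) (fun p hp => mem_erase.2
      ⟨fun e => hvK (e ▸ hp), h.h2.sub hp⟩) (erase_subset _ _)).extend (B := {z})
      (fun p hp => by
        rw [he]
        simp only [mem_sdiff, mem_erase, mem_insert] at hp ⊢
        tauto) (fun p hp => by
        rw [he] at hp
        simp only [mem_sdiff, mem_erase, mem_insert, mem_union, mem_singleton] at hp ⊢
        tauto) fun p hp q hq => by rw [mem_singleton.1 hq]; exact hzK p hp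
  obtain ⟨K3, h3⟩ : ∃ K3, HP F X T3 K' K3 := by
    obtain ⟨Ka, Kb, hab⟩ := c.pair T3 hT3
    rcases c.no_three hT3 hab hK' with rfl | rfl
    exacts [⟨_, hab⟩, ⟨_, hab.symm⟩]
  have hall : ∀ x ∈ T, Adj F v x := fun x hx => by
    by_cases hxz : x = z
    · exact hxz ▸ hvz
    · exact ⟨j, hj hv3, hej (mem_erase.2 ⟨hxz, hx⟩)⟩
  refine ⟨T3, K3, z, hz, hT3, by rw [he]; rfl, h3, ?_, ?_⟩
  · rintro ⟨w, T4, rfl, hT4, hw4⟩
    have hw : w ∈ ({w} : Finset P) := mem_singleton_self w
    obtain ⟨z', hz', he'⟩ := tri_one hT h.h2 hT4 hw hw4 ((card_le_card inter_subset_right).trans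
      (by simp))
    obtain ⟨j', hj'⟩ := hT4.2.2
    exact c.F2 hT.1 h.symm hw (hj' hw4) hz' (fun p hp => hj' (he' ▸ mem_insert_of_mem hp)) hv
      (hall z' hz')
  · have hzK3 : z ∈ K3 := by
      by_contra hn
      have hsub : K3 ⊆ (X \ T).erase v := fun p hp => by
        have a1 := h3.h2.sub hp
        have a2 : p ≠ z := fun e => hn (e ▸ hp)
        rw [he] at a1
        simp only [mem_sdiff, mem_erase, mem_insert] at a1 ⊢
        tauto
      have h4 : Hang F (X \ T) K3 := (h3.h2.restrict hsub fun p hp => by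
        rw [he]
        simp only [mem_sdiff, mem_erase, mem_insert] at hp ⊢
        tauto).extend (B := {v}) (erase_subset _ _) (fun p hp => by
          simp only [mem_sdiff, mem_erase, mem_union, mem_singleton] at hp ⊢
          tauto) (h.h1.sep.symm.mono (fun p hp => by
            have := hsub hp
            simp only [mem_sdiff, mem_erase, mem_singleton] at this ⊢
            tauto) subset_rfl)
      rcases c.no_three hT h h4 with e | e
      · exact h3.h2.notMem (e ▸ hv) hv3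
      · exact h3.ne e.symm
    rintro ⟨w, -, rfl, -, -⟩
    obtain rfl : z = w := mem_singleton.1 hzK3
    refine c.nbp ⟨v, z, insert v T, fun e => hvT (e ▸ hz), mem_insert_self _ _,
      mem_insert_of_mem hz, insert_subset hvX hT.1, by rw [card_insert_of_notMem hvT, hT.2.1],
      ?_, hvz, fun i hi => ?_, fun i hvi hzi p hp => ?_⟩
    · obtain ⟨i, hi⟩ := hT.2.2
      have a1 : tau F (insert v T) ≤ tau F {v} + tau F T := tau_le_add c.hF (by rfl)
      have a2 := tau_single c.hF v
      have a3 := tau_le_one hi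
      omega
    · rcases hi with hi | hi
      · exact h.h1.trace hv hi
      · refine (h3.h2.trace hzK3 hi).trans fun p hp => ?_
        rw [he] at hp
        simp only [mem_erase, mem_insert, mem_union, mem_singleton] at hp ⊢
        rcases hp with rfl | hp
        exacts [Or.inr hz, by tauto]
    · by_contra hn
      simp only [mem_insert, mem_singleton, not_or] at hn
      have hpT : p ∈ T := by
        have := h.h1.trace hv hvi hp
        simp only [mem_union, mem_singleton] at this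
        tauto
      obtain ⟨y, hy, hyp, k, hk, ha⟩ := c.nbr hT.1 h.h2 hpT
      have hyz : y ≠ z := fun e => hzK k hk (e ▸ ha)
      refine c.F2 hT.1 h hv hvi hy (fun q hq => ?_) hk ha
      have a1 : ({p, z} : Finset P) = T.erase y := eq_of_subset_of_card_le (fun q hq => by
        simp only [mem_insert, mem_singleton] at hq
        rcases hq with rfl | rfl
        exacts [mem_erase.2 ⟨hyp.symm, hpT⟩, mem_erase.2 ⟨hyz.symm, hz⟩])
        (by rw [card_erase_of_mem hy, hT.2.1, card_pair hn.2])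
      rw [← a1] at hq
      simp only [mem_insert, mem_singleton] at hq
      rcases hq with rfl | rfl
      exacts [(mem_inter.1 hp).1, hzi]

lemma gain_free {v : P} (hv : v ∈ X) (h : ¬ Bad F X {v}) : Gain F X {v} := by
  refine ⟨fun p => if p = v then 2 else 0, fun p => by dsimp only; split_ifs <;> omega,
    fun p hp => by simp [show p ≠ v by simpa using hp], by simp [hv], fun i => ?_⟩
  rw [sum_add_distrib, sum_ite_eq']
  have h1 := c.tr i
  split_ifs with h2
  · have : (F i ∩ X).card ≠ 3 := fun e => h ⟨v, _, rfl, tri_of_trace e, h2⟩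
    simp only [sum_const, nsmul_eq_mul]; omega
  · simp only [sum_const, nsmul_eq_mul]; omega

lemma gain_big (hT : Tri F X T) (h : HP F X T K K') (h3 : 3 ≤ K.card)
    (h1 : ∀ T3, Tri F X T3 → (T3 ∩ K).card ≤ 1) : Gain F X K := by
  obtain ⟨t, ht⟩ : T.Nonempty := card_pos.1 (by rw [hT.2.1]; omega)
  obtain ⟨x, hx, -, k', hk', ha⟩ := c.nbr hT.1 h.h2 ht
  have hxK : x ∉ K := fun e => h.h1.notMem e hx
  have key : ∀ A : Finset P, ∑ p ∈ A, ((if p ∈ K then 1 else 0) - if p = x then 1 else 0 : ℤ) =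
      (A ∩ K).card - if x ∈ A then 1 else 0 := fun A => by
    rw [sum_sub_distrib, sum_ite_eq', ← sum_filter, filter_mem_eq_inter]; simp
  refine ⟨fun p => (if p ∈ K then 1 else 0) - if p = x then 1 else 0,
    fun p => by dsimp only; split_ifs <;> omega,
    fun p hp => by dsimp only; rw [if_neg hp]; split_ifs <;> omega, ?_,
    fun i => ?_⟩
  · rw [key, inter_eq_right.2 fun p hp => h.h1.mem hp]
    split_ifs <;> omega
  · rw [sum_add_distrib, key]
    simp only [sum_const, nsmul_eq_mul]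
    have a1 := c.tr i
    have a2 : (F i ∩ X ∩ K).card ≤ (F i ∩ X).card := card_le_card inter_subset_left
    by_cases a3 : (F i ∩ X).card = 3
    · have a4 := h1 _ (tri_of_trace a3)
      rcases (F i ∩ X ∩ K).eq_empty_or_nonempty with e | ⟨k, hk⟩
      · rw [e]; split_ifs <;> simp <;> omega
      · obtain ⟨z, hz, he⟩ := tri_one hT h.h1 (tri_of_trace a3) (mem_inter.1 hk).2
          (mem_inter.1 hk).1 a4
        have hxz : x ≠ z := fun e => c.F2 hT.1 h (j := i) (mem_inter.1 hk).2
          (mem_inter.1 (mem_inter.1 hk).1).1 hz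
          (fun p hp => (mem_inter.1 (he ▸ mem_insert_of_mem hp : p ∈ F i ∩ X)).1) hk' (e ▸ ha)
        rw [if_pos (he ▸ mem_insert_of_mem (mem_erase.2 ⟨hxz, hx⟩) : x ∈ F i ∩ X)]
        omega
    · split_ifs <;> omega

lemma descent (n : ℕ) : ∀ T K K', K.card = n → Tri F X T → HP F X T K K' →
    Gain F X K ∨ Bad F X K := by
  induction n using Nat.strong_induction_on with
  | _ n ih =>
  intro T K K' hn hT h
  by_cases h1 : ∀ T3, Tri F X T3 → (T3 ∩ K).card ≤ 1
  · by_cases h3 : 3 ≤ K.card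
    · exact Or.inl (c.gain_big hT h h3 h1)
    · have a1 := h.c1
      have a2 := card_pos.2 h.h1.ne
      obtain ⟨v, rfl⟩ := card_eq_one.1 (show K.card = 1 by omega)
      exact or_iff_not_imp_right.2 (c.gain_free (h.h1.mem (mem_singleton_self v)))
  left
  push Not at h1
  have small : ∀ T3 L L', Tri F X T3 → 1 < (T3 ∩ K).card → HP F X T3 L L' → L ⊆ K →
      Gain F X L ∨ Bad F X L := fun T3 L L' hT3 h2 hL hLK => by
    obtain ⟨k, hk⟩ : (T3 ∩ K).Nonempty := card_pos.1 (by omega)
    refine ih _ (hn ▸ card_lt_card ⟨hLK, fun hs => ?_⟩) T3 L L' rfl hT3 hL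
    exact hL.h1.notMem (hs (mem_inter.1 hk).2) (mem_inter.1 hk).1
  obtain ⟨T3, hT3, h2⟩ := h1
  obtain ⟨L, L', hL, hLK⟩ : ∃ L L', HP F X T3 L L' ∧ L ⊆ K := by
    obtain ⟨L, L', hL⟩ := c.pair T3 hT3
    rcases c.inside hT h.h1 hT3 h2 hL with e | e
    exacts [⟨_, _, hL, e⟩, ⟨_, _, hL.symm, e⟩]
  rcases small T3 L L' hT3 h2 hL hLK with hg | hb
  · exact hg.mono hLK
  obtain ⟨T4, K3, z, hz, hT4, he, h4, b1, b2⟩ := c.F3 hT3 hL hb
  have h5 : 1 < (T4 ∩ K).card := by
    obtain ⟨v, hv⟩ := hL.h1.ne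
    obtain ⟨w, hw, hwz⟩ := exists_mem_ne h2 z
    refine one_lt_card.2 ⟨v, ?_, w, ?_, fun e => hL.h1.notMem hv (e ▸ (mem_inter.1 hw).1)⟩
    · exact mem_inter.2 ⟨he ▸ mem_union_left _ hv, hLK hv⟩
    · exact mem_inter.2 ⟨he ▸ mem_union_right _ (mem_erase.2 ⟨hwz, (mem_inter.1 hw).1⟩),
        (mem_inter.1 hw).2⟩
  rcases c.inside hT h.h1 hT4 h5 h4 with e | e
  · exact ((small T4 _ _ hT4 h5 h4 e).resolve_right b1).mono e
  · exact ((small T4 _ _ hT4 h5 h4.symm e).resolve_right b2).mono e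

lemma two_gains (hT : Tri F X T) : ∃ K K', Sep F K K' ∧ Gain F X K ∧ Gain F X K' := by
  have key : ∀ K K', HP F X T K K' → Bad F X K → ∃ K K', Sep F K K' ∧ Gain F X K ∧ Gain F X K' :=
    fun K K' h hb => by
      obtain ⟨T4, K3, z, -, hT4, -, h4, b1, b2⟩ := c.F3 hT h hb
      exact ⟨_, _, h4.sep, (c.descent _ _ _ _ rfl hT4 h4).resolve_right b1,
        (c.descent _ _ _ _ rfl hT4 h4.symm).resolve_right b2⟩
  obtain ⟨K, K', h⟩ := c.pair T hT
  rcases c.descent _ _ _ _ rfl hT h with g1 | b1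
  · rcases c.descent _ _ _ _ rfl hT h.symm with g2 | b2
    exacts [⟨_, _, h.sep, g1, g2⟩, key _ _ h.symm b2]
  · exact key _ _ h b1

omit c in
lemma count_of_gains {r : ℕ} (hr : ∀ p, r ≤ (univ.filter fun i => p ∈ F i).card)
    (hs : Sep F K K') (g1 : Gain F X K) (g2 : Gain F X K') :
    (r : ℤ) * (2 * X.card + 4) ≤ 6 * NN F X := by
  obtain ⟨g, a1, a2, a3, a4⟩ := g1
  obtain ⟨g', b1, b2, b3, b4⟩ := g2
  have := weight_count hr X (fun p => 2 + g p + g' p)
    (fun p => by have := a1 p; have := b1 p; omega) 6 fun i => by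
      by_cases hi : ∃ k ∈ K', k ∈ F i
      · obtain ⟨k, hk, hki⟩ := hi
        refine le_trans (sum_le_sum fun p hp => ?_) (b4 i)
        have := a2 p fun hp' => hs p hp' k hk ⟨i, (mem_inter.1 hp).1, hki⟩
        omega
      · refine le_trans (sum_le_sum fun p hp => ?_) (a4 i)
        have := b2 p fun hp' => hi ⟨p, hp', (mem_inter.1 hp).1⟩
        omega
  refine le_trans (mul_le_mul_of_nonneg_left ?_ (by positivity)) this
  simp only [sum_add_distrib, sum_const, nsmul_eq_mul]
  omega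

end Ctx

end Pool.Agent.Lib.MP_0828a1_co
end

-- part Pool.Agent.Lib.MP_0828a1_co.Main
section

/-! The main covering inequality. -/

open Finset

namespace Pool.Agent.Lib.MP_0828a1_co

variable {I P : Type*} [Fintype I] [DecidableEq P] {F : I → Finset P}

lemma NN_ge_filter (X : Finset P) (p : P) (hp : p ∈ X) :
    (univ.filter fun i => p ∈ F i).card ≤ NN F X := by
  classical
  exact card_le_card fun i hi => mem_filter.2 ⟨mem_univ _, p,
    mem_inter.2 ⟨(mem_filter.1 hi).2, hp⟩⟩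

theorem cover_bound {r : ℕ} (hr0 : 0 < r) (hr : ∀ p, r ≤ (univ.filter fun i => p ∈ F i).card)
    {a b : ℝ} (ha : 0 ≤ a) (h3a : 3 * a ≤ r) (h1b : a + b ≤ r) (hab : a ≤ b)
    (hρ : 3 * a + b ≤ ((3 * r + 1) / 2 : ℕ)) (h4 : 4 * a ≤ 2 * b + 1) (X : Finset P) :
    a * X.card + b * del F X ≤ NN F X := by
  classical
  have hF : ∀ p, ∃ i, p ∈ F i := fun p => by
    obtain ⟨i, hi⟩ := card_pos.1 (hr0.trans_le (hr p))
    exact ⟨i, (mem_filter.1 hi).2⟩
  have hb : 0 ≤ b := ha.trans hab
  induction X using Finset.strongInductionOn with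
  | _ X ih =>
  by_contra hX
  push Not at hX
  /- removing a set `B` of points -/
  have rem : ∀ (B : Finset P) (E : Finset I) (t : ℕ), B ⊆ X → B.Nonempty → tau F B ≤ t →
      (∀ i ∈ E, (F i ∩ X).Nonempty ∧ F i ∩ X ⊆ B) →
      a * (X.card - B.card) + b * (del F X + B.card - 2 * t) + E.card ≤ NN F X := by
    intro B E t hB hne ht hE
    have h1 := ih (X \ B) (sdiff_ssubset hB hne)
    have h2 : (NN F (X \ B) : ℝ) + E.card ≤ NN F X := by exact_mod_cast NN_remove E hE
    have h3 : ((X \ B).card : ℝ) + B.card = X.card := by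
      exact_mod_cast card_sdiff_add_card_eq_card hB
    have h5 : (del F X : ℝ) + B.card - 2 * t ≤ del F (X \ B) := by
      have := del_remove hF hB
      have h6 : del F X + B.card - 2 * t ≤ del F (X \ B) := by omega
      exact_mod_cast h6
    have := mul_le_mul_of_nonneg_left h5 hb
    rw [← h3]; linarith
  have tr : ∀ i, (F i ∩ X).card ≤ 3 := fun i => by
    by_contra hn
    have h1 : (4 : ℝ) ≤ (F i ∩ X).card := by exact_mod_cast (show 4 ≤ (F i ∩ X).card by omega)
    have hne : (F i ∩ X).Nonempty := card_pos.1 (by omega)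
    have := rem (F i ∩ X) {i} 1 inter_subset_right hne (tau_le_one inter_subset_left)
      (by simpa using hne)
    simp only [card_singleton, Nat.cast_one] at this
    nlinarith
  have triv : ∀ Z ⊆ X, a * Z.card ≤ NN F Z := fun Z hZ => by
    have := weight_count hr Z (fun _ => 1) (by simp) 3 fun i => by
      have : (F i ∩ Z).card ≤ (F i ∩ X).card := card_le_card (inter_subset_inter subset_rfl hZ)
      have := tr i
      simp only [sum_const, nsmul_eq_mul]; omega
    simp only [sum_const, nsmul_eq_mul, mul_one] at this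
    have h2 : (r : ℝ) * Z.card ≤ 3 * NN F Z := by exact_mod_cast this
    have h3 : (0 : ℝ) ≤ Z.card := by positivity
    nlinarith
  have cnt : ∀ (W : Finset P) (Y : Finset (Finset P)), W ⊆ X → X ∉ Y →
      (∀ K ∈ Y, Hang F W K ∧ del F K = 1) → a * W.card + b * Y.card ≤ NN F W :=
    fun W Y hW hXY hY => comps_count hF Y W (fun Z hZ => triv Z (hZ.trans hW)) fun K hK => by
      refine ⟨(hY K hK).1, ?_⟩
      have := ih K (ssubset_of_subset_of_ne ((hY K hK).1.sub.trans hW) fun e => hXY (e ▸ hK))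
      rw [(hY K hK).2] at this
      simpa using this
  have mono : ∀ B, (NN F (X \ B) : ℝ) ≤ NN F X := fun B => by
    exact_mod_cast NN_remove (X := X) (B := B) ∅ (by simp)
  obtain ⟨hc, hn, hd⟩ : Crit F X ∧ Conn F X ∧ del F X = 1 := by
    obtain ⟨S, hS, Y, hY, hcard⟩ := struct hF X
    by_cases hXY : X ∈ Y
    · exact ⟨(hY X hXY).1.crit, (hY X hXY).1.conn, (hY X hXY).2⟩
    exfalso
    have h1 := cnt _ Y sdiff_subset hXY hY
    have h2 := mono S
    have h3 : ((X \ S).card : ℝ) + S.card = X.card := by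
      exact_mod_cast card_sdiff_add_card_eq_card hS
    have h5 : (del F X : ℝ) + S.card ≤ Y.card := by exact_mod_cast hcard
    have h6 := mul_le_mul_of_nonneg_left h5 hb
    have h7 : (0 : ℝ) ≤ S.card := by positivity
    rw [← h3] at hX
    nlinarith
  rw [hd] at hX
  simp only [Int.cast_one, mul_one] at hX
  have c : Ctx F X := by
    refine ⟨hF, tr, hc, hn, fun T hT => ?_, ?_⟩
    · obtain ⟨S, hS, Y, hY, hcard⟩ := struct hF (X \ T)
      obtain ⟨i, hi⟩ := hT.2.2
      obtain ⟨t, ht⟩ : T.Nonempty := card_pos.1 (by rw [hT.2.1]; omega)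
      have h0 := del_remove hF hT.1
      have h0' := tau_le_one hi
      rw [hT.2.1] at h0
      by_cases hS0 : S = ∅
      · subst hS0
        obtain ⟨K, hK, K', hK', hne⟩ := one_lt_card.1 (show 1 < Y.card by
          simp only [card_empty] at hcard; omega)
        rw [sdiff_empty] at hY
        have odd : ∀ K ∈ Y, K.card ≠ 2 := fun K hK => by
          have := (hY K hK).2
          unfold del at this
          omega
        exact ⟨K, K', hne, (hY K hK).1, (hY K' hK').1, odd K hK, odd K' hK'⟩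
      exfalso
      have h1 := cnt _ Y (sdiff_subset.trans sdiff_subset) (fun hXY =>
        (mem_sdiff.1 (mem_sdiff.1 ((hY X hXY).1.sub (hT.1 ht))).1).2 ht) hY
      have h2 : (NN F ((X \ T) \ S) : ℝ) + 1 ≤ NN F X := by
        have := NN_remove (X := X) (B := T) {i} (by
          simp only [mem_singleton, forall_eq]
          refine ⟨⟨t, mem_inter.2 ⟨hi ht, hT.1 ht⟩⟩, ?_⟩
          exact (eq_of_subset_of_card_le (subset_inter hi hT.1)
            (by rw [hT.2.1]; exact tr i)).ge)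
        have := NN_remove (F := F) (X := X \ T) (B := S) ∅ (by simp)
        simp only [card_singleton, card_empty] at *
        exact_mod_cast (show NN F ((X \ T) \ S) + 1 ≤ NN F X by omega)
      have h3 : (((X \ T) \ S).card : ℝ) + S.card + 3 = X.card := by
        have a1 := card_sdiff_add_card_eq_card hS
        have a2 := card_sdiff_add_card_eq_card hT.1
        rw [hT.2.1] at a2
        exact_mod_cast (show ((X \ T) \ S).card + S.card + 3 = X.card by omega)
      have h5 : (2 : ℝ) + S.card ≤ Y.card := by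
        exact_mod_cast (show (2 : ℤ) + S.card ≤ Y.card by omega)
      have h6 := mul_le_mul_of_nonneg_left h5 hb
      have h7 : (1 : ℝ) ≤ S.card := by
        exact_mod_cast card_pos.2 (nonempty_iff_ne_empty.2 hS0)
      rw [← h3] at hX
      nlinarith
    · rintro ⟨v, z, Q, hvz, hv, hz, hQ, hQ4, hQt, ⟨j, hvj, hzj⟩, b1, b2⟩
      set A := univ.filter fun i => v ∈ F i
      set B := univ.filter fun i => z ∈ F i
      have hs : ({v, z} : Finset P) ⊆ Q := insert_subset hv (by simpa using hz)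
      have h1 := rem {v, z} (A ∩ B) 1 (hs.trans hQ) (by simp)
        (tau_le_one (i := j) (insert_subset hvj (by simpa using hzj))) fun i hi => by
          have a1 := (mem_filter.1 (mem_inter.1 hi).1).2
          have a2 := (mem_filter.1 (mem_inter.1 hi).2).2
          exact ⟨⟨v, mem_inter.2 ⟨a1, hQ hv⟩⟩, b2 i a1 a2⟩
      have h2 := rem Q (A ∪ B) 2 hQ ⟨v, hv⟩ hQt fun i hi => by
        rcases mem_union.1 hi with a1 | a1
        · exact ⟨⟨v, mem_inter.2 ⟨(mem_filter.1 a1).2, hQ hv⟩⟩, b1 i (Or.inl (mem_filter.1 a1).2)⟩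
        · exact ⟨⟨z, mem_inter.2 ⟨(mem_filter.1 a1).2, hQ hz⟩⟩, b1 i (Or.inr (mem_filter.1 a1).2)⟩
      have h3 : 2 * (r : ℝ) ≤ (A ∪ B).card + (A ∩ B).card := by
        have := card_union_add_card_inter A B
        have a1 : r ≤ A.card := hr v
        have a2 : r ≤ B.card := hr z
        exact_mod_cast (show 2 * r ≤ (A ∪ B).card + (A ∩ B).card by omega)
      rw [card_pair hvz, hd] at h1
      rw [hQ4, hd] at h2
      push_cast at h1 h2
      linarith
  have h0 : (0 : ℝ) ≤ X.card := by positivity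
  by_cases hT : ∃ T, Tri F X T
  · obtain ⟨T, hT⟩ := hT
    obtain ⟨K, K', hs, g1, g2⟩ := c.two_gains hT
    have h1 : (r : ℝ) * (2 * X.card + 4) ≤ 6 * NN F X := by
      exact_mod_cast Ctx.count_of_gains hr hs g1 g2
    have h2 : 5 ≤ X.card := by
      have a1 := card_le_card hT.1
      obtain ⟨i, hi⟩ := hT.2.2
      have a2 : X.card ≠ 3 := fun e => by
        have := tau_le_one (X := X) (i := i)
          ((eq_of_subset_of_card_le hT.1 (by rw [e, hT.2.1])) ▸ hi)
        unfold del at hd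
        omega
      rw [hT.2.1] at a1
      unfold del at hd
      omega
    have h3 : (5 : ℝ) ≤ X.card := by exact_mod_cast h2
    nlinarith
  have h1 := weight_count hr X (fun _ => 1) (by simp) 2 fun i => by
    have := tr i
    have : (F i ∩ X).card ≠ 3 := fun e => hT ⟨_, Ctx.tri_of_trace e⟩
    simp only [sum_const, nsmul_eq_mul]; omega
  simp only [sum_const, nsmul_eq_mul, mul_one] at h1
  unfold del at hd
  rcases (show X.card = 1 ∨ X.card = 3 ∨ 5 ≤ X.card by omega) with e | e | e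
  · obtain ⟨v, rfl⟩ := card_eq_one.1 e
    have h2 : (r : ℝ) ≤ NN F {v} := by
      exact_mod_cast (hr v).trans (NN_ge_filter {v} v (mem_singleton_self v))
    simp only [card_singleton, Nat.cast_one] at hX
    linarith
  · rw [e] at h1 hX
    have h2 : (((3 * r + 1) / 2 : ℕ) : ℝ) ≤ NN F X := by
      exact_mod_cast (show (3 * r + 1) / 2 ≤ NN F X by push_cast at h1; omega)
    push_cast at hX
    linarith
  · have h2 : (r : ℝ) * X.card ≤ 2 * NN F X := by exact_mod_cast h1
    have h3 : (5 : ℝ) ≤ X.card := by exact_mod_cast e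
    have h5 : (0 : ℝ) ≤ r := by positivity
    nlinarith

end Pool.Agent.Lib.MP_0828a1_co
end

-- part Pool.Agent.Lib.MP_0828a1_co.Dom
section

/-! From the covering inequality to domination in uniform hypergraphs; the two examples. -/

open Finset

namespace Pool.Agent.Lib.MP_0828a1_co

lemma domNumber_le {n : ℕ} {E : Finset (Finset (Fin n))} {D : Finset (Fin n)}
    (h : Dominating E D) : domNumber E ≤ D.card := Nat.sInf_le ⟨D, rfl, h⟩

lemma exists_dom {n : ℕ} (E : Finset (Finset (Fin n))) :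
    ∃ D : Finset (Fin n), D.card = domNumber E ∧ Dominating E D :=
  Nat.sInf_mem (s := {c | ∃ D : Finset (Fin n), D.card = c ∧ Dominating E D})
    ⟨_, univ, rfl, fun v hv => (hv (mem_univ v)).elim⟩

lemma card_le_mul {k n : ℕ} {E : Finset (Finset (Fin n))} (h : UniformNoIsolated k E) :
    n ≤ k * E.card := by
  have h1 : (univ : Finset (Fin n)) ⊆ E.biUnion id := fun v _ => by
    obtain ⟨e, he, hv⟩ := h.2 v
    exact mem_biUnion.2 ⟨e, he, hv⟩
  have h2 := (card_le_card h1).trans (card_biUnion_le_card_mul E id k fun e he => (h.1 e he).le)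
  simpa [mul_comm] using h2

theorem dom_bound {r n : ℕ} (hr0 : 0 < r) {E : Finset (Finset (Fin n))}
    (h : UniformNoIsolated (r + 1) E) {a b : ℝ} (ha : 0 ≤ a) (h3a : 3 * a ≤ r) (h1b : a + b ≤ r)
    (hab : a + 1 ≤ b) (hρ : 3 * a + b ≤ ((3 * r + 1) / 2 : ℕ)) (h4 : 4 * a ≤ 2 * b + 1) :
    2 * b * domNumber E ≤ n + (b - a - 1) * E.card := by
  classical
  obtain ⟨G, hG, hmin⟩ := exists_min_image (E.powerset.filter fun G => ∀ v, ∃ e ∈ G, v ∈ e)
    card ⟨E, by simpa using h.2⟩
  simp only [mem_filter, mem_powerset] at hG hmin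
  have hpriv : ∀ e : G, ∃ v, v ∈ e.1 ∧ ∀ e' : G, v ∈ e'.1 → e' = e := fun e => by
    by_contra hn
    push Not at hn
    have := hmin (G.erase e) ⟨(erase_subset _ _).trans hG.1, fun v => by
      obtain ⟨f, hf, hv⟩ := hG.2 v
      by_cases hfe : f = e
      · obtain ⟨e', h1, h2⟩ := hn v (hfe ▸ hv)
        exact ⟨e', mem_erase.2 ⟨fun he => h2 (Subtype.ext he), e'.2⟩, h1⟩
      · exact ⟨f, mem_erase.2 ⟨hfe, hf⟩, hv⟩⟩
    have h2 := card_erase_add_one e.2
    omega
  choose priv hp1 hp2 using hpriv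
  set F : Fin n → Finset G := fun v => univ.filter fun e => v ∈ e.1 ∧ v ≠ priv e with hFdef
  have hr : ∀ e : G, r ≤ (univ.filter fun v => e ∈ F v).card := fun e => by
    have : (univ.filter fun v => e ∈ F v) = e.1.erase (priv e) := by
      ext v; simp [hFdef, and_comm]
    rw [this, card_erase_of_mem (hp1 e), h.1 e (hG.1 e.2)]; omega
  have hF : ∀ p, ∃ i, p ∈ F i := fun p => by
    obtain ⟨i, hi⟩ := card_pos.1 (hr0.trans_le (hr p))
    exact ⟨i, (mem_filter.1 hi).2⟩
  have h1 := cover_bound hr0 hr ha h3a h1b (by linarith) hρ h4 univ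
  have h2 : domNumber E ≤ tau F univ := by
    obtain ⟨C, hC, hc⟩ := exists_opt hF (univ : Finset G)
    refine hC ▸ domNumber_le fun v hv => ?_
    obtain ⟨e, he, hve⟩ := hG.2 v
    obtain ⟨u, hu, hue⟩ := hc ⟨e, he⟩ (mem_univ _)
    exact ⟨u, hu, fun huv => hv (huv ▸ hu), e, hG.1 he, (mem_filter.1 hue).2.1, hve⟩
  have h3 : NN F univ + G.card ≤ n := by
    have hinj : Function.Injective priv := fun e e' he => hp2 e' e (he ▸ hp1 e)
    have hc : (univ.image priv).card = G.card := by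
      rw [card_image_of_injective _ hinj]; simp
    have hd : Disjoint (univ.filter fun i => (F i ∩ univ).Nonempty) (univ.image priv) :=
      disjoint_left.2 fun v hv hv' => by
        obtain ⟨e, he⟩ := (mem_filter.1 hv).2
        obtain ⟨e', -, rfl⟩ := mem_image.1 hv'
        have := (mem_filter.1 (mem_inter.1 he).1).2
        exact this.2 (by rw [hp2 e' e this.1])
    have := card_le_univ ((univ.filter fun i => (F i ∩ univ).Nonempty) ∪ univ.image priv)
    rw [card_union_of_disjoint hd, hc, Fintype.card_fin] at this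
    unfold NN
    convert this
  have h5 : (G.card : ℝ) ≤ E.card := by exact_mod_cast card_le_card hG.1
  have h6 : (domNumber E : ℝ) ≤ tau F univ := by exact_mod_cast h2
  have h7 : (NN F univ : ℝ) + G.card ≤ n := by exact_mod_cast h3
  simp only [del, card_univ, Fintype.card_coe] at h1
  push_cast at h1
  have h8 := mul_le_mul_of_nonneg_left h5 (show 0 ≤ b - a - 1 by linarith)
  have h9 := mul_le_mul_of_nonneg_left h6 (show 0 ≤ 2 * b by linarith)
  nlinarith

lemma domNumber_pos {n : ℕ} (hn : 0 < n) (E : Finset (Finset (Fin n))) : 0 < domNumber E := by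
  obtain ⟨D, hD, hd⟩ := exists_dom E
  rw [← hD, card_pos]
  by_contra hne
  rw [not_nonempty_iff_eq_empty] at hne
  obtain ⟨u, hu, -⟩ := hd ⟨0, hn⟩ (by simp [hne])
  simp [hne] at hu

lemma ex_single (k : ℕ) (hk : 0 < k) : ∃ E : Finset (Finset (Fin k)),
    UniformNoIsolated k E ∧ E.card = 1 ∧ 1 ≤ domNumber E :=
  ⟨{univ}, ⟨by simp, by simp⟩, by simp, domNumber_pos hk _⟩

lemma ex_triangle (r ρ : ℕ) (h1 : 3 * r ≤ 2 * ρ) (h2 : r ≤ ρ) (h3 : ρ ≤ 2 * r) :
    ∃ E : Finset (Finset (Fin (ρ + 3))),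
      UniformNoIsolated (r + 1) E ∧ E.card = 3 ∧ 2 ≤ domNumber E := by
  set s1 : Finset ℕ := insert ρ (Ico 0 r) with hs1
  set s2 : Finset ℕ := insert (ρ + 1) (Ico r ρ ∪ Ico 0 (2 * r - ρ)) with hs2
  set s3 : Finset ℕ := insert (ρ + 2) (Ico (2 * r - ρ) (3 * r - ρ)) with hs3
  have m1 : ∀ v, v ∈ s1 ↔ v = ρ ∨ v < r := fun v => by simp [hs1]
  have m2 : ∀ v, v ∈ s2 ↔ v = ρ + 1 ∨ (r ≤ v ∧ v < ρ) ∨ v < 2 * r - ρ := fun v => by simp [hs2]
  have m3 : ∀ v, v ∈ s3 ↔ v = ρ + 2 ∨ (2 * r - ρ ≤ v ∧ v < 3 * r - ρ) := fun v => by simp [hs3]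
  have b1 : ∀ v ∈ s1, v < ρ + 3 := fun v hv => by rw [m1] at hv; omega
  have b2 : ∀ v ∈ s2, v < ρ + 3 := fun v hv => by rw [m2] at hv; omega
  have b3 : ∀ v ∈ s3, v < ρ + 3 := fun v hv => by rw [m3] at hv; omega
  have c1 : s1.card = r + 1 := by
    rw [hs1, card_insert_of_notMem (by simp; omega)]; simp
  have c2 : s2.card = r + 1 := by
    rw [hs2, card_insert_of_notMem (by simp; omega), card_union_of_disjoint
      (disjoint_left.2 fun v hv hv' => by simp at hv hv'; omega)]
    simp; omega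
  have c3 : s3.card = r + 1 := by
    rw [hs3, card_insert_of_notMem (by simp; omega)]; simp; omega
  have ne : ∀ {s t : Finset ℕ} {hs : ∀ v ∈ s, v < ρ + 3} {ht : ∀ v ∈ t, v < ρ + 3} (v : ℕ),
      v ∈ s → v ∉ t → s.attachFin hs ≠ t.attachFin ht := fun {s t hs ht} v h4 h5 he => by
    have : (⟨v, hs v h4⟩ : Fin (ρ + 3)) ∈ s.attachFin hs := (mem_attachFin _).2 h4
    rw [he, mem_attachFin] at this
    exact h5 this
  refine ⟨{s1.attachFin b1, s2.attachFin b2, s3.attachFin b3}, ⟨fun e he => ?_, fun v => ?_⟩,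
    ?_, ?_⟩
  · simp only [mem_insert, mem_singleton] at he
    rcases he with rfl | rfl | rfl <;> rw [card_attachFin] <;> assumption
  · simp only [mem_insert, mem_singleton, exists_eq_or_imp, exists_eq_left, mem_attachFin,
      m1, m2, m3]
    have := v.2
    omega
  · rw [card_eq_three]
    exact ⟨_, _, _, ne ρ ((m1 _).2 (by omega)) (by rw [m2]; omega),
      ne ρ ((m1 _).2 (by omega)) (by rw [m3]; omega),
      ne (ρ + 1) ((m2 _).2 (by omega)) (by rw [m3]; omega), rfl⟩
  · obtain ⟨D, hD, hd⟩ := exists_dom {s1.attachFin b1, s2.attachFin b2, s3.attachFin b3}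
    rw [← hD]
    by_contra hn
    have hD1 : D.card ≤ 1 := by omega
    have key : ∀ v : Fin (ρ + 3), ∃ u ∈ D, u = v ∨ (u.1 ∈ s1 ∧ v.1 ∈ s1) ∨ (u.1 ∈ s2 ∧ v.1 ∈ s2) ∨
        (u.1 ∈ s3 ∧ v.1 ∈ s3) := fun v => by
      by_cases hv : v ∈ D
      · exact ⟨v, hv, Or.inl rfl⟩
      · obtain ⟨u, hu, -, e, he, h4⟩ := hd v hv
        refine ⟨u, hu, Or.inr ?_⟩
        simp only [mem_insert, mem_singleton] at he
        rcases he with rfl | rfl | rfl <;> simp only [mem_attachFin] at h4 <;> tauto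
    obtain ⟨u1, hu1, k1⟩ := key ⟨ρ, by omega⟩
    obtain ⟨u2, hu2, k2⟩ := key ⟨ρ + 1, by omega⟩
    obtain ⟨u3, hu3, k3⟩ := key ⟨ρ + 2, by omega⟩
    obtain rfl := card_le_one.1 hD1 u1 hu1 u2 hu2
    obtain rfl := card_le_one.1 hD1 u1 hu1 u3 hu3
    simp only [m1, m2, m3, Fin.ext_iff] at k1 k2 k3
    omega

end Pool.Agent.Lib.MP_0828a1_co
end
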