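import Pool.Agent.Lib.MP_0828a1_co.Dom

/-! Set systems with sets of size at most three: `6 τ ≤ 6 W + m` for every fractional cover of
weight `W`. -/

open Finset

namespace Pool.Agent.Lib.MP_0828a1_co

variable {I P : Type*} [Fintype I] [DecidableEq P]

/-- weight of the sets containing a point -/
noncomputable def cov (F : I → Finset P) (w : I → ℝ) (p : P) : ℝ := ∑ i with p ∈ F i, w i

lemma lp_step {ι : Type*} (J : Finset ι) (a b : ι → ℝ) (ha : ∀ j ∈ J, 0 ≤ a j)
    (hb : ∀ j ∈ J, a j = 0 → b j = 0) (hn : ∃ j ∈ J, b j < 0) :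
    ∃ l, 0 ≤ l ∧ (∀ j ∈ J, 0 ≤ a j + l * b j) ∧
      #(J.filter fun j => a j + l * b j ≠ 0) < #(J.filter fun j => a j ≠ 0) := by
  obtain ⟨j, hj, hm⟩ := exists_min_image (J.filter fun j => b j < 0) (fun j => a j / -b j)
    (let ⟨j, h1, h2⟩ := hn; ⟨j, mem_filter.2 ⟨h1, h2⟩⟩)
  obtain ⟨hJ, hb0⟩ := mem_filter.1 hj
  have l0 : 0 ≤ a j / -b j := div_nonneg (ha j hJ) (by linarith)
  refine ⟨_, l0, fun i hi => ?_, card_lt_card ⟨fun i hi => ?_, fun h => ?_⟩⟩
  · rcases lt_or_ge (b i) 0 with h | h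
    · have := hm i (mem_filter.2 ⟨hi, h⟩)
      rw [le_div_iff₀ (by linarith)] at this
      linarith
    · have := ha i hi
      positivity
  · obtain ⟨h1, h2⟩ := mem_filter.1 hi
    exact mem_filter.2 ⟨h1, fun e => h2 (by rw [e, hb i h1 e]; simp)⟩
  · refine (mem_filter.1 (h (mem_filter.2 ⟨hJ, fun e => hb0.ne (hb j hJ e)⟩))).2 ?_
    have := hb0.ne
    field_simp
    ring

lemma lp_vertex (F : I → Finset P) (X : Finset P) (n : ℕ) : ∀ w : I → ℝ,
    #((univ.disjSum X).filter fun j => Sum.elim w (fun p => cov F w p - 1) j ≠ 0) = n →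
    (∀ i, 0 ≤ w i) → (∀ p ∈ X, 1 ≤ cov F w p) →
    ∃ u : I → ℝ, (∀ i, 0 ≤ u i) ∧ (∀ p ∈ X, 1 ≤ cov F u p) ∧ ∑ i, u i ≤ ∑ i, w i ∧
      #(univ.filter fun i => u i ≠ 0) ≤ #(X.filter fun p => cov F u p = 1) := by
  classical
  induction n using Nat.strong_induction_on with
  | _ n ih =>
  intro w hn w0 hw
  by_cases h : #(univ.filter fun i => w i ≠ 0) ≤ #(X.filter fun p => cov F w p = 1)
  · exact ⟨w, w0, hw, le_rfl, h⟩
  obtain ⟨z, z1, z2, z3⟩ : ∃ z : I → ℝ, (∀ i, w i = 0 → z i = 0) ∧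
      (∀ p ∈ X, cov F w p = 1 → cov F z p = 0) ∧ ∃ i, z i ≠ 0 := by
    have : ¬ LinearIndependent ℝ fun (i : univ.filter fun i => w i ≠ 0)
        (p : X.filter fun p => cov F w p = 1) => if p.1 ∈ F i then (1 : ℝ) else 0 := fun li =>
      h (by simpa only [Fintype.card_coe, Module.finrank_fintype_fun_eq_card] using
        li.fintype_card_le_finrank)
    obtain ⟨g, g1, i, g2⟩ := Fintype.not_linearIndependent_iff.1 this
    refine ⟨fun i => if h : i ∈ univ.filter fun i => w i ≠ 0 then g ⟨i, h⟩ else 0,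
      fun i e => dif_neg (by simpa using e), fun p hp e => ?_, i, by simpa [i.2] using g2⟩
    have := congrFun g1 ⟨p, mem_filter.2 ⟨hp, e⟩⟩
    simp only [Finset.sum_apply, Pi.smul_apply, smul_eq_mul, mul_ite, mul_one, mul_zero,
      Pi.zero_apply] at this
    refine Eq.trans ?_ this
    rw [cov, sum_filter, ← sum_subset (subset_univ (univ.filter fun i => w i ≠ 0))
      fun i _ hi => by rw [dif_neg hi]; simp, ← sum_attach, attach_eq_univ]
    exact sum_congr rfl fun i _ => by rw [dif_pos i.2]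
  wlog hz : ∑ i, z i ≤ 0 generalizing z
  · refine this (-z) (fun i e => by simp [z1 i e]) (fun p hp e => ?_) (by simpa using z3) ?_
    · have := z2 p hp e
      simp only [cov, Pi.neg_apply, sum_neg_distrib] at this ⊢
      rw [this, neg_zero]
    · simp only [Pi.neg_apply, sum_neg_distrib]
      linarith
  have z4 : ∃ i, z i < 0 := by
    by_contra hc
    push Not at hc
    obtain ⟨i, hi⟩ := z3
    exact hi ((sum_eq_zero_iff_of_nonneg fun i _ => hc i).1
      (hz.antisymm (sum_nonneg fun i _ => hc i)) i (mem_univ _))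
  obtain ⟨l, l0, l1, l2⟩ := lp_step (univ.disjSum X) (Sum.elim w fun p => cov F w p - 1)
    (Sum.elim z (cov F z))
    (by rintro (i | p) hj; exacts [w0 i, sub_nonneg.2 (hw p (by simpa using hj))])
    (by rintro (i | p) hj e; exacts [z1 i e, z2 p (by simpa using hj) (sub_eq_zero.1 e)])
    (let ⟨i, hi⟩ := z4; ⟨.inl i, by simp, hi⟩)
  have e : ∀ p, cov F (fun i => w i + l * z i) p - 1 = cov F w p - 1 + l * cov F z p := fun p => by
    simp only [cov, sum_add_distrib, ← mul_sum]; ring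
  obtain ⟨u, u0, u1, u2, u3⟩ := ih _ (hn ▸ l2) (fun i => w i + l * z i)
    (congrArg card (filter_congr (by rintro (i | p) _ <;> simp [e])))
    (fun i => l1 (.inl i) (by simp)) fun p hp => by
      have := l1 (.inr p) (by simpa using hp)
      simp only [Sum.elim_inr] at this
      linarith [e p]
  refine ⟨u, u0, u1, u2.trans ?_, u3⟩
  rw [sum_add_distrib, ← mul_sum]
  nlinarith

lemma sum_cov (F : I → Finset P) (f : I → ℝ) (Y : Finset P) :
    ∑ p ∈ Y, cov F f p = ∑ i, #(F i ∩ Y) * f i := by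
  simp only [cov, sum_filter]
  rw [sum_comm]
  refine sum_congr rfl fun i _ => ?_
  rw [← sum_filter, filter_mem_eq_inter, inter_comm]
  simp

variable {F : I → Finset P}

lemma del_le_one (hF : ∀ p, ∃ i, p ∈ F i) {X : Finset P} (hc : Crit F X) (hn : Conn F X) :
    del F X ≤ 1 := by
  obtain ⟨S, hS, Y, hY, h⟩ := struct hF X
  rcases S.eq_empty_or_nonempty with rfl | hne
  · have : #Y ≤ 1 := card_le_one.2 fun K hK K' hK' => by
      have a := (hY K hK).1
      have b := (hY K' hK').1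
      rw [sdiff_empty] at a b
      rw [hn K a.sub a.ne a.sep, hn K' b.sub b.ne b.sep]
    simp only [card_empty] at h
    omega
  · have := few_comps hF hc hn _ S Y rfl hS hne fun K hK => (hY K hK).1
    omega

lemma frac_core (hF : ∀ p, ∃ i, p ∈ F i) {X : Finset P} (h3 : ∀ i, #(F i ∩ X) ≤ 3)
    (ih : ∀ Y ⊂ X, ∀ w : I → ℝ, (∀ i, 0 ≤ w i) → (∀ p ∈ Y, 1 ≤ cov F w p) →
      6 * (tau F Y : ℝ) ≤ 6 * ∑ i, w i + #Y)
    {w : I → ℝ} (w0 : ∀ i, 0 ≤ w i) (hw : ∀ p ∈ X, 1 ≤ cov F w p)
    (pos : ∀ i, ∀ p ∈ X, p ∈ F i → w i ≠ 0)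
    (cnt : #(univ.filter fun i => w i ≠ 0) ≤ #(X.filter fun p => cov F w p = 1)) :
    6 * (tau F X : ℝ) ≤ 6 * ∑ i, w i + #X := by
  classical
  by_contra hX
  push Not at hX
  have cut : ∀ (E : Finset I) (Y : Finset P), Y ⊂ X → (∀ i ∈ E, ∀ p ∈ Y, p ∉ F i) →
      6 * (tau F Y : ℝ) + 6 * ∑ i ∈ E, w i ≤ 6 * ∑ i, w i + #Y := fun E Y hY hE => by
    have := ih Y hY (fun i => if i ∈ E then 0 else w i)
      (fun i => by split_ifs; exacts [le_rfl, w0 i]) fun p hp => (hw p (hY.1 hp)).trans_eq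
        (sum_congr rfl fun i hi => (if_neg fun h => hE i h p hp (mem_filter.1 hi).2).symm)
    have e : ∑ i, (if i ∈ E then 0 else w i) + ∑ i ∈ E, w i = ∑ i, w i := by
      rw [← sum_ite_mem_eq E, ← sum_add_distrib]
      exact sum_congr rfl fun i _ => by split_ifs <;> simp
    linarith
  have rem : ∀ (B : Finset P) (E : Finset I) (t : ℕ), B ⊆ X → B.Nonempty → tau F B ≤ t →
      (∀ i ∈ E, F i ∩ X ⊆ B) →
      6 * (tau F X : ℝ) + 6 * ∑ i ∈ E, w i + #B ≤ 6 * t + 6 * ∑ i, w i + #X := by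
    intro B E t hB hne ht hE
    have h1 := cut E _ (sdiff_ssubset hB hne) fun i hi p hp h =>
      (mem_sdiff.1 hp).2 (hE i hi (mem_inter.2 ⟨h, (mem_sdiff.1 hp).1⟩))
    have h2 : (tau F X : ℝ) ≤ t + tau F (X \ B) := by
      exact_mod_cast (tau_le_add hF (union_sdiff_of_subset hB).ge).trans (Nat.add_le_add_right ht _)
    have h4 : (#(X \ B) : ℝ) + #B = #X := by exact_mod_cast card_sdiff_add_card_eq_card hB
    linarith
  have hc : Crit F X := fun v hv => by
    by_contra h
    have h1 := cut ∅ _ (erase_ssubset hv) (by simp)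
    have h2 : (tau F X : ℝ) ≤ tau F (X.erase v) := by exact_mod_cast not_lt.1 h
    have h4 : (#(X.erase v) : ℝ) ≤ #X := by exact_mod_cast card_erase_le
    rw [sum_empty] at h1
    linarith
  have hn : Conn F X := fun K hK hne hs => by
    by_contra h
    have h1 := cut (univ.filter fun i => ¬ ∃ p ∈ K, p ∈ F i) K (ssubset_of_subset_of_ne hK h)
      fun i hi p hp h => (mem_filter.1 hi).2 ⟨p, hp, h⟩
    have h2 := cut (univ.filter fun i => ∃ p ∈ K, p ∈ F i) _ (sdiff_ssubset hK hne)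
      fun i hi p hp h => let ⟨q, a, b⟩ := (mem_filter.1 hi).2; hs q a p hp ⟨i, b, h⟩
    have h4 := sum_filter_add_sum_filter_not univ (fun i => ∃ p ∈ K, p ∈ F i) w
    have h5 : (tau F X : ℝ) ≤ tau F K + tau F (X \ K) := by
      exact_mod_cast tau_le_add hF (union_sdiff_of_subset hK).ge
    have h6 : (#(X \ K) : ℝ) + #K = #X := by exact_mod_cast card_sdiff_add_card_eq_card hK
    linarith
  set d : I → ℕ := fun i => #(F i ∩ X) with hd
  set Φ : ℝ := 6 * ∑ i, w i - 2 * #X with hΦ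
  have phi : Φ = ∑ i, (6 - 2 * d i) * w i + 2 * ∑ p ∈ X, (cov F w p - 1) := by
    simp only [hΦ, sub_mul, sum_sub_distrib, sum_cov, mul_assoc, ← mul_sum, sum_const,
      nsmul_eq_mul, hd]
    ring
  have low : ∀ E : Finset I, (∀ i ∈ E, d i ≤ 2) → 2 * ∑ i ∈ E, w i ≤ Φ := fun E hE => by
    have h1 : 0 ≤ ∑ p ∈ X, (cov F w p - 1) := sum_nonneg fun p hp => sub_nonneg.2 (hw p hp)
    have h2 : ∑ i ∈ E, 2 * w i ≤ ∑ i, (6 - 2 * d i) * w i :=
      (sum_le_sum fun i hi => mul_le_mul_of_nonneg_right (by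
        have : (d i : ℝ) ≤ 2 := by exact_mod_cast hE i hi
        linarith) (w0 i)).trans (sum_le_sum_of_subset_of_nonneg (subset_univ E) fun i _ _ =>
          mul_nonneg (by
            have : (d i : ℝ) ≤ 3 := by exact_mod_cast h3 i
            linarith) (w0 i))
    rw [← mul_sum] at h2
    linarith
  have hτ : 2 * (tau F X : ℝ) = #X + 1 := by
    have h1 := del_le_one hF hc hn
    have h2 := low ∅ (by simp)
    rw [sum_empty] at h2
    have h4 : #X < 2 * tau F X := by
      have : (#X : ℝ) < 2 * tau F X := by linarith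
      exact_mod_cast this
    unfold del at h1
    exact_mod_cast (show 2 * tau F X = #X + 1 by omega)
  have lt3 : Φ < 3 := by linarith
  have r1 : ∀ i, ∀ p ∈ X, p ∈ F i → 6 * w i + d i ≤ Φ + 3 := fun i p hp h => by
    have := rem (F i ∩ X) {i} 1 inter_subset_right ⟨p, mem_inter.2 ⟨h, hp⟩⟩
      (tau_le_one inter_subset_left) (by simp)
    simp only [sum_singleton, Nat.cast_one] at this
    linarith
  have high : ∀ i, 1 / 2 ≤ w i → d i ≤ 2 := fun i hi => by
    by_contra h
    obtain ⟨p, hp⟩ : (F i ∩ X).Nonempty := card_pos.1 (by change 0 < d i; omega)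
    have h1 := r1 i p (mem_inter.1 hp).2 (mem_inter.1 hp).1
    have h2 : (3 : ℝ) ≤ d i := by exact_mod_cast (show 3 ≤ d i by omega)
    linarith
  set s : P → ℕ := fun p => #(univ.filter fun i => p ∈ F i) with hs
  have s2 : ∀ p ∈ X, 2 ≤ s p := fun p hp => by
    by_contra h
    obtain ⟨i, hi⟩ := hF p
    have h1 : (univ.filter fun i => p ∈ F i) = {i} :=
      (eq_of_subset_of_card_le (by simpa using hi) (by change s p ≤ 1; omega)).symm
    have h2 := hw p hp
    have h4 := r1 i p hp hi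
    have h5 : (0 : ℝ) ≤ d i := by positivity
    rw [cov, h1, sum_singleton] at h2
    linarith
  set M := X.filter fun p => cov F w p = 1 ∧ s p = 2 with hM
  have mate : ∀ p ∈ M, ∀ a, p ∈ F a → ∃ b, b ≠ a ∧ (∀ i, p ∈ F i ↔ i = a ∨ i = b) ∧
      ∀ f, cov F f p = f a + f b := fun p hp a ha => by
    obtain ⟨b, hb⟩ := card_eq_one.1 (show #((univ.filter fun i => p ∈ F i).erase a) = 1 by
      rw [card_erase_of_mem (by simpa using ha)]
      exact congrArg (· - 1) (mem_filter.1 hp).2.2)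
    have h1 : b ≠ a := (mem_erase.1 (hb ▸ mem_singleton_self b)).1
    have h2 : (univ.filter fun i => p ∈ F i) = {a, b} := by
      rw [← hb, insert_erase (by simpa using ha)]
    exact ⟨b, h1, fun i => by simpa using Finset.ext_iff.1 h2 i, fun f => by
      rw [cov, h2, sum_pair h1.symm]⟩
  have hi : ∀ p ∈ M, ∃ a, p ∈ F a ∧ 1 / 2 ≤ w a := fun p hp => by
    obtain ⟨a, ha⟩ := hF p
    obtain ⟨b, -, h1, h2⟩ := mate p hp a ha
    have := (h2 w).symm.trans (mem_filter.1 hp).2.1
    rcases le_total (w a) (w b) with h | h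
    exacts [⟨b, (h1 b).2 (.inr rfl), by linarith⟩, ⟨a, ha, by linarith⟩]
  set Q := univ.filter fun i => w i ≠ 0 with hQ
  have count : ∑ i ∈ Q, (3 - d i) + 2 * #(X.filter fun p => ¬ cov F w p = 1) ≤ #M := by
    have h1 : ∑ p ∈ X, s p = ∑ i ∈ Q, d i := by
      have := sum_cov F (fun _ => 1) X
      simp only [cov, sum_const, nsmul_eq_mul, mul_one] at this
      rw [sum_subset (subset_univ Q) fun i _ h => card_eq_zero.2 (eq_empty_of_forall_notMem
        fun p hp => h (mem_filter.2 ⟨mem_univ _, pos i p (mem_inter.1 hp).2 (mem_inter.1 hp).1⟩))]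
      exact_mod_cast this
    have h2 : ∑ i ∈ Q, (3 - d i) + ∑ i ∈ Q, d i = 3 * #Q := by
      rw [← sum_add_distrib, sum_congr rfl fun i _ => Nat.sub_add_cancel (h3 i)]
      simp [mul_comm]
    have h4 : ∑ p ∈ X, (2 + if cov F w p = 1 then 1 else 0) ≤
        ∑ p ∈ X, (s p + if cov F w p = 1 ∧ s p = 2 then 1 else 0) := sum_le_sum fun p hp => by
      have := s2 p hp
      by_cases e : cov F w p = 1 <;> simp only [e, true_and, false_and, if_true, if_false]
      · split_ifs <;> omega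
      · omega
    simp only [sum_add_distrib, ← card_filter, sum_const, smul_eq_mul] at h4
    have h5 := card_filter_add_card_filter_not (s := X) fun p => cov F w p = 1
    rw [← hM] at h4
    omega
  by_cases full : ∃ a, 1 / 2 ≤ w a ∧ 1 < #(F a ∩ M)
  · obtain ⟨a, ha, h⟩ := full
    obtain ⟨p, hp, q, hq, hpq⟩ := one_lt_card.1 h
    obtain ⟨pa, pM⟩ := mem_inter.1 hp
    obtain ⟨qa, qM⟩ := mem_inter.1 hq
    have pX := (mem_filter.1 pM).1
    have qX := (mem_filter.1 qM).1
    have ea : F a ∩ X = {p, q} := (eq_of_subset_of_card_le (insert_subset (mem_inter.2 ⟨pa, pX⟩)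
      (by simpa using ⟨qa, qX⟩)) ((high a ha).trans (card_pair hpq).ge)).symm
    obtain ⟨b, ba, b1, b2⟩ := mate p pM a pa
    obtain ⟨c, ca, c1, c2⟩ := mate q qM a qa
    have wb := (b2 w).symm.trans (mem_filter.1 pM).2.1
    have wc := (c2 w).symm.trans (mem_filter.1 qM).2.1
    have pb : p ∈ F b ∩ X := mem_inter.2 ⟨(b1 b).2 (.inr rfl), pX⟩
    have qc : q ∈ F c ∩ X := mem_inter.2 ⟨(c1 c).2 (.inr rfl), qX⟩
    by_cases bc : b = c
    · subst bc
      have := rem (F b ∩ X) {a, b} 1 inter_subset_right ⟨p, pb⟩ (tau_le_one inter_subset_left)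
        (by simp only [mem_insert, mem_singleton, forall_eq_or_imp, forall_eq, ea]
            exact ⟨insert_subset pb (singleton_subset_iff.2 qc), subset_rfl⟩)
      rw [sum_pair ba.symm] at this
      have h5 : (0 : ℝ) ≤ #(F b ∩ X) := by positivity
      push_cast at this
      linarith
    have s3 : ∑ i ∈ {a, b, c}, w i = w a + (w b + w c) := by
      rw [sum_insert (by simp [ba.symm, ca.symm]), sum_pair bc]
    have h1 := rem (F b ∩ X ∪ F c ∩ X) {a, b, c} 2
      (union_subset inter_subset_right inter_subset_right) ⟨p, mem_union_left _ pb⟩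
      ((tau_le_add hF subset_rfl).trans (Nat.add_le_add (tau_le_one inter_subset_left)
        (tau_le_one inter_subset_left)))
      (by simp only [mem_insert, mem_singleton, forall_eq_or_imp, forall_eq, ea]
          exact ⟨insert_subset (mem_union_left _ pb) (singleton_subset_iff.2 (mem_union_right _ qc)),
            subset_union_left, subset_union_right⟩)
    have h2 := r1 a p pX pa
    have h4 : (d a : ℝ) = 2 := by exact_mod_cast (congrArg card ea).trans (card_pair hpq)
    have h5 : #(F b ∩ X ∪ F c ∩ X) < 4 := by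
      have : (#(F b ∩ X ∪ F c ∩ X) : ℝ) < 4 := by push_cast at h1; linarith
      exact_mod_cast this
    have db : d b ≤ 2 := by
      have := card_lt_card (s := F b ∩ X) ⟨subset_union_left (s₂ := F c ∩ X), fun h =>
        ((c1 b).1 (mem_inter.1 (h (mem_union_right _ qc))).1).elim ba bc⟩
      change #(F b ∩ X) ≤ 2
      omega
    have dc : d c ≤ 2 := by
      have := card_lt_card (s := F c ∩ X) ⟨subset_union_right (s₁ := F b ∩ X), fun h =>
        ((b1 c).1 (mem_inter.1 (h (mem_union_left _ pb))).1).elim ca (Ne.symm bc)⟩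
      change #(F c ∩ X) ≤ 2
      omega
    have da := high a ha
    have l3 : ∀ i ∈ ({a, b, c} : Finset I), d i ≤ 2 := by simp [da, db, dc]
    have h6 : ∑ i ∈ {a, b, c}, (3 - d i) ≤ ∑ i ∈ Q, (3 - d i) := sum_le_sum_of_subset (by
      simp only [hQ, insert_subset_iff, singleton_subset_iff, mem_filter, mem_univ, true_and]
      exact ⟨pos a p pX pa, pos b p pX (mem_inter.1 pb).1, pos c q qX (mem_inter.1 qc).1⟩)
    rw [sum_insert (by simp [ba.symm, ca.symm]), sum_pair bc] at h6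
    obtain ⟨z, zM, hz⟩ := exists_mem_notMem_of_card_lt_card (s := {p, q}) (t := M)
      (by rw [card_pair hpq]; omega)
    obtain ⟨e, ze, he⟩ := hi z zM
    by_cases h7 : e ∈ ({a, b, c} : Finset I)
    · have := low _ l3
      simp only [mem_insert, mem_singleton] at h7
      rcases h7 with rfl | rfl | rfl
      · exact hz (ea ▸ mem_inter.2 ⟨ze, (mem_filter.1 zM).1⟩)
      · linarith
      · linarith
    · have := low (insert e {a, b, c}) (forall_mem_insert _ _ _ |>.2 ⟨high e he, l3⟩)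
      rw [sum_insert h7] at this
      linarith
  push Not at full
  set A := univ.filter fun i => 1 / 2 ≤ w i with hA
  have mA : ∀ i, 1 / 2 ≤ w i → i ∈ A := fun i h => mem_filter.2 ⟨mem_univ _, h⟩
  have AQ : A ⊆ Q := fun i h => mem_filter.2 ⟨mem_univ _, by linarith [(mem_filter.1 h).2] ⟩
  have dbl : ∑ p ∈ M, cov F (fun i => if i ∈ A then 1 else 0) p ≤ #A := by
    rw [sum_cov, card_eq_sum_ones A]
    simp only [mul_ite, mul_one, mul_zero, sum_ite_mem_eq]
    exact_mod_cast sum_le_sum fun i h => full i (mem_filter.1 h).2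
  have MA : #M ≤ #A := by
    have : ∑ p ∈ M, (1 : ℝ) ≤ #A := (sum_le_sum fun p hp => by
      obtain ⟨a, h1, h2⟩ := hi p hp
      obtain ⟨b, -, -, h4⟩ := mate p hp a h1
      rw [h4, if_pos (mA a h2)]
      split_ifs <;> norm_num).trans dbl
    simpa using this
  have le1 : ∀ i ∈ Q, (if i ∈ A then 1 else 0) ≤ 3 - d i := fun i _ => by
    split_ifs with h
    · have := high i (mem_filter.1 h).2
      omega
    · omega
  have sA : ∑ i ∈ Q, (if i ∈ A then 1 else 0) = #A := by
    rw [sum_ite_mem, inter_eq_right.2 AQ, card_eq_sum_ones]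
  have le2 := sum_le_sum le1
  have eq1 := (sum_eq_sum_iff_of_le le1).1 (by omega)
  have ePhi : Φ = 2 * ∑ i ∈ A, w i := by
    rw [phi, sum_eq_zero (s := X) fun p hp => sub_eq_zero.2 (by
      by_contra h
      have : 0 < #(X.filter fun p => ¬ cov F w p = 1) := card_pos.2 ⟨p, mem_filter.2 ⟨hp, h⟩⟩
      omega), mul_zero, add_zero, mul_sum, ← sum_ite_mem_eq A]
    refine sum_congr rfl fun i _ => ?_
    by_cases h : i ∈ Q
    · have h1 := eq1 i h
      have h2 : d i ≤ 3 := h3 i
      split_ifs at h1 ⊢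
      · rw [show d i = 2 by omega]; norm_num
      · rw [show d i = 3 by omega]; norm_num
    · have : w i = 0 := by simpa [hQ] using h
      simp [this]
  rcases A.eq_empty_or_nonempty with e | e
  · obtain ⟨p, hp⟩ : X.Nonempty := card_pos.1 (by
      have : 2 * tau F X = #X + 1 := by exact_mod_cast hτ
      omega)
    obtain ⟨i, h⟩ := hF p
    have h1 := r1 i p hp h
    have h2 := eq1 i (mem_filter.2 ⟨mem_univ _, pos i p hp h⟩)
    have h4 : d i ≤ 3 := h3 i
    have h5 := (w0 i).lt_of_ne' (pos i p hp h)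
    rw [e] at ePhi h2
    rw [show d i = 3 by simp at h2; omega] at h1
    simp only [sum_empty] at ePhi
    push_cast at h1
    linarith
  obtain ⟨a, ha, hm⟩ := exists_max_image A w e
  have da : d a = 2 := by
    have h1 := eq1 a (AQ ha)
    rw [if_pos ha] at h1
    omega
  obtain ⟨p, hp⟩ : (F a ∩ X).Nonempty := card_pos.1 (by change 0 < d a; omega)
  have h1 := r1 a p (mem_inter.1 hp).2 (mem_inter.1 hp).1
  have h2 : #A • (1 / 2 : ℝ) ≤ ∑ i ∈ A, w i := card_nsmul_le_sum _ _ _ fun i h => (mem_filter.1 h).2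
  have h4 : ∑ i ∈ A, w i ≤ #A • w a := sum_le_card_nsmul _ _ _ hm
  rw [nsmul_eq_mul] at h2 h4
  have h5 : (#A : ℝ) ≤ 2 := by
    have : (#A : ℝ) < 3 := by linarith
    exact_mod_cast (show #A ≤ 2 by have : #A < 3 := by exact_mod_cast this
                                   omega)
  have h6 : w a ≤ 1 / 2 := by
    rw [da] at h1
    push_cast at h1
    nlinarith [w0 a]
  have h7 : ∀ i, w i ≤ 1 / 2 := fun i => by
    by_contra h
    exact h ((hm i (mem_filter.2 ⟨mem_univ _, (not_le.1 h).le⟩)).trans h6)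
  have h8 : ∑ p ∈ M, (2 : ℝ) ≤ #A := (sum_le_sum fun p hp => by
    obtain ⟨a, h1, h2⟩ := hi p hp
    obtain ⟨b, -, -, h4⟩ := mate p hp a h1
    have := (h4 w).symm.trans (mem_filter.1 hp).2.1
    rw [h4, if_pos (mA a h2), if_pos (mA b (by linarith [h7 a]))]
    norm_num).trans dbl
  have h9 : #M * 2 ≤ #A := by
    rw [sum_const, nsmul_eq_mul] at h8
    exact_mod_cast h8
  have := card_pos.2 e
  omega

theorem frac_bound (X : Finset P) : ∀ F : I → Finset P, (∀ p, ∃ i, p ∈ F i) →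
    (∀ i, #(F i ∩ X) ≤ 3) → ∀ w : I → ℝ, (∀ i, 0 ≤ w i) → (∀ p ∈ X, 1 ≤ cov F w p) →
    6 * (tau F X : ℝ) ≤ 6 * ∑ i, w i + #X := by
  classical
  induction X using Finset.strongInductionOn with
  | _ X ih =>
  intro F hF h3 w w0 hw
  obtain ⟨u, u0, u1, u2, u3⟩ := lp_vertex F X _ w rfl w0 hw
  set G : I → Finset P := fun i => if u i = 0 then F i \ X else F i with hG
  have GF : ∀ i, G i ⊆ F i := fun i => by
    simp only [hG]; split_ifs; exacts [sdiff_subset, subset_rfl]
  have e : ∀ p ∈ X, cov G u p = cov F u p := fun p hp =>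
    sum_subset (fun i hi => mem_filter.2 ⟨mem_univ _, GF i (mem_filter.1 hi).2⟩) fun i h1 h2 => by
      by_contra h
      exact h2 (mem_filter.2 ⟨mem_univ _, by simpa [hG, h] using h1⟩)
  have hG' : ∀ p, ∃ i, p ∈ G i := fun p => by
    by_cases hp : p ∈ X
    · obtain ⟨i, hi, -⟩ := exists_ne_zero_of_sum_ne_zero
        (show cov G u p ≠ 0 by linarith [e p hp, u1 p hp])
      exact ⟨i, (mem_filter.1 hi).2⟩
    · obtain ⟨i, hi⟩ := hF p
      exact ⟨i, by simp only [hG]; split_ifs; exacts [mem_sdiff.2 ⟨hi, hp⟩, hi]⟩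
  have g3 : ∀ Y ⊆ X, ∀ i, #(G i ∩ Y) ≤ 3 := fun Y hY i =>
    (card_le_card (inter_subset_inter (GF i) hY)).trans (h3 i)
  have h1 := frac_core hG' (g3 X subset_rfl) (fun Y hY => ih Y hY G hG' (g3 Y hY.1)) u0
    (fun p hp => (e p hp).symm ▸ u1 p hp) (fun i p hp h z => by simp [hG, z, hp] at h)
    (u3.trans_eq (congrArg card (filter_congr fun p hp => by rw [e p hp])))
  have h2 : (tau F X : ℝ) ≤ tau G X := by
    obtain ⟨C, hC, hc⟩ := exists_opt hG' X
    exact_mod_cast hC ▸ tau_le fun p hp => let ⟨i, a, b⟩ := hc p hp; ⟨i, a, GF i b⟩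
  linarith

end Pool.Agent.Lib.MP_0828a1_co
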