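import Pool.Agent.Lib.MP_0828a1_co.TzT
import Pool.Agent.Lib.MP_0828a1_co.ZB4

-- part Pool.Agent.Lib.MP_0828a1_co.TzA
section

/-! The second potential, the exceptional components, and systems with traces of size three. -/

open Finset

set_option linter.unusedSectionVars false

namespace Pool.Agent.Lib.MP_0828a1_co

variable {I P : Type} [Fintype I] [DecidableEq P]

noncomputable def VV (F : I → Finset P) (X : Finset P) : ℤ :=
  44 * NN F X + 53 * X.card - 256 * tau F X - nn F X 1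

def Fat (F : I → Finset P) (K : Finset P) : Prop := K.card = 3 ∧ NN F K = 8 ∧ tau F K = 2

def HH (F : I → Finset P) (K : Finset P) : Prop := K.card = 6 ∧ NN F K = 10 ∧ tau F K = 3

def XX (F : I → Finset P) (K : Finset P) : Prop :=
  K.card = 10 ∧ NN F K = 17 ∧ tau F K = 5 ∧ nn F K 1 = 0 ∧ ∃ i K1 K2 D, (F i ∩ K).card = 4 ∧
    K1 ≠ K2 ∧ Hang F (K \ (F i ∩ K)) K1 ∧ Fat F K1 ∧ Hang F (K \ (F i ∩ K)) K2 ∧ Fat F K2 ∧
    (F D ∩ K2).card = 1 ∧ (F D ∩ K).card = 4

def Exc (F : I → Finset P) (K : Finset P) : Prop := Fat F K ∨ HH F K ∨ XX F K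

open Classical in
noncomputable def pen (F : I → Finset P) (K : Finset P) : ℤ := if HH F K then 10 else 2

variable {F : I → Finset P} {X Y Z K B S : Finset P} {d : ℕ}

lemma pen_le : pen F K ≤ 10 := by unfold pen; split_ifs <;> omega

lemma ten (h : Sys d F K) {x y : P} (hx : x ∈ K) (hy : y ∈ K) (hn : ¬ Adj F x y) :
    10 + cn (fun i => (F i ∩ K).Nonempty ∧ x ∉ F i ∧ y ∉ F i) ≤ NN F K := by
  have h1 := cn_add_le (p := fun i => x ∈ F i) (q := fun i => y ∈ F i)
    (r := fun i => x ∈ F i ∨ y ∈ F i) (fun i a b => hn ⟨i, a, b⟩) (fun _ => Or.inl) fun _ => Or.inr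
  have h2 := cn_add_le (p := fun i => x ∈ F i ∨ y ∈ F i)
    (q := fun i => (F i ∩ K).Nonempty ∧ x ∉ F i ∧ y ∉ F i) (r := fun i => (F i ∩ K).Nonempty)
    (fun i a b => by tauto) (fun i a => a.elim (fun a => ⟨x, mem_inter.2 ⟨a, hx⟩⟩)
      fun a => ⟨y, mem_inter.2 ⟨a, hy⟩⟩) fun _ a => a.1
  rw [h.deg x hx, h.deg y hy] at h1
  rw [NN_eq]; omega

lemma tau_two {x y : P} (h : Adj F x y) : tau F {x, y} ≤ 1 :=
  let ⟨i, a, b⟩ := h; tau_le_one (i := i) (insert_subset a (by simpa using b))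

lemma Fat.adj (h : Fat F K) (s : Sys d F K) {x y : P} (hx : x ∈ K) (hy : y ∈ K) : Adj F x y := by
  by_contra hn
  have := ten s hx hy hn
  have := h.2.1
  omega

lemma Fat.crit (h : Fat F K) (s : Sys d F K) : Crit F K := fun k hk => by
  obtain ⟨x, y, -, e⟩ := card_eq_two.1 (show (K.erase k).card = 2 by
    rw [card_erase_of_mem hk, h.1])
  have := tau_two (h.adj s (x := x) (y := y) (mem_of_mem_erase (a := k) (by simp [e]))
    (mem_of_mem_erase (a := k) (by simp [e])))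
  rw [e, h.2.2]; omega

lemma Fat.conn (h : Fat F K) (s : Sys d F K) : Conn F K := fun K0 h1 ⟨x, hx⟩ h2 => by
  refine Subset.antisymm h1 fun y hy => ?_
  by_contra hn
  exact h2 x hx y (mem_sdiff.2 ⟨hy, hn⟩) (h.adj s (h1 hx) hy)

lemma Fat.small (h : Fat F K) (i : I) : (F i ∩ K).card ≤ 2 := by
  by_contra hn
  have := tau_le_one (inter_eq_right.1 (eq_of_subset_of_card_le (inter_subset_right (s₁ := F i))
    (h.1.trans_le (by omega))))
  have := h.2.2
  omega

lemma Fat.one (h : Fat F K) (s : Sys 4 F K) : nn F K 1 = 1 := by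
  have h1 := s.count
  have h2 : nn F K 3 = 0 := cn_zero fun i e => by have := h.small i; omega
  have h3 : nn F K 4 = 0 := cn_zero fun i e => by have := h.small i; omega
  obtain ⟨a, b, -⟩ := h
  omega

lemma HH.sys (h : HH F K) (s : Sys 4 F K) : Sys 3 F K := ⟨s.hF, s.deg, fun i => by
  by_contra hn
  have h1 := s.sz i
  have h2 := card_sdiff_add_card_inter K (F i)
  rw [inter_comm] at h2
  obtain ⟨a, b, c⟩ := h
  obtain ⟨x, y, -, e⟩ := card_eq_two.1 (show (K \ F i).card = 2 by omega)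
  have hx := mem_sdiff.1 (e ▸ by simp : x ∈ K \ F i)
  have hy := mem_sdiff.1 (e ▸ by simp : y ∈ K \ F i)
  have h3 := tau_sdiff_set s.hF K i
  have h4 := ten s hx.1 hy.1 fun a => by have := tau_two a; rw [e] at h3; omega
  have := cn_pos (p := fun i => (F i ∩ K).Nonempty ∧ x ∉ F i ∧ y ∉ F i)
    ⟨card_pos.1 (by omega), hx.2, hy.2⟩
  omega⟩

lemma HH.full (h : HH F K) (s : Sys 4 F K) {i : I} (hi : (F i ∩ K).Nonempty) :
    (F i ∩ K).card = 3 := H_full (h.sys s) h.1 h.2.1 hi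

lemma HH.one (h : HH F K) (s : Sys 4 F K) : nn F K 1 = 0 := cn_zero fun i e => by
  have := h.full s (i := i) (card_pos.1 (by omega)); omega

lemma Exc.ge (h : Exc F K) (s : Sys 4 F K) : 0 ≤ VV F K + pen F K := by
  unfold pen VV
  rcases h with h | h | h
  · have := h.one s
    obtain ⟨a, b, c⟩ := h
    split_ifs <;> omega
  · have := h.one s
    rw [if_pos h]
    obtain ⟨a, b, c⟩ := h
    omega
  · obtain ⟨a, b, c, e, -⟩ := h
    split_ifs <;> omega

lemma nn_remove (hB : B ⊆ Y) :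
    nn F Y 1 + cn (fun i => (F i ∩ (Y \ B)).card = 1 ∧ (F i ∩ B).Nonempty) ≤
      nn F (Y \ B) 1 + cn fun i => (F i ∩ Y).card = 1 ∧ F i ∩ Y ⊆ B := by
  have h1 : nn F Y 1 ≤ cn (fun i => (F i ∩ (Y \ B)).card = 1 ∧ ¬ (F i ∩ B).Nonempty) +
      cn fun i => (F i ∩ Y).card = 1 ∧ F i ∩ Y ⊆ B := cn_le_add fun i hi => by
    obtain ⟨x, hx⟩ := card_eq_one.1 hi
    have hx' := mem_inter.1 (hx ▸ mem_singleton_self x : x ∈ F i ∩ Y)
    by_cases e : x ∈ B
    · exact Or.inr ⟨hi, by simpa [hx] using e⟩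
    · refine Or.inl ⟨le_antisymm (hi ▸ card_le_card (inter_subset_inter subset_rfl sdiff_subset))
        (card_pos.2 ⟨x, mem_inter.2 ⟨hx'.1, mem_sdiff.2 ⟨hx'.2, e⟩⟩⟩), fun ⟨y, hy⟩ => e ?_⟩
      exact mem_singleton.1 (hx ▸ inter_subset_inter subset_rfl hB hy) ▸ (mem_inter.1 hy).2
  have h2 := cn_add_le (p := fun i => (F i ∩ (Y \ B)).card = 1 ∧ ¬ (F i ∩ B).Nonempty)
    (q := fun i => (F i ∩ (Y \ B)).card = 1 ∧ (F i ∩ B).Nonempty)
    (r := fun i => (F i ∩ (Y \ B)).card = 1) (fun _ a b => a.2 b.2) (fun _ a => a.1) fun _ a => a.1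
  unfold nn at *; omega

lemma VV_split (hF : ∀ p, ∃ i, p ∈ F i) {X0 : Finset P} (h0 : X0 ⊆ X) (h : Sep F X0 (X \ X0)) :
    VV F X0 + VV F (X \ X0) ≤ VV F X := by
  have h1 := tau_split hF h0 h
  have h2 := NN_split h0 h
  have h3 := nn_remove (F := F) h0
  have h4 := card_sdiff_add_card_eq_card h0
  have h5 : cn (fun i => (F i ∩ X).card = 1 ∧ F i ∩ X ⊆ X0) ≤ nn F X0 1 := cn_mono fun i hi =>
    hi.1 ▸ congrArg card (Subset.antisymm (inter_subset_inter subset_rfl h0)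
      (subset_inter inter_subset_left hi.2))
  unfold VV; omega

/-- the statement for critical connected systems with fewer than `n` points -/
def BB (P : Type) [DecidableEq P] (n : ℕ) : Prop :=
  ∀ (I : Type) [Fintype I] (F : I → Finset P) (X : Finset P), X.card < n → Sys 4 F X →
    Crit F X → Conn F X → X.Nonempty → 0 ≤ VV F X ∨ Exc F X

lemma fam_card_le (hF : ∀ p, ∃ i, p ∈ F i) {W : Finset P} {𝒴 : Finset (Finset P)} {v : P}
    (h : ∀ K ∈ 𝒴, Hang F W K ∧ ∃ k ∈ K, Adj F k v) : 𝒴.card ≤ cn fun i => v ∈ F i := by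
  classical
  have h1 : ∀ K, ∃ i, K ∈ 𝒴 → (F i ∩ K).Nonempty ∧ v ∈ F i := fun K => by
    by_cases e : K ∈ 𝒴
    · obtain ⟨k, a, i, b, c⟩ := (h K e).2
      exact ⟨i, fun _ => ⟨⟨k, mem_inter.2 ⟨b, a⟩⟩, c⟩⟩
    · obtain ⟨i, -⟩ := hF v
      exact ⟨i, fun e' => (e e').elim⟩
  choose g hg using h1
  rw [cn_eq]
  refine card_le_card_of_injOn g (fun K hK => by simpa using (hg K hK).2) fun K hK L hL e => ?_
  by_contra hn
  obtain ⟨x, hx⟩ := (hg K hK).1
  obtain ⟨y, hy⟩ := (hg L hL).1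
  exact (h K hK).1.sep_of_ne (h L hL).1 hn x (mem_inter.1 hx).2 y (mem_inter.1 hy).2
    ⟨g K, (mem_inter.1 hx).1, e ▸ (mem_inter.1 hy).1⟩

lemma sum_pen (𝒴 : Finset (Finset P)) : ∑ K ∈ 𝒴, pen F K ≤ 10 * 𝒴.card := by
  simpa [mul_comm] using sum_le_card_nsmul 𝒴 (pen F) 10 fun _ _ => pen_le

lemma BB.gen {n : ℕ} (ih : BB P n) (X : Finset P) : X.card < n → Sys 4 F X →
    ∃ 𝒴 : Finset (Finset P), (∀ K ∈ 𝒴, Hang F X K ∧ Exc F K) ∧ 0 ≤ VV F X + ∑ K ∈ 𝒴, pen F K ∧
      (¬ Crit F X → 3 ≤ VV F X + ∑ K ∈ 𝒴, pen F K) := by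
  induction X using Finset.strongInductionOn with
  | _ X ihX =>
  intro hn s
  rcases X.eq_empty_or_nonempty with rfl | hne
  · exact ⟨∅, by simp, by simp [VV, tau_empty, nn, NN_eq, cn_zero], fun h => (h (by simp [Crit])).elim⟩
  by_cases hc : Conn F X
  swap
  · simp only [Conn, not_forall] at hc
    obtain ⟨X0, h1, h2, h3, h4⟩ := hc
    have h5 := ssubset_of_subset_of_ne h1 h4
    have h6 := sdiff_ssubset h1 h2
    obtain ⟨Y0, a1, a2, a3⟩ := ihX X0 h5 ((card_lt_card h5).trans hn) (s.sub h1)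
    obtain ⟨Y1, b1, b2, b3⟩ := ihX _ h6 ((card_lt_card h6).trans hn) (s.sub sdiff_subset)
    have hd : Disjoint Y0 Y1 := disjoint_left.2 fun K hK hK' => by
      obtain ⟨p, hp⟩ := (a1 K hK).1.ne
      exact (mem_sdiff.1 ((b1 K hK').1.sub hp)).2 ((a1 K hK).1.sub hp)
    have h7 := VV_split s.hF h1 h3
    refine ⟨Y0 ∪ Y1, fun K hK => ?_, by rw [sum_union hd]; omega, fun hx => ?_⟩
    · rcases mem_union.1 hK with e | e
      · exact ⟨(a1 K e).1.extend (B := X \ X0) h1 (fun p hp => by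
          simp only [mem_union, mem_sdiff]; tauto) (h3.mono (a1 K e).1.sub subset_rfl), (a1 K e).2⟩
      · exact ⟨(b1 K e).1.extend (B := X0) sdiff_subset (fun p hp => by
          simp only [mem_union, mem_sdiff]; tauto) (h3.symm.mono (b1 K e).1.sub subset_rfl),
          (b1 K e).2⟩
    · rw [sum_union hd]
      by_cases c0 : Crit F X0
      · by_cases c1 : Crit F (X \ X0)
        · refine (hx fun k hk => ?_).elim
          have t1 := tau_split s.hF h1 h3
          by_cases e : k ∈ X0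
          · have := c0 k e
            have : tau F (X.erase k) ≤ tau F (X0.erase k) + tau F (X \ X0) :=
              tau_le_add s.hF fun p hp => by
                simp only [mem_union, mem_sdiff, mem_erase] at hp ⊢; tauto
            omega
          · have := c1 k (mem_sdiff.2 ⟨hk, e⟩)
            have : tau F (X.erase k) ≤ tau F X0 + tau F ((X \ X0).erase k) :=
              tau_le_add s.hF fun p hp => by
                simp only [mem_union, mem_sdiff, mem_erase] at hp ⊢; tauto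
            omega
        · have := b3 c1; omega
      · have := a3 c0; omega
  by_cases hk : Crit F X
  · rcases ih I F X hn s hk hc hne with e | e
    · exact ⟨∅, by simp, by simpa using e, fun h => (h hk).elim⟩
    · exact ⟨{X}, by simpa using ⟨⟨subset_rfl, hne, hk, hc, fun p _ q hq => by simp at hq⟩, e⟩,
        by simpa using e.ge s, fun h => (h hk).elim⟩
  simp only [Crit, not_forall, not_lt] at hk
  obtain ⟨v, hv, hv'⟩ := hk
  have hB : ({v} : Finset P) ⊆ X := by simpa using hv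
  have h6 := sdiff_ssubset hB (by simp)
  obtain ⟨Y1, b1, b2, -⟩ := ihX _ h6 ((card_lt_card h6).trans hn) (s.sub sdiff_subset)
  have c1 := fam_card_le s.hF (v := v) fun K hK => ⟨(b1 K hK).1, by
    by_contra hx
    push Not at hx
    have := (b1 K hK).1.extend (B := {v}) (W' := X) sdiff_subset (fun p hp => by
      simp only [mem_union, mem_sdiff]; tauto) fun k a y b => mem_singleton.1 b ▸ hx k a
    exact (mem_sdiff.1 ((b1 K hK).1.sub (hc K this.sub this.ne this.sep ▸ hv))).2 (by simp)⟩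
  have c2 := sum_pen (F := F) Y1
  have c3 := nn_remove (F := F) hB
  have c4 := NN_inn (F := F) (Y := X) {v}
  have c5 : cn (fun i => (F i ∩ X).card = 1 ∧ F i ∩ X ⊆ {v}) ≤ inn F X {v} :=
    cn_mono fun i hi => ⟨card_pos.1 (by omega), hi.2⟩
  have c6 := card_sdiff_add_card_eq_card hB
  rw [s.deg v hv] at c1
  rw [← sdiff_singleton_eq_erase] at hv'
  rw [card_singleton] at c6
  have : 3 ≤ VV F X := by unfold VV at *; omega
  exact ⟨∅, by simp, by simp; omega, fun _ => by simpa using this⟩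

variable [Fintype P]

theorem thm_A (s : Sys 3 F X) (hc : Crit F X) (hn : Conn F X) (h1 : ¬ Fat F X) (h2 : ¬ HH F X) :
    0 ≤ VV F X := by
  have hF := s.hF
  obtain ⟨E, U, S, 𝒴, a1, a2, a3, a4, a5, a6, a7, a8⟩ := min_triples hF X s.sz
  have c1 := s.up.count
  have c2 := s.nn_four
  have c3 := card_le_rho hF (X \ U)
  have c4 := card_sdiff_add_card_eq_card a1
  have c5 : tau F X ≤ tau F U + tau F (X \ U) := tau_le_add hF fun x hx => by
    simp only [mem_union, mem_sdiff]; tauto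
  have c6 := tau_le_rho hF (X \ U)
  have nh : ∀ W ⊆ X, rho F W ≤ tau F W → NoH F W := fun W hW ht Z hZ h6 h10 => by
    have b1 : Z = X := hn Z (hZ.trans hW) (card_pos.1 (by omega)) fun p hp q hq ha =>
      (mem_sdiff.1 hq).2 (H_closed s (hZ.trans hW) h6 h10 hp (mem_sdiff.1 hq).1 ha)
    subst b1
    obtain rfl := Subset.antisymm hW hZ
    have b2 := card_le_rho hF W
    rcases tight_crit hF hc hn ht with e | e <;>
      exact h2 ⟨h6, h10, by unfold del at e; omega⟩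
  have T := fun W (hW : W ⊆ X) ht => tt_all P _ I F W (Nat.lt_succ_self _) (s.sub hW) ht
    (nh W hW ht)
  obtain rfl : S = ∅ := by
    by_contra e
    have := few_comps hF hc hn _ S 𝒴 rfl (a6.trans sdiff_subset) (nonempty_iff_ne_empty.2 e)
      fun K hK => (a7 K hK).1
    omega
  rcases 𝒴.eq_empty_or_nonempty with rfl | ⟨K, hK⟩
  · have t1 := T (X \ U) sdiff_subset (by omega)
    have t2 := NN_remove E a3
    simp only [card_empty] at a8
    unfold ww VV at *
    omega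
  · obtain ⟨b1, -, b3, b4⟩ := a7 K hK
    rw [sdiff_empty] at b1
    obtain rfl := hn K b1.sub b1.ne b1.sep
    have t1 := T K subset_rfl b4
    have : ¬ (K.card = 3 ∧ NN F K = 8 ∧ tau F K = 2) := h1
    unfold ww VV del at *
    rcases (show tau F K = 1 ∨ tau F K = 2 ∨ tau F K = 3 ∨ tau F K = 4 ∨ tau F K = 5 ∨
      6 ≤ tau F K by omega) with e | e | e | e | e | e <;> omega

end Pool.Agent.Lib.MP_0828a1_co
end

-- part Pool.Agent.Lib.MP_0828a1_co.TzB
section

/-! Reductions for systems with traces of size four. -/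

open Finset

set_option linter.unusedSectionVars false

namespace Pool.Agent.Lib.MP_0828a1_co

variable {I P : Type} [Fintype I] [DecidableEq P] [Fintype P] {F : I → Finset P}
  {Y Z K S S' : Finset P}

section
variable {σ ι : Type} [Fintype σ] [Fintype ι] {q : σ → P} {J : σ → Finset I} {H : ι → Finset σ}
  {C : σ → Finset P}

lemma Gad.hang (g : Gad F Y Z q J H C) (hS : Disjoint S' Z)
    (cut : ∀ i, (F i ∩ Z).Nonempty → ∀ y ∈ F i ∩ Y, y ∉ Z → y ∉ S' → ∃ s, i ∈ J s)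
    (hK : Hang (ext F q J H) (Z ∪ univ.image q) K) (hq : ∀ s, q s ∉ K) : Hang F (Y \ S') K := by
  have hZ : K ⊆ Z := fun p hp => (mem_union.1 (hK.sub hp)).resolve_right fun h2 => by
    obtain ⟨s, -, rfl⟩ := mem_image.1 h2
    exact hq s hp
  refine ⟨subset_sdiff.2 ⟨hZ.trans g.sub, (hS.mono_right hZ).symm⟩, hK.ne, fun k hk => ?_,
    fun K0 a b c => hK.conn K0 a b fun x hx y hy e => c x hx y hy
      ((g.adj_old (hZ (a hx)) (hZ (mem_sdiff.1 hy).1)).1 e), fun x hx y hy ⟨i, a, b⟩ => ?_⟩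
  · rw [← g.tau_old hZ, ← g.tau_old ((erase_subset _ _).trans hZ)]; exact hK.crit k hk
  simp only [mem_sdiff] at hy
  by_cases e : y ∈ Z
  · exact hK.sep x hx y (mem_sdiff.2 ⟨mem_union_left _ e, hy.2⟩)
      ((g.adj_old (hZ hx) e).2 ⟨i, a, b⟩)
  · obtain ⟨s, hs⟩ := cut i ⟨x, mem_inter.2 ⟨a, hZ hx⟩⟩ y (mem_inter.2 ⟨b, hy.1.1⟩) e hy.1.2
    exact hK.sep x hx (q s) (mem_sdiff.2 ⟨mem_union_right _ (mem_image_of_mem _ (mem_univ _)),
      hq s⟩) (g.adj_J (hZ hx) hs a)

lemma Gad.nn_le (g : Gad F Y Z q J H C) : nn F Y 1 ≤ nn (ext F q J H) (Z ∪ univ.image q) 1 +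
    cn fun i => (F i ∩ Y).card = 1 ∧ ¬ (F i ∩ Z).Nonempty := by
  have h1 : cn (fun i => (F i ∩ Y).card = 1 ∧ (F i ∩ Z).Nonempty) ≤
      nn (ext F q J H) (Z ∪ univ.image q) 1 := by
    rw [nn, cn_sum]
    refine (cn_mono fun i ⟨a, z, hz⟩ => le_antisymm (a ▸ g.size i) (card_pos.2 ⟨z, ?_⟩)).trans
      (Nat.le_add_right _ _)
    exact mem_inter.2 ⟨(ext_old (g.ne (mem_inter.1 hz).2) i).2 (mem_inter.1 hz).1,
      mem_union_left _ (mem_inter.1 hz).2⟩
  exact (cn_le_add fun i hi => by tauto).trans (Nat.add_le_add_right h1 _)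

lemma Gad.vv (g : Gad F Y Z q J H C)
    (ht : tau F Y ≤ tau (ext F q J H) (Z ∪ univ.image q) + 2) :
    VV (ext F q J H) (Z ∪ univ.image q) + 44 * NN F Y + 53 * Y.card ≤ VV F Y +
      44 * (NN F Z + Fintype.card ι) + 53 * (Z.card + Fintype.card σ) + 512 +
      cn fun i => (F i ∩ Y).card = 1 ∧ ¬ (F i ∩ Z).Nonempty := by
  have h1 := g.nn_le
  have h2 := g.NN_le
  have h3 : cn (fun a => (H a).Nonempty) ≤ Fintype.card ι := cn_le_card univ fun _ _ => mem_univ _
  have h4 := g.card_eq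
  unfold VV; omega

end

/-- a minimal counterexample for traces of size at most four -/
structure MinB (F : I → Finset P) (Y : Finset P) : Prop where
  sys : Sys 4 F Y
  ih : BB P Y.card
  crit : Crit F Y
  conn : Conn F Y
  neg : VV F Y < 0
  nb : ¬ Exc F Y

namespace MinB
variable (h : MinB F Y)
include h

lemma hF : ∀ p, ∃ i, p ∈ F i := h.sys.hF

lemma rem {i : I} (hi : F i ∩ Y = S) (h4 : S.card = 4) :
    VV F (Y \ S) + cn (fun i => (F i ∩ (Y \ S)).card = 1 ∧ (F i ∩ S).Nonempty) +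
      43 * inn F Y S ≤ VV F Y + 43 ∧ 1 ≤ inn F Y S := by
  have hS : S ⊆ Y := hi ▸ inter_subset_right
  have h1 := nn_remove (F := F) hS
  have h2 := NN_inn (F := F) (Y := Y) S
  have h3 := card_sdiff_add_card_eq_card hS
  have h5 : tau F Y ≤ tau F S + tau F (Y \ S) := tau_le_add h.hF fun x hx => by
    simp only [mem_union, mem_sdiff]; tauto
  have h6 := tau_le_one (X := S) (i := i) (hi ▸ inter_subset_left)
  have h7 := cn_add_le (p := fun j => j = i) (q := fun i => (F i ∩ Y).card = 1 ∧ F i ∩ Y ⊆ S)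
    (r := fun i => (F i ∩ Y).Nonempty ∧ F i ∩ Y ⊆ S) (fun j a b => by rw [a, hi] at b; omega)
    (fun j a => by rw [a, hi]; exact ⟨card_pos.1 (by omega), subset_rfl⟩)
    fun j a => ⟨card_pos.1 (by omega), a.2⟩
  have h8 := cn_pos (p := fun j => j = i) rfl
  unfold VV inn at *; omega

lemma four {i : I} (hi : F i ∩ Y = S) (h4 : S.card = 4) :
    inn F Y S ≤ 1 ∧ ∃ K, Hang F (Y \ S) K ∧ Exc F K := by
  have hS : S ⊆ Y := hi ▸ inter_subset_right
  have hne : S.Nonempty := card_pos.1 (by omega)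
  obtain ⟨𝒴, a1, a2, -⟩ := h.ih.gen _ (card_lt_card (sdiff_ssubset hS hne)) (h.sys.sub sdiff_subset)
  have h1 := few_comps h.hF h.crit h.conn _ S 𝒴 rfl hS hne fun K hK => (a1 K hK).1
  have h2 := sum_pen (F := F) 𝒴
  have h3 := h.rem hi h4
  have := h.neg
  refine ⟨by omega, ?_⟩
  obtain ⟨K, hK⟩ := card_pos.1 (show 0 < 𝒴.card by omega)
  exact ⟨K, a1 K hK⟩

lemma uniq {i : I} (hi : F i ∩ Y = S) (h4 : S.card = 4) {j : I} (h1 : (F j ∩ Y).Nonempty)
    (h2 : F j ∩ Y ⊆ S) : j = i := by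
  by_contra hn
  have := (cn_two (p := fun i => (F i ∩ Y).Nonempty ∧ F i ∩ Y ⊆ S) hn ⟨h1, h2⟩
    ⟨hi ▸ card_pos.1 (by omega), hi.le⟩).trans (h.four hi h4).1
  omega

lemma ext_pen {σ ι : Type} [Fintype σ] [Fintype ι] {q : σ → P} {J : σ → Finset I}
    {H : ι → Finset σ} {C : σ → Finset P} (g : Gad F Y Z q J H C)
    (hc : Z.card + Fintype.card σ < Y.card) (hH : ∀ a, (H a).card ≤ 4) (h1 : S' ⊆ Y \ Z)
    (h2 : S'.Nonempty)
    (cut : ∀ i, (F i ∩ Z).Nonempty → ∀ y ∈ F i ∩ Y, y ∉ Z → y ∉ S' → ∃ s, i ∈ J s)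
    (a0 : ι) (ha : ∀ s, s ∈ H a0) :
    8 ≤ VV (ext F q J H) (Z ∪ univ.image q) + 10 * S'.card ∨
      ∃ K, Hang (ext F q J H) (Z ∪ univ.image q) K ∧ HH (ext F q J H) K ∧ ∀ s, q s ∈ K := by
  classical
  obtain ⟨𝒴, a1, a2, -⟩ := h.ih.gen _ (g.card_eq ▸ hc) (g.sys h.sys hH)
  have b1 := few_comps h.hF h.crit h.conn _ S' (𝒴.filter fun K => ∀ s, q s ∉ K) rfl
    (h1.trans sdiff_subset) h2 fun K hK => g.hang (subset_sdiff.1 h1).2 cut
      (a1 K (mem_filter.1 hK).1).1 (mem_filter.1 hK).2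
  have b2 := sum_pen (F := ext F q J H) (𝒴.filter fun K => ∀ s, q s ∉ K)
  rw [← sum_filter_add_sum_filter_not 𝒴 fun K => ∀ s, q s ∉ K] at a2
  have b3 : ∀ K ∈ 𝒴.filter fun K => ¬ ∀ s, q s ∉ K, ∀ s, q s ∈ K := fun K hK s => by
    obtain ⟨t, ht⟩ := not_forall.1 (mem_filter.1 hK).2
    exact (a1 K (mem_filter.1 hK).1).1.sep.mem_of (not_not.1 ht)
      (mem_union_right _ (mem_image_of_mem _ (mem_univ _))) (g.adj_H (ha t) (ha s))
  rcases (𝒴.filter fun K => ¬ ∀ s, q s ∉ K).eq_empty_or_nonempty with e | ⟨K, hK⟩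
  · rw [e, sum_empty] at a2
    left; omega
  have e : (𝒴.filter fun K => ¬ ∀ s, q s ∉ K) = {K} :=
    eq_singleton_iff_unique_mem.2 ⟨hK, fun L hL => by
      by_contra hn
      obtain ⟨t, -⟩ := not_forall.1 (mem_filter.1 hK).2
      exact disjoint_left.1 (((a1 L (mem_filter.1 hL).1).1.sep_of_ne (a1 K (mem_filter.1 hK).1).1
        hn).disjoint g.hF') (b3 L hL t) (b3 K hK t)⟩
  rw [e, sum_singleton] at a2
  by_cases c : HH (ext F q J H) K
  · exact Or.inr ⟨K, (a1 K (mem_filter.1 hK).1).1, c, b3 K hK⟩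
  · rw [pen, if_neg c] at a2
    left; omega

end MinB

/-- a fat triangle hanging from a trace with four points -/
structure Ft (F : I → Finset P) (Y S K : Finset P) (i0 : I) : Prop where
  min : MinB F Y
  tr : F i0 ∩ Y = S
  c4 : S.card = 4
  hang : Hang F (Y \ S) K
  fat : Fat F K

/-- number of sets joining `K` with `s` -/
noncomputable def bet (F : I → Finset P) (K : Finset P) (s : P) : ℕ :=
  cn fun i => (F i ∩ K).Nonempty ∧ s ∈ F i

namespace Ft
variable {i0 : I} (h : Ft F Y S K i0)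
include h

lemma sS : S ⊆ Y := h.tr ▸ inter_subset_right
lemma sK : K ⊆ Y := h.hang.sub.trans sdiff_subset
lemma dis : Disjoint S K := (subset_sdiff.1 h.hang.sub).2.symm

lemma not_both {i : I} (h1 : (F i ∩ K).Nonempty) (h2 : (F i ∩ (Y \ (S ∪ K))).Nonempty) : False :=
  let ⟨x, hx⟩ := h1; let ⟨y, hy⟩ := h2
  h.hang.sep x (mem_inter.1 hx).2 y (by
    simp only [mem_inter, mem_sdiff, mem_union] at hy ⊢; tauto)
    ⟨i, (mem_inter.1 hx).1, (mem_inter.1 hy).1⟩

lemma not0 {W : Finset P} (hW : W ⊆ Y \ S) : ¬ (F i0 ∩ W).Nonempty := fun ⟨x, hx⟩ => by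
  have := mem_sdiff.1 (hW (mem_inter.1 hx).2)
  exact this.2 (h.tr ▸ mem_inter.2 ⟨(mem_inter.1 hx).1, this.1⟩)

lemma sZ : Y \ (S ∪ K) ⊆ Y \ S := sdiff_subset_sdiff subset_rfl subset_union_left

lemma inside {j : I} (h1 : (F j ∩ Y).Nonempty) (h2 : ¬ (F j ∩ K).Nonempty)
    (h3 : ¬ (F j ∩ (Y \ (S ∪ K))).Nonempty) : j = i0 :=
  h.min.uniq h.tr h.c4 h1 fun x hx => by
    by_contra hn
    refine h3 ⟨x, ?_⟩
    have : x ∉ K := fun e => h2 ⟨x, mem_inter.2 ⟨(mem_inter.1 hx).1, e⟩⟩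
    simp only [mem_inter, mem_sdiff, mem_union] at hx ⊢; tauto

lemma deg {s : P} (hs : s ∈ S) : bet F (Y \ (S ∪ K)) s + bet F K s = 4 := by
  have h0 : s ∈ F i0 := (mem_inter.1 (h.tr ▸ hs : s ∈ F i0 ∩ Y)).1
  have h1 := h.min.sys.deg s (h.sS hs)
  have h2 : bet F (Y \ (S ∪ K)) s + bet F K s ≤ cn fun i => s ∈ F i ∧ i ≠ i0 :=
    cn_add_le (fun i a b => h.not_both b.1 a.1) (fun i a => ⟨a.2, fun e => h.not0 h.sZ (e ▸ a.1)⟩)
      fun i a => ⟨a.2, fun e => h.not0 h.hang.sub (e ▸ a.1)⟩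
  have h3 : cn (fun i => s ∈ F i ∧ i ≠ i0) ≤ bet F (Y \ (S ∪ K)) s + bet F K s :=
    cn_le_add fun i a => by
      by_contra hn
      exact a.2 (h.inside ⟨s, mem_inter.2 ⟨a.1, h.sS hs⟩⟩ (by tauto) (by tauto))
  have h4 := cn_add_le (p := fun j => s ∈ F j ∧ j ≠ i0) (q := fun j => j = i0)
    (r := fun j => s ∈ F j) (fun _ a b => a.2 b) (fun _ a => a.1) fun _ a => a ▸ h0
  have h5 := cn_le_add (p := fun j => s ∈ F j ∧ j ≠ i0) (q := fun j => j = i0)
    (r := fun j => s ∈ F j) fun _ a => by tauto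
  have h6 := cn_pos (p := fun j => j = i0) rfl
  have h7 := cn_le_card (p := fun j => j = i0) {i0} (by simp)
  rw [card_singleton] at h7
  omega

lemma nums : NN F (Y \ (S ∪ K)) + 9 ≤ NN F Y ∧ (Y \ (S ∪ K)).card + 7 = Y.card ∧
    tau F Y ≤ tau F (Y \ (S ∪ K)) + 3 ∧ tau F (Y \ (S ∪ K)) + 3 ≤ tau F Y := by
  have h1 := NN_inn (F := F) (Y := Y) S
  have h2 := (h.min.rem h.tr h.c4).2
  have e : (Y \ S) \ K = Y \ (S ∪ K) := by ext x; simp only [mem_sdiff, mem_union]; tauto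
  have h3 := NN_split h.hang.sub h.hang.sep
  have h4 := tau_split h.min.hF h.hang.sub h.hang.sep
  have h5 := card_sdiff_add_card_eq_card (union_subset h.sS h.sK)
  have h6 : tau F Y ≤ tau F S + tau F (Y \ S) := tau_le_add h.min.hF fun x hx => by
    simp only [mem_union, mem_sdiff]; tauto
  have h7 := tau_le_one (X := S) (i := i0) (h.tr ▸ inter_subset_left)
  obtain ⟨s, hs⟩ := card_pos.1 (show 0 < S.card by rw [h.c4]; omega)
  have h8 := h.min.crit s (h.sS hs)
  have h9 : tau F (Y \ S) ≤ tau F (Y.erase s) := tau_mono h.min.hF fun x hx =>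
    mem_erase.2 ⟨fun e => (mem_sdiff.1 hx).2 (e ▸ hs), (mem_sdiff.1 hx).1⟩
  obtain ⟨a, b, c⟩ := h.fat
  rw [card_union_of_disjoint h.dis, h.c4] at h5
  rw [e] at h3 h4
  omega

lemma loops {i : I} (a : (F i ∩ Y).card = 1) (b : ¬ (F i ∩ (Y \ (S ∪ K))).Nonempty) :
    (F i ∩ K).card = 1 := by
  refine le_antisymm (a ▸ card_le_card (inter_subset_inter subset_rfl h.sK)) (card_pos.2 ?_)
  by_contra hn
  have := h.inside (card_pos.1 (by omega)) hn b
  rw [this, h.tr, h.c4] at a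
  omega

lemma one : nn F K 1 = 1 := h.fat.one (h.min.sys.sub h.sK)

lemma red (h1 : S' ⊆ S) (h2 : S'.Nonempty) (h3 : S'.card ≤ 3) (ht : tau F (K ∪ S') ≤ 2)
    (hb : ∀ s ∈ S \ S', bet F K s ≤ S'.card)
    (hx : 2 ≤ S'.card ∨ (∃ s ∈ S \ S', bet F K s = 0) ∨
      ∃ D, (F D ∩ K).Nonempty ∧ S \ S' ⊆ F D) : False := by
  classical
  have hF := h.min.hF
  obtain ⟨n1, n2, n3, n4⟩ := h.nums
  set Z := Y \ (S ∪ K) with hZ
  have c1 := card_sdiff_add_card_eq_card h1
  have c2 := h.c4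
  have c3 := card_pos.2 h2
  have hS : ∀ s ∈ S, s ∈ Y \ Z := fun s hs => by simp [hZ, hs, h.sS hs]
  set H : Fin (S'.card + 1) → Finset (S \ S' : Finset P) :=
    fun a => univ.filter fun s => a.1 ≤ bet F K s with hH
  have g : Gad F Y Z (fun s : (S \ S' : Finset P) => s.1)
      (fun s => univ.filter fun i => (F i ∩ Z).Nonempty ∧ s.1 ∈ F i) H fun s => {s.1} := by
    refine ⟨⟨hF, Subtype.val_injective, fun s => (mem_sdiff.1 (hS _ (mem_sdiff.1 s.2).1)).2,
      fun s i hi => (mem_filter.1 hi).2.1, fun s => ?_⟩, sdiff_subset,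
      fun s => by simpa using hS _ (mem_sdiff.1 s.2).1, fun s t e => by simpa [Subtype.val_inj],
      fun s i hi => inter_single.2 (mem_filter.1 hi).2.2⟩
    have a1 := h.deg (mem_sdiff.1 s.2).1
    have a2 := hb _ s.2
    have a3 : cn (fun a => s ∈ H a) = bet F K s + 1 := by
      rw [cn_eq, ← Fin.card_Iic (⟨bet F K s, by omega⟩ : Fin (S'.card + 1))]
      congr 1
      ext a; simp [hH, Fin.le_def]
    rw [a3, ← cn_eq]
    rw [← hZ] at a1
    unfold bet at *; omega
  have cs : Fintype.card (S \ S' : Finset P) = 4 - S'.card := by rw [Fintype.card_coe]; omega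
  have hH4 : ∀ a, (H a).card ≤ 4 := fun a => (card_le_univ _).trans (by omega)
  have t1 := g.tau_ge (t := tau F Y - 2) fun D x R a1 a2 => by
    rcases D.eq_empty_or_nonempty with rfl | hD
    · have : tau F Y ≤ tau F (Z ∪ R.image x) + tau F (K ∪ S') := tau_le_add hF fun y hy => by
        by_cases e : y ∈ S \ S'
        · have b : (⟨y, e⟩ : (S \ S' : Finset P)) ∈ R := by
            by_contra hs; simpa using a1 _ hs
          exact mem_union_left _ (mem_union_right _ (mem_image.2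
            ⟨_, b, mem_singleton.1 (a2 _ b).1⟩))
        · simp only [hZ, mem_union, mem_sdiff] at e ⊢; tauto
      omega
    · have := card_pos.2 hD
      have := tau_mono hF (subset_union_left (s₁ := Z) (s₂ := R.image x))
      omega
  have v1 := g.vv (by omega)
  have cut : ∀ i, (F i ∩ Z).Nonempty → ∀ y ∈ F i ∩ Y, y ∉ Z → y ∉ S' →
      ∃ s : (S \ S' : Finset P), i ∈ univ.filter fun i => (F i ∩ Z).Nonempty ∧ s.1 ∈ F i :=
    fun i a y b c d => by
      have e : y ∉ K := fun e => h.not_both ⟨y, mem_inter.2 ⟨(mem_inter.1 b).1, e⟩⟩ a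
      refine ⟨⟨y, ?_⟩, mem_filter.2 ⟨mem_univ _, a, (mem_inter.1 b).1⟩⟩
      simp only [hZ, mem_union, mem_sdiff, mem_inter] at b c ⊢; tauto
  have l1 : cn (fun i => (F i ∩ Y).card = 1 ∧ ¬ (F i ∩ Z).Nonempty) ≤ 1 :=
    (cn_mono fun i a => h.loops a.1 a.2).trans h.one.le
  have hn := h.min.neg
  rw [Fintype.card_fin, cs] at v1
  have hd : S' ⊆ Y \ Z := fun s hs => hS s (h1 hs)
  rcases h.min.ext_pen g (by omega) hH4 hd h2 cut 0 (by simp [hH]) with e | ⟨W, w1, w2, w3⟩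
  · omega
  have sy := g.sys h.min.sys hH4
  have w4 : ∀ a s, s ∈ H a → 3 ≤ (H a).card := fun a s hs =>
    (w2.full (sy.sub w1.sub) ⟨_, mem_inter.2 ⟨(g.inr s a).2 hs, w3 s⟩⟩).ge.trans
      (ExtOK.size_inr a W)
  obtain ⟨s0, hs0⟩ := card_pos.1 (show 0 < (S \ S').card by omega)
  have w5 := (w4 0 ⟨s0, hs0⟩ (by simp [hH])).trans (card_le_univ _)
  rcases hx with e | ⟨s, a1, a2⟩ | ⟨D, a1, a2⟩
  · omega
  · obtain ⟨l, b1, t, b2, b3, i, b4, b5⟩ := hang_nbr hF h.min.crit h.min.conn h.sS (h2.mono h1)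
      h.hang h1 (by omega)
    have b6 : 1 ≤ bet F K t := cn_pos ⟨⟨l, mem_inter.2 ⟨b4, b1⟩⟩, b5⟩
    have b7 := w4 ⟨1, by omega⟩ ⟨t, mem_sdiff.2 ⟨b2, b3⟩⟩ (by simpa [hH] using b6)
    have := card_lt_card (ssubset_of_subset_of_ne (subset_univ (H ⟨1, by omega⟩)) fun e => by
      have := e.ge (mem_univ ⟨s, a1⟩)
      simp [hH, a2] at this)
    rw [card_univ] at this
    omega
  have d1 : (S \ S').card + (F D ∩ K).card ≤ (F D ∩ Y).card := by
    rw [← card_union_of_disjoint (h.dis.mono sdiff_subset inter_subset_right)]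
    exact card_le_card (union_subset (subset_inter a2 (sdiff_subset.trans h.sS))
      (inter_subset_inter subset_rfl h.sK))
  have d2 := card_pos.2 a1
  have d3 := h.min.sys.sz D
  have l2 : cn (fun i => (F i ∩ Y).card = 1 ∧ ¬ (F i ∩ Z).Nonempty) = 0 := cn_zero fun i a => by
    have := cn_two (p := fun i => (F i ∩ K).card = 1) (i := i) (j := D)
      (fun e => by rw [e] at a; omega) (h.loops a.1 a.2) (by omega)
    have := h.one
    unfold nn at *; omega
  have v2 := VV_split g.hF' w1.sub w1.sep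
  have v3 := w2.one (sy.sub w1.sub)
  have nh : ∀ L, Hang (ext _ _ _ H) ((Z ∪ univ.image _) \ W) L → False := fun L hL => by
    have := few_comps hF h.min.crit h.min.conn _ S' {L} rfl (h1.trans h.sS) h2 (by
      simpa using g.hang (subset_sdiff.1 hd).2 cut (hL.extend (B := W) sdiff_subset
        (fun p hp => by simp only [mem_union, mem_sdiff] at hp ⊢; tauto)
        (w1.sep.symm.mono hL.sub subset_rfl)) fun s e => (mem_sdiff.1 (hL.sub e)).2 (w3 s))
    rw [card_singleton] at this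
    omega
  have ce := g.card_eq
  obtain ⟨𝒴, y1, -, y3⟩ := h.min.ih.gen _ ((card_le_card (sdiff_subset (t := W))).trans_lt
    (ce.trans_lt (by omega))) (sy.sub sdiff_subset)
  obtain rfl : 𝒴 = ∅ := eq_empty_iff_forall_notMem.2 fun L hL => nh L (y1 L hL).1
  obtain ⟨u1, u2, u3⟩ := w2
  obtain ⟨𝒴, z1, z2, -⟩ := comps g.hF' _ (not_not.1 fun c => by
    have := y3 c
    rw [sum_empty] at this
    unfold VV at v2 v1 this hn
    omega)
  have e : W = Z ∪ univ.image _ := Subset.antisymm w1.sub fun x hx => by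
    by_contra hn
    obtain ⟨L, hL, -⟩ := z2 x (mem_sdiff.2 ⟨hx, hn⟩)
    exact nh L (z1 L hL)
  have f1 := g.nn_le
  have f2 := g.NN_le
  have f3 : cn (fun a => (H a).Nonempty) ≤ Fintype.card _ := cn_le_card univ fun _ _ => mem_univ _
  rw [← e] at ce t1 f1 f2
  rw [Fintype.card_fin] at f3
  unfold VV at hn
  have fz : Fat F Z := ⟨by omega, by omega, by omega⟩
  have sz := h.min.sys.sub (sdiff_subset : Z ⊆ Y)
  refine h.min.nb (Or.inr (Or.inr ⟨by omega, by omega, by omega, by omega, i0, Z, K, D,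
    h.tr ▸ c2, fun e => h.not_both a1 (hZ ▸ e ▸ a1), h.tr ▸ ⟨h.sZ, card_pos.1 (by omega),
      fz.crit sz, fz.conn sz, fun x hx y hy ⟨i, b1, b2⟩ => h.not_both ⟨y, mem_inter.2 ⟨b2, ?_⟩⟩
        ⟨x, mem_inter.2 ⟨b1, hx⟩⟩⟩, fz, h.tr ▸ h.hang, h.fat, by omega, by omega⟩))
  simp only [hZ, mem_union, mem_sdiff] at hy; tauto

lemma patI {s : P} (hs : s ∈ S) (h0 : bet F K s = 0) (h3 : ∀ x ∈ S.erase s, bet F K x = 3)
    (ht : ∀ x ∈ S.erase s, tau F (K ∪ (S.erase s).erase x) ≤ 2)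
    (hl : ∀ i, (F i ∩ Y).card = 1 → (F i ∩ (Y \ (S ∪ K))).Nonempty) : False := by
  classical
  have hF := h.min.hF
  obtain ⟨n1, n2, n3, n4⟩ := h.nums
  have d0 := h.deg hs
  have d1 : ∀ x ∈ S.erase s, bet F (Y \ (S ∪ K)) x = 1 := fun x hx => by
    have := h.deg (mem_of_mem_erase hx)
    have := h3 x hx
    omega
  have nb : ∀ {i}, (F i ∩ K).Nonempty → ¬ (F i ∩ (Y \ (S ∪ K))).Nonempty := h.not_both
  set Z := Y \ (S ∪ K) with hZ
  have c2 := h.c4
  have c3 := card_erase_add_one hs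
  have hS : ∀ s ∈ S, s ∈ Y \ Z := fun s hs => by simp [hZ, hs, h.sS hs]
  have hn := h.min.neg
  have un : ∀ x ∈ S.erase s, ∀ i j, (F i ∩ Z).Nonempty → x ∈ F i → (F j ∩ Z).Nonempty → x ∈ F j →
      i = j := fun x hx i j a b c d => by
    by_contra e
    have := cn_two (p := fun i => (F i ∩ Z).Nonempty ∧ x ∈ F i) e ⟨a, b⟩ ⟨c, d⟩
    have := d1 x hx
    unfold bet at this; omega
  obtain ⟨s1, hs1⟩ := card_pos.1 (show 0 < (S.erase s).card by omega)
  obtain ⟨D, D1, D2⟩ := exists_of_cn (d1 s1 hs1).ge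
  by_cases c : ∃ s2 ∈ S.erase s, s2 ∉ F D
  · obtain ⟨s2, hs2, c⟩ := c
    obtain ⟨E, E1, E2⟩ := exists_of_cn (d1 s2 hs2).ge
    set H : Fin 3 → Finset Bool := ![univ, {false}, {false}] with hH
    have g : Gad F Y Z (fun b => cond b s s1)
        (fun b => cond b (univ.filter fun i => (F i ∩ Z).Nonempty ∧ s ∈ F i) {D, E}) H
        fun b => cond b {s} (S.erase s) := by
      refine ⟨⟨hF, fun a b e => ?_, fun b => ?_, fun b i hi => ?_, fun b => ?_⟩, sdiff_subset,
        fun b => ?_, fun a b e => ?_, fun b i hi => ?_⟩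
      · cases a <;> cases b <;> first | rfl | exact absurd e (mem_erase.1 hs1).1
                                      | exact absurd e.symm (mem_erase.1 hs1).1
      · cases b
        exacts [(mem_sdiff.1 (hS _ (mem_of_mem_erase hs1))).2, (mem_sdiff.1 (hS _ hs)).2]
      · cases b
        · rcases mem_insert.1 hi with rfl | hi
          exacts [D1, mem_singleton.1 hi ▸ E1]
        · exact (mem_filter.1 hi).2.1
      · cases b
        · rw [cn_eq, cond_false, card_pair fun e : D = E => c (e ▸ E2)]; decide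
        · rw [cn_eq, cond_true, ← cn_eq]
          change bet F Z s + _ = 5
          rw [show bet F Z s = 4 by omega]; decide
      · cases b
        exacts [fun x hx => hS x (mem_of_mem_erase hx), by simpa using hS s hs]
      · cases a <;> cases b <;> simp at e ⊢
      · cases b
        · rcases mem_insert.1 hi with rfl | hi
          exacts [⟨s1, mem_inter.2 ⟨D2, hs1⟩⟩, ⟨s2, mem_inter.2 ⟨mem_singleton.1 hi ▸ E2, hs2⟩⟩]
        · exact inter_single.2 (mem_filter.1 hi).2.2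
    have hH2 : ∀ a, (H a).card ≤ 2 := fun a => card_le_univ _
    have t1 := g.tau_ge (t := tau F Y - 2) fun D x R a1 a2 => by
      rcases D.eq_empty_or_nonempty with rfl | hD
      · have b : ∀ b, b ∈ R := fun b => by by_contra hs; simpa using a1 _ hs
        have b1 := ht _ (a2 false (b _)).1
        have b2 : x true = s := mem_singleton.1 (a2 true (b _)).1
        have : tau F Y ≤ tau F (Z ∪ R.image x) + tau F (K ∪ (S.erase s).erase (x false)) :=
          tau_le_add hF fun y hy => by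
            have e1 : x true ∈ R.image x := mem_image_of_mem _ (b _)
            have e2 : x false ∈ R.image x := mem_image_of_mem _ (b _)
            simp only [hZ, mem_union, mem_sdiff, mem_erase]
            by_cases e : y = s
            · exact Or.inl (Or.inr (e ▸ b2 ▸ e1))
            by_cases e' : y = x false
            · exact Or.inl (Or.inr (e' ▸ e2))
            tauto
        omega
      · have := card_pos.2 hD
        have := tau_mono hF (subset_union_left (s₁ := Z) (s₂ := R.image x))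
        omega
    have v1 := g.vv (by omega)
    rw [cn_zero fun i a => a.2 (hl i a.1), Fintype.card_fin, Fintype.card_bool] at v1
    have c4 := card_erase_add_one hs1
    have c5 := pred_card_le_card_erase (s := (S.erase s).erase s1) (a := s2)
    have c6 := card_erase_le (s := (S.erase s).erase s1) (a := s2)
    refine (h.min.ext_pen (S' := ((S.erase s).erase s1).erase s2) g (by simp; omega)
      (fun a => (hH2 a).trans (by omega)) (fun x hx => hS x (by simp at hx; tauto))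
      (card_pos.1 (by omega)) (fun i a y b c d => ?_) 0 (by simp [hH])).elim (by omega)
      fun ⟨W, w1, w2, w3⟩ => ?_
    swap
    · have := (w2.full ((g.sys h.min.sys fun a => (hH2 a).trans (by omega)).sub w1.sub)
        ⟨_, mem_inter.2 ⟨(g.inr true 0).2 (by simp [hH]), w3 true⟩⟩).ge.trans (ExtOK.size_inr _ W)
      have := hH2 0
      omega
    have e : y ∉ K := fun e => nb ⟨y, mem_inter.2 ⟨(mem_inter.1 b).1, e⟩⟩ a
    by_cases e1 : y = s
    · exact ⟨true, mem_filter.2 ⟨mem_univ _, a, e1 ▸ (mem_inter.1 b).1⟩⟩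
    refine ⟨false, ?_⟩
    have : y = s1 ∨ y = s2 := by
      simp only [hZ, mem_union, mem_sdiff, mem_inter, mem_erase] at b c d; tauto
    rcases this with rfl | rfl
    · simp [un _ hs1 i D a (mem_inter.1 b).1 D1 D2]
    · simp [un _ hs2 i E a (mem_inter.1 b).1 E1 E2]
  push Not at c
  have hD : ∀ W ⊆ Y \ S, (F D ∩ W).Nonempty → (F D ∩ W).card = 1 := fun W hW a => by
    have a1 : (S.erase s).card + (F D ∩ W).card ≤ (F D ∩ Y).card := by
      rw [← card_union_of_disjoint (((subset_sdiff.1 hW).2.symm.mono (erase_subset _ _)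
        inter_subset_right))]
      exact card_le_card (union_subset (subset_inter c ((erase_subset _ _).trans h.sS))
        (inter_subset_inter subset_rfl (hW.trans sdiff_subset)))
    have := card_pos.2 a
    have := h.min.sys.sz D
    omega
  obtain ⟨E, hE⟩ := exists_of_cn h.one.ge
  have E1 : (F E ∩ K).Nonempty := card_pos.1 (by omega)
  have e0 : (Y \ S) \ K = Z := by ext x; simp only [hZ, mem_sdiff, mem_union]; tauto
  have E2 : F E ∩ (Y \ S) = F E ∩ K := Subset.antisymm (fun x hx => by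
    by_contra e
    refine nb E1 ⟨x, ?_⟩
    rw [← e0]
    simp only [mem_inter, mem_sdiff] at hx e ⊢; tauto) (inter_subset_inter subset_rfl h.hang.sub)
  have r1 := h.min.rem h.tr c2
  have r2 := cn_two (p := fun i => (F i ∩ (Y \ S)).card = 1 ∧ (F i ∩ S).Nonempty) (i := D) (j := E)
    (fun e => nb E1 (e ▸ D1)) ⟨hD _ subset_rfl (D1.mono (inter_subset_inter subset_rfl h.sZ)),
      s1, mem_inter.2 ⟨D2, mem_of_mem_erase hs1⟩⟩ ⟨E2 ▸ hE, by
        by_contra e
        refine nb E1 (hl E (hE ▸ E2 ▸ congrArg card ?_))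
        ext x
        have : x ∈ F E → x ∉ S := fun a b => e ⟨x, mem_inter.2 ⟨a, b⟩⟩
        simp only [mem_inter, mem_sdiff]; tauto⟩
  have r3 := VV_split hF h.hang.sub h.hang.sep
  have r4 := h.one
  obtain ⟨𝒴, y1, y2, -⟩ := h.min.ih.gen Z (by omega) (h.min.sys.sub sdiff_subset)
  obtain ⟨L, hL⟩ : 𝒴.Nonempty := by
    by_contra e
    obtain ⟨a, b, c⟩ := h.fat
    rw [not_nonempty_iff_eq_empty.1 e, sum_empty] at y2
    rw [e0] at r3
    unfold VV at r3 r1 y2 hn; omega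
  obtain ⟨l1, l2⟩ := y1 L hL
  have l3 : Hang F (Y \ S) L := l1.extend (B := K) h.sZ (fun x hx => by
    simp only [hZ, mem_union, mem_sdiff] at hx ⊢; tauto) fun x a y b ⟨i, e1, e2⟩ =>
      nb ⟨y, mem_inter.2 ⟨e2, b⟩⟩ ⟨x, mem_inter.2 ⟨e1, l1.sub a⟩⟩
  obtain ⟨l, b1, t, b2, b3, i, b4, b5⟩ := hang_nbr hF h.min.crit h.min.conn h.sS ⟨s, hs⟩ l3
    (S0 := {s}) (by simpa using hs) (by simp)
  have b6 := mem_erase.2 ⟨by simpa using b3, b2⟩
  obtain rfl := un t b6 i D ⟨l, mem_inter.2 ⟨b4, l1.sub b1⟩⟩ b5 D1 (c t b6)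
  have b7 := nn_pos (hD L l3.sub ⟨l, mem_inter.2 ⟨b4, b1⟩⟩)
  have sL := h.min.sys.sub (l3.sub.trans sdiff_subset)
  have fL : Fat F L := by
    rcases l2 with e | e | e
    · exact e
    · have := e.one sL; omega
    · have := e.2.2.2.1; omega
  have k : Ft F Y S L i0 := ⟨h.min, h.tr, c2, l3, fL⟩
  by_cases e : 1 ≤ bet F L s
  · obtain ⟨j, ⟨x, hx⟩, e⟩ := exists_of_cn e
    refine k.red (S' := {s}) (by simpa using hs) (by simp) (by simp)
      (fL.2.2 ▸ absorb hF l3.crit (mem_inter.1 hx).2 (mem_inter.1 hx).1 (by simpa using e))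
      (fun x hx => ?_) (Or.inr (Or.inr ⟨i, ⟨l, mem_inter.2 ⟨b4, b1⟩⟩, ?_⟩))
    · rw [sdiff_singleton_eq_erase] at hx
      exact (cn_mono fun j a => ⟨a.1.mono (inter_subset_inter subset_rfl l1.sub), a.2⟩).trans
        (d1 x hx).le
    · rw [sdiff_singleton_eq_erase]; exact c
  · refine k.red (S' := S.erase s) (erase_subset _ _) ⟨_, hs1⟩ (by omega)
      (fL.2.2 ▸ absorb hF l3.crit b1 b4 c) (fun x hx => ?_) (Or.inl (by omega))
    obtain rfl : x = s := by simp only [mem_sdiff, mem_erase] at hx; tauto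
    omega

end Ft

end Pool.Agent.Lib.MP_0828a1_co
end

-- part Pool.Agent.Lib.MP_0828a1_co.TzF
section

/-! No fat triangle hangs from a trace with four points. -/

open Finset

set_option linter.unusedSectionVars false

namespace Pool.Agent.Lib.MP_0828a1_co

variable {I P : Type} [Fintype I] [DecidableEq P] [Fintype P] {F : I → Finset P}
  {Y S K : Finset P}

lemma pts_xor {p : Par} {bp : ℕ → P} {L : ℕ → Finset P} (t : Cf p F Y bp L) {X s : ℕ}
    (hs : s < p.nb) (h : X.testBit s = true) :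
    pts p.nb bp (X ^^^ 2 ^ s) = (pts p.nb bp X).erase (bp s) := by
  ext x
  simp only [mem_erase, mem_pts, Nat.testBit_xor, Nat.testBit_two_pow]
  constructor
  · rintro ⟨b, a1, a2, rfl⟩
    have e : s ≠ b := fun e => by simp [← e, h] at a2
    exact ⟨fun e' => e (t.inj b a1 s hs e').symm, b, a1, by simpa [e] using a2, rfl⟩
  · rintro ⟨a0, b, a1, a2, rfl⟩
    have e : s ≠ b := fun e => a0 (e ▸ rfl)
    exact ⟨b, a1, by simpa [e] using a2, rfl⟩

theorem Ft.elim {i0 : I} (h : Ft F Y S K i0) : False := by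
  classical
  have hF := h.min.hF
  obtain ⟨x0, -⟩ := h.hang.ne
  obtain ⟨f, hf, hf'⟩ := exists_enum x0 (bet F K) S
  obtain ⟨g, hg, hg'⟩ := exists_enum x0
    (fun x => cn fun i => x ∈ F i ∧ ¬ (F i ∩ K.erase x).Nonempty) K
  rw [h.c4] at hf hf'
  rw [h.fat.1] at hg hg'
  set bp := cat 4 f g with hbp
  have en := hf.cat hg h.dis
  have e1 : pts pB4.nb bp 15 = S := pts_block (n := 0) hf (by decide)
    (fun b hb => by simp [hbp, cat, hb]) (by decide)
  have e2 : pts pB4.nb bp 112 = K := pts_block (n := 4) hg (by decide)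
    (fun b hb => by simp [hbp, cat]) (by decide)
  have e3 : pts pB4.nb bp 127 = S ∪ K := en.full
  have t : Cf pB4 F Y bp fun _ => Y \ (S ∪ K) := ⟨h.min.sys, by decide, en.inj,
    fun b hb => union_subset h.sS h.sK (en.mem b hb), fun _ _ => sdiff_subset,
    fun _ _ b hb e => (mem_sdiff.1 e).2 (en.mem b hb),
    fun j a j' b e => (e (by change j < 1 at a; change j' < 1 at b; omega)).elim,
    fun x hx => (em (x ∈ S ∪ K)).imp (en.sur x) fun e => ⟨0, by decide, mem_sdiff.2 ⟨hx, e⟩⟩,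
    by simpa [pB4] using ⟨by decide, i0, h.tr.trans e1.symm⟩⟩
  have tK : ∀ i, (anyB 7 112).testBit (typ pB4 F bp (fun _ => Y \ (S ∪ K)) i) = true ↔
      (F i ∩ K).Nonempty := fun i => by
    have := t.t_any 112 i
    rwa [e2] at this
  have kb : ∀ b < 4, (sem pB4 F Y bp fun _ => Y \ (S ∪ K)).cnt (bb b) = bet F K (bp b) :=
    fun b hb => Cf.cnt_eq fun i => by
      rw [bb, Nat.testBit_and, Bool.and_eq_true, t.t_col (show b < 7 by omega), tK]
  have z0 : ∀ i, typ pB4 F bp (fun _ => Y \ (S ∪ K)) i < 128 ↔ (F i ∩ (Y \ (S ∪ K))).Nonempty :=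
    fun i => by
      rw [← t.jj_eq (j := 0) (by decide) i, ← Cf.typ_div (bp := bp)]
      exact (Nat.div_eq_zero_iff_lt (by decide)).symm
  have mS : ∀ b < 4, bp b ∈ S := fun b hb => by
    rw [← e1, t.mem_bp (show b < 7 by omega)]; interval_cases b <;> rfl
  have ho : ∀ X, ∀ y ∈ S \ pts pB4.nb bp X, ∃ x ∈ oth X, x < 4 ∧ bp x = y := fun X y hy => by
    obtain ⟨b, a1, rfl⟩ := hf.sur y (mem_sdiff.1 hy).1
    have a2 : bp b = f b := if_pos a1
    have a3 := (mem_sdiff.1 hy).2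
    rw [← a2, t.mem_bp (show b < 7 by omega)] at a3
    refine ⟨b, mem_bitsOf.2 ⟨a1, ?_⟩, a1, a2⟩
    have : (15 : ℕ).testBit b = true := by interval_cases b <;> rfl
    simpa [this] using a3
  have R : ∀ X < 15, 1 ≤ pc 7 X → tau F (pts pB4.nb bp (112 ||| X)) ≤ 2 →
      (∀ x ∈ oth X, (sem pB4 F Y bp fun _ => Y \ (S ∪ K)).cnt (bb x) ≤ pc 7 X) →
      ¬ (2 ≤ pc 7 X ∨ (∃ s ∈ S \ pts pB4.nb bp X, bet F K s = 0) ∨
        ∃ D, (F D ∩ K).Nonempty ∧ S \ pts pB4.nb bp X ⊆ F D) := fun X a1 a2 a3 a4 a5 => by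
    have c : (pts pB4.nb bp X).card = pc 7 X := t.card_pts X
    refine h.red (S' := pts pB4.nb bp X) ((pts_mono ?_).trans e1.le) (card_pos.1 (by omega)) (c ▸ ?_)
      ((tau_mono hF ?_).trans a3) (fun s hs => ?_) (c ▸ a5)
    · clear a2 a3 a4 a5 c; revert X; decide
    · clear a2 a3 a4 a5 c; revert X; decide
    · exact union_subset (e2.ge.trans (pts_mono fun b _ e => by simp [e]))
        (pts_mono fun b _ e => by simp [e])
    · obtain ⟨x, b1, b2, rfl⟩ := ho X s hs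
      exact c ▸ kb x b2 ▸ a4 x b1
  have p1 : ∀ s < 4, 2 ^ s < 15 ∧ pc 7 (2 ^ s) = 1 := by decide
  have p2 : ∀ s < 4, pts pB4.nb bp (15 ^^^ 2 ^ s) = S.erase (bp s) := fun s hs => by
    rw [pts_xor t (show s < 7 by omega) (by interval_cases s <;> rfl), e1]
  have p3 : ∀ s < 4, S \ pts pB4.nb bp (2 ^ s) = S.erase (bp s) := fun s hs => by
    rw [t.pts_one (show s < 7 by omega), sdiff_singleton_eq_erase]
  refine ZB4.refute (t.himp fun i => Bool.eq_false_iff.2 fun c => ?_) fun r a H => ?_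
  · have a1 := t.t_pc 112 i
    have a2 := t.t_pc 15 i
    have a3 := z0 i
    have a4 := t.t_one (X := 0) (by decide) i
    rw [e2] at a1
    rw [e1] at a2
    rw [MP_0828a1_co.one, Nat.testBit_two_pow] at a4
    simp only [pB4, Bool.and_eq_true, Bool.or_eq_true, decide_eq_true_eq] at c a1 a2 a3 a4
    rcases c with (c | c) | c
    · exact h.not_both (card_pos.1 (by omega)) (a3.1 c.1)
    · have := h.fat.small i; omega
    · have := h.inside (j := i) (nonempty_iff_ne_empty.2 fun e => by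
        have := a4.2 (by simp [e, pts]); omega) (fun e => by have := card_pos.2 e; omega)
        fun e => by have := a3.2 e; omega
      have b := h.c4
      rw [this, inter_eq_right.2 (h.tr ▸ inter_subset_left)] at a2
      rw [this] at c
      omega
  unfold cB4 at H
  split at H
  · simp only [List.forall_mem_cons, Cond.holds] at H
    obtain ⟨i, j, a1, a2, a3⟩ := exists_two H.1
    have b := fun i a => ((t.t_one (X := 15) (by decide) i).1 a).trans e1
    have c := fun i a => h.min.uniq h.tr h.c4 (j := i) (b i a ▸ ⟨_, mS 0 (by omega)⟩) (b i a).le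
    exact a1 ((c i a2).trans (c j a3).symm)
  · simp only [List.forall_mem_cons, Cond.holds] at H
    have b1 : (sem pB4 F Y bp fun _ => Y \ (S ∪ K)).cnt (anyB 7 112) = NN F K :=
      (Cf.cnt_eq tK).trans (NN_eq K).symm
    have := h.fat.2.1
    omega
  · simp only [List.forall_mem_cons, Cond.holds] at H
    obtain ⟨a1, a2, a3, a4, -⟩ := H
    obtain ⟨i, hi⟩ := exists_of_cn a2
    obtain ⟨j, hj⟩ := exists_of_cn a3
    have b1 := tau_le_one ((t.t_all _ i).1 hi)
    have b2 := tau_le_one ((t.t_all _ j).1 hj)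
    exact a4 ((tau_le_add hF ((pts_mono fun b _ => sub_bit a1).trans TC.pts_or)).trans (by omega))
  · simp only [List.forall_mem_cons, Cond.holds] at H
    have a1 : tau F (S ∪ K) ≤ 2 := (tau_mono hF e3.ge).trans H.1
    have a2 : tau F Y ≤ tau F (S ∪ K) + tau F (Y \ (S ∪ K)) := tau_le_add hF fun x hx => by
      simp only [mem_union, mem_sdiff]; tauto
    have := h.nums
    omega
  · rename_i s
    simp only [List.forall_mem_cons, List.forall_mem_map, Cond.holds, decide_eq_true_eq] at H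
    obtain ⟨l, b1, u, b2, b3, i, b4, b5⟩ := hang_nbr hF h.min.crit h.min.conn h.sS ⟨_, mS s H.1⟩
      h.hang (S0 := pts pB4.nb bp (2 ^ s)) (by rw [t.pts_one (show s < 7 by omega)]; simp [mS s H.1])
      ((t.card_pts _).trans (p1 s H.1).2).le
    obtain ⟨x, c1, c2, rfl⟩ := ho _ u (mem_sdiff.2 ⟨b2, b3⟩)
    have : 1 ≤ bet F K (bp x) := cn_pos ⟨⟨l, mem_inter.2 ⟨b4, b1⟩⟩, b5⟩
    have := kb x c2 ▸ H.2 x c1
    omega
  · simp only [List.forall_mem_cons, List.forall_mem_map, Cond.holds, decide_eq_true_eq] at H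
    exact R _ H.1.1 (by omega) H.2.1 H.2.2 (Or.inl H.1.2)
  · rename_i s u
    simp only [List.forall_mem_cons, List.forall_mem_map, Cond.holds, decide_eq_true_eq] at H
    obtain ⟨⟨a1, a2, a3⟩, a4, a5, a6⟩ := H
    refine R _ (p1 s a1).1 (p1 s a1).2.ge a4 ((p1 s a1).2 ▸ a6) (Or.inr (Or.inl ⟨bp u, ?_, ?_⟩))
    · rw [p3 s a1]
      exact mem_erase.2 ⟨fun e => a3 (t.inj u (show u < 7 by omega) s (show s < 7 by omega) e).symm,
        mS u a2⟩
    · exact Nat.le_zero.1 (kb u a2 ▸ a5)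
  · rename_i s
    simp only [List.forall_mem_cons, List.forall_mem_map, Cond.holds, decide_eq_true_eq] at H
    obtain ⟨a1, a4, a5, a6⟩ := H
    obtain ⟨i, hi⟩ := exists_of_cn a5
    rw [Nat.testBit_and, Bool.and_eq_true] at hi
    exact R _ (p1 s a1).1 (p1 s a1).2.ge a4 ((p1 s a1).2 ▸ a6) (Or.inr (Or.inr
      ⟨i, (tK i).1 hi.1, ((p3 s a1).trans (p2 s a1).symm).le.trans ((t.t_all _ i).1 hi.2)⟩))
  · rename_i s
    simp only [List.forall_mem_cons, List.forall_mem_flatMap, Cond.holds, decide_eq_true_eq] at H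
    obtain ⟨a1, a2, a3, a4⟩ := H
    refine h.patI (mS s a1) (Nat.le_zero.1 (kb s a1 ▸ a2)) (fun y hy => ?_) (fun y hy => ?_)
      fun i hi => ?_
    · obtain ⟨x, c1, c2, rfl⟩ := ho _ y (p3 s a1 ▸ hy)
      exact kb x c2 ▸ le_antisymm (a4 x c1).2.1 (a4 x c1).1
    · obtain ⟨x, c1, c2, rfl⟩ := ho _ y (p3 s a1 ▸ hy)
      refine (tau_mono hF ?_).trans (a4 x c1).2.2.1
      rw [← p2 s a1, ← pts_xor t (show x < 7 by omega) (mem_bitsOf.1 c1).2]
      exact union_subset (e2.ge.trans (pts_mono fun b _ e => by simp [e]))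
        (pts_mono fun b _ e => by rw [Nat.testBit_or, e, Bool.or_true])
    · by_contra e
      refine absurd (a3.trans' (cn_pos (i := i) ((mkm_bit _ _ _).2 ⟨Cf.typ_lt' i, ?_⟩))) (by omega)
      have b1 := (t.inside i).1 fun _ _ => e
      have b2 := t.t_pc' i
      rw [← Subset.antisymm (subset_inter inter_subset_left b1)
        (inter_subset_inter subset_rfl (t.pts_sub _)), hi] at b2
      rw [Bool.and_eq_true, decide_eq_true_eq, decide_eq_true_eq]
      exact ⟨not_lt.1 fun c => e ((z0 i).1 c), b2⟩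
  · refine t.gen0_ok ?_ _ _ H
    have kf : ∀ b, 4 ≤ b → b < 7 → (sem pB4 F Y bp fun _ => Y \ (S ∪ K)).cnt (ff b) =
        cn fun i => bp b ∈ F i ∧ ¬ (F i ∩ K.erase (bp b)).Nonempty := fun b a hb =>
      Cf.cnt_eq fun i => by
        have := t.t_any (112 ^^^ 2 ^ b) i
        rw [pts_xor t hb (by interval_cases b <;> rfl), e2] at this
        rw [ff, Nat.testBit_and, Bool.and_eq_true, t.t_col hb, t.t_not]
        exact and_congr_right' (not_congr this)
    change ∀ x ∈ [(bb 0, bb 1), (bb 1, bb 2), (bb 2, bb 3), (ff 4, ff 5), (ff 5, ff 6)], _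
    simp (disch := omega) only [List.forall_mem_cons, kb, kf]
    exact ⟨hf' 0 1 (by omega) (by omega), hf' 1 2 (by omega) (by omega),
      hf' 2 3 (by omega) (by omega), hg' 0 1 (by omega) (by omega), hg' 1 2 (by omega) (by omega),
      by simp⟩

end Pool.Agent.Lib.MP_0828a1_co
end

-- part Pool.Agent.Lib.MP_0828a1_co.TzC
section

/-! The covering bound `16 τ ≤ 3 N + 3 m` for systems in which every point has degree five. -/

open Finset

set_option linter.unusedSectionVars false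

namespace Pool.Agent.Lib.MP_0828a1_co

variable {I P : Type} [Fintype I] [DecidableEq P] [Fintype P] {F : I → Finset P}
  {Y S K : Finset P} {i0 : I}

lemma MinB.noX (h : MinB F Y) (hi : F i0 ∩ Y = S) (h4 : S.card = 4) (hK : Hang F (Y \ S) K)
    (hx : XX F K) : False := by
  have hF := h.hF
  obtain ⟨c1, -, -, -, i, K1, K2, D, c2, hne, a1, f1, a2, f2, d1, d2⟩ := hx
  have sK : K ⊆ Y := hK.sub.trans sdiff_subset
  have sS : S ⊆ Y := hi ▸ inter_subset_right
  have e1 : ∀ j, (F j ∩ K).card = 4 → F j ∩ K = F j ∩ Y := fun j e =>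
    eq_of_subset_of_card_le (inter_subset_inter subset_rfl sK) (e ▸ h.sys.sz j)
  set S0 := F i ∩ K with hS0
  have e2 : F i ∩ Y = S0 := (e1 i c2).symm
  have dS : ∀ s ∈ S, s ∈ Y \ S0 := fun s hs => mem_sdiff.2 ⟨sS hs, fun e =>
    (mem_sdiff.1 (hK.sub (mem_inter.1 e).2)).2 hs⟩
  have ad : ∀ L, Hang F (K \ S0) L → Fat F L → ∃ k ∈ L, ∃ s ∈ S, Adj F k s := fun L a f => by
    by_contra hn
    push Not at hn
    refine Ft.elim ⟨h, e2, c2, a.extend (B := Y \ K) (sdiff_subset_sdiff sK subset_rfl)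
      (fun p hp => by simp only [mem_union, mem_sdiff] at hp ⊢; tauto) fun x hx y hy => ?_, f⟩
    by_cases e : y ∈ S
    · exact hn x hx y e
    · exact hK.sep x (mem_sdiff.1 (a.sub hx)).1 y (by
        simp only [mem_sdiff] at hy ⊢; tauto)
  obtain ⟨L, l1, l2⟩ := (h.four e2 c2).2
  have sub : ∀ M, Hang F (K \ S0) M → M ⊆ Y \ S0 := fun M a =>
    a.sub.trans (sdiff_subset_sdiff sK subset_rfl)
  have cl : ∀ M, Hang F (K \ S0) M → Fat F M → ∀ x ∈ M, x ∈ L → M ⊆ L := fun M a f x b c y d =>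
    l1.sep.mem_of c (sub M a d) (f.adj (h.sys.sub ((sub M a).trans sdiff_subset)) b d)
  have cs : ∀ x ∈ S, x ∈ L → S ⊆ L := fun x b c y d => l1.sep.mem_of c (dS y d)
    ⟨i0, (mem_inter.1 (hi ▸ b : x ∈ F i0 ∩ Y)).1, (mem_inter.1 (hi ▸ d : y ∈ F i0 ∩ Y)).1⟩
  have sp := a1.sep_of_ne a2 hne
  have e3 : K1 ∪ K2 = K \ S0 := eq_of_subset_of_card_le (union_subset a1.sub a2.sub) (by
    have : _ + S0.card = _ := card_sdiff_add_card_eq_card (inter_subset_right : S0 ⊆ K)
    rw [card_union_of_disjoint (sp.disjoint hF), f1.1, f2.1]; omega)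
  obtain ⟨k1, b1, s1, b2, b3⟩ := ad K1 a1 f1
  obtain ⟨k2, b4, s2, b5, b6⟩ := ad K2 a2 f2
  have m2 : S ⊆ L → K2 ⊆ L := fun e =>
    cl K2 a2 f2 k2 b4 (l1.sep.mem_of (e b5) (sub K2 a2 b4) b6.symm)
  have e4 : K2 ⊆ L := by
    obtain ⟨l, g1, t, g2, -, g3⟩ := hang_nbr hF h.crit h.conn (inter_subset_right.trans sK)
      (card_pos.1 (c2 ▸ by omega)) l1 (empty_subset _) (by simp)
    by_cases e : l ∈ S
    · exact m2 (cs l e g1)
    have g4 := mem_sdiff.1 (l1.sub g1)
    have g5 := hK.sep.mem_of (mem_inter.1 g2).2 (mem_sdiff.2 ⟨g4.1, e⟩) g3.symm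
    rcases mem_union.1 (e3.ge (mem_sdiff.2 ⟨g5, g4.2⟩)) with e | e
    · exact m2 (cs s1 b2 (l1.sep.mem_of (cl K1 a1 f1 l e g1 b1) (dS _ b2) b3))
    · exact cl K2 a2 f2 l e g1
  obtain ⟨z, hz⟩ := card_pos.1 (show 0 < (F D ∩ K2).card by omega)
  have e5 : F D ∩ L = F D ∩ K2 := Subset.antisymm (fun x hx => by
    have g1 := mem_sdiff.1 (l1.sub (mem_inter.1 hx).2)
    have g2 := (e1 D d2).ge (mem_inter.2 ⟨(mem_inter.1 hx).1, g1.1⟩)
    rcases mem_union.1 (e3.ge (mem_sdiff.2 ⟨(mem_inter.1 g2).2, g1.2⟩)) with e | e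
    · exact (sp x e z (mem_inter.1 hz).2 ⟨D, (mem_inter.1 hx).1, (mem_inter.1 hz).1⟩).elim
    · exact mem_inter.2 ⟨(mem_inter.1 hx).1, e⟩) (inter_subset_inter subset_rfl e4)
  have := nn_pos (e5 ▸ d1 : (F D ∩ L).card = 1)
  rcases l2 with e | e | e
  · exact Ft.elim ⟨h, e2, c2, l1, e⟩
  · have := e.one (h.sys.sub (l1.sub.trans sdiff_subset)); omega
  · have := e.2.2.2.1; omega

lemma MinB.noH (h : MinB F Y) (hi : F i0 ∩ Y = S) (h4 : S.card = 4) (hK : Hang F (Y \ S) K)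
    (hx : HH F K) : False := by
  have hF := h.hF
  have sK : K ⊆ Y := hK.sub.trans sdiff_subset
  have sy := h.sys.sub sK
  obtain ⟨k, b1, s, b2, -, i, b3, b4⟩ := hang_nbr hF h.crit h.conn (hi ▸ inter_subset_right)
    (card_pos.1 (by omega)) hK (empty_subset _) (by simp)
  have sp : ∀ j, (F j ∩ K).card + (F j ∩ (Y \ K)).card = (F j ∩ Y).card := fun j => by
    rw [← card_union_of_disjoint (disjoint_sdiff.mono inter_subset_right inter_subset_right),
      ← inter_union_distrib_left, union_sdiff_of_subset sK]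
  have c1 := hx.full sy ⟨k, mem_inter.2 ⟨b3, b1⟩⟩
  have c2 : s ∈ F i ∩ (Y \ K) := mem_inter.2 ⟨b4, mem_sdiff.2 ⟨(mem_inter.1 (hi.ge b2)).2,
    fun e => (mem_sdiff.1 (hK.sub e)).2 b2⟩⟩
  have c3 := card_pos.2 ⟨s, c2⟩
  have c4 := sp i
  have c5 := h.sys.sz i
  have c6 : (F i ∩ Y).card = 4 := by omega
  obtain ⟨L, l1, l2⟩ := (h.four rfl c6).2
  have sL := h.sys.sub (l1.sub.trans sdiff_subset)
  have hL : HH F L := by
    rcases l2 with e | e | e
    exacts [(Ft.elim ⟨h, rfl, c6, l1, e⟩).elim, e, (h.noX rfl c6 l1 e).elim]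
  have le : ∀ j, (F j ∩ L).card ≤ (F j ∩ (K \ F i)).card + (F j ∩ (Y \ K)).card := fun j =>
    (card_le_card fun x hx => by
      have := l1.sub (mem_inter.1 hx).2
      simp only [mem_union, mem_inter, mem_sdiff] at hx this ⊢; tauto).trans (card_union_le _ _)
  obtain ⟨l, g1, t, g2, g3, j, g4, g5⟩ := hang_nbr hF h.crit h.conn inter_subset_right
    (card_pos.1 (by omega)) l1 (S0 := F i ∩ (Y \ K)) (inter_subset_inter subset_rfl sdiff_subset)
    (by omega)
  have g6 : t ∈ K := by simp only [mem_inter, mem_sdiff] at g2 g3; tauto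
  have g7 := hx.full sy ⟨t, mem_inter.2 ⟨g5, g6⟩⟩
  have g8 := hL.full sL ⟨l, mem_inter.2 ⟨g4, g1⟩⟩
  obtain ⟨x, x1⟩ : (L ∩ K).Nonempty := by
    by_contra e
    have : F j ∩ L ⊆ F j ∩ (Y \ K) := inter_subset_inter subset_rfl fun y hy =>
      mem_sdiff.2 ⟨(mem_sdiff.1 (l1.sub hy)).1, fun a => e ⟨y, mem_inter.2 ⟨hy, a⟩⟩⟩
    have := card_le_card this
    have := sp j
    have := h.sys.sz j
    omega
  obtain ⟨x1, x2⟩ := mem_inter.1 x1
  have x3 : x ∉ F i := fun e => (mem_sdiff.1 (l1.sub x1)).2 (mem_inter.2 ⟨e, sK x2⟩)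
  have sB : K \ F i ⊆ L := fun y hy => l1.sep.mem_of x1 (by
    have := sK (mem_sdiff.1 hy).1
    simp only [mem_inter, mem_sdiff] at hy ⊢; tauto) (by
      by_contra e
      have := ten sy x2 (mem_sdiff.1 hy).1 e
      have := cn_pos (p := fun i => (F i ∩ K).Nonempty ∧ x ∉ F i ∧ y ∉ F i)
        ⟨⟨k, mem_inter.2 ⟨b3, b1⟩⟩, x3, (mem_sdiff.1 hy).2⟩
      have := hx.2.1
      omega)
  have n0 := card_sdiff_add_card_inter K (F i)
  rw [inter_comm] at n0
  have n1 := (sy.sub (sdiff_subset : K \ F i ⊆ K)).count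
  have n2 : nn F (K \ F i) 1 = 0 := cn_zero fun j e => by
    obtain ⟨y, hy⟩ := card_pos.1 (show 0 < (F j ∩ (K \ F i)).card by omega)
    have := hx.full sy ⟨y, inter_subset_inter subset_rfl sdiff_subset hy⟩
    have := hL.full sL ⟨y, inter_subset_inter subset_rfl sB hy⟩
    have := le j
    have := sp j
    have := h.sys.sz j
    omega
  have n3 : ∀ j, (F j ∩ (K \ F i)).card ≤ 2 := fun j => by
    by_contra e
    have := tau_le_one (inter_eq_right.1 (eq_of_subset_of_card_le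
      (inter_subset_right (s₁ := F j) (s₂ := K \ F i)) (by have := hx.1; omega)))
    have := tau_sdiff_set hF K i
    have := hx.2.2
    omega
  have n4 : nn F (K \ F i) 3 = 0 := cn_zero fun j e => by have := n3 j; omega
  have n5 : nn F (K \ F i) 4 = 0 := cn_zero fun j e => by have := n3 j; omega
  have := hx.1
  omega

theorem bb_all (P : Type) [DecidableEq P] [Fintype P] (n : ℕ) : BB P n := by
  induction n with
  | zero => exact fun _ _ _ _ h => by omega
  | succ n ih =>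
  intro I _ F X hn s hc hco hne
  by_contra hx
  push Not at hx
  have h : MinB F X := ⟨s, fun I _ F X' a => ih I F X' (by omega), hc, hco, hx.1, hx.2⟩
  by_cases e : ∃ i, (F i ∩ X).card = 4
  · obtain ⟨i, e⟩ := e
    obtain ⟨K, a, b | b | b⟩ := (h.four rfl e).2
    exacts [Ft.elim ⟨h, rfl, e, a, b⟩, h.noH rfl e a b, h.noX rfl e a b]
  · push Not at e
    exact hx.1.not_ge (thm_A ⟨s.hF, s.deg, fun i => by have := s.sz i; have := e i; omega⟩ hc hco
      (fun a => hx.2 (Or.inl a)) fun a => hx.2 (Or.inr (Or.inl a)))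

theorem thm_C (hF : ∀ p, ∃ i, p ∈ F i) (X : Finset P) :
    (∀ p ∈ X, cn (fun i => p ∈ F i) = 5) → 16 * tau F X ≤ 3 * NN F X + 3 * X.card := by
  induction X using Finset.strongInductionOn with
  | _ X ih =>
  intro hd
  by_cases e : ∃ i, 5 ≤ (F i ∩ X).card
  · obtain ⟨i, e⟩ := e
    have h1 := card_sdiff_add_card_inter X (F i)
    have h0 : X \ (F i ∩ X) = X \ F i := by ext x; simp only [mem_sdiff, mem_inter]; tauto
    have h2 := NN_remove (F := F) (X := X) (B := F i ∩ X) {i} (by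
      simpa using card_pos.1 (by omega))
    rw [inter_comm] at h1
    rw [h0, card_singleton] at h2
    have h3 := ih (X \ F i) (ssubset_of_subset_of_ne sdiff_subset fun e => by
      rw [e] at h1; omega) fun p hp => hd p (mem_sdiff.1 hp).1
    have := tau_sdiff_set hF X i
    omega
  push Not at e
  have s : Sys 4 F X := ⟨hF, hd, fun i => by have := e i; omega⟩
  obtain ⟨𝒴, a1, a2, -⟩ := (bb_all P _).gen X (Nat.lt_succ_self _) s
  rcases 𝒴.eq_empty_or_nonempty with rfl | ⟨K, hK⟩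
  · have := s.count
    rw [sum_empty] at a2
    unfold VV at a2; omega
  obtain ⟨b1, b2⟩ := a1 K hK
  have h1 := ih _ (sdiff_ssubset b1.sub b1.ne) fun p hp => hd p (mem_sdiff.1 hp).1
  have h2 := tau_split hF b1.sub b1.sep
  have h3 := NN_split b1.sub b1.sep
  have h4 := card_sdiff_add_card_eq_card b1.sub
  rcases b2 with ⟨a, b, c⟩ | ⟨a, b, c⟩ | ⟨a, b, c, -⟩ <;> omega

end Pool.Agent.Lib.MP_0828a1_co
end
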