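import Pool.Agent.Lib.MP_0828a1_co.Dom
import Pool.Agent.Lib.MP_0828a1_co.TzC

/-! Domination in six-uniform hypergraphs: the bound `16 γ ≤ 3 n` and the extremal example. -/

open Finset

namespace Pool.Agent.Lib.MP_0828a1_co

theorem dom_six {n : ℕ} {E : Finset (Finset (Fin n))} (h : UniformNoIsolated 6 E) :
    16 * domNumber E ≤ 3 * n := by
  classical
  obtain ⟨G, hG, hmin⟩ := exists_min_image (E.powerset.filter fun G => ∀ v, ∃ e ∈ G, v ∈ e)
    card ⟨E, by simpa using h.2⟩
  simp only [mem_filter, mem_powerset] at hG hmin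
  have hpriv : ∀ e : G, ∃ v, v ∈ e.1 ∧ ∀ e' : G, v ∈ e'.1 → e' = e := fun e => by
    by_contra hn
    push Not at hn
    have := hmin (G.erase e) ⟨(erase_subset _ _).trans hG.1, fun v => by
      obtain ⟨f, hf, hv⟩ := hG.2 v
      by_cases hfe : f = e
      · obtain ⟨e', h1, h2⟩ := hn v (hfe ▸ hv)
        exact ⟨e', mem_erase.2 ⟨fun he => h2 (Subtype.ext he), e'.2⟩, h1⟩
      · exact ⟨f, mem_erase.2 ⟨hfe, hf⟩, hv⟩⟩
    have h2 := card_erase_add_one e.2
    omega
  choose priv hp1 hp2 using hpriv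
  set F : Fin n → Finset G := fun v => univ.filter fun e => v ∈ e.1 ∧ v ≠ priv e with hFdef
  have hr : ∀ e : G, cn (fun v => e ∈ F v) = 5 := fun e => by
    have : (univ.filter fun v => e ∈ F v) = e.1.erase (priv e) := by
      ext v; simp [hFdef, and_comm]
    rw [cn_eq, this, card_erase_of_mem (hp1 e), h.1 e (hG.1 e.2)]
  have hF : ∀ p, ∃ i, p ∈ F i := fun p => exists_of_cn (by rw [hr p]; omega)
  have h1 := thm_C hF univ fun p _ => hr p
  have h2 : domNumber E ≤ tau F univ := by
    obtain ⟨C, hC, hc⟩ := exists_opt hF (univ : Finset G)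
    refine hC ▸ domNumber_le fun v hv => ?_
    obtain ⟨e, he, hve⟩ := hG.2 v
    obtain ⟨u, hu, hue⟩ := hc ⟨e, he⟩ (mem_univ _)
    exact ⟨u, hu, fun huv => hv (huv ▸ hu), e, hG.1 he, (mem_filter.1 hue).2.1, hve⟩
  have h3 : NN F univ + G.card ≤ n := by
    have hinj : Function.Injective priv := fun e e' he => hp2 e' e (he ▸ hp1 e)
    have hc : (univ.image priv).card = G.card := by
      rw [card_image_of_injective _ hinj]; simp
    have hd : Disjoint (univ.filter fun i => (F i ∩ univ).Nonempty) (univ.image priv) :=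
      disjoint_left.2 fun v hv hv' => by
        obtain ⟨e, he⟩ := (mem_filter.1 hv).2
        obtain ⟨e', -, rfl⟩ := mem_image.1 hv'
        have := (mem_filter.1 (mem_inter.1 he).1).2
        exact this.2 (by rw [hp2 e' e this.1])
    have := card_le_univ ((univ.filter fun i => (F i ∩ univ).Nonempty) ∪ univ.image priv)
    rw [card_union_of_disjoint hd, hc, Fintype.card_fin] at this
    unfold NN
    convert this
  rw [card_univ, Fintype.card_coe] at h1
  omega

/-- the dual of the design with six points and ten triples, with a private vertex in each edge -/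
def des (p : Fin 6) : Finset (Fin 16) :=
  univ.filter fun v => (![1055, 2417, 4803, 8614, 17228, 33464] p : ℕ).testBit v.1 = true

lemma ex_design : ∃ E : Finset (Finset (Fin 16)),
    UniformNoIsolated 6 E ∧ E.card = 6 ∧ 3 ≤ domNumber E := by
  have k1 : ∀ p, (des p).card = 6 := by decide +kernel
  have k2 : ∀ v, ∃ p, v ∈ des p := by decide +kernel
  have k3 : ∀ p q, p = q ∨ ∃ v, v ∈ des p ∧ v ∉ des q := by decide +kernel
  have key : ∀ u v : Fin 16, ∃ w, w ≠ u ∧ w ≠ v ∧ ∀ p, w ∈ des p → u ∉ des p ∧ v ∉ des p := by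
    decide +kernel
  refine ⟨univ.image des, ⟨by simpa using k1, by simpa using k2⟩, ?_, ?_⟩
  · rw [card_image_of_injective (f := des) _ fun p q e =>
      (k3 p q).resolve_right fun ⟨v, a, b⟩ => b (e ▸ a)]
    simp
  obtain ⟨D, hD, hd⟩ := exists_dom (univ.image des)
  rw [← hD]
  by_contra hn
  obtain ⟨D', h1, -, h2⟩ := exists_subsuperset_card_eq (n := 2) (subset_univ D) (by omega) (by simp)
  obtain ⟨u, v, -, rfl⟩ := card_eq_two.1 h2
  obtain ⟨w, a, b, c⟩ := key u v
  obtain ⟨z, z1, -, e, z2, z3, z4⟩ := hd w fun e => by simpa [a, b] using h1 e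
  obtain ⟨p, -, rfl⟩ := mem_image.1 z2
  have := c p z4
  rcases mem_insert.1 (h1 z1) with rfl | z5
  · exact this.1 z3
  · exact this.2 (mem_singleton.1 z5 ▸ z3)

end Pool.Agent.Lib.MP_0828a1_co
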