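import Pool.Agent.Lib.MP_0828a1_co.Deg3

/-! Nearly tight systems with sets of size at most three: hanging triangles. -/

open Finset

namespace Pool.Agent.Lib.MP_0828a1_co

variable {I P : Type*} [Fintype I] [DecidableEq P] {F : I → Finset P}

/-- the sets meeting `K` -/
def mts (F : I → Finset P) (K : Finset P) : Finset I := univ.filter fun i => (F i ∩ K).Nonempty

/-- the sets with two points in `K` -/
def prs (F : I → Finset P) (K : Finset P) : Finset I := univ.filter fun i => #(F i ∩ K) = 2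

/-- a nearly tight connected system that is not a triangle -/
structure NT (F : I → Finset P) (X : Finset P) (w : I → ℝ) (Φ : ℝ) : Prop where
  hF : ∀ p, ∃ i, p ∈ F i
  h3 : ∀ i, #(F i ∩ X) ≤ 3
  w0 : ∀ i, 0 ≤ w i
  hw : ∀ p ∈ X, 1 ≤ cov F w p
  hτ : 2 * tau F X = #X + 1
  phi : Φ = 6 * ∑ i, w i - 2 * #X
  lt : Φ < 13 / 4
  conn : Conn F X
  ne : #X ≠ 3

/-- three points of `X` that need two sets -/
structure Tr (F : I → Finset P) (X K : Finset P) : Prop where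
  sub : K ⊆ X
  c3 : #K = 3
  t2 : tau F K = 2

variable {X K K' : Finset P} {w : I → ℝ} {Φ : ℝ}

lemma mem_mt {i : I} : i ∈ mts F K ↔ ∃ k ∈ K, k ∈ F i := by
  simp only [mts, mem_filter, mem_univ, true_and, Finset.Nonempty, mem_inter, and_comm]

lemma mem_pr {i : I} : i ∈ prs F K ↔ #(F i ∩ K) = 2 := by simp [prs]

lemma pr_sub : prs F K ⊆ mts F K := fun i h =>
  mem_filter.2 ⟨mem_univ _, card_pos.1 (by rw [mem_pr.1 h]; omega)⟩

lemma drop_w (w0 : ∀ i, 0 ≤ w i) (hw : ∀ p ∈ X, 1 ≤ cov F w p) {B : Finset P} {E : Finset I}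
    (hE : ∀ i ∈ E, F i ∩ X ⊆ B) : ∃ u : I → ℝ, (∀ i, 0 ≤ u i) ∧ (∀ p ∈ X \ B, 1 ≤ cov F u p) ∧
      ∑ i, u i + ∑ i ∈ E, w i = ∑ i, w i := by
  classical
  refine ⟨fun i => if i ∈ E then 0 else w i, fun i => by dsimp only; split_ifs; exacts [le_rfl, w0 i],
    fun p hp => (hw p (mem_sdiff.1 hp).1).trans_eq (sum_congr rfl fun i hi => (if_neg fun h =>
      (mem_sdiff.1 hp).2 (hE i h (mem_inter.2 ⟨(mem_filter.1 hi).2, (mem_sdiff.1 hp).1⟩))).symm), ?_⟩
  rw [← sum_ite_mem_eq E, ← sum_add_distrib]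
  exact sum_congr rfl fun i _ => by split_ifs <;> simp

lemma tau_le_two {B : Finset P} (i j : I) (h : B ⊆ F i ∪ F j) : tau F B ≤ 2 := by
  classical
  exact (tau_le (C := {i, j}) fun p hp => (mem_union.1 (h hp)).elim (fun h => ⟨i, by simp, h⟩)
    fun h => ⟨j, by simp, h⟩).trans card_le_two

lemma NT.rem (c : NT F X w Φ) (B : Finset P) (E : Finset I) (t : ℕ) (hB : B ⊆ X)
    (ht : tau F B ≤ t) (hE : ∀ i ∈ E, F i ∩ X ⊆ B) :
    6 * ∑ i ∈ E, w i + #B + 3 ≤ 6 * t + Φ := by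
  obtain ⟨u, u0, u1, u2⟩ := drop_w c.w0 c.hw hE
  have h1 := frac_bound (X \ B) F c.hF (fun i => (card_le_card (inter_subset_inter subset_rfl
    sdiff_subset)).trans (c.h3 i)) u u0 u1
  have h2 : (tau F X : ℝ) ≤ t + tau F (X \ B) := by
    exact_mod_cast (tau_le_add c.hF (union_sdiff_of_subset hB).ge).trans (Nat.add_le_add_right ht _)
  have h4 : (#(X \ B) : ℝ) + #B = #X := by exact_mod_cast card_sdiff_add_card_eq_card hB
  have h5 : 2 * (tau F X : ℝ) = #X + 1 := by exact_mod_cast c.hτ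
  linarith [c.phi]

lemma Tr.le2 (h : Tr F X K) (i : I) : #(F i ∩ K) ≤ 2 := by
  by_contra hc
  have := tau_le_one (F := F) (i := i) ((eq_of_subset_of_card_le (inter_subset_right (s₁ := F i))
    (by rw [h.c3]; omega)).ge.trans inter_subset_left)
  have := h.t2
  omega

lemma Tr.miss (h : Tr F X K) {i : I} (hi : i ∈ prs F K) :
    ∃ k ∈ K, k ∉ F i := by
  obtain ⟨k, h1, h2⟩ := exists_mem_notMem_of_card_lt_card (s := F i ∩ K) (t := K)
    (by rw [mem_pr.1 hi, h.c3]; omega)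
  exact ⟨k, h1, fun e => h2 (mem_inter.2 ⟨e, h1⟩)⟩

lemma Tr.rest (h : Tr F X K) {i : I} (hi : i ∈ prs F K) {k : P} (hk : k ∈ K) (hki : k ∉ F i)
    {j : I} (hj : k ∈ F j) : K ⊆ F i ∪ F j := fun p hp => by
  by_cases e : p = k
  · exact mem_union_right _ (e ▸ hj)
  · have : F i ∩ K = K.erase k := eq_of_subset_of_card_le (fun q hq => mem_erase.2
      ⟨fun e => hki (e ▸ (mem_inter.1 hq).1), (mem_inter.1 hq).2⟩)
      (by rw [mem_pr.1 hi, card_erase_of_mem hk, h.c3])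
    exact mem_union_left _ (mem_inter.1 (this.ge (mem_erase.2 ⟨e, hp⟩))).1

lemma NT.t1 (c : NT F X w Φ) (h : Tr F X K) : 3 ≤ ∑ i ∈ mts F K, w i + ∑ i ∈ prs F K, w i := by
  have h1 : ∑ p ∈ K, (1 : ℝ) ≤ ∑ p ∈ K, cov F w p := sum_le_sum fun p hp => c.hw p (h.sub hp)
  rw [sum_cov, sum_const, h.c3] at h1
  rw [mts, prs, sum_filter, sum_filter, ← sum_add_distrib]
  refine le_trans (by simp) (h1.trans (sum_le_sum fun i _ => ?_))
  have := c.w0 i
  have h2 := h.le2 i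
  simp only [← card_pos]
  interval_cases #(F i ∩ K) <;> simp
  linarith

lemma NT.le_sum (c : NT F X w Φ) {A B : Finset I} (h : A ⊆ B) : ∑ i ∈ A, w i ≤ ∑ i ∈ B, w i :=
  sum_le_sum_of_subset_of_nonneg h fun i _ _ => c.w0 i

lemma NT.absorb (c : NT F X w Φ) (h : Tr F X K) (hW : ∑ i ∈ mts F K, w i < 2) {j : I}
    (hj : j ∈ mts F K) {t : P} (ht : t ∈ F j) : tau F (insert t K) ≤ 2 := by
  classical
  obtain ⟨k, hk, hkj⟩ := mem_mt.1 hj
  obtain ⟨p, q, hpq, e⟩ := card_eq_two.1 (show #(K.erase k) = 2 by rw [card_erase_of_mem hk, h.c3])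
  have hp : p ∈ K := mem_of_mem_erase (e.ge (by simp))
  have hq : q ∈ K := mem_of_mem_erase (e.ge (by simp))
  by_cases hc : ∃ i, p ∈ F i ∧ q ∈ F i
  · obtain ⟨i, h1, h2⟩ := hc
    refine tau_le_two i j (insert_subset (mem_union_right _ ht) ?_)
    rw [← insert_erase hk, e]
    simp [insert_subset_iff, *]
  · have h1 := c.le_sum (A := (univ.filter fun i => p ∈ F i) ∪ univ.filter fun i => q ∈ F i)
      (B := mts F K) (union_subset (fun i hi => mem_mt.2 ⟨p, hp, (mem_filter.1 hi).2⟩)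
        fun i hi => mem_mt.2 ⟨q, hq, (mem_filter.1 hi).2⟩)
    rw [sum_union (disjoint_filter.2 fun i _ a b => hc ⟨i, a, b⟩)] at h1
    have := c.hw p (h.sub hp)
    have := c.hw q (h.sub hq)
    unfold cov at *
    linarith

/-- `t` lies in a set with two points of `K` -/
def Big (F : I → Finset P) (X K : Finset P) (t : P) : Prop :=
  t ∈ X ∧ t ∉ K ∧ ∃ i ∈ prs F K, t ∈ F i

lemma NT.three (c : NT F X w Φ) : 3 ≤ Φ := by
  simpa using c.rem ∅ ∅ 0 (empty_subset _) (tau_le (C := ∅) fun p hp => by simp at hp) (by simp)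

lemma NT.two (c : NT F X w Φ) (h : Tr F X K) (hW : 6 * ∑ i ∈ mts F K, w i + Φ < 13) :
    ∃ u v, u ≠ v ∧ Big F X K u ∧ Big F X K v := by
  by_contra hc
  push Not at hc
  have h2 : ∑ i ∈ mts F K, w i < 2 := by linarith [c.three]
  obtain ⟨t, tX, tK, h1, h4⟩ : ∃ t ∈ X, t ∉ K ∧ tau F (insert t K) ≤ 2 ∧
      ∀ u, Big F X K u → u = t := by
    by_cases hb : ∃ t, Big F X K t
    · obtain ⟨t, hb⟩ := hb
      obtain ⟨i, h1, h4⟩ := hb.2.2
      exact ⟨t, hb.1, hb.2.1, c.absorb h h2 (pr_sub h1) h4, fun u hu => by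
        by_contra e; exact hc u t e hu hb⟩
    · have : ¬ Sep F K (X \ K) := fun s => c.ne (c.conn K h.sub (card_pos.1 (by rw [h.c3]; omega)) s
        ▸ h.c3)
      simp only [Sep, not_forall, not_not, mem_sdiff] at this
      obtain ⟨k, hk, t, ⟨tX, tK⟩, j, h1, h4⟩ := this
      exact ⟨t, tX, tK, c.absorb h h2 (mem_mt.2 ⟨k, hk, h1⟩) h4, fun u hu => (hb ⟨u, hu⟩).elim⟩
  have h5 := c.rem (insert t K) (prs F K) 2 (insert_subset tX h.sub) h1 fun i hi p hp => by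
    by_cases e : p ∈ K
    · exact mem_insert_of_mem e
    · exact h4 p ⟨(mem_inter.1 hp).2, e, i, hi, (mem_inter.1 hp).1⟩ ▸ mem_insert_self _ _
  rw [card_insert_of_notMem tK, h.c3] at h5
  push_cast at h5
  linarith [c.t1 h]

lemma Tr.hub (h : Tr F X K) {g u : P} (hg : Big F X K g) (hu : Big F X K u) (hug : u ≠ g)
    (nc : ∀ t ∈ X, t ∉ K → t ≠ g → (∃ i ∈ mts F K, t ∈ F i) → 2 < tau F (insert g (insert t K))) :
    ∃ k ∈ K, ∀ i, k ∈ F i → #(F i ∩ X) ≤ 2 := by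
  obtain ⟨a, ha, ga⟩ := hg.2.2
  obtain ⟨b, hb, ub⟩ := hu.2.2
  obtain ⟨k, hk, ka⟩ := h.miss ha
  have h1 : ∀ j, k ∈ F j → ∀ t ∈ X, t ∉ K → t ≠ g → t ∉ F j := fun j hj t tX tK tg tj =>
    (nc t tX tK tg ⟨j, mem_mt.2 ⟨k, hk, hj⟩, tj⟩).not_ge (tau_le_two a j (insert_subset
      (mem_union_left _ ga) (insert_subset (mem_union_right _ tj) (h.rest ha hk ka hj))))
  refine ⟨k, hk, fun j hj => le_trans (card_le_card fun t ht => ?_) (h.le2 j)⟩
  obtain ⟨tj, tX⟩ := mem_inter.1 ht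
  refine mem_inter.2 ⟨tj, by_contra fun tK => ?_⟩
  by_cases e : t = g
  · exact (nc u hu.1 hu.2.1 hug ⟨b, pr_sub hb, ub⟩).not_ge (tau_le_two b j (insert_subset
      (mem_union_right _ (e ▸ tj)) (insert_subset (mem_union_left _ ub)
        (h.rest hb hk (fun kb => h1 b kb u hu.1 hu.2.1 hug ub) hj))))
  · exact h1 j hj t tX tK e tj

lemma NT.pair (c : NT F X w Φ) (h : Tr F X K) (hW : 6 * ∑ i ∈ mts F K, w i + Φ < 13)
    {U : Finset P} (hU : #U ≤ 2) (hE : ∀ i ∈ mts F K, F i ∩ X ⊆ K ∪ U) :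
    ∃ k ∈ K, ∀ i, k ∈ F i → #(F i ∩ X) ≤ 2 := by
  obtain ⟨u, g, hug, hu, hg⟩ := c.two h hW
  have mU : ∀ t ∈ X, t ∉ K → (∃ i ∈ mts F K, t ∈ F i) → t ∈ U := fun t tX tK ⟨i, h1, h2⟩ =>
    (mem_union.1 (hE i h1 (mem_inter.2 ⟨h2, tX⟩))).resolve_left tK
  refine h.hub hg hu hug fun t tX tK tg ht => by_contra fun hc => ?_
  have gU := mU g hg.1 hg.2.1 (let ⟨i, a, b⟩ := hg.2.2; ⟨i, pr_sub a, b⟩)
  have e : {g, t} = U := eq_of_subset_of_card_le (insert_subset gU (by simpa using mU t tX tK ht))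
    (by rw [card_pair tg.symm]; exact hU)
  have h1 := c.rem _ (mts F K) 2 (insert_subset hg.1 (insert_subset tX h.sub)) (not_lt.1 hc)
    fun i hi => (hE i hi).trans (by
      rw [← e]; intro p; simp only [mem_union, mem_insert, mem_singleton]; tauto)
  rw [card_insert_of_notMem (by simp [tg.symm, hg.2.1]), card_insert_of_notMem tK, h.c3] at h1
  push_cast at h1
  linarith [c.t1 h, c.le_sum (pr_sub (F := F) (K := K)), c.lt]

end Pool.Agent.Lib.MP_0828a1_co
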