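import Pool.Agent.Lib.MP_0828a1_co.StabA

/-! Nearly tight systems: no heavy triple. -/

open Finset

namespace Pool.Agent.Lib.MP_0828a1_co

variable {I P : Type*} [Fintype I] [DecidableEq P] {F : I → Finset P}

/-- a nearly tight cover of `Y` forces a separated triangle -/
def Near (F : I → Finset P) (Y : Finset P) : Prop := ∀ u : I → ℝ, (∀ i, 0 ≤ u i) →
  (∀ p ∈ Y, 1 ≤ cov F u p) → 6 * ∑ i, u i - 2 * #Y < 13 / 4 * del F Y →
  6 * ∑ i, u i - 2 * #Y < 3 * del F Y + 1 → ∃ K, Tr F Y K ∧ Sep F K (Y \ K)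

variable {X K K' T : Finset P} {w : I → ℝ} {Φ : ℝ}

lemma NT.phi' (c : NT F X w Φ) :
    Φ = ∑ i, (6 - 2 * #(F i ∩ X)) * w i + 2 * ∑ p ∈ X, (cov F w p - 1) := by
  simp only [c.phi, sub_mul, sum_sub_distrib, sum_cov, mul_assoc, ← mul_sum, sum_const,
    nsmul_eq_mul]
  ring

lemma NT.low (c : NT F X w Φ) (E : Finset I) (hE : ∀ i ∈ E, #(F i ∩ X) ≤ 2) :
    2 * ∑ i ∈ E, w i ≤ Φ := by
  have h1 : 0 ≤ ∑ p ∈ X, (cov F w p - 1) := sum_nonneg fun p hp => sub_nonneg.2 (c.hw p hp)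
  have h2 : ∑ i ∈ E, 2 * w i ≤ ∑ i, (6 - 2 * #(F i ∩ X)) * w i :=
    (sum_le_sum fun i hi => mul_le_mul_of_nonneg_right (by
      have : (#(F i ∩ X) : ℝ) ≤ 2 := by exact_mod_cast hE i hi
      linarith) (c.w0 i)).trans (sum_le_sum_of_subset_of_nonneg (subset_univ E) fun i _ _ =>
        mul_nonneg (by
          have : (#(F i ∩ X) : ℝ) ≤ 3 := by exact_mod_cast c.h3 i
          linarith) (c.w0 i))
  rw [← mul_sum] at h2
  linarith [c.phi']

lemma NT.nr (c : NT F X w Φ) (ih : ∀ Y ⊂ X, Near F Y) (B : Finset P) (E : Finset I) (t j : ℕ)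
    (hB : B ⊆ X) (hne : B.Nonempty) (ht : tau F B ≤ t) (hE : ∀ i ∈ E, F i ∩ X ⊆ B)
    (hj : j + 2 * t ≤ #B + 1) (h1 : Φ + 2 * #B - 6 * ∑ i ∈ E, w i < 13 / 4 * j)
    (h2 : Φ + 2 * #B - 6 * ∑ i ∈ E, w i < 3 * j + 1) :
    ∃ K, Tr F X K ∧ Disjoint K B ∧ (∀ i ∈ mts F K, F i ∩ X ⊆ K ∪ B) ∧ (∀ i ∈ E, i ∉ mts F K) ∧
      6 * ∑ i ∈ E, w i + 6 * ∑ i ∈ mts F K, w i + #B ≤ 6 * t + 6 + Φ := by
  classical
  obtain ⟨u, u0, u1, u2⟩ := drop_w c.w0 c.hw hE
  have h4 : (#(X \ B) : ℝ) + #B = #X := by exact_mod_cast card_sdiff_add_card_eq_card hB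
  have h5 : (j : ℝ) ≤ del F (X \ B) := by
    have a1 := del_remove c.hF hB
    have a2 := c.hτ
    have : (j : ℤ) ≤ del F (X \ B) := by unfold del at a1 ⊢; omega
    exact_mod_cast this
  obtain ⟨K, hK, hs⟩ := ih _ (sdiff_ssubset hB hne) u u0 u1 (by linarith [c.phi])
    (by linarith [c.phi])
  have d : Disjoint K B := disjoint_left.2 fun p hp => (mem_sdiff.1 (hK.sub hp)).2
  have KX := hK.sub.trans sdiff_subset
  have tr : ∀ i ∈ mts F K, F i ∩ X ⊆ K ∪ B := fun i hi p hp => by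
    obtain ⟨k, a, b⟩ := mem_mt.1 hi
    by_contra h
    rw [mem_union, not_or] at h
    exact hs k a p (mem_sdiff.2 ⟨mem_sdiff.2 ⟨(mem_inter.1 hp).2, h.2⟩, h.1⟩)
      ⟨i, b, (mem_inter.1 hp).1⟩
  have dE : ∀ i ∈ E, i ∉ mts F K := fun i hi h => let ⟨k, a, b⟩ := mem_mt.1 h
    disjoint_left.1 d a (hE i hi (mem_inter.2 ⟨b, KX a⟩))
  have h6 := c.rem (K ∪ B) (E ∪ mts F K) (2 + t) (union_subset KX hB)
    ((tau_le_add c.hF subset_rfl).trans (Nat.add_le_add hK.t2.le ht)) fun i hi =>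
      (mem_union.1 hi).elim (fun h => (hE i h).trans subset_union_right) (tr i)
  rw [sum_union (disjoint_left.2 dE), card_union_of_disjoint d, hK.c3] at h6
  push_cast at h6
  exact ⟨K, ⟨KX, hK.c3, hK.t2⟩, d, tr, dE, by linarith⟩

lemma NT.side (c : NT F X w Φ) (h : Tr F X K) (h' : Tr F X K') (TX : T ⊆ X) (T3 : #T = 3)
    (d : Disjoint K T) (d' : Disjoint K' T) (dK : Disjoint K K')
    (dm : Disjoint (mts F K) (mts F K'))
    (tr : ∀ i ∈ mts F K, F i ∩ X ⊆ K ∪ T) (tr' : ∀ i ∈ mts F K', F i ∩ X ⊆ K' ∪ T)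
    (hW : 6 * ∑ i ∈ mts F K, w i ≤ Φ + 6) (hW' : 6 * ∑ i ∈ mts F K', w i ≤ Φ + 6) :
    ∃ k ∈ K, ∀ i, k ∈ F i → #(F i ∩ X) ≤ 2 := by
  classical
  have lt := c.lt
  obtain ⟨u, v, uv, hu, hv⟩ := c.two h (by linarith)
  obtain ⟨u', v', uv', hu', hv'⟩ := c.two h' (by linarith)
  have bT : ∀ {K t}, (∀ i ∈ mts F K, F i ∩ X ⊆ K ∪ T) → Big F X K t → t ∈ T :=
    fun tr ⟨a, b, i, h1, h2⟩ => (mem_union.1 (tr i (pr_sub h1) (mem_inter.2 ⟨h2, a⟩))).resolve_left b
  have ab : ∀ {K t}, Tr F X K → 6 * ∑ i ∈ mts F K, w i ≤ Φ + 6 → Big F X K t →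
      tau F (insert t K) ≤ 2 := fun h hW ⟨_, _, i, h1, h2⟩ =>
    c.absorb h (by linarith) (pr_sub h1) h2
  have two : ∀ {g a b z}, g ∈ T → a ≠ b → a ∈ T → b ∈ T → a ≠ g → b ≠ g → z ∈ T → z ≠ g →
      z = a ∨ z = b := fun {g a b z} gT ab aT bT ag bg zT zg => by
    have : {a, b} = T.erase g := eq_of_subset_of_card_le (by simp [insert_subset_iff, *])
      (by rw [card_erase_of_mem gT, card_pair ab, T3])
    simpa using this.ge (mem_erase.2 ⟨zg, zT⟩)
  have cd : ∀ S ⊆ T, #(K ∪ (K' ∪ S)) = 6 + #S := fun S hS => by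
    rw [card_union_of_disjoint (disjoint_union_right.2 ⟨dK, d.mono_right hS⟩),
      card_union_of_disjoint (d'.mono_right hS), h.c3, h'.c3]
    omega
  have sb : ∀ S ⊆ T, K ∪ (K' ∪ S) ⊆ X := fun S hS =>
    union_subset h.sub (union_subset h'.sub (hS.trans TX))
  have t1 := c.t1 h
  have t2 := c.t1 h'
  have cover : ∀ t ∈ T, ¬ Big F X K' t → Big F X K t := fun t tT n' => by_contra fun n => by
    obtain ⟨z, zu, hz⟩ : ∃ z, u ≠ z ∧ Big F X K' z := by
      by_cases e : u = u'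
      exacts [⟨v', e ▸ uv', hv'⟩, ⟨u', e, hu'⟩]
    have h1 := c.rem _ (prs F K ∪ prs F K') 4 (sb _ (erase_subset t T))
      ((tau_le_add c.hF (Y := insert u K) (Z := insert z K') fun p hp => by
        have := @two t u z p tT zu (bT tr hu) (bT tr' hz) (fun e => n (e ▸ hu))
          (fun e => n' (e ▸ hz))
        simp only [mem_union, mem_insert, mem_erase] at hp ⊢
        tauto).trans (Nat.add_le_add (ab h hW hu) (ab h' hW' hz))) fun i hi p hp => by
      obtain ⟨a, b⟩ := mem_inter.1 hp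
      simp only [mem_union, mem_erase] at hi ⊢
      by_contra hc
      push Not at hc
      rcases hi with hi | hi
      · have : Big F X K p := ⟨b, hc.1, i, hi, a⟩
        exact hc.2.2 (fun e => n (e ▸ this)) (bT tr this)
      · have : Big F X K' p := ⟨b, hc.2.1, i, hi, a⟩
        exact hc.2.2 (fun e => n' (e ▸ this)) (bT tr' this)
    rw [sum_union (dm.mono pr_sub pr_sub), cd _ (erase_subset t T), card_erase_of_mem tT, T3] at h1
    push_cast at h1
    linarith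
  obtain ⟨g, hg, hz⟩ : ∃ g, Big F X K g ∧ ∀ z ∈ T, z ≠ g → Big F X K' z := by
    by_cases e : ∃ g ∈ T, ¬ Big F X K' g
    · obtain ⟨g, gT, n⟩ := e
      refine ⟨g, cover g gT n, fun z zT zg => ?_⟩
      rcases two gT uv' (bT tr' hu') (bT tr' hv') (fun e => n (e ▸ hu')) (fun e => n (e ▸ hv'))
        zT zg with rfl | rfl <;> assumption
    · push Not at e
      exact ⟨u, hu, fun z zT _ => e z zT⟩
  obtain ⟨s, hs, sg⟩ : ∃ s, Big F X K s ∧ s ≠ g := by
    by_cases e : u = g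
    exacts [⟨v, hv, e ▸ uv.symm⟩, ⟨u, hu, e⟩]
  refine h.hub hg hs sg fun t tX tK tg ⟨i, h1, h2⟩ => by_contra fun hc => ?_
  have tT := (mem_union.1 (tr i h1 (mem_inter.2 ⟨h2, tX⟩))).resolve_left tK
  obtain ⟨z, zT, zn⟩ := exists_mem_notMem_of_card_lt_card (s := {g, t}) (t := T)
    (by rw [card_pair tg.symm]; omega)
  simp only [mem_insert, mem_singleton, not_or] at zn
  have h1 := c.rem _ (mts F K ∪ mts F K') 4 (sb T subset_rfl)
    ((tau_le_add c.hF (Y := insert g (insert t K)) (Z := insert z K') fun p hp => by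
      have := @two z g t p zT tg.symm (bT tr hg) tT (Ne.symm zn.1) (Ne.symm zn.2)
      simp only [mem_union, mem_insert] at hp ⊢
      tauto).trans (Nat.add_le_add (not_lt.1 hc) (ab h' hW' (hz z zT zn.1)))) fun i hi =>
    (mem_union.1 hi).elim (fun h => (tr i h).trans (union_subset_union subset_rfl
      subset_union_right)) fun h => (tr' i h).trans subset_union_right
  rw [sum_union dm, cd T subset_rfl, T3] at h1
  push_cast at h1
  linarith [c.le_sum (pr_sub (F := F) (K := K)), c.le_sum (pr_sub (F := F) (K := K'))]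

lemma NT.high (c : NT F X w Φ) (ih : ∀ Y ⊂ X, Near F Y) (a : I) (ha : 1 / 2 ≤ w a) :
    #(F a ∩ X) ≤ 2 := by
  classical
  by_contra hc
  have T3 : #(F a ∩ X) = 3 := le_antisymm (c.h3 a) (by omega)
  have lt := c.lt
  have ne : (F a ∩ X).Nonempty := card_pos.1 (by omega)
  obtain ⟨K, h, d, tr, dE, hW⟩ := c.nr ih (F a ∩ X) {a} 1 2 inter_subset_right ne
    (tau_le_one inter_subset_left) (by simp) (by omega) (by simp [T3]; linarith)
    (by simp [T3]; linarith)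
  have aK := dE a (mem_singleton_self a)
  have c6 : #(K ∪ F a ∩ X) = 6 := by rw [card_union_of_disjoint d, h.c3, T3]
  have t1 : 3 / 2 ≤ ∑ i ∈ mts F K, w i := by
    linarith [c.t1 h, c.le_sum (pr_sub (F := F) (K := K))]
  obtain ⟨K', h', d', tr', dE', hW'⟩ := c.nr ih (K ∪ F a ∩ X) (insert a (mts F K)) (2 + 1) 1
    (union_subset h.sub inter_subset_right) (ne.mono subset_union_right)
    ((tau_le_add c.hF subset_rfl).trans (Nat.add_le_add h.t2.le (tau_le_one inter_subset_left)))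
    (forall_mem_insert _ _ _ |>.2 ⟨subset_union_right, tr⟩) (by omega)
    (by rw [sum_insert aK, c6]; push_cast; linarith)
    (by rw [sum_insert aK, c6]; push_cast; linarith)
  rw [sum_insert aK, c6] at hW'
  rw [sum_singleton, T3] at hW
  push_cast at hW hW'
  have dm : Disjoint (mts F K) (mts F K') := disjoint_left.2 fun i hi =>
    dE' i (mem_insert_of_mem hi)
  have tr2 : ∀ i ∈ mts F K', F i ∩ X ⊆ K' ∪ F a ∩ X := fun i hi p hp => by
    have h1 := tr' i hi hp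
    have h2 : p ∉ K := fun e => disjoint_left.1 dm (mem_mt.2 ⟨p, e, (mem_inter.1 hp).1⟩) hi
    simp only [mem_union] at h1 ⊢
    tauto
  rw [disjoint_union_right] at d'
  obtain ⟨k, hk, k2⟩ := c.side h h' inter_subset_right T3 d d'.2 d'.1.symm dm tr tr2
    (by linarith) (by linarith)
  obtain ⟨k', hk', k2'⟩ := c.side h' h inter_subset_right T3 d'.2 d d'.1 dm.symm tr2 tr
    (by linarith) (by linarith)
  have := c.low ((univ.filter fun i => k ∈ F i) ∪ univ.filter fun i => k' ∈ F i) fun i hi =>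
    (mem_union.1 hi).elim (fun h => k2 i (mem_filter.1 h).2) fun h => k2' i (mem_filter.1 h).2
  rw [sum_union (disjoint_filter.2 fun i _ a b => disjoint_left.1 dm (mem_mt.2 ⟨k, hk, a⟩)
    (mem_mt.2 ⟨k', hk', b⟩))] at this
  have := c.hw k (h.sub hk)
  have := c.hw k' (h'.sub hk')
  unfold cov at *
  linarith

end Pool.Agent.Lib.MP_0828a1_co
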