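import Pool.Agent.Lib.MP_0828a1_co.StabB

/-! Nearly tight systems at a vertex of the covering polyhedron do not exist. -/

open Finset

namespace Pool.Agent.Lib.MP_0828a1_co

variable {I P : Type*} [Fintype I] [DecidableEq P] {F : I → Finset P}
  {X : Finset P} {w : I → ℝ} {Φ : ℝ}

lemma NT.core (ct : NT F X w Φ) (ih : ∀ Y ⊂ X, Near F Y)
    (pos : ∀ i, ∀ p ∈ X, p ∈ F i → w i ≠ 0)
    (cnt : #(univ.filter fun i => w i ≠ 0) ≤ #(X.filter fun p => cov F w p = 1)) : False := by
  classical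
  obtain ⟨hF, h3, w0, hw, lt, ge⟩ : (∀ p, ∃ i, p ∈ F i) ∧ (∀ i, #(F i ∩ X) ≤ 3) ∧ (∀ i, 0 ≤ w i) ∧
    (∀ p ∈ X, 1 ≤ cov F w p) ∧ Φ < 13 / 4 ∧ 3 ≤ Φ := ⟨ct.hF, ct.h3, ct.w0, ct.hw, ct.lt, ct.three⟩
  set d : I → ℕ := fun i => #(F i ∩ X) with hd
  have low : ∀ E : Finset I, (∀ i ∈ E, d i ≤ 2) → 2 * ∑ i ∈ E, w i ≤ Φ := ct.low
  have phi : Φ = ∑ i, (6 - 2 * d i) * w i + 2 * ∑ p ∈ X, (cov F w p - 1) := ct.phi'
  have r1 : ∀ i, ∀ p ∈ X, p ∈ F i → 6 * w i + d i ≤ Φ + 3 := fun i _ _ _ => by
    have := ct.rem (F i ∩ X) {i} 1 inter_subset_right (tau_le_one inter_subset_left) (by simp)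
    simp only [sum_singleton, Nat.cast_one] at this
    linarith
  have high : ∀ i, 1 / 2 ≤ w i → d i ≤ 2 := ct.high ih
  set s : P → ℕ := fun p => #(univ.filter fun i => p ∈ F i) with hs
  have s2 : ∀ p ∈ X, 2 ≤ s p := fun p hp => by
    by_contra h
    obtain ⟨i, hi⟩ := hF p
    have h1 : (univ.filter fun i => p ∈ F i) = {i} :=
      (eq_of_subset_of_card_le (by simpa using hi) (by change s p ≤ 1; omega)).symm
    have h2 := hw p hp
    have h4 := r1 i p hp hi
    have h5 : (1 : ℝ) ≤ d i := by exact_mod_cast card_pos.2 ⟨p, mem_inter.2 ⟨hi, hp⟩⟩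
    rw [cov, h1, sum_singleton] at h2
    linarith
  set M := X.filter fun p => cov F w p = 1 ∧ s p = 2 with hM
  have mate : ∀ p ∈ M, ∀ a, p ∈ F a → ∃ b, b ≠ a ∧ (∀ i, p ∈ F i ↔ i = a ∨ i = b) ∧
      ∀ f, cov F f p = f a + f b := fun p hp a ha => by
    obtain ⟨b, hb⟩ := card_eq_one.1 (show #((univ.filter fun i => p ∈ F i).erase a) = 1 by
      rw [card_erase_of_mem (by simpa using ha)]
      exact congrArg (· - 1) (mem_filter.1 hp).2.2)
    have h1 : b ≠ a := (mem_erase.1 (hb ▸ mem_singleton_self b)).1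
    have h2 : (univ.filter fun i => p ∈ F i) = {a, b} := by
      rw [← hb, insert_erase (by simpa using ha)]
    exact ⟨b, h1, fun i => by simpa using Finset.ext_iff.1 h2 i, fun f => by
      rw [cov, h2, sum_pair h1.symm]⟩
  have hi : ∀ p ∈ M, ∃ a, p ∈ F a ∧ 1 / 2 ≤ w a := fun p hp => by
    obtain ⟨a, ha⟩ := hF p
    obtain ⟨b, -, h1, h2⟩ := mate p hp a ha
    have := (h2 w).symm.trans (mem_filter.1 hp).2.1
    rcases le_total (w a) (w b) with h | h
    exacts [⟨b, (h1 b).2 (.inr rfl), by linarith⟩, ⟨a, ha, by linarith⟩]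
  set Q := univ.filter fun i => w i ≠ 0 with hQ
  have count : ∑ i ∈ Q, (3 - d i) + 2 * #(X.filter fun p => ¬ cov F w p = 1) ≤ #M := by
    have h1 : ∑ p ∈ X, s p = ∑ i ∈ Q, d i := by
      have := sum_cov F (fun _ => 1) X
      simp only [cov, sum_const, nsmul_eq_mul, mul_one] at this
      rw [sum_subset (subset_univ Q) fun i _ h => card_eq_zero.2 (eq_empty_of_forall_notMem
        fun p hp => h (mem_filter.2 ⟨mem_univ _, pos i p (mem_inter.1 hp).2 (mem_inter.1 hp).1⟩))]
      exact_mod_cast this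
    have h2 : ∑ i ∈ Q, (3 - d i) + ∑ i ∈ Q, d i = 3 * #Q := by
      rw [← sum_add_distrib, sum_congr rfl fun i _ => Nat.sub_add_cancel (h3 i)]
      simp [mul_comm]
    have h4 : ∑ p ∈ X, (2 + if cov F w p = 1 then 1 else 0) ≤
        ∑ p ∈ X, (s p + if cov F w p = 1 ∧ s p = 2 then 1 else 0) := sum_le_sum fun p hp => by
      have := s2 p hp
      by_cases e : cov F w p = 1 <;> simp only [e, true_and, false_and, if_true, if_false]
      · split_ifs <;> omega
      · omega
    simp only [sum_add_distrib, ← card_filter, sum_const, smul_eq_mul] at h4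
    have h5 := card_filter_add_card_filter_not (s := X) fun p => cov F w p = 1
    rw [← hM] at h4
    omega
  by_cases full : ∃ a, 1 / 2 ≤ w a ∧ 1 < #(F a ∩ M)
  · obtain ⟨a, ha, h⟩ := full
    obtain ⟨p, hp, q, hq, hpq⟩ := one_lt_card.1 h
    obtain ⟨pa, pM⟩ := mem_inter.1 hp
    obtain ⟨qa, qM⟩ := mem_inter.1 hq
    have pX := (mem_filter.1 pM).1
    have qX := (mem_filter.1 qM).1
    have ea : F a ∩ X = {p, q} := (eq_of_subset_of_card_le (insert_subset (mem_inter.2 ⟨pa, pX⟩)
      (by simpa using ⟨qa, qX⟩)) ((high a ha).trans (card_pair hpq).ge)).symm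
    obtain ⟨b, ba, b1, b2⟩ := mate p pM a pa
    obtain ⟨c, ca, c1, c2⟩ := mate q qM a qa
    have wb := (b2 w).symm.trans (mem_filter.1 pM).2.1
    have wc := (c2 w).symm.trans (mem_filter.1 qM).2.1
    have pb : p ∈ F b ∩ X := mem_inter.2 ⟨(b1 b).2 (.inr rfl), pX⟩
    have qc : q ∈ F c ∩ X := mem_inter.2 ⟨(c1 c).2 (.inr rfl), qX⟩
    by_cases bc : b = c
    · subst bc
      have := ct.rem (F b ∩ X) {a, b} 1 inter_subset_right (tau_le_one inter_subset_left)
        (by simp only [mem_insert, mem_singleton, forall_eq_or_imp, forall_eq, ea]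
            exact ⟨insert_subset pb (singleton_subset_iff.2 qc), subset_rfl⟩)
      rw [sum_pair ba.symm] at this
      have h5 : (1 : ℝ) ≤ #(F b ∩ X) := by exact_mod_cast card_pos.2 ⟨p, pb⟩
      push_cast at this
      linarith
    have s3 : ∑ i ∈ {a, b, c}, w i = w a + (w b + w c) := by
      rw [sum_insert (by simp [ba.symm, ca.symm]), sum_pair bc]
    set B := F b ∩ X ∪ F c ∩ X with hB
    have BX : B ⊆ X := union_subset inter_subset_right inter_subset_right
    have pqB : {p, q} ⊆ B :=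
      insert_subset (mem_union_left _ pb) (singleton_subset_iff.2 (mem_union_right _ qc))
    have tB : tau F B ≤ 2 := (tau_le_add hF subset_rfl).trans
      (Nat.add_le_add (tau_le_one inter_subset_left) (tau_le_one inter_subset_left))
    have EB : ∀ i ∈ ({a, b, c} : Finset I), F i ∩ X ⊆ B := by
      simp only [mem_insert, mem_singleton, forall_eq_or_imp, forall_eq, ea]
      exact ⟨pqB, subset_union_left, subset_union_right⟩
    have h1 := ct.rem B {a, b, c} 2 BX tB EB
    have h2 := r1 a p pX pa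
    have h4 : (d a : ℝ) = 2 := by exact_mod_cast (congrArg card ea).trans (card_pair hpq)
    have da := high a ha
    push_cast at h1
    by_cases h5 : 4 ≤ #B
    · have B4 : #B = 4 := by
        have : (#B : ℝ) < 5 := by linarith
        have : #B < 5 := by exact_mod_cast this
        omega
      have fin : ∀ K U, Tr F X K → a ∉ mts F K → 6 * ∑ i ∈ mts F K, w i ≤ Φ + 6 → #U ≤ 2 →
          (∀ i ∈ mts F K, F i ∩ X ⊆ K ∪ U) → False := fun K U h aK hW hU tr => by
        obtain ⟨k, hk, k2⟩ := ct.pair h (by linarith) hU tr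
        have l := low (insert a (univ.filter fun i => k ∈ F i)) (forall_mem_insert _ _ _ |>.2
          ⟨da, fun i hi => k2 i (mem_filter.1 hi).2⟩)
        rw [sum_insert fun e => aK (mem_mt.2 ⟨k, hk, by simpa using e⟩)] at l
        have := hw k (h.sub hk)
        rw [B4] at h1
        unfold cov at this
        push_cast at h1
        linarith
      rcases le_total 4 (6 * w a) with h6 | h6
      · obtain ⟨K, h, -, tr, dE, hW⟩ := ct.nr ih {p, q} {a} 1 1 (pqB.trans BX) (by simp)
          (tau_le_one (ea.ge.trans inter_subset_left)) (by simp [ea]) (by rw [card_pair hpq])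
          (by simp [card_pair hpq]; linarith) (by simp [card_pair hpq]; linarith)
        rw [sum_singleton, card_pair hpq] at hW
        push_cast at hW
        exact fin K _ h (dE a (by simp)) (by linarith) card_le_two tr
      · obtain ⟨K, h, -, tr, dE, hW⟩ := ct.nr ih B {a, b, c} 2 1 BX ⟨p, pqB (by simp)⟩ tB EB
          (by omega) (by rw [B4]; push_cast; linarith) (by rw [B4]; push_cast; linarith)
        rw [B4] at hW
        push_cast at hW
        refine fin K (B \ {p, q}) h (dE a (by simp)) (by linarith)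
          (by rw [card_sdiff_of_subset pqB, card_pair hpq]; omega) fun i hi t ht => ?_
        refine (mem_union.1 (tr i hi ht)).elim (mem_union_left _) fun e => mem_union_right _
          (mem_sdiff.2 ⟨e, fun e' => dE i ?_ hi⟩)
        have ti := (mem_inter.1 ht).1
        simp only [mem_insert, mem_singleton] at e' ⊢
        rcases e' with rfl | rfl
        · exact ((b1 i).1 ti).imp_right .inl
        · exact ((c1 i).1 ti).imp_right .inr
    have db : d b ≤ 2 := by
      have := card_lt_card (s := F b ∩ X) (t := B) ⟨subset_union_left, fun h =>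
        ((c1 b).1 (mem_inter.1 (h (mem_union_right _ qc))).1).elim ba bc⟩
      change #(F b ∩ X) ≤ 2
      omega
    have dc : d c ≤ 2 := by
      have := card_lt_card (s := F c ∩ X) (t := B) ⟨subset_union_right, fun h =>
        ((b1 c).1 (mem_inter.1 (h (mem_union_left _ pb))).1).elim ca (Ne.symm bc)⟩
      change #(F c ∩ X) ≤ 2
      omega
    have l3 : ∀ i ∈ ({a, b, c} : Finset I), d i ≤ 2 := by simp [da, db, dc]
    have h6 : ∑ i ∈ {a, b, c}, (3 - d i) ≤ ∑ i ∈ Q, (3 - d i) := sum_le_sum_of_subset (by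
      simp only [hQ, insert_subset_iff, singleton_subset_iff, mem_filter, mem_univ, true_and]
      exact ⟨pos a p pX pa, pos b p pX (mem_inter.1 pb).1, pos c q qX (mem_inter.1 qc).1⟩)
    rw [sum_insert (by simp [ba.symm, ca.symm]), sum_pair bc] at h6
    obtain ⟨z, zM, hz⟩ := exists_mem_notMem_of_card_lt_card (s := {p, q}) (t := M)
      (by rw [card_pair hpq]; omega)
    have zX := (mem_filter.1 zM).1
    have ins : ∀ e, 1 / 2 ≤ w e → e ∈ ({a, b, c} : Finset I) := fun e he => by_contra fun h7 => by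
      have := low (insert e {a, b, c}) (forall_mem_insert _ _ _ |>.2 ⟨high e he, l3⟩)
      rw [sum_insert h7] at this
      linarith
    obtain ⟨e, ze, he⟩ := hi z zM
    obtain ⟨e', -, z1, z2⟩ := mate z zM e ze
    have we := (z2 w).symm.trans (mem_filter.1 zM).2.1
    have h7 := ins e he
    have h8 : w e ≤ 1 / 2 := by
      simp only [mem_insert, mem_singleton] at h7
      rcases h7 with rfl | rfl | rfl
      · exact (hz (ea ▸ mem_inter.2 ⟨ze, zX⟩)).elim
      · linarith
      · linarith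
    have c3 : #(insert z {p, q}) = 3 := by rw [card_insert_of_notMem hz, card_pair hpq]
    have eB : insert z {p, q} = B := eq_of_subset_of_card_le
      (insert_subset (EB e h7 (mem_inter.2 ⟨ze, zX⟩)) pqB) (by omega)
    refine ct.ne (ct.conn B BX ⟨p, pqB (by simp)⟩ (fun t ht t' ht' ⟨i, i1, i2⟩ =>
      (mem_sdiff.1 ht').2 (EB i ?_ (mem_inter.2 ⟨i2, (mem_sdiff.1 ht').1⟩))) ▸ eB ▸ c3)
    rw [← eB] at ht
    simp only [mem_insert, mem_singleton] at ht
    rcases ht with rfl | rfl | rfl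
    · rcases (z1 i).1 i1 with rfl | rfl
      exacts [h7, ins _ (by linarith)]
    · rcases (b1 i).1 i1 with rfl | rfl <;> simp
    · rcases (c1 i).1 i1 with rfl | rfl <;> simp
  push Not at full
  set A := univ.filter fun i => 1 / 2 ≤ w i with hA
  have mA : ∀ i, 1 / 2 ≤ w i → i ∈ A := fun i h => mem_filter.2 ⟨mem_univ _, h⟩
  have AQ : A ⊆ Q := fun i h => mem_filter.2 ⟨mem_univ _, by linarith [(mem_filter.1 h).2] ⟩
  have dbl : ∑ p ∈ M, cov F (fun i => if i ∈ A then 1 else 0) p ≤ #A := by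
    rw [sum_cov, card_eq_sum_ones A]
    simp only [mul_ite, mul_one, mul_zero, sum_ite_mem_eq]
    exact_mod_cast sum_le_sum fun i h => full i (mem_filter.1 h).2
  have MA : #M ≤ #A := by
    have : ∑ p ∈ M, (1 : ℝ) ≤ #A := (sum_le_sum fun p hp => by
      obtain ⟨a, h1, h2⟩ := hi p hp
      obtain ⟨b, -, -, h4⟩ := mate p hp a h1
      rw [h4, if_pos (mA a h2)]
      split_ifs <;> norm_num).trans dbl
    simpa using this
  have le1 : ∀ i ∈ Q, (if i ∈ A then 1 else 0) ≤ 3 - d i := fun i _ => by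
    split_ifs with h
    · have := high i (mem_filter.1 h).2
      omega
    · omega
  have sA : ∑ i ∈ Q, (if i ∈ A then 1 else 0) = #A := by
    rw [sum_ite_mem, inter_eq_right.2 AQ, card_eq_sum_ones]
  have le2 := sum_le_sum le1
  have eq1 := (sum_eq_sum_iff_of_le le1).1 (by omega)
  have tight : ∀ p ∈ X, cov F w p = 1 := fun p hp => by
    by_contra h
    have : 0 < #(X.filter fun p => ¬ cov F w p = 1) := card_pos.2 ⟨p, mem_filter.2 ⟨hp, h⟩⟩
    omega
  have ePhi : Φ = 2 * ∑ i ∈ A, w i := by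
    rw [phi, sum_eq_zero (s := X) fun p hp => sub_eq_zero.2 (tight p hp), mul_zero, add_zero,
      mul_sum, ← sum_ite_mem_eq A]
    refine sum_congr rfl fun i _ => ?_
    by_cases h : i ∈ Q
    · have h1 := eq1 i h
      have h2 : d i ≤ 3 := h3 i
      split_ifs at h1 ⊢
      · rw [show d i = 2 by omega]; norm_num
      · rw [show d i = 3 by omega]; norm_num
    · have : w i = 0 := by simpa [hQ] using h
      simp [this]
  have AM : (#A : ℝ) = #M := by exact_mod_cast (show #A = #M by omega)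
  have one : ∀ p ∈ M, ∀ a b, a ≠ b → p ∈ F a → p ∈ F b → a ∈ A → b ∉ A := by
    intro p hp a b ab pa pb aA bA
    refine (sum_lt_sum (s := M) (f := fun _ => (1 : ℝ)) (fun q hq => ?_) ⟨p, hp, ?_⟩).not_ge
      (dbl.trans (by simp [AM]))
    · obtain ⟨a, h1, h2⟩ := hi q hq
      obtain ⟨b, -, -, h4⟩ := mate q hq a h1
      rw [h4, if_pos (mA a h2)]
      split_ifs <;> norm_num
    · obtain ⟨b', -, h1, h4⟩ := mate p hp a pa
      rw [h4, if_pos aA, ← ((h1 b).1 pb).resolve_left ab.symm, if_pos bA]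
      norm_num
  have dA : ∀ i ∈ A, d i = 2 := fun i h => by
    have h1 := eq1 i (AQ h)
    rw [if_pos h] at h1
    omega
  have wA : ∀ i ∈ A, 6 * w i ≤ Φ + 1 := fun i h => by
    obtain ⟨p, hp⟩ : (F i ∩ X).Nonempty := card_pos.1 (by have := dA i h; change 0 < d i; omega)
    have := r1 i p (mem_inter.1 hp).2 (mem_inter.1 hp).1
    rw [dA i h] at this
    push_cast at this
    linarith
  have A3 : (3 : ℝ) ≤ #A := by
    have h1 := sum_le_card_nsmul A w ((Φ + 1) / 6) fun i h => by linarith [wA i h]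
    rw [nsmul_eq_mul] at h1
    have : (2 : ℝ) < #A := by nlinarith
    exact_mod_cast (show 3 ≤ #A by have : 2 < #A := by exact_mod_cast this
                                   omega)
  obtain ⟨a, ha, hm⟩ := exists_min_image A w (card_pos.1 (by exact_mod_cast zero_lt_three.trans_le A3))
  have wa : 6 * w a ≤ Φ := by
    have h1 := card_nsmul_le_sum A w _ hm
    rw [nsmul_eq_mul] at h1
    nlinarith [w0 a]
  have wa' : 1 / 2 ≤ w a := (mem_filter.1 ha).2
  obtain ⟨p, hp⟩ : (F a ∩ M).Nonempty := by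
    rw [← card_pos]
    by_contra h
    have h1 : ∑ p ∈ M, (1 : ℝ) ≤ ∑ p ∈ M, cov F (fun i => if i ∈ A then 1 else 0) p :=
      sum_le_sum fun q hq => by
        obtain ⟨a, h1, h2⟩ := hi q hq
        obtain ⟨b, -, -, h4⟩ := mate q hq a h1
        rw [h4, if_pos (mA a h2)]
        split_ifs <;> norm_num
    rw [sum_cov] at h1
    simp only [mul_ite, mul_one, mul_zero, sum_ite_mem_eq, sum_const, nsmul_eq_mul] at h1
    have h2 : ∑ i ∈ A, #(F i ∩ M) < ∑ i ∈ A, 1 :=
      sum_lt_sum (fun i h => full i (mem_filter.1 h).2) ⟨a, ha, by omega⟩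
    rw [← card_eq_sum_ones] at h2
    have : #M ≤ ∑ i ∈ A, #(F i ∩ M) := by exact_mod_cast h1
    omega
  obtain ⟨pa, pM⟩ := mem_inter.1 hp
  have pX := (mem_filter.1 pM).1
  obtain ⟨b, ba, b1, b2⟩ := mate p pM a pa
  have pb := (b1 b).2 (.inr rfl)
  have wb := (b2 w).symm.trans (tight p pX)
  have d3 : ∀ i, ∀ t ∈ X, t ∈ F i → i ∉ A → d i = 3 := fun i t tX ti h => by
    have h1 := eq1 i (mem_filter.2 ⟨mem_univ _, pos i t tX ti⟩)
    have : d i ≤ 3 := h3 i
    rw [if_neg h] at h1
    omega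
  have T3 : #(F b ∩ X) = 3 := d3 b p pX pb (one p pM a b ba.symm pa pb ha)
  have pT : p ∈ F b ∩ X := mem_inter.2 ⟨pb, pX⟩
  obtain ⟨K, h, dj, tr, dE, hW⟩ := ct.nr ih (F b ∩ X) {b} 1 2 inter_subset_right ⟨p, pT⟩
    (tau_le_one inter_subset_left) (by simp) (by omega) (by simp [T3]; linarith)
    (by simp [T3]; linarith)
  rw [sum_singleton, T3] at hW
  push_cast at hW
  have aK : a ∉ mts F K := fun e => by
    have n : a ∉ prs F K := fun e' => by
      have := card_lt_card (s := F a ∩ K) (t := F a ∩ X) ⟨inter_subset_inter subset_rfl h.sub,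
        fun s => disjoint_left.1 dj (mem_inter.1 (s (mem_inter.2 ⟨pa, pX⟩))).2 pT⟩
      have := mem_pr.1 e'
      have : #(F a ∩ X) = 2 := dA a ha
      omega
    have := ct.le_sum (insert_subset e pr_sub)
    rw [sum_insert n] at this
    linarith [ct.t1 h]
  obtain ⟨k, hk, k2⟩ := ct.pair h (by linarith) (U := (F b ∩ X).erase p)
    (by rw [card_erase_of_mem pT, T3]) fun i hi t ht =>
      (mem_union.1 (tr i hi ht)).elim (mem_union_left _) fun e => mem_union_right _
        (mem_erase.2 ⟨fun e' => ((b1 i).1 (e' ▸ (mem_inter.1 ht).1)).elim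
          (fun z => aK (z ▸ hi)) fun z => dE b (mem_singleton_self b) (z ▸ hi), e⟩)
  have kX := h.sub hk
  have kA : ∀ i, k ∈ F i → i ∈ A := fun i hi => by_contra fun n => by
    have := d3 i k kX hi n
    have : d i ≤ 2 := k2 i hi
    omega
  have kM : k ∈ M := mem_filter.2 ⟨kX, tight k kX, le_antisymm (by
    have h1 := card_nsmul_le_sum (univ.filter fun i => k ∈ F i) w (1 / 2) fun i hi =>
      (mem_filter.1 (kA i (mem_filter.1 hi).2)).2
    have h2 := tight k kX
    rw [nsmul_eq_mul] at h1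
    unfold cov at h2
    exact_mod_cast (show (s k : ℝ) ≤ 2 by simp only [hs]; linarith)) (s2 k kX)⟩
  obtain ⟨e, ke⟩ := hF k
  obtain ⟨e', ne, e1, -⟩ := mate k kM e ke
  exact one k kM e e' ne.symm ke ((e1 e').2 (.inr rfl)) (kA e ke) (kA e' ((e1 e').2 (.inr rfl)))

end Pool.Agent.Lib.MP_0828a1_co
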