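import Pool.Agent.Lib.MP_0828a1_co.StabC

/-! Stability of the fractional bound and the sharp covering inequality for every degree. -/

open Finset

namespace Pool.Agent.Lib.MP_0828a1_co

variable {I P : Type*} [Fintype I] [DecidableEq P]

lemma frac_del {F : I → Finset P} {X Y : Finset P} (hF : ∀ p, ∃ i, p ∈ F i)
    (h3 : ∀ i, #(F i ∩ X) ≤ 3) (hY : Y ⊆ X) {w : I → ℝ} (w0 : ∀ i, 0 ≤ w i)
    (hw : ∀ p ∈ Y, 1 ≤ cov F w p) : 3 * (del F Y : ℝ) ≤ 6 * ∑ i, w i - 2 * #Y := by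
  have := frac_bound Y F hF (fun i => (card_le_card (inter_subset_inter subset_rfl hY)).trans
    (h3 i)) w w0 hw
  unfold del
  push_cast
  linarith

lemma crit_of {F : I → Finset P} {X : Finset P} (hF : ∀ p, ∃ i, p ∈ F i)
    (h3 : ∀ i, #(F i ∩ X) ≤ 3) {w : I → ℝ} (w0 : ∀ i, 0 ≤ w i) (hw : ∀ p ∈ X, 1 ≤ cov F w p)
    (h : 6 * ∑ i, w i - 2 * #X < 3 * del F X + 1) : Crit F X := fun v hv => by
  by_contra hc
  have h1 := frac_del hF h3 (erase_subset v X) w0 fun p hp => hw p (mem_of_mem_erase hp)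
  have h2 : (tau F X : ℝ) ≤ tau F (X.erase v) := by exact_mod_cast not_lt.1 hc
  have h4 : (#(X.erase v) : ℝ) + 1 = #X := by exact_mod_cast card_erase_add_one hv
  unfold del at h h1
  push_cast at h h1
  linarith

theorem near (X : Finset P) : ∀ F : I → Finset P, (∀ p, ∃ i, p ∈ F i) →
    (∀ i, #(F i ∩ X) ≤ 3) → Near F X := by
  classical
  induction X using Finset.strongInductionOn with
  | _ X ih =>
  intro F hF h3 w w0 hw h1 h2
  have hc := crit_of hF h3 w0 hw h2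
  by_cases hn : Conn F X
  swap
  · simp only [Conn, not_forall] at hn
    obtain ⟨Y, YX, ne, hs, hY⟩ := hn
    have key : ∀ (Y Z : Finset P) (u v : I → ℝ), Y ⊂ X → Z ⊆ X → X ⊆ Y ∪ Z → Sep F Y Z →
        (∀ i, 0 ≤ u i) → (∀ i, 0 ≤ v i) → (∀ p ∈ Y, 1 ≤ cov F u p) → (∀ p ∈ Z, 1 ≤ cov F v p) →
        ∑ i, u i + ∑ i, v i = ∑ i, w i → (#Y : ℝ) + #Z = #X →
        (del F X : ℝ) = del F Y + del F Z → 6 * ∑ i, u i - 2 * #Y < 13 / 4 * del F Y →
        ∃ K, Tr F X K ∧ Sep F K (X \ K) := fun Y Z u v a1 a2 a3 a4 u0 v0 u1 v1 e1 e2 e3 h => by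
      obtain ⟨K, hK, s⟩ := ih Y a1 F hF (fun i => (card_le_card (inter_subset_inter subset_rfl
        a1.1)).trans (h3 i)) u u0 u1 h (by linarith [frac_del hF h3 a2 v0 v1])
      exact ⟨K, ⟨hK.sub.trans a1.1, hK.c3, hK.t2⟩, fun p hp q hq =>
        (mem_union.1 (a3 (mem_sdiff.1 hq).1)).elim
          (fun e => s p hp q (mem_sdiff.2 ⟨e, (mem_sdiff.1 hq).2⟩)) (a4 p (hK.sub hp) q)⟩
    obtain ⟨u, u0, u1, u2⟩ := drop_w w0 hw (B := X \ Y) (E := (mts F Y)ᶜ) fun i hi p hp =>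
      mem_sdiff.2 ⟨(mem_inter.1 hp).2, fun e => mem_compl.1 hi (mem_mt.2 ⟨p, e, (mem_inter.1 hp).1⟩)⟩
    obtain ⟨v, v0, v1, v2⟩ := drop_w w0 hw (B := Y) (E := mts F Y) fun i hi p hp => by
      obtain ⟨k, a, b⟩ := mem_mt.1 hi
      by_contra e
      exact hs k a p (mem_sdiff.2 ⟨(mem_inter.1 hp).2, e⟩) ⟨i, b, (mem_inter.1 hp).1⟩
    rw [Finset.sdiff_sdiff_eq_self YX] at u1
    have e1 := sum_add_sum_compl (mts F Y) w
    have e2 : (#(X \ Y) : ℝ) + #Y = #X := by exact_mod_cast card_sdiff_add_card_eq_card YX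
    have e3 : (del F X : ℝ) = del F Y + del F (X \ Y) := by exact_mod_cast del_add hF YX hs
    by_cases h : 6 * ∑ i, u i - 2 * #Y < 13 / 4 * del F Y
    · exact key Y _ u v (ssubset_of_subset_of_ne YX hY) sdiff_subset (union_sdiff_of_subset YX).ge
        hs u0 v0 u1 v1 (by linarith) (by linarith) e3 h
    · exact key _ Y v u (sdiff_ssubset YX ne) YX (sdiff_union_of_subset YX).ge hs.symm v0 u0 v1 u1
        (by linarith) e2 (by linarith) (by linarith)
  have d1 : del F X = 1 := by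
    have a1 : ∑ p ∈ X, (1 : ℝ) ≤ ∑ p ∈ X, cov F w p := sum_le_sum hw
    have a2 : ∑ i, #(F i ∩ X) * w i ≤ ∑ i, 3 * w i := sum_le_sum fun i _ =>
      mul_le_mul_of_nonneg_right (by exact_mod_cast h3 i) (w0 i)
    rw [sum_cov, sum_const, nsmul_eq_mul] at a1
    rw [← mul_sum] at a2
    have : (0 : ℝ) < del F X := by linarith
    have : 0 < del F X := by exact_mod_cast this
    have := del_le_one hF hc hn
    omega
  by_cases e3 : #X = 3
  · exact ⟨X, ⟨subset_rfl, e3, by unfold del at d1; omega⟩, fun p _ q hq => by simp at hq⟩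
  exfalso
  rw [d1, Int.cast_one] at h1
  obtain ⟨u, u0, u1, u2, u3⟩ := lp_vertex F X _ w rfl w0 hw
  set G : I → Finset P := fun i => if u i = 0 then F i \ X else F i with hG
  have GF : ∀ i, G i ⊆ F i := fun i => by
    simp only [hG]; split_ifs; exacts [sdiff_subset, subset_rfl]
  have e : ∀ p ∈ X, cov G u p = cov F u p := fun p hp =>
    sum_subset (fun i hi => mem_filter.2 ⟨mem_univ _, GF i (mem_filter.1 hi).2⟩) fun i h1 h2 => by
      by_contra h
      exact h2 (mem_filter.2 ⟨mem_univ _, by simpa [hG, h] using h1⟩)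
  have hG' : ∀ p, ∃ i, p ∈ G i := fun p => by
    by_cases hp : p ∈ X
    · obtain ⟨i, hi, -⟩ := exists_ne_zero_of_sum_ne_zero
        (show cov G u p ≠ 0 by linarith [e p hp, u1 p hp])
      exact ⟨i, (mem_filter.1 hi).2⟩
    · obtain ⟨i, hi⟩ := hF p
      exact ⟨i, by simp only [hG]; split_ifs; exacts [mem_sdiff.2 ⟨hi, hp⟩, hi]⟩
  have g3 : ∀ Y ⊆ X, ∀ i, #(G i ∩ Y) ≤ 3 := fun Y hY i =>
    (card_le_card (inter_subset_inter (GF i) hY)).trans (h3 i)
  have tF : ∀ Y, tau F Y ≤ tau G Y := fun Y => by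
    obtain ⟨C, hC, hc⟩ := exists_opt hG' Y
    exact hC ▸ tau_le fun p hp => let ⟨i, a, b⟩ := hc p hp; ⟨i, a, GF i b⟩
  have g1 : ∀ p ∈ X, 1 ≤ cov G u p := fun p hp => (e p hp).symm ▸ u1 p hp
  have dG : del G X = 1 := by
    have a1 := frac_del hG' (g3 X subset_rfl) subset_rfl u0 g1
    have : (del G X : ℝ) < 2 := by linarith
    have : del G X < 2 := by exact_mod_cast this
    have := tF X
    unfold del at *
    omega
  have cG := crit_of hG' (g3 X subset_rfl) u0 g1 (by rw [dG]; push_cast; linarith)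
  refine NT.core (F := G) ⟨hG', g3 X subset_rfl, u0, g1, by unfold del at dG; omega, rfl,
    by linarith, fun Y YX ne hs => by_contra fun hY => ?_, e3⟩
    (fun Y hY => ih Y hY G hG' (g3 Y hY.1)) (fun i p hp h z => by simp [hG, z, hp] at h)
    (u3.trans_eq (congrArg card (filter_congr fun p hp => by rw [e p hp])))
  have : ¬ Sep F Y (X \ Y) := fun s => hY (hn Y YX ne s)
  simp only [Sep, not_forall, not_not] at this
  obtain ⟨k, hk, l, hl, j, kj, lj⟩ := this
  have a1 := cG k (YX hk)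
  have a2 := cG l (mem_sdiff.1 hl).1
  have a3 := tau_add hG' (hs.mono (erase_subset k Y) subset_rfl) (erase_subset_erase k YX)
    fun p hp => mem_erase.2 ⟨fun z => (mem_sdiff.1 hp).2 (z ▸ hk), (mem_sdiff.1 hp).1⟩
  have a4 := tau_add hG' (hs.mono subset_rfl (erase_subset l _))
    (fun p hp => mem_erase.2 ⟨fun z : p = l => (mem_sdiff.1 hl).2 (z ▸ hp), YX hp⟩)
    (erase_subset_erase l sdiff_subset)
  have a5 := tau_add hG' hs YX sdiff_subset
  have a6 := tau_le_add hG' (union_sdiff_of_subset YX).ge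
  have a7 : tau F X ≤ tau F (F j) + tau F (Y.erase k ∪ (X \ Y).erase l) :=
    tau_le_add hF fun p hp => by
      by_cases z : p ∈ F j
      · exact mem_union_left _ z
      · have : p ≠ k := fun y => z (y ▸ kj)
        have : p ≠ l := fun y => z (y ▸ lj)
        simp only [mem_union, mem_erase, mem_sdiff]
        tauto
  have a8 := tau_le_one (F := F) (X := F j) subset_rfl
  have a9 := tau_le_add hF (Y := Y.erase k) (Z := (X \ Y).erase l) subset_rfl
  have := tF (Y.erase k)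
  have := tF ((X \ Y).erase l)
  unfold del at d1 dG
  omega

lemma comp_bound {F : I → Finset P} {r : ℕ} (hr5 : 5 ≤ r) (ho : r % 2 = 1)
    (hr : ∀ p, r ≤ #(univ.filter fun i => p ∈ F i)) {K : Finset P} (h3 : ∀ i, #(F i ∩ K) ≤ 3)
    (hn : Conn F K) (hd : del F K = 1) : 2 * r * #K + 3 * (r + 1) ≤ 6 * NN F K := by
  classical
  by_contra hc
  have r0 : (5 : ℝ) ≤ r := by exact_mod_cast hr5
  have e : (#(univ.filter fun i => (F i ∩ K).Nonempty) : ℝ) = NN F K := by unfold NN; congr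
  have h1 : 6 * (NN F K : ℝ) ≤ 2 * r * #K + 3 * r + 1 := by
    rw [mul_assoc] at hc
    exact_mod_cast (show 6 * NN F K ≤ 2 * r * #K + 3 * r + 1 by rw [mul_assoc]; omega)
  have h2 : 6 * ∑ i, (if (F i ∩ K).Nonempty then 1 / (r : ℝ) else 0) - 2 * #K < 13 / 4 := by
    rw [← sum_filter, sum_const, nsmul_eq_mul, e, mul_one_div, ← mul_div_assoc, sub_lt_iff_lt_add,
      div_lt_iff₀ (by linarith)]
    linarith
  obtain ⟨Y, hY, hs⟩ := near K F (fun p => let ⟨i, hi⟩ := card_pos.1 ((by omega : 0 < r).trans_le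
    (hr p)); ⟨i, (mem_filter.1 hi).2⟩) h3 (fun i => if (F i ∩ K).Nonempty then 1 / (r : ℝ) else 0)
    (fun i => by positivity) (fun p hp => by
      rw [cov, sum_congr rfl fun i hi => if_pos ⟨p, mem_inter.2 ⟨(mem_filter.1 hi).2, hp⟩⟩,
        sum_const, nsmul_eq_mul, mul_one_div, one_le_div (by linarith)]
      exact_mod_cast hr p) (by rw [hd]; push_cast; linarith) (by rw [hd]; push_cast; linarith)
  obtain rfl := hn Y hY.sub (card_pos.1 (by rw [hY.c3]; omega)) hs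
  have := deg_bound (by omega) hr Y h3
  rw [hY.c3, hY.t2] at this
  rw [hY.c3] at hc
  omega

theorem odd_bound {F : I → Finset P} {r : ℕ} (hr5 : 5 ≤ r) (ho : r % 2 = 1)
    (hr : ∀ p, r ≤ #(univ.filter fun i => p ∈ F i)) (X : Finset P) (h3 : ∀ i, #(F i ∩ X) ≤ 3) :
    6 * (r + 1) * (tau F X : ℝ) ≤ 6 * NN F X + (r + 3) * #X := by
  classical
  have hF : ∀ p, ∃ i, p ∈ F i := fun p => let ⟨i, hi⟩ := card_pos.1 ((by omega : 0 < r).trans_le
    (hr p)); ⟨i, (mem_filter.1 hi).2⟩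
  have g3 : ∀ Y ⊆ X, ∀ i, #(F i ∩ Y) ≤ 3 := fun Y hY i =>
    (card_le_card (inter_subset_inter subset_rfl hY)).trans (h3 i)
  obtain ⟨S, hS, Y, hY, hcard⟩ := struct hF X
  have h1 := comps_count hF (a := r / 3) (b := (r + 1) / 2) Y (X \ S) (fun Z hZ => by
    have := weight_count hr Z (fun _ => 1) (by simp) 3 fun i => by
      simpa using Int.ofNat_le.2 (g3 Z (hZ.trans sdiff_subset) i)
    simp only [sum_const, nsmul_eq_mul, mul_one] at this
    have : (r : ℝ) * #Z ≤ 3 * NN F Z := by exact_mod_cast this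
    linarith) fun K hK => ⟨(hY K hK).1, by
      have : (2 * r * #K + 3 * (r + 1) : ℝ) ≤ 6 * NN F K := by
        exact_mod_cast comp_bound hr5 ho hr (g3 K ((hY K hK).1.sub.trans sdiff_subset))
          (hY K hK).1.conn (hY K hK).2
      linarith⟩
  have h2 : (NN F (X \ S) : ℝ) ≤ NN F X := by
    exact_mod_cast NN_remove (X := X) (B := S) ∅ (by simp)
  have h4 : (#(X \ S) : ℝ) + #S = #X := by exact_mod_cast card_sdiff_add_card_eq_card hS
  have h5 : (2 * tau F X - #X : ℝ) + #S ≤ #Y := by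
    unfold del at hcard
    exact_mod_cast hcard
  have h6 : (0 : ℝ) ≤ r := by positivity
  have h7 : (0 : ℝ) ≤ #S := by positivity
  nlinarith [mul_le_mul_of_nonneg_left h5 (show (0 : ℝ) ≤ r + 1 by linarith), mul_nonneg h6 h7]

end Pool.Agent.Lib.MP_0828a1_co
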