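import Pool.Agent.Lib.MP_0828a1_co.TzChk

/-! Loops, the potential for tight systems, gadgets over a minimal counterexample. -/

open Finset

set_option linter.unusedSectionVars false

namespace Pool.Agent.Lib.MP_0828a1_co

variable {I P : Type} [Fintype I] [DecidableEq P]

/-- number of loops at `p` -/
noncomputable def lp (F : I → Finset P) (Y : Finset P) (p : P) : ℕ := cn fun i => F i ∩ Y = {p}

/-- number of points with two loops -/
noncomputable def uu (F : I → Finset P) (Y K : Finset P) : ℕ :=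
  (K.filter fun p => 2 ≤ lp F Y p).card

/-- the potential -/
noncomputable def ww (F : I → Finset P) (Y K : Finset P) : ℤ :=
  9 * NN F K + 10 * K.card - 51 * tau F K - 4 * uu F Y K

/-- number of traces of a given size -/
noncomputable def nn (F : I → Finset P) (X : Finset P) (k : ℕ) : ℕ :=
  cn fun i => (F i ∩ X).card = k

/-- number of nonempty traces inside `B` -/
noncomputable def inn (F : I → Finset P) (Y B : Finset P) : ℕ :=
  cn fun i => (F i ∩ Y).Nonempty ∧ F i ∩ Y ⊆ B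

structure Sys (d : ℕ) (F : I → Finset P) (X : Finset P) : Prop where
  hF : ∀ p, ∃ i, p ∈ F i
  deg : ∀ p ∈ X, cn (fun i => p ∈ F i) = 5
  sz : ∀ i, (F i ∩ X).card ≤ d

def NoH (F : I → Finset P) (X : Finset P) : Prop := ∀ Z ⊆ X, Z.card = 6 → NN F Z ≠ 10

variable {F : I → Finset P} {X Y Z K B : Finset P} {d : ℕ}

lemma Sys.sub (h : Sys d F Y) (hK : K ⊆ Y) : Sys d F K :=
  ⟨h.hF, fun p hp => h.deg p (hK hp), fun i =>
    (card_le_card (inter_subset_inter subset_rfl hK)).trans (h.sz i)⟩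

lemma Sys.up (h : Sys 3 F Y) : Sys 4 F Y := ⟨h.hF, h.deg, fun i => (h.sz i).trans (by omega)⟩

lemma Sys.count (h : Sys 4 F X) :
    5 * X.card = nn F X 1 + 2 * nn F X 2 + 3 * nn F X 3 + 4 * nn F X 4 ∧
      NN F X = nn F X 1 + nn F X 2 + nn F X 3 + nn F X 4 := by
  classical
  have h1 := sum_cn (F := F) X fun _ => True
  have h2 := sum_sizes (F := F) X (fun _ => True) h.sz
  have h3 := cn_sizes (F := F) X (fun _ => True) h.sz
  simp only [and_true, true_and] at h1 h2 h3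
  rw [sum_congr rfl h.deg, sum_const, smul_eq_mul] at h1
  rw [NN_eq, h3]
  unfold nn
  omega

lemma Sys.nn_four (h : Sys 3 F X) : nn F X 4 = 0 := cn_zero fun i e => by
  have := h.sz i; omega

lemma nn_pos {i : I} {k : ℕ} (h : (F i ∩ X).card = k) : 1 ≤ nn F X k :=
  cn_pos (p := fun i => (F i ∩ X).card = k) h

lemma H_full (h : Sys 3 F Z) (h6 : Z.card = 6) (h10 : NN F Z = 10) {i : I}
    (hi : (F i ∩ Z).Nonempty) : (F i ∩ Z).card = 3 := by
  have h1 := h.up.count
  have h2 := h.nn_four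
  have h3 := h.sz i
  have h4 := card_pos.2 hi
  by_contra hn
  rcases (show (F i ∩ Z).card = 1 ∨ (F i ∩ Z).card = 2 by omega) with e | e <;>
    have := nn_pos e <;> omega

lemma H_closed (h : Sys 3 F Y) (hZ : Z ⊆ Y) (h6 : Z.card = 6) (h10 : NN F Z = 10) {p q : P}
    (hp : p ∈ Z) (hq : q ∈ Y) (ha : Adj F p q) : q ∈ Z := by
  obtain ⟨i, h1, h2⟩ := ha
  have h3 := H_full (h.sub hZ) h6 h10 ⟨p, mem_inter.2 ⟨h1, hp⟩⟩
  have h4 : F i ∩ Z = F i ∩ Y := eq_of_subset_of_card_le (inter_subset_inter subset_rfl hZ)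
    (h3 ▸ h.sz i)
  exact (mem_inter.1 (h4 ▸ mem_inter.2 ⟨h2, hq⟩ : q ∈ F i ∩ Z)).2

lemma H_small (h : Sys 3 F Y) (hZ : Z ⊆ Y) (h6 : Z.card = 6) (h10 : NN F Z = 10) {p : P}
    (hp : p ∈ Z) {i : I} (hi : p ∈ F i) (hs : (F i ∩ Y).card ≤ 2) : False := by
  have h3 := H_full (h.sub hZ) h6 h10 ⟨p, mem_inter.2 ⟨hi, hp⟩⟩
  have := card_le_card (inter_subset_inter (subset_rfl : F i ⊆ F i) hZ)
  omega

lemma lp_mono (hK : K ⊆ Y) {p : P} (hp : p ∈ K) : lp F Y p ≤ lp F K p :=
  cn_mono fun i hi => by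
    have h0 : p ∈ F i := (mem_inter.1 (hi ▸ mem_singleton_self p : p ∈ F i ∩ Y)).1
    refine eq_singleton_iff_unique_mem.2 ⟨mem_inter.2 ⟨h0, hp⟩, fun x hx => ?_⟩
    exact mem_singleton.1 (hi ▸ inter_subset_inter subset_rfl hK hx)

lemma uu_mono (hK : K ⊆ Y) : uu F Y K ≤ uu F K K :=
  card_le_card fun _ hp => mem_filter.2 ⟨(mem_filter.1 hp).1,
    (mem_filter.1 hp).2.trans (lp_mono hK (mem_filter.1 hp).1)⟩

lemma uu_split (h : K ⊆ X) : uu F Y X = uu F Y K + uu F Y (X \ K) := by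
  unfold uu
  rw [← card_union_of_disjoint (disjoint_filter_filter disjoint_sdiff), ← filter_union,
    union_sdiff_of_subset h]

lemma uu_le : uu F Y K ≤ K.card := card_filter_le _ _

/-- loops at distinct points are distinct sets -/
lemma sum_lp (K : Finset P) : ∑ p ∈ K, lp F Y p = cn fun i => ∃ p ∈ K, F i ∩ Y = {p} := by
  induction K using Finset.induction_on with
  | empty => rw [sum_empty, cn_zero (by simp)]
  | insert a K ha ih =>
    rw [sum_insert ha, ih]
    refine le_antisymm (cn_add_le (fun i h1 ⟨p, hp, h2⟩ => ha ?_)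
      (fun i h => ⟨a, mem_insert_self _ _, h⟩) fun i ⟨p, hp, h⟩ => ⟨p, mem_insert_of_mem hp, h⟩)
      (cn_le_add fun i ⟨p, hp, h⟩ => ?_)
    · rw [h1, singleton_inj] at h2; exact h2 ▸ hp
    · rcases mem_insert.1 hp with rfl | hp
      exacts [Or.inl h, Or.inr ⟨p, hp, h⟩]

lemma two_uu (K : Finset P) : 2 * uu F Y K ≤ cn fun i => ∃ p ∈ K, F i ∩ Y = {p} := by
  rw [← sum_lp, uu, mul_comm, ← smul_eq_mul, ← sum_const]
  exact (sum_le_sum fun p hp => (mem_filter.1 hp).2).trans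
    (sum_le_sum_of_subset (filter_subset _ _))

lemma NN_inn (B : Finset P) : NN F Y = NN F (Y \ B) + inn F Y B := by
  simp only [NN_eq, inn]
  refine le_antisymm (cn_le_add fun i hi => ?_) (cn_add_le (fun i ⟨p, hp⟩ h => ?_)
    (fun i h => h.mono (inter_subset_inter subset_rfl sdiff_subset)) fun i h => h.1)
  · by_cases h : F i ∩ Y ⊆ B
    · exact Or.inr ⟨hi, h⟩
    · obtain ⟨p, h1, h2⟩ := not_subset.1 h
      exact Or.inl ⟨p, mem_inter.2 ⟨(mem_inter.1 h1).1, mem_sdiff.2 ⟨(mem_inter.1 h1).2, h2⟩⟩⟩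
  · simp only [mem_inter, mem_sdiff] at hp
    exact hp.2.2 (h.2 (mem_inter.2 ⟨hp.1, hp.2.1⟩))

lemma ww_split (hF : ∀ p, ∃ i, p ∈ F i) {X0 : Finset P} (h0 : X0 ⊆ X) (h : Sep F X0 (X \ X0)) :
    ww F Y X = ww F Y X0 + ww F Y (X \ X0) := by
  have h1 := tau_split hF h0 h
  have h2 := NN_split h0 h
  have h3 := uu_split (F := F) (Y := Y) h0
  have h4 := card_sdiff_add_card_eq_card h0
  unfold ww; omega

/-- additivity over a family of components -/
lemma sum_fam (hF : ∀ p, ∃ i, p ∈ F i) (φ : Finset P → ℤ) (h0 : φ ∅ = 0)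
    (hφ : ∀ X X0, X0 ⊆ X → Sep F X0 (X \ X0) → φ X = φ X0 + φ (X \ X0))
    (A : Finset (Finset P)) : ∀ W : Finset P, (∀ K ∈ A, Hang F W K) →
      (∀ p ∈ W, ∃ K ∈ A, p ∈ K) → φ W = ∑ K ∈ A, φ K := by
  induction A using Finset.induction_on with
  | empty =>
    intro W _ h
    rw [eq_empty_iff_forall_notMem (s := W) |>.2 fun p hp => by simpa using h p hp, h0, sum_empty]
  | insert K A hK ih =>
    intro W h1 h2
    have h3 := h1 K (mem_insert_self _ _)
    rw [sum_insert hK, hφ W K h3.sub h3.sep, ih (W \ K) (fun L hL => ?_) fun p hp => ?_]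
    · have h4 := h1 L (mem_insert_of_mem hL)
      refine h4.restrict (fun p hp => mem_sdiff.2 ⟨h4.sub hp, ?_⟩) sdiff_subset
      exact disjoint_left.1 ((h4.sep_of_ne h3 fun he => hK (he ▸ hL)).disjoint hF) hp
    · obtain ⟨L, hL, hp'⟩ := h2 p (mem_sdiff.1 hp).1
      rcases mem_insert.1 hL with rfl | hL
      exacts [((mem_sdiff.1 hp).2 hp').elim, ⟨L, hL, hp'⟩]

section Gad
variable {σ ι : Type} [Fintype σ] [Fintype ι]

/-- extension data whose new points stand for disjoint classes of old points -/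
structure Gad (F : I → Finset P) (Y Z : Finset P) (q : σ → P) (J : σ → Finset I)
    (H : ι → Finset σ) (C : σ → Finset P) : Prop extends ExtOK F Z q J H where
  sub : Z ⊆ Y
  cls : ∀ s, C s ⊆ Y \ Z
  dis : ∀ s t, s ≠ t → Disjoint (C s) (C t)
  hit : ∀ s, ∀ i ∈ J s, (F i ∩ C s).Nonempty

variable {q : σ → P} {J : σ → Finset I} {H : ι → Finset σ} {C : σ → Finset P}

lemma Gad.size (g : Gad F Y Z q J H C) (i : I) :
    (ext F q J H (Sum.inl i) ∩ (Z ∪ univ.image q)).card ≤ (F i ∩ Y).card := by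
  classical
  refine (g.size_inl i).trans ?_
  have h1 : ∀ s, ∃ x, i ∈ J s → x ∈ F i ∩ C s := fun s => by
    by_cases h : i ∈ J s
    · obtain ⟨x, hx⟩ := g.hit s i h
      exact ⟨x, fun _ => hx⟩
    · exact ⟨q s, fun h' => (h h').elim⟩
  choose x hx using h1
  have h2 : cn (fun s => i ∈ J s) ≤ (F i ∩ (Y \ Z)).card := by
    rw [cn_eq]
    refine card_le_card_of_injOn x (fun s hs => ?_) fun s hs t ht e => ?_
    · have := mem_inter.1 (hx s (mem_filter.1 hs).2)
      exact mem_coe.2 (mem_inter.2 ⟨this.1, g.cls s this.2⟩)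
    · by_contra hn
      have a := (mem_inter.1 (hx s (mem_filter.1 hs).2)).2
      have b := (mem_inter.1 (hx t (mem_filter.1 ht).2)).2
      exact disjoint_left.1 (g.dis s t hn) a (e ▸ b)
  have h3 : (F i ∩ Z).card + (F i ∩ (Y \ Z)).card ≤ (F i ∩ Y).card := by
    rw [← card_union_of_disjoint (disjoint_sdiff.mono inter_subset_right inter_subset_right)]
    exact card_le_card (union_subset (inter_subset_inter subset_rfl g.sub)
      (inter_subset_inter subset_rfl sdiff_subset))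
  omega

lemma Gad.sys (g : Gad F Y Z q J H C) (h : Sys d F Y) (hH : ∀ a, (H a).card ≤ d) :
    Sys d (ext F q J H) (Z ∪ univ.image q) :=
  ⟨g.hF', g.deg_all fun p hp => h.deg p (g.sub hp), fun i => by
    rcases i with i | i
    exacts [(g.size i).trans (h.sz i), (ExtOK.size_inr i _).trans (hH i)]⟩

lemma Gad.lp_old (g : Gad F Y Z q J H C) {p : P} (hp : p ∈ Z) :
    lp F Y p ≤ lp (ext F q J H) (Z ∪ univ.image q) p := by
  unfold lp
  rw [cn_sum]
  refine (cn_mono fun i hi => g.loop_old g.sub hp hi fun s hs => ?_).trans (Nat.le_add_right _ _)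
  obtain ⟨x, hx⟩ := g.hit s i hs
  have h1 := mem_sdiff.1 (g.cls s (mem_inter.1 hx).2)
  have h2 : x ∈ F i ∩ Y := mem_inter.2 ⟨(mem_inter.1 hx).1, h1.1⟩
  rw [hi, mem_singleton] at h2
  exact h1.2 (h2 ▸ hp)

lemma Gad.lp_new (g : Gad F Y Z q J H C) (s : σ) :
    cn (fun a => H a = {s}) ≤ lp (ext F q J H) (Z ∪ univ.image q) (q s) := by
  unfold lp
  rw [cn_sum]
  exact (cn_mono fun a ha => g.loop_new ha).trans (Nat.le_add_left _ _)

lemma Gad.tau_ge (g : Gad F Y Z q J H C) {t : ℕ} (h : ∀ (D : Finset ι) (x : σ → P) (R : Finset σ),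
    (∀ s, s ∉ R → ∃ a ∈ D, s ∈ H a) → (∀ s ∈ R, x s ∈ C s ∧ ∃ i ∈ J s, x s ∈ F i) →
      t ≤ tau F (Z ∪ R.image x) + D.card) :
    t ≤ tau (ext F q J H) (Z ∪ univ.image q) := by
  classical
  refine g.le_tau fun E D hE hs => ?_
  have h1 : ∀ s, ∃ x, (∃ i ∈ E, i ∈ J s) → x ∈ C s ∧ ∃ i ∈ E, i ∈ J s ∧ x ∈ F i := fun s => by
    by_cases h : ∃ i ∈ E, i ∈ J s
    · obtain ⟨i, h1, h2⟩ := h
      obtain ⟨x, hx⟩ := g.hit s i h2
      exact ⟨x, fun _ => ⟨(mem_inter.1 hx).2, i, h1, h2, (mem_inter.1 hx).1⟩⟩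
    · exact ⟨q s, fun h' => (h h').elim⟩
  choose x hx using h1
  refine (h D x (univ.filter fun s => ∃ i ∈ E, i ∈ J s) (fun s h2 => (hs s).resolve_left
    fun h3 => h2 (mem_filter.2 ⟨mem_univ _, h3⟩)) fun s h2 => ?_).trans
    (Nat.add_le_add_right (tau_le fun p hp => ?_) _)
  · obtain ⟨a, i, -, b, c⟩ := hx s (mem_filter.1 h2).2
    exact ⟨a, i, b, c⟩
  · rcases mem_union.1 hp with h2 | h2
    · exact hE p h2
    · obtain ⟨s, h3, rfl⟩ := mem_image.1 h2
      obtain ⟨-, i, a, -, b⟩ := hx s (mem_filter.1 h3).2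
      exact ⟨i, a, b⟩

lemma Gad.adj (g : Gad F Y Z q J H C) {s : σ} (h : (J s).Nonempty) :
    ∃ z ∈ Z, Adj (ext F q J H) z (q s) := by
  obtain ⟨i, hi⟩ := h
  obtain ⟨z, hz⟩ := g.meet s i hi
  exact ⟨z, (mem_inter.1 hz).2, g.adj_J (mem_inter.1 hz).2 hi (mem_inter.1 hz).1⟩

lemma mk_gad (hF : ∀ p, ∃ i, p ∈ F i) (hZ : Z ⊆ Y) (cls : ∀ s, C s ⊆ Y \ Z)
    (dis : ∀ s t, s ≠ t → Disjoint (C s) (C t)) (H : ι → Finset σ)
    (h1 : ∀ s, cn (fun a => s ∈ H a) ≤ 4)
    (h2 : ∀ s, 5 ≤ cn (fun i => (F i ∩ Z).Nonempty ∧ (F i ∩ C s).Nonempty) + cn fun a => s ∈ H a) :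
    ∃ q J, Gad F Y Z q J H C ∧ ∀ s, (J s).Nonempty := by
  have h3 : ∀ s, ∃ E : Finset I, E.card = 5 - cn (fun a => s ∈ H a) ∧
      ∀ i ∈ E, (F i ∩ Z).Nonempty ∧ (F i ∩ C s).Nonempty := fun s =>
    exists_sub (by have := h2 s; omega)
  choose J hJ hJ' using h3
  have h4 : ∀ s, (J s).Nonempty := fun s => card_pos.1 (by have := h1 s; rw [hJ]; omega)
  have h5 : ∀ s, ∃ x, x ∈ C s := fun s => by
    obtain ⟨i, hi⟩ := h4 s
    exact (hJ' s i hi).2.mono inter_subset_right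
  choose q hq using h5
  refine ⟨q, J, ⟨⟨hF, fun s t e => ?_, fun s => (mem_sdiff.1 (cls s (hq s))).2,
    fun s i hi => (hJ' s i hi).1, fun s => by have := h1 s; rw [hJ]; omega⟩, hZ, cls, dis,
    fun s i hi => (hJ' s i hi).2⟩, h4⟩
  by_contra hn
  exact disjoint_left.1 (dis s t hn) (hq s) (e ▸ hq t)

end Gad

lemma cn_const {ι : Type} [Fintype ι] (p : Prop) [Decidable p] :
    cn (fun _ : ι => p) = if p then Fintype.card ι else 0 := by
  split_ifs with h
  · rw [cn_eq]; simp [h]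
  · exact cn_zero fun _ => h

lemma cn_sigma {τ : Type} [Fintype τ] {β : τ → Type} [∀ a, Fintype (β a)]
    (p : (Σ a, β a) → Prop) : cn p = ∑ a, cn fun b => p ⟨a, b⟩ := by
  classical
  simp only [cn_eq, card_filter, Fintype.sum_sigma]

/-- new sets for a family of pairs of new points -/
def PH {τ : Type} [DecidableEq τ] (p : τ → ℕ) (l : τ × Bool → ℕ) :
    (Σ a : τ, Fin (p a) ⊕ Σ b : Bool, Fin (l (a, b))) → Finset (τ × Bool) := fun x =>
  Sum.elim (fun _ => {(x.1, true), (x.1, false)}) (fun y => {(x.1, y.1)}) x.2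

lemma PH_deg {τ : Type} [DecidableEq τ] [Fintype τ] (p : τ → ℕ) (l : τ × Bool → ℕ)
    (s : τ × Bool) : cn (fun a => s ∈ PH p l a) = p s.1 + l s := by
  obtain ⟨a, b⟩ := s
  rw [cn_sigma, Fintype.sum_eq_single a fun a' h => cn_zero fun x => by
    rcases x with x | x <;> simp [PH, h.symm]]
  rw [cn_sum, cn_sigma]
  cases b <;> simp [PH, cn_const]

lemma PH_loop {τ : Type} [DecidableEq τ] [Fintype τ] (p : τ → ℕ) (l : τ × Bool → ℕ)
    (s : τ × Bool) : l s ≤ cn fun a => PH p l a = {s} := by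
  obtain ⟨a, b⟩ := s
  classical
  have := card_le_cn (p := fun x => PH p l x = {(a, b)})
    (univ.image fun y : Fin (l (a, b)) => ⟨a, Sum.inr ⟨b, y⟩⟩) fun x hx => by
      obtain ⟨y, -, rfl⟩ := mem_image.1 hx
      simp [PH]
  rwa [card_image_of_injective _ (fun y y' e => by simpa using e), card_univ,
    Fintype.card_fin] at this

variable [Fintype P]

/-- the statement for tight systems with fewer than `n` points -/
def TT (P : Type) [DecidableEq P] [Fintype P] (n : ℕ) : Prop :=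
  ∀ (I : Type) [Fintype I] (F : I → Finset P) (X : Finset P), X.card < n → Sys 3 F X →
    rho F X ≤ tau F X → NoH F X → 0 ≤ ww F X X

/-- a minimal counterexample -/
structure Min (F : I → Finset P) (Y : Finset P) : Prop where
  sys : Sys 3 F Y
  ih : TT P Y.card
  tight : rho F Y ≤ tau F Y
  noH : NoH F Y
  neg : ww F Y Y < 0

namespace Min
variable (h : Min F Y)
include h

lemma hF : ∀ p, ∃ i, p ∈ F i := h.sys.hF

lemma sub_ge (hK : K ⊆ Y) (hne : K ≠ Y) (ht : rho F K ≤ tau F K) : 0 ≤ ww F Y K := by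
  have h1 := h.ih I F K (card_lt_card (ssubset_of_subset_of_ne hK hne)) (h.sys.sub hK) ht
    fun Z hZ => h.noH Z (hZ.trans hK)
  have h2 := uu_mono (F := F) hK
  unfold ww at *; omega

lemma conn : Conn F Y := fun K hK hne hs => by
  by_contra hn
  have h1 := ww_split (Y := Y) h.hF hK hs
  have h2 := h.sub_ge hK hn (tight_sep h.hF h.tight hK hs)
  have h3 := h.sub_ge (K := Y \ K) sdiff_subset (sdiff_ssubset hK hne).ne
    (tight_sep h.hF h.tight sdiff_subset (hs.symm.mono subset_rfl fun p hp => by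
      simp only [mem_sdiff] at hp; tauto))
  have := h.neg
  omega

lemma crit : Crit F Y := fun v hv => by
  by_contra hn
  have h1 := rho_mono h.hF (erase_subset v Y)
  have h0 := h.tight
  have h2 := h.sub_ge (erase_subset v Y) (erase_ssubset hv).ne (by omega)
  have h3 := uu_split (F := F) (Y := Y) (erase_subset v Y)
  have h4 := uu_le (F := F) (Y := Y) (K := Y \ Y.erase v)
  have h5 := card_sdiff_add_card_eq_card (erase_subset v Y)
  have h6 := card_erase_add_one hv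
  have h7 : NN F (Y.erase v) ≤ NN F Y := by
    simp only [NN_eq]
    exact cn_mono fun i hi => hi.mono (inter_subset_inter subset_rfl (erase_subset _ _))
  have := h.neg
  unfold ww at *; omega

lemma ext_ge {σ ι : Type} [Fintype σ] [Fintype ι] {q : σ → P} {J : σ → Finset I}
    {H : ι → Finset σ} {C : σ → Finset P} (g : Gad F Y Z q J H C)
    (hc : Z.card + Fintype.card σ < Y.card) (hH : ∀ a, (H a).card ≤ 3) {t : ℕ}
    (ht : t ≤ tau (ext F q J H) (Z ∪ univ.image q))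
    (hr : rho (ext F q J H) (Z ∪ univ.image q) ≤ t)
    (hno : ∀ W ⊆ Z ∪ univ.image q, W.card = 6 → NN (ext F q J H) W = 10 → ∀ s, q s ∉ W)
    (U : Finset σ) (hU : ∀ s ∈ U, 2 ≤ cn fun a => H a = {s}) :
    51 * (t : ℤ) + 4 * (uu F Y Z + U.card) ≤
      9 * (NN F Z + Fintype.card ι) + 10 * (Z.card + Fintype.card σ) := by
  classical
  have h1 := h.ih _ _ _ (g.card_eq ▸ hc) (g.sys h.sys hH) (hr.trans ht) fun W hW h6 h10 => by
    have hWZ : W ⊆ Z := fun p hp => (mem_union.1 (hW hp)).resolve_right fun h2 => by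
      obtain ⟨s, -, rfl⟩ := mem_image.1 h2
      exact hno W hW h6 h10 s hp
    exact h.noH W (hWZ.trans g.sub) h6 (g.NN_old hWZ ▸ h10)
  have h2 := g.NN_le
  have h3 : cn (fun a => (H a).Nonempty) ≤ Fintype.card ι := cn_le_card univ fun _ _ => mem_univ _
  have h4 : uu F Y Z + U.card ≤ uu (ext F q J H) (Z ∪ univ.image q) (Z ∪ univ.image q) := by
    unfold uu
    rw [← card_image_of_injective U g.inj, ← card_union_of_disjoint]
    · refine card_le_card fun p hp => ?_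
      rcases mem_union.1 hp with h5 | h5
      · exact mem_filter.2 ⟨mem_union_left _ (mem_filter.1 h5).1,
          (mem_filter.1 h5).2.trans (g.lp_old (mem_filter.1 h5).1)⟩
      · obtain ⟨s, hs, rfl⟩ := mem_image.1 h5
        exact mem_filter.2 ⟨mem_union_right _ (mem_image_of_mem _ (mem_univ _)),
          (hU s hs).trans (g.lp_new s)⟩
    · refine disjoint_left.2 fun p h5 h6 => ?_
      obtain ⟨s, -, rfl⟩ := mem_image.1 h6
      exact g.out s (mem_filter.1 h5).1
  have h5 := g.card_eq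
  unfold ww at h1
  omega

/-- the gadget with pairs of new points -/
lemma pairs {τ : Type} [DecidableEq τ] [Fintype τ] (hK : K ⊆ Y) (ht : rho F K ≤ tau F K)
    {C : τ × Bool → Finset P} (cls : ∀ s, C s ⊆ Y \ K)
    (dis : ∀ s t, s ≠ t → Disjoint (C s) (C t)) (p : τ → ℕ) (l : τ × Bool → ℕ)
    (hp : ∀ a, 1 ≤ p a) (h1 : ∀ s, p s.1 + l s ≤ 4)
    (h2 : ∀ s, 5 ≤ cn (fun i => (F i ∩ K).Nonempty ∧ (F i ∩ C s).Nonempty) + (p s.1 + l s))
    (hc : K.card + 2 * Fintype.card τ < Y.card)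
    (hab : ∀ (A : Finset τ) (x : τ × Bool → P), (∀ a ∈ A, ∀ b, x (a, b) ∈ C (a, b)) →
      tau F K + A.card ≤ tau F (K ∪ (A ×ˢ univ).image x)) :
    31 * (Fintype.card τ : ℤ) + 4 * ∑ s, (if 2 ≤ l s then 1 else 0 : ℕ) ≤
      ww F Y K + 9 * ∑ a, (p a + (l (a, true) + l (a, false)) : ℕ) := by
  classical
  obtain ⟨q, J, g, -⟩ := mk_gad h.hF hK cls dis (PH p l) (fun s => PH_deg p l s ▸ h1 s)
    fun s => PH_deg p l s ▸ h2 s
  have hs : ∀ x, (PH p l x).card ≤ 2 := fun x => by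
    obtain ⟨a, x | x⟩ := x
    · exact card_le_two
    · simp [PH]
  have hm : ∀ a b, (a, b) ∈ PH p l ⟨a, Sum.inl ⟨0, hp a⟩⟩ := fun a b => by
    cases b <;> simp [PH]
  have := h.ext_ge g (by simpa [mul_comm] using hc) (fun x => (hs x).trans (by omega))
    (t := tau F K + Fintype.card τ) (g.tau_ge fun D x R a1 a2 => ?_) ?_
    (fun W hW h6 h10 s hs' => H_small (g.sys h.sys fun x => (hs x).trans (by omega)) hW h6 h10 hs'
      ((g.inr s _).2 (hm s.1 s.2)) ((ExtOK.size_inr _ _).trans (hs _)))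
    (univ.filter fun s => 2 ≤ l s) fun s hs => (mem_filter.1 hs).2.trans (PH_loop p l s)
  · simp only [Fintype.card_sigma, Fintype.card_sum, Fintype.card_fin, Fintype.card_prod,
      Fintype.card_bool, Fintype.sum_bool, card_filter] at this
    unfold ww
    push_cast at this ⊢
    linarith
  · set A := univ.filter fun a => ∀ b, (a, b) ∈ R with hA
    have b1 := hab A x fun a ha b => (a2 _ ((mem_filter.1 ha).2 b)).1
    have b2 : tau F (K ∪ (A ×ˢ univ).image x) ≤ tau F (K ∪ R.image x) :=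
      tau_mono h.hF (union_subset_union subset_rfl (image_subset_image fun s hs =>
        (mem_filter.1 (mem_product.1 hs).1).2 s.2))
    have b3 : univ \ A ⊆ D.image fun y => y.1 := fun a ha => by
      obtain ⟨b, hb⟩ := not_forall.1 fun e =>
        (mem_sdiff.1 ha).2 (mem_filter.2 ⟨mem_univ _, e⟩ : a ∈ A)
      obtain ⟨y, c1, c2⟩ := a1 _ hb
      refine mem_image.2 ⟨y, c1, ?_⟩
      obtain ⟨a', y | y⟩ := y <;> simp [PH] at c2 <;> tauto
    have b4 := (card_le_card b3).trans card_image_le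
    have b5 := card_sdiff_add_card_eq_card (subset_univ A)
    rw [card_univ] at b5
    omega
  · refine (rho_le_add g.hF' subset_rfl).trans (Nat.add_le_add ((g.rho_old subset_rfl).trans ht) ?_)
    refine (tau_le (C := univ.image fun a => (q (a, true), q (a, false))) fun x hx => ?_).trans
      card_image_le
    obtain ⟨⟨a, b⟩, -, rfl⟩ := mem_image.1 hx
    refine ⟨_, mem_image_of_mem _ (mem_univ a), ?_⟩
    rw [GG_eq (g.adj_H (hm a true) (hm a false))]
    cases b <;> simp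

/-- the gadget with three new points -/
lemma tri (hK : K ⊆ Y) (ht : rho F K ≤ tau F K) (hG : Crit (GG F) K) (hn : Conn F K)
    {C : Fin 3 → Finset P} (cls : ∀ s, C s ⊆ Y \ K)
    (dis : ∀ s t, s ≠ t → Disjoint (C s) (C t)) (t p : ℕ) (h0 : 1 ≤ t + p) (h1 : t + p ≤ 4)
    (h2 : ∀ s, 5 ≤ cn (fun i => (F i ∩ K).Nonempty ∧ (F i ∩ C s).Nonempty) +
      (t + if s = 2 then 0 else p))
    (hc : K.card + 3 < Y.card) (hH : 1 ≤ p ∨ 10 ≤ NN F K)
    (hab : ∀ x : Fin 3 → P, (∀ s, x s ∈ C s) → tau F K < tau F (K ∪ univ.image x)) :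
    21 ≤ ww F Y K + 9 * (t + p) := by
  classical
  set H : Fin t ⊕ Fin p → Finset (Fin 3) := Sum.elim (fun _ => univ) fun _ => {0, 1} with hH'
  have hd : ∀ s, cn (fun a => s ∈ H a) = t + if s = 2 then 0 else p := fun s => by
    rw [cn_sum]
    fin_cases s <;> simp [hH', cn_const]
  obtain ⟨q, J, g, hJ⟩ := mk_gad h.hF hK cls dis H
    (fun s => by rw [hd]; split_ifs <;> omega) fun s => hd s ▸ h2 s
  have hs : ∀ x, (H x).card ≤ 3 := fun x => (card_le_univ _).trans (by simp)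
  obtain ⟨a, ha⟩ : ∃ a, 0 ∈ H a ∧ 1 ∈ H a := by
    rcases Nat.eq_zero_or_pos t with e | e
    · exact ⟨Sum.inr ⟨0, by omega⟩, by simp [hH']⟩
    · exact ⟨Sum.inl ⟨0, e⟩, by simp [hH']⟩
  have hq : ∀ s, q s ∈ K ∪ univ.image q := fun s =>
    mem_union_right _ (mem_image_of_mem _ (mem_univ _))
  have := h.ext_ge g (by simpa using hc) hs (t := tau F K + 1) (g.tau_ge fun D x R a1 a2 => ?_) ?_
    (fun W hW h6 h10 s hs' => ?_) ∅ (by simp)
  · simp only [Fintype.card_sum, Fintype.card_fin, card_empty] at this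
    unfold ww
    push_cast at this ⊢
    linarith
  · rcases D.eq_empty_or_nonempty with rfl | hD
    · have : R = univ := eq_univ_of_forall fun s => by
        by_contra hs; simpa using a1 s hs
      subst this
      exact hab x fun s => (a2 s (mem_univ _)).1
    · exact Nat.add_le_add (tau_mono h.hF subset_union_left) (card_pos.2 hD)
  · obtain ⟨z, hz, hzq⟩ := g.adj (hJ 2)
    have b1 := g.rho_old (erase_subset z K)
    have b2 := hG z hz
    have b3 := rho_pair hzq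
    have b4 := rho_pair (g.adj_H ha.1 ha.2)
    have b5 : rho (ext F q J H) (K ∪ univ.image q) ≤ rho (ext F q J H) (K.erase z) +
        rho (ext F q J H) ({z, q 2} ∪ {q 0, q 1}) := rho_le_add g.hF' fun x hx => by
      rcases mem_union.1 hx with c | c
      · by_cases e : x = z <;> simp [e, c]
      · obtain ⟨s, -, rfl⟩ := mem_image.1 c
        fin_cases s <;> simp
    have b6 := rho_le_add g.hF' (Y := {z, q 2}) (Z := {q 0, q 1}) subset_rfl
    unfold rho at *; omega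
  · have cl := @H_closed _ _ _ _ _ _ _ (g.sys h.sys hs) hW h6 h10
    obtain ⟨z, hz, hzq⟩ := g.adj (hJ s)
    have b1 : K ⊆ W := inter_eq_left.1 (hn (K ∩ W) inter_subset_left
      ⟨z, mem_inter.2 ⟨hz, cl hs' (mem_union_left _ hz) hzq.symm⟩⟩ fun x hx y hy hxy => by
        have c1 := (mem_sdiff.1 hy).1
        exact (mem_sdiff.1 hy).2 (mem_inter.2 ⟨c1, cl (mem_inter.1 hx).2 (mem_union_left _ c1)
          ((g.adj_old (mem_inter.1 hx).1 c1).2 hxy)⟩))
    obtain ⟨z, hz, hzq⟩ := g.adj (hJ 0)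
    have b2 := cl (b1 hz) (hq 0) hzq
    rcases hH with e | e
    · exact H_small (g.sys h.sys hs) hW h6 h10 b2 ((g.inr 0 (Sum.inr ⟨0, e⟩)).2 (by simp [hH']))
        ((ExtOK.size_inr _ _).trans card_le_two)
    · rw [NN_eq, cn_sum] at h10
      have c1 : NN F K ≤ cn fun i => (ext F q J H (Sum.inl i) ∩ W).Nonempty := by
        rw [NN_eq]
        exact cn_mono fun i hi => (g.inter_old subset_rfl i ▸ hi :
          (ext F q J H (Sum.inl i) ∩ K).Nonempty).mono (inter_subset_inter subset_rfl b1)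
      have c2 := cn_pos (p := fun i => (ext F q J H (Sum.inr i) ∩ W).Nonempty)
        ⟨q 0, mem_inter.2 ⟨(g.inr 0 a).2 ha.1, b2⟩⟩
      omega

/-- contraction of `Y \ Z` to a single point lying in the sets `J` -/
lemma contract (hZ : Z ⊆ Y) (hc : Z.card + 1 < Y.card) (J : Finset I) (h5 : J.card ≤ 5)
    (hJ : ∀ i ∈ J, (F i ∩ Z).Nonempty ∧ (F i ∩ (Y \ Z)).Nonempty) {t : ℕ}
    (ht : t ≤ tau F Z + 1) (ht' : ∀ i ∈ J, ∀ C, Covers F C Z → i ∈ C → t ≤ C.card)
    {i : I} (hi : i ∈ J) {z : P} (hz : z ∈ F i ∩ Z) (hr : rho F (Z.erase z) < t)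
    (hs : J.card ≤ 4 ∨ ∃ i ∈ J, (F i ∩ Z).card ≤ 1) :
    51 * (t : ℤ) + 4 * (uu F Y Z + (if J.card ≤ 3 then 1 else 0 : ℕ)) ≤
      9 * (NN F Z + (5 - J.card : ℕ)) + 10 * (Z.card + 1) := by
  classical
  obtain ⟨x, hx⟩ := (hJ i hi).2.mono inter_subset_right
  have g : Gad F Y Z (fun _ : Unit => x) (fun _ => J) (fun _ : Fin (5 - J.card) => univ)
      fun _ => Y \ Z := ⟨⟨h.hF, fun _ _ _ => rfl, fun _ => (mem_sdiff.1 hx).2,
        fun _ i hi => (hJ i hi).1, fun _ => by simp [cn_const]; omega⟩, hZ, fun _ => subset_rfl,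
        fun _ _ e => (e rfl).elim, fun _ i hi => (hJ i hi).2⟩
  have hz' := mem_inter.1 hz
  have := h.ext_ge g (by simpa using hc) (by simp) (t := t) (g.le_tau fun C D a1 a2 => ?_) ?_
    (fun W hW h6 h10 s hs' => ?_) (if J.card ≤ 3 then univ else ∅) fun s hs => ?_
  · simp only [Fintype.card_fin, Fintype.card_unit] at this
    split_ifs at this ⊢ <;> simpa using this
  · rcases a2 () with ⟨j, b1, b2⟩ | ⟨j, b1, -⟩
    · exact (ht' j b2 C a1 b1).trans (Nat.le_add_right _ _)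
    · have := card_pos.2 ⟨j, b1⟩
      have := tau_le a1
      omega
  · have b1 := g.rho_old (erase_subset z Z)
    have b3 := rho_pair (g.adj_J hz'.2 (s := ()) hi hz'.1)
    refine (rho_le_add g.hF' (Y := Z.erase z) (Z := {z, x}) fun y hy => ?_).trans (by omega)
    rcases mem_union.1 hy with c | c
    · by_cases e : y = z <;> simp [e, c]
    · obtain ⟨s, -, rfl⟩ := mem_image.1 c
      simp
  · rcases hs with e | ⟨j, b1, b2⟩
    · exact H_small (g.sys h.sys (by simp)) hW h6 h10 hs'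
        ((g.inr s ⟨0, by omega⟩).2 (mem_univ _)) ((ExtOK.size_inr _ _).trans (by simp))
    · refine H_small (g.sys h.sys (by simp)) hW h6 h10 hs' ((g.inl s j).2 b1)
        ((g.size_inl j).trans ?_)
      have : cn (fun _ : Unit => j ∈ J) ≤ 1 := cn_le_card {()} (by simp)
      omega
  · split_ifs at hs with e
    · simp only [cn_const, Fintype.card_fin]
      rw [if_pos (by simp)]; omega
    · simp at hs

end Min

/-- a decomposition of a minimal counterexample into a boundary `B` and tight components -/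
structure Df (F : I → Finset P) (Y B : Finset P) (θ : ℕ) (A : Finset (Finset P)) : Prop where
  min : Min F Y
  sub : B ⊆ Y
  ne : B.Nonempty
  hang : ∀ K ∈ A, Hang F (Y \ B) K
  cov : ∀ p ∈ Y \ B, ∃ K ∈ A, p ∈ K
  tight : ∀ K ∈ A, rho F K ≤ tau F K
  th : tau F Y = θ + tau F (Y \ B)

namespace Df
variable {θ : ℕ} {A : Finset (Finset P)} (h : Df F Y B θ A)
include h

lemma tau_sum : tau F Y = θ + ∑ K ∈ A, tau F K := by
  have := sum_fam h.min.hF (fun X => tau F X) (by simp [tau_empty])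
    (fun X X0 a b => by exact_mod_cast tau_split h.min.hF a b) A _ h.hang h.cov
  rw [h.th]; exact_mod_cast congrArg (fun x => (θ : ℤ) + x) this

lemma del_sum : del F (Y \ B) = ∑ K ∈ A, del F K :=
  sum_fam h.min.hF (del F) (by simp [del, tau_empty])
    (fun _ _ a b => del_add h.min.hF a b) A _ h.hang h.cov

lemma budget : ∑ K ∈ A, ww F Y K + 9 * inn F Y B + 10 * B.card < 51 * θ + 4 * uu F Y B := by
  rw [← sum_fam h.min.hF (ww F Y) (by simp [ww, tau_empty, uu, NN_eq, cn_zero])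
    (fun _ _ a b => ww_split h.min.hF a b) A _ h.hang h.cov]
  have h1 := h.min.neg
  have h2 := h.th
  have h3 := NN_inn (F := F) (Y := Y) B
  have h4 := uu_split (F := F) (Y := Y) h.sub
  have h5 := card_sdiff_add_card_eq_card h.sub
  unfold ww at *; omega

lemma ge (hK : K ∈ A) : 0 ≤ ww F Y K := by
  obtain ⟨b, hb⟩ := h.ne
  exact h.min.sub_ge ((h.hang K hK).sub.trans sdiff_subset)
    (fun e => (mem_sdiff.1 ((h.hang K hK).sub (e ▸ h.sub hb))).2 hb) (h.tight K hK)

lemma del01 (hK : K ∈ A) : del F K = 0 ∨ (del F K = 1 ∧ Crit (GG F) K) :=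
  tight_crit h.min.hF (h.hang K hK).crit (h.hang K hK).conn (h.tight K hK)

lemma del_le : del F (Y \ B) ≤ A.card := by
  rw [h.del_sum]
  simpa using sum_le_card_nsmul A (del F) 1 fun K hK => by rcases h.del01 hK with e | e <;> omega

lemma gcrit (e : (A.card : ℤ) ≤ del F (Y \ B)) (hK : K ∈ A) : del F K = 1 ∧ Crit (GG F) K := by
  refine (h.del01 hK).resolve_left fun e0 => ?_
  have h1 := h.del_sum
  rw [← add_sum_erase _ _ hK] at h1
  have h2 : ∑ L ∈ A.erase K, del F L ≤ (A.erase K).card := by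
    simpa only [nsmul_eq_mul, mul_one] using sum_le_card_nsmul (A.erase K) (del F) 1 fun L hL => by
      rcases h.del01 (mem_erase.1 hL).2 with e | e <;> omega
  have h3 := card_erase_add_one hK
  omega

lemma small (E : Finset I) (hE : ∀ i ∈ E, 2 ≤ (F i ∩ Y).card ∧ F i ∩ Y ⊆ B) :
    9 * E.card + 10 * B.card < 51 * θ ∧ 9 * inn F Y B + 10 * B.card < 51 * θ + 4 * uu F Y B ∧
      E.card + 2 * uu F Y B ≤ inn F Y B := by
  have h1 := h.budget
  have h2 := sum_nonneg fun K hK => h.ge (K := K) hK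
  have h3 := two_uu (F := F) (Y := Y) B
  have h4 := card_le_cn (p := fun i => 2 ≤ (F i ∩ Y).card ∧ F i ∩ Y ⊆ B) E hE
  have h5 : cn (fun i => 2 ≤ (F i ∩ Y).card ∧ F i ∩ Y ⊆ B) +
      cn (fun i => ∃ p ∈ B, F i ∩ Y = {p}) ≤ inn F Y B :=
    cn_add_le (fun i a ⟨p, _, b⟩ => by simp [b] at a)
      (fun i a => ⟨card_pos.1 (by omega), a.2⟩) fun i ⟨p, a, b⟩ => by simpa [b] using a
  omega

end Df

lemma Min.mk_df (h : Min F Y) {U : Finset P} (hU : U ⊆ Y) (hne : U.Nonempty) {θ : ℕ}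
    (ht : rho F (Y \ U) ≤ tau F (Y \ U)) (th : tau F Y = θ + tau F (Y \ U)) :
    ∃ S ⊆ Y \ U, ∃ A, Df F Y (U ∪ S) θ A ∧ del F (Y \ (U ∪ S)) = del F (Y \ U) + S.card := by
  obtain ⟨W, h1, h2, h3⟩ := exists_crit h.hF (Y \ U)
  obtain ⟨A, a1, a2, -⟩ := comps h.hF W h2
  have e : Y \ (U ∪ (Y \ U) \ W) = W := by
    ext p
    have := @h1 p
    simp only [mem_sdiff, mem_union] at this ⊢
    tauto
  have h4 := rho_mono h.hF h1
  have h5 := card_sdiff_add_card_eq_card h1
  refine ⟨(Y \ U) \ W, sdiff_subset, A, ⟨h, union_subset hU (sdiff_subset.trans sdiff_subset),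
    hne.mono subset_union_left, e.symm ▸ a1, e.symm ▸ a2, fun K hK =>
      tight_sep h.hF (W := W) (by omega) (a1 K hK).sub (a1 K hK).sep, by rw [e]; omega⟩, ?_⟩
  rw [e]; unfold del; omega

end Pool.Agent.Lib.MP_0828a1_co
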