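import Pool.Agent.Lib.MP_0828a1_co.TzChk
import Pool.Agent.Lib.MP_0828a1_co.TzMin

/-! Types of sets relative to a boundary and components; families of types as bit sets. -/

open Finset

set_option linter.unusedSectionVars false

namespace Pool.Agent.Lib.MP_0828a1_co

noncomputable def mkm (p : ℕ → Bool) (n : ℕ) : ℕ :=
  Nat.rec 0 (fun k r => cond (p k) (r ||| 2 ^ k) r) n

def ALL : ℕ := 2 ^ 2048 - 1
def col (b : ℕ) : ℕ := (2 ^ 2048 - 1) / (2 ^ 2 ^ b + 1) * 2 ^ 2 ^ b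
def cmp (nb j : ℕ) : ℕ := (2 ^ 2 ^ nb - 1) <<< (2 ^ nb * j)
def bitsOf (nb X : ℕ) : List ℕ := (List.range nb).filter X.testBit
def anyB (nb X : ℕ) : ℕ := (bitsOf nb X).foldr (fun b r => col b ||| r) 0
def allB (nb X : ℕ) : ℕ := (bitsOf nb X).foldr (fun b r => col b &&& r) ALL
def pc (nb X : ℕ) : ℕ := ((range nb).filter fun b => X.testBit b = true).card
def one (nb j X : ℕ) : ℕ := 2 ^ (2 ^ nb * j + X)

lemma mkm_bit (p : ℕ → Bool) (n x : ℕ) : (mkm p n).testBit x = true ↔ x < n ∧ p x = true := by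
  induction n with
  | zero => simp [mkm]
  | succ n ih =>
    change (cond (p n) (mkm p n ||| 2 ^ n) (mkm p n)).testBit x = true ↔ _
    by_cases e : n = x
    · subst e
      cases h : p n <;> simp [ih]
    · have : x < n + 1 ↔ x < n := by omega
      cases h : p n <;> simp [ih, e, this]

lemma mkm_lt (p : ℕ → Bool) (n : ℕ) : mkm p n < 2 ^ n :=
  Nat.lt_pow_two_of_testBit _ fun i hi => by
    rw [Bool.eq_false_iff]; intro h
    have := ((mkm_bit p n i).1 h).1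
    omega

lemma col_spec (b : ℕ) (hb : b < 11) (x : ℕ) (hx : x < 2048) :
    (col b).testBit x = x.testBit b := by
  have : col b = mkm (fun x => x.testBit b) 2048 := by interval_cases b <;> decide +kernel
  rw [this, Bool.eq_iff_iff, mkm_bit]
  simp [hx]

lemma cmp_bit (nb j x : ℕ) : (cmp nb j).testBit x = true ↔ x / 2 ^ nb = j := by
  rw [Nat.div_eq_iff (by positivity), mul_comm j]
  simp only [cmp, Nat.testBit_shiftLeft, Nat.testBit_two_pow_sub_one, Bool.and_eq_true,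
    decide_eq_true_eq]
  have : 0 < 2 ^ nb := by positivity
  omega

lemma mem_bitsOf {nb X b : ℕ} : b ∈ bitsOf nb X ↔ b < nb ∧ X.testBit b = true := by
  simp [bitsOf]

lemma any_bit (L : List ℕ) (x : ℕ) : (L.foldr (fun b r => col b ||| r) 0).testBit x = true ↔
    ∃ b ∈ L, (col b).testBit x = true := by
  induction L with
  | nil => simp
  | cons a L ih => simp [ih]

lemma all_bit (L : List ℕ) {x : ℕ} (hx : x < 2048) :
    (L.foldr (fun b r => col b &&& r) ALL).testBit x = true ↔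
      ∀ b ∈ L, (col b).testBit x = true := by
  induction L with
  | nil => simp only [List.foldr_nil, ALL, Nat.testBit_two_pow_sub_one]; simpa using hx
  | cons a L ih => simp [ih]

/-- parameters of a configuration -/
structure Par where
  nb : ℕ
  c : ℕ
  d : ℕ
  θ : ℕ
  g : Bool
  ea : Bool
  kn : List ℕ
  sp : List ℕ
  so : List (ℕ × ℕ)
  bad : ℕ → Bool

noncomputable def Par.imp (p : Par) : ℕ :=
  mkm (fun x => decide (p.d < pc p.nb x + if x / 2 ^ p.nb < p.c then 1 else 0) || p.bad x)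
    (2 ^ p.nb * (p.c + 1)) ||| ALL <<< (2 ^ p.nb * (p.c + 1))

def Par.D (p : Par) (j X : ℕ) : ℕ := cmp p.nb j &&& anyB p.nb X

def Par.ins (p : Par) (A : ℕ) : ℕ := p.D p.c A &&& (ALL ^^^ anyB p.nb (A ^^^ (2 ^ p.nb - 1)))

def gen0 (p : Par) : ℕ → List ℕ → List Cond
  | 1, [b] => [.side (decide (b < p.nb)), .hi (col b) 4]
  | 2, [b] => [.side (decide (b < p.nb)), .lo (col b) 6]
  | 12, [A] => [.side (decide (A ∈ p.kn)), .hi (one p.nb p.c A) 0]
  | 15, [n, k] => [.lo (p.so.getD n (0, 0)).2 (k + 1), .hi (p.so.getD n (0, 0)).1 k]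
  | _, _ => [.side false]

def nab2 (nb j X Y : ℕ) : List Cond :=
  (bitsOf nb X).flatMap fun x => (bitsOf nb Y).map fun y => .nab j (2 ^ x ||| 2 ^ y) 0

def covC (p : Par) (j X : ℕ) : ℕ → Cond
  | 0 => .side (decide (X = 0))
  | 1 => .ab j X 0
  | 2 => .ab j X 1
  | _ => .lo (cmp p.nb j &&& allB p.nb X) 1

def covS (p : Par) (X : ℕ) : Cond :=
  if pc p.nb X ≤ 1 ∨ ∃ A ∈ p.kn, sub X A = true then .side true else .lo (allB p.nb X) 1

def ge2 (l : ℕ) : ℕ := if 2 ≤ l then 1 else 0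

def gen1 (p : Par) : ℕ → List ℕ → List Cond
  | 3, [j, X] => [.side (decide (j < p.c)), .lo (cmp p.nb j &&& allB p.nb X) 1, .nab j X 0]
  | 4, [j, X, X', k] => [.side (sub X' X), .ab j X k, .nab j X' k]
  | 5, [j, X, b] => [.side (decide (j < p.c ∧ b < p.nb ∧ X.testBit b = true)), .ab j X 0,
      .hi (cmp p.nb j &&& col b) 0]
  | 6, [j, v] => [.wlo j v, .whi j v]
  | 7, a => .side (decide ((∑ j ∈ range p.c, if a.getD (2 * j) 0 = 2 then 1 else 0) +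
        (a.drop (2 * p.c)).length < p.θ)) :: .side ((List.range p.nb).all fun b =>
        ((List.range p.c).any fun j => (a.getD (2 * j + 1) 0).testBit b) ||
          (a.drop (2 * p.c)).any fun X => X.testBit b) ::
      ((List.range p.c).map (fun j => covC p j (a.getD (2 * j + 1) 0) (a.getD (2 * j) 0)) ++
        (a.drop (2 * p.c)).map (covS p))
  | 8, [j, X, Y, q, l1, l2, v] => [.side (decide (j < p.c ∧ X &&& Y = 0 ∧ 2 < p.nb ∧ 1 ≤ q ∧
        q + l1 ≤ 4 ∧ q + l2 ≤ 4 ∧ v + 9 * (q + l1 + l2) ≤ 31 + 4 * (ge2 l1 + ge2 l2))),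
      .lo (p.D j X) (5 - q - l1), .lo (p.D j Y) (5 - q - l2), .whi j v] ++ nab2 p.nb j X Y
  | 9, [j, X, Y, q, l1, l2, X', Y', q', l1', l2', v] => [.side (decide (j < p.c ∧ X &&& Y = 0 ∧
        X &&& X' = 0 ∧ X &&& Y' = 0 ∧ Y &&& X' = 0 ∧ Y &&& Y' = 0 ∧ X' &&& Y' = 0 ∧ 4 < p.nb ∧
        1 ≤ q ∧ q + l1 ≤ 4 ∧ q + l2 ≤ 4 ∧ 1 ≤ q' ∧ q' + l1' ≤ 4 ∧ q' + l2' ≤ 4 ∧
        v + 9 * (q + l1 + l2 + (q' + l1' + l2')) ≤
          62 + 4 * (ge2 l1 + ge2 l2 + (ge2 l1' + ge2 l2')))),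
      .lo (p.D j X) (5 - q - l1), .lo (p.D j Y) (5 - q - l2), .lo (p.D j X') (5 - q' - l1'),
      .lo (p.D j Y') (5 - q' - l2'), .whi j v] ++ (nab2 p.nb j X Y ++ (nab2 p.nb j X' Y' ++
      (bitsOf p.nb X).flatMap fun x => (bitsOf p.nb Y).flatMap fun y =>
        (bitsOf p.nb X').flatMap fun x' => (bitsOf p.nb Y').map fun y' =>
          .nab j (2 ^ x ||| 2 ^ y ||| 2 ^ x' ||| 2 ^ y') 1))
  | 10, [j, X, Y, Z, t, q, v] => [.side (decide (j < p.c ∧ p.g = true ∧ X &&& Y = 0 ∧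
        X &&& Z = 0 ∧ Y &&& Z = 0 ∧ 3 < p.nb ∧ 1 ≤ t + q ∧ t + q ≤ 4 ∧ v + 9 * (t + q) ≤ 21)),
      .lo (p.D j X) (5 - t - q), .lo (p.D j Y) (5 - t - q), .lo (p.D j Z) (5 - t), .whi j v,
      .lo (p.D j (2 ^ p.nb - 1)) (if q = 0 then 10 else 0)] ++
      (bitsOf p.nb X).flatMap fun x => (bitsOf p.nb Y).flatMap fun y =>
        (bitsOf p.nb Z).map fun z => .nab j (2 ^ x ||| 2 ^ y ||| 2 ^ z) 0
  | 11, e :: U :: vs => [.side (decide (51 * p.θ + 4 * pc p.nb U ≤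
        ∑ j ∈ range p.c, vs.getD j 0 + 10 * p.nb + 9 * e)), .lo (p.D p.c (2 ^ p.nb - 1)) e] ++
      ((List.range p.nb).map (fun b => if U.testBit b = true ∨
          (p.ea = true ∧ ∃ A ∈ p.kn, A.testBit b = true) then .side true
          else .hi (one p.nb p.c (2 ^ b)) 1) ++
        (List.range p.c).map fun j => if vs.getD j 0 = 0 then .side true else .wlo j (vs.getD j 0))
  | 13, [A] => [.side (decide (p.ea = true ∧ A ∈ p.kn)), .lo (p.ins A) 3]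
  | 14, [A, Jm, S] => .side (decide (A ∈ p.sp ∧ 1 ≤ pc p.c Jm ∧
        pc p.nb (A &&& (S ^^^ (2 ^ p.nb - 1))) ≤ pc p.c Jm)) ::
      (bitsOf p.c Jm).flatMap fun j => (bitsOf p.nb S).map fun b => .hi (cmp p.nb j &&& col b) 0
  | r, a => gen0 p r a

variable {I P : Type} [Fintype I] [DecidableEq P]

/-- the points of a mask -/
def pts (nb : ℕ) (bp : ℕ → P) (X : ℕ) : Finset P :=
  ((range nb).filter fun b => X.testBit b = true).image bp

lemma mem_pts {nb X : ℕ} {bp : ℕ → P} {x : P} :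
    x ∈ pts nb bp X ↔ ∃ b < nb, X.testBit b = true ∧ bp b = x := by
  simp [pts, and_assoc]

lemma pts_mono {nb X X' : ℕ} {bp : ℕ → P} (h : ∀ b < nb, X.testBit b = true → X'.testBit b = true) :
    pts nb bp X ⊆ pts nb bp X' := fun _ hx => by
  obtain ⟨b, h1, h2, h3⟩ := mem_pts.1 hx
  exact mem_pts.2 ⟨b, h1, h b h1 h2, h3⟩

open Classical in
noncomputable def jj (F : I → Finset P) (c : ℕ) (K : ℕ → Finset P) (i : I) : ℕ :=
  if h : ∃ j < c, (F i ∩ K j).Nonempty then h.choose else c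

noncomputable def typ (p : Par) (F : I → Finset P) (bp : ℕ → P) (K : ℕ → Finset P) (i : I) : ℕ :=
  2 ^ p.nb * jj F p.c K i + mkm (fun b => decide (bp b ∈ F i)) p.nb

noncomputable def sem (p : Par) (F : I → Finset P) (Y : Finset P) (bp : ℕ → P)
    (K : ℕ → Finset P) : Sem I :=
  ⟨typ p F bp K, fun j X k => tau F (K j ∪ pts p.nb bp X) ≤ tau F (K j) + k,
    fun j => ww F Y (K j), fun X => tau F (pts p.nb bp X) ≤ 2⟩

/-- a boundary `bp` and separated parts `K` -/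
structure Cf (p : Par) (F : I → Finset P) (Y : Finset P) (bp : ℕ → P) (K : ℕ → Finset P) :
    Prop where
  sys : Sys p.d F Y
  small : p.nb ≤ 11 ∧ 2 ^ p.nb * (p.c + 1) ≤ 2048
  inj : ∀ a < p.nb, ∀ b < p.nb, bp a = bp b → a = b
  mem : ∀ b < p.nb, bp b ∈ Y
  sub : ∀ j < p.c, K j ⊆ Y
  out : ∀ j < p.c, ∀ b < p.nb, bp b ∉ K j
  sep : ∀ j < p.c, ∀ j' < p.c, j ≠ j' → Sep F (K j) (K j')
  cov : ∀ x ∈ Y, (∃ b < p.nb, bp b = x) ∨ ∃ j < p.c, x ∈ K j
  kn : ∀ A ∈ p.kn, A < 2 ^ p.nb ∧ 2 ≤ pc p.nb A ∧ ∃ i, F i ∩ Y = pts p.nb bp A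

namespace Cf
variable {p : Par} {F : I → Finset P} {Y : Finset P} {bp : ℕ → P} {K : ℕ → Finset P}
  (h : Cf p F Y bp K)
include h

omit h in
lemma jj_le (i : I) : jj F p.c K i ≤ p.c := by
  unfold jj
  split_ifs with e
  exacts [e.choose_spec.1.le, le_rfl]

omit h in
lemma typ_div (i : I) : typ p F bp K i / 2 ^ p.nb = jj F p.c K i := by
  rw [typ, Nat.mul_add_div (by positivity), Nat.div_eq_of_lt (mkm_lt _ _), add_zero]

omit h in
lemma typ_lt' (i : I) : typ p F bp K i < 2 ^ p.nb * (p.c + 1) := by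
  have h1 := mkm_lt (fun b => decide (bp b ∈ F i)) p.nb
  have h2 := Nat.mul_le_mul_left (2 ^ p.nb) (jj_le (p := p) (F := F) (K := K) i)
  unfold typ
  rw [mul_add]; omega

lemma typ_lt (i : I) : typ p F bp K i < 2048 := (typ_lt' i).trans_le h.small.2

omit h in
lemma t_bit {b : ℕ} (hb : b < p.nb) (i : I) : (typ p F bp K i).testBit b = true ↔ bp b ∈ F i := by
  rw [typ, Nat.testBit_two_pow_mul_add _ (mkm_lt _ _), if_pos hb, mkm_bit]
  simp [hb]

lemma t_col {b : ℕ} (hb : b < p.nb) (i : I) :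
    (col b).testBit (typ p F bp K i) = true ↔ bp b ∈ F i := by
  rw [col_spec b (hb.trans_le h.small.1) _ (h.typ_lt i), t_bit hb]

lemma jj_eq {j : ℕ} (hj : j < p.c) (i : I) : jj F p.c K i = j ↔ (F i ∩ K j).Nonempty := by
  unfold jj
  split_ifs with e
  · refine ⟨fun a => a ▸ e.choose_spec.2, fun ⟨x, hx⟩ => ?_⟩
    by_contra hn
    obtain ⟨y, hy⟩ := e.choose_spec.2
    exact h.sep _ e.choose_spec.1 j hj hn y (mem_inter.1 hy).2 x (mem_inter.1 hx).2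
      ⟨i, (mem_inter.1 hy).1, (mem_inter.1 hx).1⟩
  · exact ⟨fun a => by omega, fun a => (e ⟨j, hj, a⟩).elim⟩

omit h in
lemma jj_c (i : I) : jj F p.c K i = p.c ↔ ∀ j < p.c, ¬ (F i ∩ K j).Nonempty := by
  unfold jj
  split_ifs with e
  · exact ⟨fun a => (e.choose_spec.1.ne a).elim, fun a =>
      (a _ e.choose_spec.1 e.choose_spec.2).elim⟩
  · exact ⟨fun _ j hj a => e ⟨j, hj, a⟩, fun _ => rfl⟩

lemma t_cmp {j : ℕ} (hj : j < p.c) (i : I) :
    (cmp p.nb j).testBit (typ p F bp K i) = true ↔ (F i ∩ K j).Nonempty := by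
  rw [cmp_bit, typ_div, h.jj_eq hj]

omit h in
lemma t_cmpc (i : I) :
    (cmp p.nb p.c).testBit (typ p F bp K i) = true ↔ ∀ j < p.c, ¬ (F i ∩ K j).Nonempty := by
  rw [cmp_bit, typ_div, jj_c]

lemma t_any (X : ℕ) (i : I) :
    (anyB p.nb X).testBit (typ p F bp K i) = true ↔ (F i ∩ pts p.nb bp X).Nonempty := by
  rw [anyB, any_bit]
  constructor
  · rintro ⟨b, h1, h2⟩
    obtain ⟨a1, a2⟩ := mem_bitsOf.1 h1
    exact ⟨bp b, mem_inter.2 ⟨(h.t_col a1 i).1 h2, mem_pts.2 ⟨b, a1, a2, rfl⟩⟩⟩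
  · rintro ⟨x, hx⟩
    obtain ⟨b, a1, a2, rfl⟩ := mem_pts.1 (mem_inter.1 hx).2
    exact ⟨b, mem_bitsOf.2 ⟨a1, a2⟩, (h.t_col a1 i).2 (mem_inter.1 hx).1⟩

lemma t_all (X : ℕ) (i : I) :
    (allB p.nb X).testBit (typ p F bp K i) = true ↔ pts p.nb bp X ⊆ F i := by
  rw [allB, all_bit _ (h.typ_lt i)]
  constructor
  · intro h1 x hx
    obtain ⟨b, a1, a2, rfl⟩ := mem_pts.1 hx
    exact (h.t_col a1 i).1 (h1 b (mem_bitsOf.2 ⟨a1, a2⟩))
  · intro h1 b hb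
    obtain ⟨a1, a2⟩ := mem_bitsOf.1 hb
    exact (h.t_col a1 i).2 (h1 (mem_pts.2 ⟨b, a1, a2, rfl⟩))

lemma t_not (f : ℕ) (i : I) :
    (ALL ^^^ f).testBit (typ p F bp K i) = true ↔ ¬ f.testBit (typ p F bp K i) = true := by
  rw [Nat.testBit_xor, ALL, Nat.testBit_two_pow_sub_one]
  simp [h.typ_lt i]

omit h in
lemma t_mkm (q : ℕ → Bool) (i : I) :
    (mkm q (2 ^ p.nb * (p.c + 1))).testBit (typ p F bp K i) = true ↔ q (typ p F bp K i) = true := by
  rw [mkm_bit]; simp [typ_lt' i]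

lemma mem_bp {b X : ℕ} (hb : b < p.nb) : bp b ∈ pts p.nb bp X ↔ X.testBit b = true := by
  rw [mem_pts]
  exact ⟨fun ⟨a, h1, h2, h3⟩ => h.inj a h1 b hb h3 ▸ h2, fun e => ⟨b, hb, e, rfl⟩⟩

lemma pts_sub (X : ℕ) : pts p.nb bp X ⊆ Y := fun x hx => by
  obtain ⟨b, a1, -, rfl⟩ := mem_pts.1 hx
  exact h.mem b a1

lemma pts_out {j : ℕ} (hj : j < p.c) (X : ℕ) : pts p.nb bp X ⊆ Y \ K j := fun x hx => by
  obtain ⟨b, a1, -, rfl⟩ := mem_pts.1 hx
  exact mem_sdiff.2 ⟨h.mem b a1, h.out j hj b a1⟩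

lemma card_pts (X : ℕ) : (pts p.nb bp X).card = pc p.nb X :=
  card_image_of_injOn fun a ha b hb => h.inj a (mem_range.1 (mem_filter.1 ha).1) b
    (mem_range.1 (mem_filter.1 hb).1)

lemma pts_dis {X X' : ℕ} (e : X &&& X' = 0) : Disjoint (pts p.nb bp X) (pts p.nb bp X') :=
  disjoint_left.2 fun x h1 h2 => by
    obtain ⟨b, a1, a2, rfl⟩ := mem_pts.1 h1
    have := congrArg (fun n => n.testBit b) e
    simp [a2, (h.mem_bp a1).1 h2] at this

lemma t_pc (X : ℕ) (i : I) : pc p.nb (X &&& typ p F bp K i) = (F i ∩ pts p.nb bp X).card := by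
  rw [← h.card_pts]
  congr 1
  ext x
  simp only [mem_inter, mem_pts, Nat.testBit_and, Bool.and_eq_true]
  constructor
  · rintro ⟨b, a1, ⟨a2, a3⟩, rfl⟩
    exact ⟨(t_bit a1 i).1 a3, b, a1, a2, rfl⟩
  · rintro ⟨a3, b, a1, a2, rfl⟩
    exact ⟨b, a1, ⟨a2, (t_bit a1 i).2 a3⟩, rfl⟩

lemma t_pc' (i : I) : pc p.nb (typ p F bp K i) = (F i ∩ pts p.nb bp (2 ^ p.nb - 1)).card := by
  rw [← h.t_pc]
  unfold pc
  congr 1
  exact filter_congr fun b hb => by simp [mem_range.1 hb]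

lemma inside (i : I) : (∀ j < p.c, ¬ (F i ∩ K j).Nonempty) ↔
    F i ∩ Y ⊆ pts p.nb bp (2 ^ p.nb - 1) := by
  refine ⟨fun a x hx => ?_, fun a j hj ⟨x, hx⟩ => ?_⟩
  · rcases h.cov x (mem_inter.1 hx).2 with ⟨b, a1, rfl⟩ | ⟨j, a1, a2⟩
    · exact (h.mem_bp a1).2 (by simp [a1])
    · exact (a j a1 ⟨x, mem_inter.2 ⟨(mem_inter.1 hx).1, a2⟩⟩).elim
  · exact (mem_sdiff.1 (h.pts_out hj _ (a (inter_subset_inter subset_rfl (h.sub j hj) hx)))).2
      (mem_inter.1 hx).2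

lemma t_one {X : ℕ} (hX : X < 2 ^ p.nb) (i : I) :
    (one p.nb p.c X).testBit (typ p F bp K i) = true ↔ F i ∩ Y = pts p.nb bp X := by
  rw [one, Nat.testBit_two_pow, decide_eq_true_eq]
  constructor
  · intro e
    have h1 : jj F p.c K i = p.c := by
      rw [← typ_div (bp := bp), ← e, Nat.mul_add_div (by positivity), Nat.div_eq_of_lt hX, add_zero]
    have h2 := (h.inside i).1 ((jj_c i).1 h1)
    have h3 : ∀ b < p.nb, (X.testBit b = true ↔ bp b ∈ F i) := fun b hb => by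
      rw [← t_bit (K := K) hb, ← e, Nat.testBit_two_pow_mul_add _ hX, if_pos hb]
    refine Subset.antisymm (fun x hx => ?_) fun x hx => ?_
    · obtain ⟨b, a1, -, rfl⟩ := mem_pts.1 (h2 hx)
      exact (h.mem_bp a1).2 ((h3 b a1).2 (mem_inter.1 hx).1)
    · obtain ⟨b, a1, a2, rfl⟩ := mem_pts.1 hx
      exact mem_inter.2 ⟨(h3 b a1).1 a2, h.mem b a1⟩
  · intro e
    rw [typ, (jj_c i).2 ((h.inside i).2 (e ▸ pts_mono fun b hb _ => by simp [hb]))]
    congr 1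
    refine Nat.eq_of_testBit_eq fun b => Bool.eq_iff_iff.2 ?_
    rw [mkm_bit, decide_eq_true_eq]
    refine ⟨fun a => ?_, fun ⟨a1, a2⟩ => (h.mem_bp a1).1 (e ▸ mem_inter.2 ⟨a2, h.mem b a1⟩)⟩
    have a1 : b < p.nb := (Nat.pow_lt_pow_iff_right (by norm_num)).1
      ((Nat.ge_two_pow_of_testBit a).trans_lt hX)
    exact ⟨a1, (mem_inter.1 (e ▸ (h.mem_bp a1).2 a : bp b ∈ F i ∩ Y)).1⟩

lemma pts_one {b : ℕ} (hb : b < p.nb) : pts p.nb bp (2 ^ b) = {bp b} := by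
  ext x
  simp only [mem_pts, Nat.testBit_two_pow, decide_eq_true_eq, mem_singleton]
  exact ⟨fun ⟨_, _, a, e⟩ => a ▸ e.symm, fun e => ⟨b, hb, rfl, e.symm⟩⟩

lemma t_D {j : ℕ} (hj : j < p.c) (X : ℕ) (i : I) : (p.D j X).testBit (typ p F bp K i) = true ↔
    (F i ∩ K j).Nonempty ∧ (F i ∩ pts p.nb bp X).Nonempty := by
  rw [Par.D, Nat.testBit_and, Bool.and_eq_true, h.t_cmp hj, h.t_any]

lemma t_ins (A : ℕ) (i : I) : (p.ins A).testBit (typ p F bp K i) = true ↔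
    (F i ∩ Y).Nonempty ∧ F i ∩ Y ⊆ pts p.nb bp A := by
  rw [Par.ins, Par.D, Nat.testBit_and, Nat.testBit_and, Bool.and_eq_true, Bool.and_eq_true,
    h.t_not, t_cmpc, h.t_any, h.t_any, h.inside]
  constructor
  · rintro ⟨⟨a1, a2⟩, a3⟩
    refine ⟨a2.mono (inter_subset_inter subset_rfl (h.pts_sub _)), fun x hx => ?_⟩
    obtain ⟨b, b1, -, rfl⟩ := mem_pts.1 (a1 hx)
    rw [h.mem_bp b1]
    by_contra hn
    exact a3 ⟨bp b, mem_inter.2 ⟨(mem_inter.1 hx).1, (h.mem_bp b1).2 (by simpa [b1] using hn)⟩⟩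
  · rintro ⟨⟨y, hy⟩, a2⟩
    refine ⟨⟨a2.trans (pts_mono fun b hb _ => by simp [hb]),
      y, mem_inter.2 ⟨(mem_inter.1 hy).1, a2 hy⟩⟩, fun ⟨x, hx⟩ => ?_⟩
    obtain ⟨b, b1, b2, rfl⟩ := mem_pts.1 (mem_inter.1 hx).2
    have := (h.mem_bp b1).1 (a2 (mem_inter.2 ⟨(mem_inter.1 hx).1, h.mem b b1⟩))
    simp [b1, this] at b2

lemma himp (hb : ∀ i, p.bad (typ p F bp K i) = false) (i : I) :
    p.imp.testBit ((sem p F Y bp K).typ i) = false := by
  change p.imp.testBit (typ p F bp K i) = false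
  rw [Par.imp, Nat.testBit_or, Nat.testBit_shiftLeft, Bool.or_eq_false_iff]
  refine ⟨Bool.eq_false_iff.2 fun e => ?_, by simp [typ_lt' i]⟩
  rw [t_mkm, hb, Bool.or_false, decide_eq_true_eq, typ_div, h.t_pc'] at e
  have h1 := h.sys.sz i
  have h2 : F i ∩ pts p.nb bp (2 ^ p.nb - 1) ⊆ F i ∩ Y :=
    inter_subset_inter subset_rfl (h.pts_sub _)
  split_ifs at e with e1
  · obtain ⟨x, hx⟩ := (h.jj_eq e1 i).1 rfl
    have := card_lt_card (ssubset_of_subset_of_ne h2 fun e2 =>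
      (mem_sdiff.1 (h.pts_out e1 _ (mem_inter.1 (e2 ▸ inter_subset_inter subset_rfl (h.sub _ e1)
        hx : x ∈ F i ∩ pts p.nb bp (2 ^ p.nb - 1))).2)).2 (mem_inter.1 hx).2)
    omega
  · have := card_le_card h2
    omega

omit h in
lemma cnt_eq {f : ℕ} {q : I → Prop} (e : ∀ i, f.testBit (typ p F bp K i) = true ↔ q i) :
    (sem p F Y bp K).cnt f = cn q := cn_congr e

lemma gen0_ok (hs : ∀ x ∈ p.so, (sem p F Y bp K).cnt x.2 ≤ (sem p F Y bp K).cnt x.1) (r : ℕ)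
    (a : List ℕ) : ¬ ∀ c ∈ gen0 p r a, c.holds (sem p F Y bp K) := by
  unfold gen0
  split <;> simp only [List.forall_mem_cons, Cond.holds, decide_eq_true_eq] <;> intro H
  · have := h.sys.deg _ (h.mem _ H.1)
    rw [cnt_eq (h.t_col H.1)] at H; omega
  · have := h.sys.deg _ (h.mem _ H.1)
    rw [cnt_eq (h.t_col H.1)] at H; omega
  · obtain ⟨a1, -, i, a2⟩ := h.kn _ H.1
    rw [cnt_eq (h.t_one a1)] at H
    have := cn_pos (p := fun i => F i ∩ Y = pts p.nb bp _) a2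
    omega
  · rename_i n k
    rcases lt_or_ge n p.so.length with e | e
    · have := hs (p.so.getD n (0, 0)) (by rw [List.getD_eq_getElem _ _ e]; simp)
      omega
    · rw [List.getD_eq_default _ _ e] at H
      dsimp only at H
      omega
  · simp at H

end Cf

end Pool.Agent.Lib.MP_0828a1_co
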