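import Pool.Agent.Lib.MP_0828a1_co.Dom
import Pool.Agent.Shared.RUP.Basic

-- part Pool.Agent.Lib.MP_0828a1_co.TzBase
section

/-! Counting indices, the pair system, a Gallai-Edmonds type lemma, components, extensions. -/

open Finset

set_option linter.unusedSectionVars false

namespace Pool.Agent.Lib.MP_0828a1_co

section cn
variable {I : Type*} [Fintype I]

/-- number of indices with a property -/
noncomputable def cn (p : I → Prop) : ℕ := by classical exact (univ.filter p).card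

lemma cn_eq (p : I → Prop) [DecidablePred p] : cn p = (univ.filter p).card := by
  unfold cn; congr

variable {p q r : I → Prop}

lemma card_le_cn (E : Finset I) (h : ∀ i ∈ E, p i) : E.card ≤ cn p := by
  classical
  rw [cn_eq]; exact card_le_card fun i hi => mem_filter.2 ⟨mem_univ _, h i hi⟩

lemma cn_le_card (E : Finset I) (h : ∀ i, p i → i ∈ E) : cn p ≤ E.card := by
  classical
  rw [cn_eq]; exact card_le_card fun i hi => h i (mem_filter.1 hi).2

lemma cn_mono (h : ∀ i, p i → q i) : cn p ≤ cn q := by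
  classical
  rw [cn_eq p]; exact card_le_cn _ fun i hi => h i (mem_filter.1 hi).2

lemma cn_congr (h : ∀ i, p i ↔ q i) : cn p = cn q :=
  le_antisymm (cn_mono fun i => (h i).1) (cn_mono fun i => (h i).2)

lemma cn_add_le (hd : ∀ i, p i → q i → False) (hp : ∀ i, p i → r i) (hq : ∀ i, q i → r i) :
    cn p + cn q ≤ cn r := by
  classical
  rw [cn_eq p, cn_eq q, ← card_union_of_disjoint (disjoint_left.2 fun i h1 h2 =>
    hd i (mem_filter.1 h1).2 (mem_filter.1 h2).2)]
  refine card_le_cn _ fun i hi => ?_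
  rcases mem_union.1 hi with h | h
  exacts [hp i (mem_filter.1 h).2, hq i (mem_filter.1 h).2]

lemma cn_le_add (h : ∀ i, r i → p i ∨ q i) : cn r ≤ cn p + cn q := by
  classical
  rw [cn_eq p, cn_eq q]
  refine (cn_le_card _ fun i hi => ?_).trans (card_union_le _ _)
  rcases h i hi with h1 | h1
  exacts [mem_union_left _ (mem_filter.2 ⟨mem_univ _, h1⟩),
    mem_union_right _ (mem_filter.2 ⟨mem_univ _, h1⟩)]

lemma cn_pos {i : I} (h : p i) : 1 ≤ cn p := by
  simpa using card_le_cn (p := p) {i} (by simpa using h)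

lemma cn_zero (h : ∀ i, ¬ p i) : cn p = 0 := by
  simpa using cn_le_card (p := p) ∅ fun i hi => (h i hi).elim

lemma exists_of_cn (h : 1 ≤ cn p) : ∃ i, p i := by
  by_contra hn
  push Not at hn
  rw [cn_zero hn] at h; omega

lemma exists_sub {d : ℕ} (h : d ≤ cn p) : ∃ J : Finset I, J.card = d ∧ ∀ i ∈ J, p i := by
  classical
  rw [cn_eq] at h
  obtain ⟨J, h1, h2⟩ := exists_subset_card_eq h
  exact ⟨J, h2, fun i hi => (mem_filter.1 (h1 hi)).2⟩

lemma exists_all (p : I → Prop) : ∃ J : Finset I, J.card = cn p ∧ ∀ i, i ∈ J ↔ p i := by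
  classical
  exact ⟨univ.filter p, (cn_eq p).symm, by simp⟩

lemma cn_two {i j : I} (hij : i ≠ j) (hi : p i) (hj : p j) : 2 ≤ cn p := by
  classical
  have := card_le_cn (p := p) {i, j} (by simp [hi, hj])
  rwa [card_pair hij] at this

lemma exists_two (h : 2 ≤ cn p) : ∃ i j, i ≠ j ∧ p i ∧ p j := by
  obtain ⟨J, h1, h2⟩ := exists_sub h
  obtain ⟨i, hi, j, hj, hij⟩ := one_lt_card.1 (show 1 < J.card by omega)
  exact ⟨i, j, hij, h2 i hi, h2 j hj⟩

lemma cn_sum {ι : Type*} [Fintype ι] (p : I ⊕ ι → Prop) :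
    cn p = cn (fun i => p (Sum.inl i)) + cn (fun h => p (Sum.inr h)) := by
  classical
  simp only [cn_eq, card_filter, Fintype.sum_sum_type]

end cn

variable {I P : Type*} [Fintype I] [DecidableEq P] {F : I → Finset P}

lemma NN_eq (X : Finset P) : NN F X = cn fun i => (F i ∩ X).Nonempty := by
  unfold NN cn; congr

/-- double counting -/
lemma sum_cn (X : Finset P) (q : I → Prop) [DecidablePred q] :
    ∑ p ∈ X, cn (fun i => p ∈ F i ∧ q i) = ∑ i ∈ univ.filter q, (F i ∩ X).card := by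
  classical
  simp only [cn_eq, card_filter, sum_filter]
  rw [sum_comm]
  refine sum_congr rfl fun i _ => ?_
  by_cases h : q i
  · simp only [h, and_true, if_true]
    rw [← card_filter, filter_mem_eq_inter, inter_comm]
  · simp [h]

lemma sum_sizes (X : Finset P) (q : I → Prop) [DecidablePred q] (h : ∀ i, (F i ∩ X).card ≤ 4) :
    ∑ i ∈ univ.filter q, (F i ∩ X).card =
      cn (fun i => q i ∧ (F i ∩ X).card = 1) + 2 * cn (fun i => q i ∧ (F i ∩ X).card = 2) +
      3 * cn (fun i => q i ∧ (F i ∩ X).card = 3) + 4 * cn (fun i => q i ∧ (F i ∩ X).card = 4) := by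
  classical
  simp only [cn_eq, card_filter, sum_filter, mul_sum, ← sum_add_distrib]
  refine sum_congr rfl fun i _ => ?_
  have := h i
  by_cases h : q i
  · simp only [h, true_and, if_true]
    split_ifs <;> omega
  · simp [h]

lemma cn_sizes (X : Finset P) (q : I → Prop) (h : ∀ i, (F i ∩ X).card ≤ 4) :
    cn (fun i => q i ∧ (F i ∩ X).Nonempty) =
      cn (fun i => q i ∧ (F i ∩ X).card = 1) + cn (fun i => q i ∧ (F i ∩ X).card = 2) +
      cn (fun i => q i ∧ (F i ∩ X).card = 3) + cn (fun i => q i ∧ (F i ∩ X).card = 4) := by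
  classical
  simp only [cn_eq, card_filter, ← sum_add_distrib, ← card_pos]
  refine sum_congr rfl fun i _ => ?_
  have := h i
  by_cases h : q i
  · simp only [h, true_and]
    split_ifs <;> omega
  · simp [h]

lemma tau_empty : tau F (∅ : Finset P) = 0 :=
  Nat.le_zero.1 (tau_le (C := ∅) fun p hp => by simp at hp)

lemma Conn.sub_of {K Z W : Finset P} (h : Conn F K) (hK : K ⊆ W) (hs : Sep F Z (W \ Z))
    {p : P} (h1 : p ∈ K) (h2 : p ∈ Z) : K ⊆ Z := by
  have := h (K ∩ Z) inter_subset_left ⟨p, mem_inter.2 ⟨h1, h2⟩⟩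
    (hs.mono inter_subset_right fun x hx => by
      have := @hK x
      simp only [mem_sdiff, mem_inter] at hx ⊢
      tauto)
  exact inter_eq_left.1 this

lemma Sep.mem_of {Z W : Finset P} (hs : Sep F Z (W \ Z)) {p q : P} (hp : p ∈ Z) (hq : q ∈ W)
    (h : Adj F p q) : q ∈ Z := by
  by_contra hn
  exact hs p hp q (mem_sdiff.2 ⟨hq, hn⟩) h

section
variable (hF : ∀ p, ∃ i, p ∈ F i)
include hF

lemma tau_split {X X0 : Finset P} (h0 : X0 ⊆ X) (h : Sep F X0 (X \ X0)) :
    tau F X = tau F X0 + tau F (X \ X0) :=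
  le_antisymm (tau_le_add hF fun p hp => by simp only [mem_union, mem_sdiff]; tauto)
    (tau_add hF h h0 sdiff_subset)

omit hF in
lemma NN_split {X X0 : Finset P} (h0 : X0 ⊆ X) (h : Sep F X0 (X \ X0)) :
    NN F X = NN F X0 + NN F (X \ X0) := by
  refine le_antisymm ?_ (NN_add h h0 sdiff_subset)
  simp only [NN_eq]
  refine cn_le_add fun i ⟨p, hp⟩ => ?_
  by_cases h1 : p ∈ X0
  · exact Or.inl ⟨p, mem_inter.2 ⟨(mem_inter.1 hp).1, h1⟩⟩
  · exact Or.inr ⟨p, mem_inter.2 ⟨(mem_inter.1 hp).1, mem_sdiff.2 ⟨(mem_inter.1 hp).2, h1⟩⟩⟩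

lemma tau_sdiff_set (X : Finset P) (i : I) : tau F X ≤ tau F (X \ F i) + 1 := by
  have h1 : tau F X ≤ tau F (X \ F i) + tau F (F i) := tau_le_add hF fun p hp => by
    simp only [mem_union, mem_sdiff]; tauto
  have := tau_le_one (F := F) (i := i) subset_rfl
  omega

lemma tau_le_cover {C : Finset I} {Z X W : Finset P} (h : Covers F C Z) (hX : X ⊆ Z ∪ W) :
    tau F X ≤ C.card + tau F W :=
  (tau_le_add hF hX).trans (Nat.add_le_add_right (tau_le h) _)

/-- structure lemma with surplus -/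
lemma struct2 (W : Finset P) : ∃ S ⊆ W, ∃ Y : Finset (Finset P),
    (∀ K ∈ Y, Hang F (W \ S) K ∧ del F K = 1 ∧ tau F (W \ K) + tau F K ≤ tau F W) ∧
      del F W + S.card ≤ Y.card := by
  classical
  have hex : ∃ n, ∃ S ⊆ W, ∃ Y : Finset (Finset P), S.card = n ∧
      (∀ K ∈ Y, Hang F (W \ S) K ∧ del F K = 1) ∧ del F W + S.card ≤ Y.card := by
    obtain ⟨S, hS, Y, h1, h2⟩ := struct hF W
    exact ⟨_, S, hS, Y, rfl, h1, h2⟩
  obtain ⟨S, hS, Y, hn, hY, hc⟩ := Nat.find_spec hex
  refine ⟨S, hS, Y, fun K0 hK0 => ⟨(hY K0 hK0).1, (hY K0 hK0).2, ?_⟩, hc⟩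
  set nb : P → Finset (Finset P) := fun s => (Y.erase K0).filter fun K => ∃ k ∈ K, Adj F s k
    with hnb
  have h0 := (hY K0 hK0).1
  by_cases hall : ∀ S' : Finset S, S'.card ≤ (S'.biUnion fun s => nb s).card
  · obtain ⟨f, hf, hf'⟩ := (all_card_le_biUnion_card_iff_existsInjective' (fun s : S => nb s)).1
      hall
    have h1 := matched hF S (W \ K0) (fun p => if h : p ∈ S then f ⟨p, h⟩ else ∅) (by
      intro a ha b hb hab
      simp only [mem_coe] at ha hb
      simp only [ha, hb, dite_true] at hab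
      exact congrArg Subtype.val (hf hab)) fun s hs => by
        have := mem_filter.1 (hf' ⟨s, hs⟩)
        simp only [hs, dite_true]
        have h3 := (hY _ (mem_erase.1 this.1).2).1
        refine ⟨h3.restrict (fun p hp => ?_) fun p hp => ?_, this.2⟩
        · have h4 := h3.sub hp
          have h5 := disjoint_left.1 ((h3.sep_of_ne h0 (mem_erase.1 this.1).1).disjoint hF) hp
          simp only [mem_sdiff] at h4 ⊢
          tauto
        · simp only [mem_sdiff] at hp ⊢
          tauto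
    have h2 := tau_add hF (X := K0) (Y := (W \ K0) \ S) (Z := W)
      (h0.sep.mono subset_rfl fun p hp => by simp only [mem_sdiff] at hp ⊢; tauto)
      (h0.sub.trans sdiff_subset) (sdiff_subset.trans sdiff_subset)
    omega
  · exfalso
    push Not at hall
    obtain ⟨S0, hS0⟩ := hall
    set S' := S0.map (Function.Embedding.subtype _) with hS'
    set Nb := S0.biUnion fun s => nb s with hNb
    have hS'c : S'.card = S0.card := card_map _
    have hS'S : S' ⊆ S := fun p hp => by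
      obtain ⟨q, -, rfl⟩ := mem_map.1 hp; exact q.2
    have hNY : Nb ⊆ Y.erase K0 := fun K hK => by
      obtain ⟨s, -, h⟩ := mem_biUnion.1 hK; exact (mem_filter.1 h).1
    have h1 := card_sdiff_add_card_eq_card hNY
    have h2 := card_sdiff_add_card_eq_card hS'S
    have h3 := card_erase_add_one hK0
    refine Nat.find_min hex (m := (S \ S').card) (by omega) ⟨S \ S', sdiff_subset.trans hS,
      Y.erase K0 \ Nb, rfl, fun K hK => ?_, by omega⟩
    have hKY := (mem_erase.1 (mem_sdiff.1 hK).1).2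
    refine ⟨(hY K hKY).1.extend (B := S')
      (sdiff_subset_sdiff subset_rfl sdiff_subset) (fun p hp => ?_) fun p hp q hq ha => ?_,
      (hY K hKY).2⟩
    · simp only [mem_sdiff, mem_union] at hp ⊢
      tauto
    · obtain ⟨q', hq', rfl⟩ := mem_map.1 hq
      exact (mem_sdiff.1 hK).2 (mem_biUnion.2 ⟨q', hq', mem_filter.2
        ⟨(mem_sdiff.1 hK).1, p, hp, ha.symm⟩⟩)

/-- a critical subset with the same covering number -/
lemma exists_crit (W : Finset P) : ∃ W0 ⊆ W, Crit F W0 ∧ tau F W0 = tau F W := by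
  induction W using Finset.strongInductionOn with
  | _ W ih =>
  by_cases hc : Crit F W
  · exact ⟨W, subset_rfl, hc, rfl⟩
  simp only [Crit, not_forall, not_lt] at hc
  obtain ⟨v, hv, hv'⟩ := hc
  obtain ⟨W0, h1, h2, h3⟩ := ih _ (erase_ssubset hv)
  have := tau_mono hF (erase_subset v W)
  exact ⟨W0, h1.trans (erase_subset _ _), h2, by omega⟩

lemma Crit.of_sep {W K : Finset P} (h : Crit F W) (hK : K ⊆ W) (hs : Sep F K (W \ K)) :
    Crit F K := fun k hk => by
  have h1 := h k (hK hk)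
  have h2 := tau_split hF hK hs
  have h3 := tau_add hF (X := K.erase k) (Y := W \ K) (Z := W.erase k)
    (hs.mono (erase_subset _ _) subset_rfl) (erase_subset_erase _ hK) fun p hp =>
      mem_erase.2 ⟨fun e => (mem_sdiff.1 hp).2 (e ▸ hk), (mem_sdiff.1 hp).1⟩
  omega

omit hF in
lemma exists_comp {W : Finset P} (h : W.Nonempty) :
    ∃ K ⊆ W, K.Nonempty ∧ Conn F K ∧ Sep F K (W \ K) := by
  classical
  obtain ⟨K, hK, hmin⟩ := exists_min_image
    (W.powerset.filter fun K => K.Nonempty ∧ Sep F K (W \ K)) card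
    ⟨W, mem_filter.2 ⟨mem_powerset_self _, h, fun p _ q hq => by simp at hq⟩⟩
  simp only [mem_filter, mem_powerset] at hK hmin
  refine ⟨K, hK.1, hK.2.1, fun K0 h1 h2 h3 => eq_of_subset_of_card_le h1 (hmin K0
    ⟨h1.trans hK.1, h2, fun p hp q hq => ?_⟩), hK.2.2⟩
  by_cases hqK : q ∈ K
  · exact h3 p hp q (mem_sdiff.2 ⟨hqK, (mem_sdiff.1 hq).2⟩)
  · exact hK.2.2 p (h1 hp) q (mem_sdiff.2 ⟨(mem_sdiff.1 hq).1, hqK⟩)

/-- the components of a critical set -/
lemma comps (W : Finset P) (hc : Crit F W) : ∃ Y : Finset (Finset P), (∀ K ∈ Y, Hang F W K) ∧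
    (∀ p ∈ W, ∃ K ∈ Y, p ∈ K) ∧ ∀ φ : Finset P → ℤ, φ ∅ = 0 →
      (∀ X ⊆ W, ∀ X0 ⊆ X, Sep F X0 (X \ X0) → φ X = φ X0 + φ (X \ X0)) →
      φ W = ∑ K ∈ Y, φ K := by
  induction W using Finset.strongInductionOn with
  | _ W ih =>
  rcases W.eq_empty_or_nonempty with rfl | hne
  · exact ⟨∅, by simp, by simp, fun φ h _ => by simpa using h⟩
  obtain ⟨K, h1, h2, h3, h4⟩ := exists_comp (F := F) hne
  have h5 : Sep F (W \ K) (W \ (W \ K)) := h4.symm.mono subset_rfl fun p hp => by
    simp only [mem_sdiff] at hp; tauto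
  obtain ⟨Y, a1, a2, a3⟩ := ih (W \ K) (sdiff_ssubset h1 h2) (hc.of_sep hF sdiff_subset h5)
  have hKY : K ∉ Y := fun h => by
    obtain ⟨p, hp⟩ := h2
    exact (mem_sdiff.1 ((a1 K h).sub hp)).2 hp
  refine ⟨insert K Y, fun L hL => ?_, fun p hp => ?_, fun φ b1 b2 => ?_⟩
  · rcases mem_insert.1 hL with rfl | hL
    · exact ⟨h1, h2, hc.of_sep hF h1 h4, h3, h4⟩
    · exact (a1 L hL).extend (B := K) sdiff_subset (fun p hp => by
        simp only [mem_union, mem_sdiff]; tauto) (h4.symm.mono (a1 L hL).sub subset_rfl)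
  · by_cases hpK : p ∈ K
    · exact ⟨K, mem_insert_self _ _, hpK⟩
    · obtain ⟨L, hL, hpL⟩ := a2 p (mem_sdiff.2 ⟨hp, hpK⟩)
      exact ⟨L, mem_insert_of_mem hL, hpL⟩
  · rw [sum_insert hKY, b2 W subset_rfl K h1 h4,
      a3 φ b1 fun X hX => b2 X (hX.trans sdiff_subset)]

/-- in a connected critical set two sets cross every cut -/
lemma bridge {Y Z : Finset P} (hc : Crit F Y) (hn : Conn F Y) (hZ : Z ⊆ Y) (h1 : Z.Nonempty)
    (h2 : Z ≠ Y) : 2 ≤ cn fun i => (F i ∩ Z).Nonempty ∧ (F i ∩ (Y \ Z)).Nonempty := by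
  classical
  by_contra hlt
  have hns : ¬ Sep F Z (Y \ Z) := fun h => h2 (hn Z hZ h1 h)
  simp only [Sep, not_forall, not_not] at hns
  obtain ⟨z, hz, q, hq, i, hzi, hqi⟩ := hns
  have key : ∀ v ∈ Y, v ∈ F i → tau F (Z.erase v) + tau F ((Y \ Z).erase v) < tau F Y := by
    intro v hv hvi
    obtain ⟨C, hC, hcov⟩ := exists_opt hF (Y.erase v)
    have h3 := hc v hv
    have hiC : i ∉ C := fun h => by
      have : tau F Y ≤ C.card := tau_le fun p hp => by
        by_cases e : p = v
        · exact ⟨i, h, e ▸ hvi⟩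
        · exact hcov p (mem_erase.2 ⟨e, hp⟩)
      omega
    have h4 : tau F (Z.erase v) ≤ (C.filter fun j => (F j ∩ Z).Nonempty).card :=
      tau_le fun p hp => by
        obtain ⟨j, hj, hpj⟩ := hcov p (erase_subset_erase _ hZ hp)
        exact ⟨j, mem_filter.2 ⟨hj, p, mem_inter.2 ⟨hpj, (mem_erase.1 hp).2⟩⟩, hpj⟩
    have h5 : tau F ((Y \ Z).erase v) ≤ (C.filter fun j => ¬ (F j ∩ Z).Nonempty).card :=
      tau_le fun p hp => by
        obtain ⟨j, hj, hpj⟩ := hcov p (erase_subset_erase _ sdiff_subset hp)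
        refine ⟨j, mem_filter.2 ⟨hj, fun hm => hlt (cn_two (i := i) (j := j)
          (fun e => hiC (e ▸ hj)) ⟨⟨z, mem_inter.2 ⟨hzi, hz⟩⟩, q, mem_inter.2 ⟨hqi, hq⟩⟩
          ⟨hm, p, mem_inter.2 ⟨hpj, (mem_erase.1 hp).2⟩⟩)⟩, hpj⟩
    have h6 := card_filter_add_card_filter_not (s := C) fun j => (F j ∩ Z).Nonempty
    omega
  have k1 := key z (hZ hz) hzi
  have k2 := key q (mem_sdiff.1 hq).1 hqi
  rw [erase_eq_of_notMem (s := Y \ Z) (by simp [hz])] at k1
  rw [erase_eq_of_notMem (s := Z) (mem_sdiff.1 hq).2] at k2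
  have k3 : tau F Y ≤ tau F Z + tau F (Y \ Z) := tau_le_add hF fun p hp => by
    simp only [mem_union, mem_sdiff]; tauto
  have k4 := tau_sdiff_set hF Y i
  have k5 : tau F (Y \ F i) ≤ tau F (Z.erase z) + tau F ((Y \ Z).erase q) :=
    tau_le_add hF fun p hp => by
      have a1 : p ≠ z := fun e => (mem_sdiff.1 hp).2 (e ▸ hzi)
      have a2 : p ≠ q := fun e => (mem_sdiff.1 hp).2 (e ▸ hqi)
      simp only [mem_union, mem_sdiff, mem_erase] at hp ⊢
      tauto
  omega

end

section GG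
variable [Fintype P]

/-- the system of pairs of adjacent points -/
noncomputable def GG (F : I → Finset P) : P × P → Finset P := fun x => by
  classical exact if Adj F x.1 x.2 then {x.1, x.2} else ∅

/-- covering number by pairs -/
noncomputable def rho (F : I → Finset P) (X : Finset P) : ℕ := tau (GG F) X

lemma GG_sub (x : P × P) (h : (GG F x).Nonempty) : ∃ i, GG F x ⊆ F i := by
  unfold GG at h ⊢
  split_ifs at h ⊢ with h1
  · obtain ⟨i, a, b⟩ := h1
    exact ⟨i, insert_subset a (by simpa using b)⟩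
  · simp at h

lemma GG_card (x : P × P) : (GG F x).card ≤ 2 := by
  unfold GG
  split_ifs
  · exact card_le_two
  · simp

lemma GG_eq {p q : P} (h : Adj F p q) : GG F (p, q) = {p, q} := by simp [GG, h]

lemma adj_GG {p q : P} : Adj (GG F) p q ↔ Adj F p q := by
  constructor
  · rintro ⟨x, a, b⟩
    obtain ⟨i, hi⟩ := GG_sub x ⟨p, a⟩
    exact ⟨i, hi a, hi b⟩
  · intro h
    exact ⟨(p, q), by simp [GG_eq h], by simp [GG_eq h]⟩

lemma sep_GG {X Y : Finset P} : Sep (GG F) X Y ↔ Sep F X Y := by simp only [Sep, adj_GG]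

lemma conn_GG {X : Finset P} : Conn (GG F) X ↔ Conn F X := by simp only [Conn, sep_GG]

lemma rho_pair {p q : P} (h : Adj F p q) : rho F {p, q} ≤ 1 :=
  tau_le_one (i := (p, q)) (GG_eq h).ge

variable (hF : ∀ p, ∃ i, p ∈ F i)
include hF

lemma hGG (p : P) : ∃ x, p ∈ GG F x :=
  let ⟨i, hi⟩ := hF p; ⟨(p, p), by simp [GG_eq (⟨i, hi, hi⟩ : Adj F p p)]⟩

lemma tau_le_rho (X : Finset P) : tau F X ≤ rho F X := by
  classical
  obtain ⟨C, hC, hc⟩ := exists_opt (hGG hF) X
  have : ∀ x, ∃ i, GG F x ⊆ F i := fun x => by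
    rcases (GG F x).eq_empty_or_nonempty with h | h
    · obtain ⟨i, -⟩ := hF x.1
      exact ⟨i, by simp [h]⟩
    · exact GG_sub x h
  choose g hg using this
  refine (tau_le (C := C.image g) fun p hp => ?_).trans (card_image_le.trans hC.le)
  obtain ⟨x, hx, hpx⟩ := hc p hp
  exact ⟨g x, mem_image_of_mem _ hx, hg x hpx⟩

lemma card_le_rho (X : Finset P) : X.card ≤ 2 * rho F X := by
  obtain ⟨C, hC, hc⟩ := exists_opt (hGG hF) X
  have h1 : X ⊆ C.biUnion (GG F) := fun p hp => mem_biUnion.2 (hc p hp)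
  have h2 := (card_le_card h1).trans (card_biUnion_le_card_mul C _ 2 fun x _ => GG_card x)
  unfold rho; omega

lemma rho_mono {X Y : Finset P} (h : X ⊆ Y) : rho F X ≤ rho F Y := tau_mono (hGG hF) h

lemma rho_le_add {X Y Z : Finset P} (h : X ⊆ Y ∪ Z) : rho F X ≤ rho F Y + rho F Z :=
  tau_le_add (hGG hF) h

lemma rho_small {Z : Finset P} {i : I} (h : Z ⊆ F i) (h2 : Z.card ≤ 2) : rho F Z ≤ 1 := by
  rcases Z.eq_empty_or_nonempty with rfl | ⟨p, hp⟩
  · unfold rho; rw [tau_empty]; omega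
  by_cases h3 : ∃ q ∈ Z, q ≠ p
  · obtain ⟨q, hq, hqp⟩ := h3
    have : ({p, q} : Finset P) = Z := eq_of_subset_of_card_le
      (insert_subset hp (by simpa using hq)) (by rw [card_pair hqp.symm]; exact h2)
    exact this ▸ rho_pair ⟨i, h hp, h hq⟩
  · push Not at h3
    exact (rho_mono hF fun q hq => by simp [h3 q hq]).trans (rho_pair (q := p) ⟨i, h hp, h hp⟩)

lemma rho_absorb {K : Finset P} (hK : Crit (GG F) K) {k b : P} (hk : k ∈ K) (h : Adj F k b) :
    rho F (insert b K) ≤ rho F K := by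
  have := absorb (hGG hF) hK hk (j := (k, b)) (B := {b}) (by simp [GG_eq h]) (by simp [GG_eq h])
  rwa [union_comm, ← insert_eq] at this

lemma tight_sep {W K : Finset P} (ht : rho F W ≤ tau F W) (hK : K ⊆ W) (hs : Sep F K (W \ K)) :
    rho F K ≤ tau F K := by
  have h1 := tau_split hF hK hs
  have h2 := tau_split (hGG hF) hK (sep_GG.2 hs)
  have h3 := tau_le_rho hF (W \ K)
  unfold rho at *; omega

lemma hang_of_GG {W K : Finset P} (h : Hang (GG F) W K) (ht : rho F K ≤ tau F K) : Hang F W K :=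
  ⟨h.sub, h.ne, fun k hk => by
    have h1 := h.crit k hk
    have h2 := tau_le_rho hF (K.erase k)
    unfold rho at *; omega, conn_GG.1 h.conn, sep_GG.1 h.sep⟩

/-- a tight connected critical set has deficiency zero or is factor-critical -/
lemma tight_crit {K : Finset P} (hc : Crit F K) (hn : Conn F K) (ht : rho F K ≤ tau F K) :
    del F K = 0 ∨ (del F K = 1 ∧ Crit (GG F) K) := by
  obtain ⟨S, hS, Y, hY, hcard⟩ := struct2 (hGG hF) K
  have h0 := card_le_rho hF K
  have h1 := tau_le_rho hF K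
  by_cases hd : del F K = 0
  · exact Or.inl hd
  right
  have hH : ∀ L ∈ Y, Hang F (K \ S) L := fun L hL => hang_of_GG hF (hY L hL).1 (by
    have a1 := (hY L hL).2.2
    have a2 : tau F K ≤ tau F L + tau F (K \ L) := tau_le_add hF fun p hp => by
      simp only [mem_union, mem_sdiff]; tauto
    have a3 := tau_le_rho hF (K \ L)
    unfold rho at *; omega)
  unfold del rho at *
  rcases S.eq_empty_or_nonempty with rfl | hne
  · obtain ⟨L, hL⟩ := card_pos.1 (show 0 < Y.card by simp only [card_empty] at hcard; omega)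
    have a1 := hH L hL
    rw [sdiff_empty] at a1
    obtain rfl := hn L a1.sub a1.ne a1.sep
    exact ⟨by have := (hY L hL).2.1; omega, (hY L hL).1.crit⟩
  · have := few_comps hF hc hn _ S Y rfl hS hne hH
    omega

/-- optimal covers with the least number of triples -/
lemma min_triples (W : Finset P) (h3 : ∀ i, (F i ∩ W).card ≤ 3) :
    ∃ (E : Finset I) (U S : Finset P) (Y : Finset (Finset P)), U ⊆ W ∧ U.card = 3 * E.card ∧
      (∀ i ∈ E, (F i ∩ W).Nonempty ∧ F i ∩ W ⊆ U) ∧ tau F U ≤ E.card ∧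
      E.card + rho F (W \ U) ≤ tau F W ∧ S ⊆ W \ U ∧
      (∀ K ∈ Y, Hang F (W \ S) K ∧ K ⊆ W \ U ∧ del F K = 1 ∧ rho F K ≤ tau F K) ∧
      2 * (rho F (W \ U) : ℤ) - (W \ U).card + S.card ≤ Y.card := by
  classical
  have ex : ∀ W : Finset P, (∀ i, (F i ∩ W).card ≤ 3) → ∃ E : Finset I,
      (∀ i ∈ E, (F i ∩ W).card = 3) ∧ (E.biUnion fun i => F i ∩ W).card = 3 * E.card ∧
      E.card + rho F (W \ E.biUnion fun i => F i ∩ W) ≤ tau F W := by
    intro W
    induction W using Finset.strongInductionOn with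
    | _ W ih =>
    intro h3
    rcases W.eq_empty_or_nonempty with rfl | ⟨p, hp⟩
    · exact ⟨∅, by simp, by simp, by simp [rho, tau_empty]⟩
    obtain ⟨C, hC, hc⟩ := exists_opt hF W
    obtain ⟨i, hi, hpi⟩ := hc p hp
    have h1 : tau F (W \ F i) ≤ (C.erase i).card := tau_le fun q hq => by
      obtain ⟨j, hj, hqj⟩ := hc q (mem_sdiff.1 hq).1
      exact ⟨j, mem_erase.2 ⟨fun e => (mem_sdiff.1 hq).2 (e ▸ hqj), hj⟩, hqj⟩
    have h2 := card_erase_add_one hi
    have hs : ∀ j, F j ∩ (W \ F i) ⊆ F j ∩ W := fun j => inter_subset_inter subset_rfl sdiff_subset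
    obtain ⟨E, a1, a2, a3⟩ := ih (W \ F i)
      (ssubset_of_subset_of_ne sdiff_subset fun e => (mem_sdiff.1 (e.symm ▸ hp)).2 hpi)
      fun j => (card_le_card (hs j)).trans (h3 j)
    have he : ∀ j ∈ E, F j ∩ (W \ F i) = F j ∩ W := fun j hj =>
      eq_of_subset_of_card_le (hs j) (by rw [a1 j hj]; exact h3 j)
    rw [biUnion_congr rfl he] at a2 a3
    by_cases hi3 : (F i ∩ W).card = 3
    · have hiE : i ∉ E := fun h => by
        have := mem_inter.1 (he i h ▸ mem_inter.2 ⟨hpi, hp⟩ : p ∈ F i ∩ (W \ F i))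
        exact (mem_sdiff.1 this.2).2 hpi
      refine ⟨insert i E, fun j hj => ?_, ?_, ?_⟩
      · rcases mem_insert.1 hj with rfl | hj
        · exact hi3
        · rw [← he j hj]; exact a1 j hj
      · rw [biUnion_insert, card_union_of_disjoint, card_insert_of_notMem hiE, a2, hi3]
        · ring
        · refine disjoint_left.2 fun q h1 h2 => ?_
          obtain ⟨j, hj, h4⟩ := mem_biUnion.1 h2
          rw [← he j hj] at h4
          exact (mem_sdiff.1 (mem_inter.1 h4).2).2 (mem_inter.1 h1).1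
      · have : W \ (insert i E).biUnion (fun i => F i ∩ W) =
            (W \ F i) \ E.biUnion fun i => F i ∩ W := by
          ext q; simp only [biUnion_insert, mem_sdiff, mem_union, mem_inter]; tauto
        rw [this, card_insert_of_notMem hiE]; omega
    · refine ⟨E, fun j hj => by rw [← he j hj]; exact a1 j hj, a2, ?_⟩
      have b1 := rho_small hF (inter_subset_left (s₂ := W) : F i ∩ W ⊆ F i)
        (by have := h3 i; omega)
      have b2 : rho F (W \ E.biUnion fun i => F i ∩ W) ≤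
          rho F (F i ∩ W) + rho F ((W \ F i) \ E.biUnion fun i => F i ∩ W) :=
        rho_le_add hF fun q hq => by
          simp only [mem_sdiff, mem_union, mem_inter] at hq ⊢; tauto
      omega
  have hex : ∃ n, ∃ E : Finset I, E.card = n ∧
      (∀ i ∈ E, (F i ∩ W).card = 3) ∧ (E.biUnion fun i => F i ∩ W).card = 3 * E.card ∧
      E.card + rho F (W \ E.biUnion fun i => F i ∩ W) ≤ tau F W := by
    obtain ⟨E, h⟩ := ex W h3
    exact ⟨_, E, rfl, h⟩
  obtain ⟨E, hn, a1, a2, a3⟩ := Nat.find_spec hex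
  set U := E.biUnion fun i => F i ∩ W with hU
  have hUW : U ⊆ W := biUnion_subset.2 fun i _ => inter_subset_right
  have hUt : tau F U ≤ E.card := tau_le fun p hp => by
    obtain ⟨i, hi, h⟩ := mem_biUnion.1 hp
    exact ⟨i, hi, (mem_inter.1 h).1⟩
  obtain ⟨S, hS, Y, hY, hcard⟩ := struct2 (hGG hF) (W \ U)
  refine ⟨E, U, S, Y, hUW, a2, fun i hi => ⟨card_pos.1 (by rw [a1 i hi]; omega),
    subset_biUnion_of_mem (fun i => F i ∩ W) hi⟩, hUt, a3, hS, fun K hK => ?_, hcard⟩
  obtain ⟨b1, b2, b3⟩ := hY K hK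
  have hKt : rho F K ≤ tau F K := by
    have c1 : tau F W ≤ tau F U + tau F (W \ U) := tau_le_add hF fun p hp => by
      simp only [mem_union, mem_sdiff]; tauto
    have c2 : tau F (W \ U) ≤ tau F K + tau F ((W \ U) \ K) := tau_le_add hF fun p hp => by
      simp only [mem_union, mem_sdiff] at hp ⊢; tauto
    have c3 := tau_le_rho hF ((W \ U) \ K)
    unfold rho at *; omega
  have b4 := tau_le_rho hF K
  refine ⟨(hang_of_GG hF b1 hKt).extend (B := U) (fun p hp => ?_) (fun p hp => ?_)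
    fun k hk u hu ha => ?_, b1.sub.trans sdiff_subset, by unfold del rho at *; omega, hKt⟩
  · simp only [mem_sdiff] at hp ⊢; tauto
  · simp only [mem_sdiff, mem_union] at hp ⊢; tauto
  · obtain ⟨i, hi, hui⟩ := mem_biUnion.1 hu
    have c1 := card_erase_add_one hi
    set U' := (E.erase i).biUnion fun i => F i ∩ W with hU'
    have c2 : U'.card ≤ (E.erase i).card * 3 :=
      card_biUnion_le_card_mul _ _ 3 fun j _ => h3 j
    have c3 : U ⊆ (F i ∩ W) ∪ U' := fun p hp => by
      obtain ⟨j, hj, h⟩ := mem_biUnion.1 hp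
      by_cases e : j = i
      · exact mem_union_left _ (e ▸ h)
      · exact mem_union_right _ (mem_biUnion.2 ⟨j, mem_erase.2 ⟨e, hj⟩, h⟩)
    have c4 := (card_le_card c3).trans (card_union_le _ _)
    have c5 := a1 i hi
    have c6 := b1.crit k hk
    have c7 := rho_pair ha
    have c8 := rho_small hF ((erase_subset u _).trans inter_subset_left : (F i ∩ W).erase u ⊆ F i)
      (by rw [card_erase_of_mem hui]; omega)
    have c9 : rho F (W \ U') ≤ rho F ((W \ U) \ K ∪ K.erase k) +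
        rho F ({k, u} ∪ (F i ∩ W).erase u) := rho_le_add hF fun p hp => by
      have := @c3 p
      simp only [mem_union, mem_sdiff, mem_erase, mem_insert, mem_singleton] at hp this ⊢
      tauto
    have d1 := rho_le_add hF (subset_rfl : (W \ U) \ K ∪ K.erase k ⊆ _)
    have d2 := rho_le_add hF (subset_rfl : {k, u} ∪ (F i ∩ W).erase u ⊆ _)
    refine Nat.find_min hex (m := (E.erase i).card) (by omega) ⟨E.erase i, rfl,
      fun j hj => a1 j (mem_erase.1 hj).2, by rw [← hU']; omega, ?_⟩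
    rw [← hU']
    unfold rho at *; omega

end GG

lemma tau_le_of_dom {I' : Type*} [Fintype I'] {F' : I' → Finset P} (hF : ∀ p, ∃ i, p ∈ F i)
    {K : Finset P} (h : ∀ i, (F i ∩ K).Nonempty → ∃ i', F i ∩ K ⊆ F' i') :
    tau F' K ≤ tau F K := by
  classical
  obtain ⟨C, hC, hc⟩ := exists_opt hF K
  choose g hg using h
  refine (tau_le (C := (C.filter fun i => (F i ∩ K).Nonempty).attach.image
    fun x => g x.1 (mem_filter.1 (show x.1 ∈ C.filter fun i => (F i ∩ K).Nonempty from x.2)).2)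
    fun p hp => ?_).trans (card_image_le.trans ?_)
  · obtain ⟨i, hi, hpi⟩ := hc p hp
    have h1 : (F i ∩ K).Nonempty := ⟨p, mem_inter.2 ⟨hpi, hp⟩⟩
    exact ⟨g i h1, mem_image.2 ⟨⟨i, mem_filter.2 ⟨hi, h1⟩⟩, mem_attach _ _, rfl⟩,
      hg i h1 (mem_inter.2 ⟨hpi, hp⟩)⟩
  · rw [card_attach, ← hC]; exact card_filter_le _ _

lemma exists_GG [Fintype P] {Z : Finset P} {i : I} (h : Z ⊆ F i) (h2 : Z.card ≤ 2)
    (h1 : Z.Nonempty) : ∃ x, Z ⊆ GG F x := by
  obtain ⟨p, hp⟩ := h1
  by_cases h3 : ∃ q ∈ Z, q ≠ p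
  · obtain ⟨q, hq, hqp⟩ := h3
    have : ({p, q} : Finset P) = Z := eq_of_subset_of_card_le
      (insert_subset hp (by simpa using hq)) (by rw [card_pair hqp.symm]; exact h2)
    exact ⟨(p, q), by rw [GG_eq ⟨i, h hp, h hq⟩, this]⟩
  · push Not at h3
    exact ⟨(p, p), fun q hq => by simp [GG_eq (⟨i, h hp, h hp⟩ : Adj F p p), h3 q hq]⟩

section Ext
variable {σ ι : Type*} [Fintype σ] [Fintype ι]

/-- new points `q s` are put into the old sets `J s` and into new sets given by `H` -/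
noncomputable def ext (F : I → Finset P) (q : σ → P) (J : σ → Finset I) (H : ι → Finset σ) :
    I ⊕ ι → Finset P := by
  classical
  exact Sum.elim (fun i => (F i \ univ.image q) ∪ (univ.filter fun s => i ∈ J s).image q)
    fun h => (H h).image q

/-- admissible extension data over the base `Z` -/
structure ExtOK (F : I → Finset P) (Z : Finset P) (q : σ → P) (J : σ → Finset I)
    (H : ι → Finset σ) : Prop where
  hF : ∀ p, ∃ i, p ∈ F i
  inj : Function.Injective q
  out : ∀ s, q s ∉ Z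
  meet : ∀ s, ∀ i ∈ J s, (F i ∩ Z).Nonempty
  deg : ∀ s, (J s).card + cn (fun h => s ∈ H h) = 5

variable {Z : Finset P} {q : σ → P} {J : σ → Finset I} {H : ι → Finset σ}

lemma ext_old {p : P} (hp : ∀ s, q s ≠ p) (i : I) : p ∈ ext F q J H (Sum.inl i) ↔ p ∈ F i := by
  simp only [ext, Sum.elim_inl, mem_union, mem_sdiff, mem_image]
  constructor
  · rintro (h | ⟨s, -, h⟩)
    exacts [h.1, (hp s h).elim]
  · exact fun h => Or.inl ⟨h, fun ⟨s, _, h⟩ => hp s h⟩

lemma ext_new_old {p : P} (hp : ∀ s, q s ≠ p) (h : ι) : p ∉ ext F q J H (Sum.inr h) := by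
  simp only [ext, Sum.elim_inr, mem_image]
  exact fun ⟨s, _, h⟩ => hp s h

namespace ExtOK
variable (e : ExtOK F Z q J H)
include e

lemma ne {p : P} (hp : p ∈ Z) (s : σ) : q s ≠ p := fun h => e.out s (h ▸ hp)

lemma inl (s : σ) (i : I) : q s ∈ ext F q J H (Sum.inl i) ↔ i ∈ J s := by
  simp only [ext, Sum.elim_inl, mem_union, mem_sdiff, mem_image, mem_filter, mem_univ, true_and]
  constructor
  · rintro (h | ⟨t, h1, h2⟩)
    exacts [(h.2 ⟨s, rfl⟩).elim, e.inj h2 ▸ h1]
  · exact fun h => Or.inr ⟨s, h, rfl⟩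

lemma inr (s : σ) (h : ι) : q s ∈ ext F q J H (Sum.inr h) ↔ s ∈ H h := by
  simp only [ext, Sum.elim_inr, mem_image]
  exact ⟨fun ⟨t, h1, h2⟩ => e.inj h2 ▸ h1, fun h => ⟨s, h, rfl⟩⟩

lemma deg_new (s : σ) : cn (fun i => q s ∈ ext F q J H i) = 5 := by
  rw [cn_sum, ← e.deg s]
  simp only [e.inl, e.inr]
  congr 1
  exact le_antisymm (cn_le_card _ fun _ h => h) (card_le_cn _ fun _ h => h)

lemma deg_old {p : P} (hp : p ∈ Z) : cn (fun i => p ∈ ext F q J H i) = cn fun i => p ∈ F i := by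
  rw [cn_sum, cn_zero (ext_new_old (e.ne hp)), add_zero]
  exact cn_congr (ext_old (e.ne hp))

lemma hF' (p : P) : ∃ i, p ∈ ext F q J H i := by
  by_cases hp : ∃ s, q s = p
  · obtain ⟨s, rfl⟩ := hp
    exact exists_of_cn (by rw [e.deg_new]; omega)
  · push Not at hp
    obtain ⟨i, hi⟩ := e.hF p
    exact ⟨Sum.inl i, (ext_old hp i).2 hi⟩

lemma deg_all (hd : ∀ p ∈ Z, cn (fun i => p ∈ F i) = 5) :
    ∀ p ∈ Z ∪ univ.image q, cn (fun i => p ∈ ext F q J H i) = 5 := fun p hp => by
  rcases mem_union.1 hp with h | h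
  · rw [e.deg_old h, hd p h]
  · obtain ⟨s, -, rfl⟩ := mem_image.1 h
    exact e.deg_new s

lemma card_eq : (Z ∪ univ.image q).card = Z.card + Fintype.card σ := by
  rw [card_union_of_disjoint, card_image_of_injective _ e.inj, card_univ]
  exact disjoint_left.2 fun p hp h => by
    obtain ⟨s, -, rfl⟩ := mem_image.1 h
    exact e.out s hp

lemma size_inl (i : I) : (ext F q J H (Sum.inl i) ∩ (Z ∪ univ.image q)).card ≤
    (F i ∩ Z).card + cn fun s => i ∈ J s := by
  classical
  rw [cn_eq]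
  refine (card_le_card (t := (F i ∩ Z) ∪ (univ.filter fun s => i ∈ J s).image q)
    fun p hp => ?_).trans ((card_union_le _ _).trans (Nat.add_le_add_left card_image_le _))
  obtain ⟨h1, h2⟩ := mem_inter.1 hp
  rcases mem_union.1 h2 with h | h
  · exact mem_union_left _ (mem_inter.2 ⟨(ext_old (e.ne h) i).1 h1, h⟩)
  · obtain ⟨s, -, rfl⟩ := mem_image.1 h
    exact mem_union_right _ (mem_image_of_mem _ (mem_filter.2 ⟨mem_univ _, (e.inl s i).1 h1⟩))

omit e in
lemma size_inr (h : ι) (X : Finset P) : (ext F q J H (Sum.inr h) ∩ X).card ≤ (H h).card :=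
  (card_le_card inter_subset_left).trans (by simp only [ext, Sum.elim_inr]; exact card_image_le)

lemma NN_le : NN (ext F q J H) (Z ∪ univ.image q) ≤ NN F Z + cn fun h => (H h).Nonempty := by
  rw [NN_eq, NN_eq, cn_sum]
  refine Nat.add_le_add (cn_mono fun i ⟨p, hp⟩ => ?_) (cn_mono fun h hh => ?_)
  · obtain ⟨h1, h2⟩ := mem_inter.1 hp
    rcases mem_union.1 h2 with h | h
    · exact ⟨p, mem_inter.2 ⟨(ext_old (e.ne h) i).1 h1, h⟩⟩
    · obtain ⟨s, -, rfl⟩ := mem_image.1 h
      exact e.meet s i ((e.inl s i).1 h1)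
  · exact card_pos.1 ((card_pos.2 hh).trans_le (size_inr h _))

lemma le_tau {t : ℕ} (h : ∀ (C : Finset I) (D : Finset ι), Covers F C Z →
    (∀ s, (∃ i ∈ C, i ∈ J s) ∨ ∃ h ∈ D, s ∈ H h) → t ≤ C.card + D.card) :
    t ≤ tau (ext F q J H) (Z ∪ univ.image q) := by
  obtain ⟨C, hC, hc⟩ := exists_opt e.hF' (Z ∪ univ.image q)
  rw [← hC, ← card_toLeft_add_card_toRight]
  refine h _ _ (fun p hp => ?_) fun s => ?_
  · obtain ⟨i, hi, hpi⟩ := hc p (mem_union_left _ hp)
    rcases i with i | i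
    · exact ⟨i, mem_toLeft.2 hi, (ext_old (e.ne hp) i).1 hpi⟩
    · exact (ext_new_old (e.ne hp) i hpi).elim
  · obtain ⟨i, hi, hpi⟩ := hc (q s) (mem_union_right _ (mem_image_of_mem _ (mem_univ _)))
    rcases i with i | i
    · exact Or.inl ⟨i, mem_toLeft.2 hi, (e.inl s i).1 hpi⟩
    · exact Or.inr ⟨i, mem_toRight.2 hi, (e.inr s i).1 hpi⟩

lemma inter_old {K : Finset P} (hK : K ⊆ Z) (i : I) : ext F q J H (Sum.inl i) ∩ K = F i ∩ K := by
  ext p
  simp only [mem_inter]
  exact and_congr_left fun hp => ext_old (e.ne (hK hp)) i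

lemma inter_new {K : Finset P} (hK : K ⊆ Z) (h : ι) : ext F q J H (Sum.inr h) ∩ K = ∅ :=
  eq_empty_iff_forall_notMem.2 fun _ hp =>
    ext_new_old (e.ne (hK (mem_inter.1 hp).2)) h (mem_inter.1 hp).1

lemma tau_old {K : Finset P} (hK : K ⊆ Z) : tau (ext F q J H) K = tau F K := by
  refine le_antisymm (tau_le_of_dom e.hF fun i _ => ⟨Sum.inl i, ?_⟩)
    (tau_le_of_dom e.hF' fun i hi => ?_)
  · rw [← e.inter_old hK]; exact inter_subset_left
  · rcases i with i | i
    · exact ⟨i, by rw [e.inter_old hK]; exact inter_subset_left⟩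
    · rw [e.inter_new hK] at hi; simp at hi

lemma NN_old {K : Finset P} (hK : K ⊆ Z) : NN (ext F q J H) K = NN F K := by
  rw [NN_eq, NN_eq, cn_sum]
  simp only [e.inter_old hK, e.inter_new hK]
  rw [cn_zero (p := fun _ : ι => (∅ : Finset P).Nonempty) (by simp), add_zero]

lemma adj_old {p p' : P} (hp : p ∈ Z) (hp' : p' ∈ Z) : Adj (ext F q J H) p p' ↔ Adj F p p' := by
  constructor
  · rintro ⟨i | i, h1, h2⟩
    · exact ⟨i, (ext_old (e.ne hp) i).1 h1, (ext_old (e.ne hp') i).1 h2⟩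
    · exact (ext_new_old (e.ne hp) i h1).elim
  · rintro ⟨i, h1, h2⟩
    exact ⟨Sum.inl i, (ext_old (e.ne hp) i).2 h1, (ext_old (e.ne hp') i).2 h2⟩

lemma adj_J {p : P} (hp : p ∈ Z) {s : σ} {i : I} (hi : i ∈ J s) (h : p ∈ F i) :
    Adj (ext F q J H) p (q s) := ⟨Sum.inl i, (ext_old (e.ne hp) i).2 h, (e.inl s i).2 hi⟩

lemma adj_H {s t : σ} {h : ι} (hs : s ∈ H h) (ht : t ∈ H h) : Adj (ext F q J H) (q s) (q t) :=
  ⟨Sum.inr h, (e.inr s h).2 hs, (e.inr t h).2 ht⟩

lemma rho_old [Fintype P] {K : Finset P} (hK : K ⊆ Z) : rho (ext F q J H) K ≤ rho F K :=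
  tau_le_of_dom (hGG e.hF) fun x hx => by
    obtain ⟨i, hi⟩ := GG_sub x (hx.mono inter_subset_left)
    refine exists_GG (i := Sum.inl i) ?_ ((card_le_card inter_subset_left).trans (GG_card x)) hx
    refine (inter_subset_inter hi subset_rfl).trans ?_
    rw [← e.inter_old hK]; exact inter_subset_left

lemma loop_old {Y : Finset P} (hZ : Z ⊆ Y) {p : P} (hp : p ∈ Z) {i : I} (h : F i ∩ Y = {p})
    (hJ : ∀ s, i ∉ J s) : ext F q J H (Sum.inl i) ∩ (Z ∪ univ.image q) = {p} := by
  have h0 : p ∈ F i := (mem_inter.1 (h ▸ mem_singleton_self p : p ∈ F i ∩ Y)).1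
  refine eq_singleton_iff_unique_mem.2 ⟨mem_inter.2 ⟨(ext_old (e.ne hp) i).2 h0,
    mem_union_left _ hp⟩, fun x hx => ?_⟩
  obtain ⟨h1, h2⟩ := mem_inter.1 hx
  rcases mem_union.1 h2 with h3 | h3
  · exact mem_singleton.1 (h ▸ mem_inter.2 ⟨(ext_old (e.ne h3) i).1 h1, hZ h3⟩)
  · obtain ⟨s, -, rfl⟩ := mem_image.1 h3
    exact (hJ s ((e.inl s i).1 h1)).elim

lemma loop_new {s : σ} {h : ι} (hh : H h = {s}) :
    ext F q J H (Sum.inr h) ∩ (Z ∪ univ.image q) = {q s} := by
  have : ext F q J H (Sum.inr h) = {q s} := by simp [ext, hh]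
  rw [this]
  exact inter_eq_left.2 (by simp)

end ExtOK
end Ext

end Pool.Agent.Lib.MP_0828a1_co
end

-- part Pool.Agent.Lib.MP_0828a1_co.TzChk
section

/-! Clauses over counting atoms and a checker that justifies each clause by a rule. -/

open Finset Pool.Agent.Shared.RUP

namespace Pool.Agent.Lib.MP_0828a1_co

/-- meaning of the atoms -/
structure Sem (I : Type*) where
  typ : I → ℕ
  ab : ℕ → ℕ → ℕ → Prop
  w : ℕ → ℤ
  pr : ℕ → Prop

inductive Atom
  | cnt (f m : ℕ) | ab (j X k : ℕ) | w (j v : ℕ) | pr (k : ℕ)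

inductive Cond
  | lo (f d : ℕ) | hi (f d : ℕ) | ab (j X k : ℕ) | nab (j X k : ℕ) | wlo (j v : ℕ)
  | whi (j v : ℕ) | pr (k : ℕ) | npr (k : ℕ) | side (b : Bool)

inductive Tr (α : Type)
  | leaf (a : α) | node (l r : Tr α)

noncomputable def Tr.get {α : Type} (t : Tr α) : ℕ → α :=
  Tr.rec (motive := fun _ => ℕ → α) (fun a _ => a)
    (fun _ _ l r v => cond (Nat.beq (Nat.mod v 2) 0) (l (Nat.div v 2)) (r (Nat.div v 2))) t

def Atom.res (g : ℕ → ℕ) : Atom → Atom
  | .cnt f m => .cnt (g f) m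
  | a => a

/-- bit set inclusion -/
def sub (a b : ℕ) : Bool := Nat.beq (Nat.land a b) a

lemma sub_bit {a b x : ℕ} (h : sub a b = true) (hx : a.testBit x = true) : b.testBit x = true := by
  have h1 : a &&& b = a := Nat.eq_of_beq_eq_true h
  rw [← h1, Nat.testBit_and] at hx
  simp only [Bool.and_eq_true] at hx
  exact hx.2

def orc (imp : ℕ) (L : List (Bool × Atom)) : Cond → Bool
  | .lo f d => Nat.beq d 0 || L.any fun x => match x with
      | (false, .cnt g m) => Nat.ble d m && sub g (Nat.lor f imp)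
      | _ => false
  | .hi f d => L.any fun x => match x with
      | (true, .cnt g m) => Nat.ble m (d + 1) && sub f (Nat.lor g imp)
      | _ => false
  | .ab j X k => L.any fun x => match x with
      | (false, .ab j' X' k') => Nat.beq X X' && Nat.beq j j' && Nat.beq k k'
      | _ => false
  | .nab j X k => L.any fun x => match x with
      | (true, .ab j' X' k') => Nat.beq X X' && Nat.beq j j' && Nat.beq k k'
      | _ => false
  | .wlo j v => L.any fun x => match x with
      | (false, .w j' v') => Nat.beq j j' && Nat.ble v v'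
      | _ => false
  | .whi j v => L.any fun x => match x with
      | (true, .w j' v') => Nat.beq j j' && Nat.ble v' v
      | _ => false
  | .pr k => L.any fun x => match x with
      | (false, .pr k') => Nat.beq k k'
      | _ => false
  | .npr k => L.any fun x => match x with
      | (true, .pr k') => Nat.beq k k'
      | _ => false
  | .side b => b

def lin (imp : ℕ) : List (Bool × Atom) → Bool
  | [(false, .cnt f m)] => Nat.ble 1 m && sub f imp
  | [(false, .cnt f m), (true, .cnt g k)] => Nat.ble k m && sub f (Nat.lor g imp)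
  | [(false, .cnt f m), (false, .cnt f' m'), (true, .cnt g k)] =>
      Nat.ble k (m + m') && Nat.beq (Nat.land f f') 0 && sub f g && sub f' g
  | [(false, .cnt f m), (true, .cnt g k), (true, .cnt g' k')] =>
      Nat.ble (k + k') (m + 1) && sub f (Nat.lor (Nat.lor g g') imp)
  | _ => false

def chk (imp : ℕ) (conds : ℕ → List ℕ → List Cond) (L : List (Bool × Atom)) : List ℕ → Bool
  | [] => lin imp L
  | r :: a => (conds r a).all (orc imp L)

noncomputable def decC (fams : Tr ℕ) (tbl : Tr Atom) (C : List ℕ) : List (Bool × Atom) :=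
  C.map fun l => (Nat.beq (Nat.mod l 2) 0, (tbl.get (Nat.div l 2)).res fams.get)

noncomputable def checkAll (imp : ℕ) (conds : ℕ → List ℕ → List Cond) (fams : Tr ℕ)
    (tbl : Tr Atom) (cnf rules : List (List ℕ)) : Bool :=
  force imp fun m => Nat.beq cnf.length rules.length &&
    (cnf.zip rules).all fun x => chk m conds (decC fams tbl x.1) x.2

variable {I : Type*} [Fintype I] (M : Sem I)

/-- number of indices whose type lies in the bit set `f` -/
noncomputable def Sem.cnt (f : ℕ) : ℕ := cn fun i => f.testBit (M.typ i) = true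

def Atom.holds : Atom → Prop
  | .cnt f m => m ≤ M.cnt f
  | .ab j X k => M.ab j X k
  | .w j v => (v : ℤ) ≤ M.w j
  | .pr k => M.pr k

def Cond.holds : Cond → Prop
  | .lo f d => d ≤ M.cnt f
  | .hi f d => M.cnt f ≤ d
  | .ab j X k => M.ab j X k
  | .nab j X k => ¬ M.ab j X k
  | .wlo j v => (v : ℤ) ≤ M.w j
  | .whi j v => M.w j < (v : ℤ)
  | .pr k => M.pr k
  | .npr k => ¬ M.pr k
  | .side b => b = true

variable {M} {imp : ℕ} (himp : ∀ i, imp.testBit (M.typ i) = false)
include himp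

lemma cnt_sub {f g : ℕ} (h : sub f (Nat.lor g imp) = true) : M.cnt f ≤ M.cnt g :=
  cn_mono fun i hi => by
    have := sub_bit h hi
    change (g ||| imp).testBit _ = true at this
    simpa [Nat.testBit_or, himp i] using this

lemma orc_ok {L : List (Bool × Atom)} (h1 : ∀ a, (true, a) ∈ L → ¬ a.holds M)
    (h2 : ∀ a, (false, a) ∈ L → a.holds M) {c : Cond} (h : orc imp L c = true) : c.holds M := by
  cases c <;> simp only [orc, Bool.or_eq_true, List.any_eq_true] at h <;> simp only [Cond.holds]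
  case lo f d =>
    rcases h with h | ⟨x, hx, h⟩
    · rw [Nat.eq_of_beq_eq_true h]; exact Nat.zero_le _
    split at h
    · simp only [Bool.and_eq_true, Nat.ble_eq] at h
      exact h.1.trans ((h2 _ hx).trans (cnt_sub himp h.2))
    · simp at h
  case hi f d =>
    obtain ⟨x, hx, h⟩ := h
    split at h
    · simp only [Bool.and_eq_true, Nat.ble_eq] at h
      have a1 := h1 _ hx
      have a2 := cnt_sub himp h.2
      simp only [Atom.holds] at a1
      omega
    · simp at h
  case side b => exact h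
  all_goals
    obtain ⟨x, hx, h⟩ := h
    split at h
    · simp only [Bool.and_eq_true, Nat.ble_eq, Nat.beq_eq] at h
      first
        | (have a1 := h2 _ hx
           simp only [Atom.holds] at a1
           first | (obtain ⟨⟨rfl, rfl⟩, rfl⟩ := h; exact a1) | (obtain ⟨rfl, h⟩ := h; omega)
                 | (subst h; exact a1))
        | (have a1 := h1 _ hx
           simp only [Atom.holds] at a1
           first | (obtain ⟨⟨rfl, rfl⟩, rfl⟩ := h; exact a1) | (obtain ⟨rfl, h⟩ := h; omega)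
                 | (subst h; exact a1))
    · simp at h

lemma lin_ok {L : List (Bool × Atom)} (h1 : ∀ a, (true, a) ∈ L → ¬ a.holds M)
    (h2 : ∀ a, (false, a) ∈ L → a.holds M) (h : lin imp L = true) : False := by
  unfold lin at h
  split at h
  · rename_i f m
    simp only [Bool.and_eq_true, Nat.ble_eq] at h
    have a1 : m ≤ M.cnt f := h2 (.cnt f m) (by simp)
    have a2 : M.cnt f = 0 := cn_zero fun i hi => by simpa [himp i] using sub_bit h.2 hi
    omega
  · rename_i f m g k
    simp only [Bool.and_eq_true, Nat.ble_eq] at h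
    have a1 : m ≤ M.cnt f := h2 (.cnt f m) (by simp)
    have a2 : ¬ k ≤ M.cnt g := h1 (.cnt g k) (by simp)
    have := cnt_sub himp h.2
    omega
  · rename_i f m f' m' g k
    simp only [Bool.and_eq_true, Nat.ble_eq, Nat.beq_eq] at h
    have a1 : m ≤ M.cnt f := h2 (.cnt f m) (by simp)
    have a1' : m' ≤ M.cnt f' := h2 (.cnt f' m') (by simp)
    have a2 : ¬ k ≤ M.cnt g := h1 (.cnt g k) (by simp)
    have : M.cnt f + M.cnt f' ≤ M.cnt g := cn_add_le (fun i b1 b2 => by
      have : (f &&& f').testBit (M.typ i) = true := by simp [Nat.testBit_and, b1, b2]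
      rw [show f &&& f' = 0 from h.1.1.2] at this
      simp at this) (fun i => sub_bit h.1.2) fun i => sub_bit h.2
    omega
  · rename_i f m g k g' k'
    simp only [Bool.and_eq_true, Nat.ble_eq] at h
    have a1 : m ≤ M.cnt f := h2 (.cnt f m) (by simp)
    have a2 : ¬ k ≤ M.cnt g := h1 (.cnt g k) (by simp)
    have a2' : ¬ k' ≤ M.cnt g' := h1 (.cnt g' k') (by simp)
    have a3 := cnt_sub himp h.2
    have : M.cnt (Nat.lor g g') ≤ M.cnt g + M.cnt g' := cn_le_add fun i hi => by
      change (g ||| g').testBit _ = true at hi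
      simpa [Nat.testBit_or] using hi
    omega
  · simp at h

theorem checkAll_ok {conds : ℕ → List ℕ → List Cond}
    (hc : ∀ r a, ¬ ∀ c ∈ conds r a, c.holds M) {fams : Tr ℕ} {tbl : Tr Atom}
    {cnf rules : List (List ℕ)} (h : checkAll imp conds fams tbl cnf rules = true) :
    ∃ a : ℕ → Bool, ∀ C ∈ cnf, ∃ l ∈ C, lit a l = true := by
  classical
  refine ⟨fun v => decide (((tbl.get v).res fams.get).holds M), fun C hC => ?_⟩
  unfold checkAll at h
  rw [force_eq] at h
  simp only [Bool.and_eq_true, Nat.beq_eq, List.all_eq_true] at h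
  obtain ⟨r, hr⟩ : ∃ r, (C, r) ∈ cnf.zip rules := by
    have : C ∈ (cnf.zip rules).map Prod.fst := by rw [List.map_fst_zip h.1.le]; exact hC
    obtain ⟨x, hx, rfl⟩ := List.mem_map.1 this
    exact ⟨x.2, hx⟩
  have h3 := h.2 _ hr
  by_contra hn
  push Not at hn
  have key : ∀ b a, (b, a) ∈ decC fams tbl C → (a.holds M ↔ b = false) := by
    intro b a ha
    obtain ⟨l, hl, he⟩ := List.mem_map.1 ha
    obtain ⟨rfl, rfl⟩ := Prod.mk.inj he
    have := hn l hl
    unfold lit at this
    change _ ↔ Nat.beq (l % 2) 0 = false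
    change Atom.holds M ((tbl.get (l / 2)).res fams.get) ↔ _
    by_cases e : l % 2 = 0
    · simpa [e] using this
    · have e' : Nat.beq (l % 2) 0 = false := by
        rw [Bool.eq_false_iff]; simpa using e
      simpa [e, e'] using this
  have h1 : ∀ a, (true, a) ∈ decC fams tbl C → ¬ a.holds M := fun a ha => by simp [key _ _ ha]
  have h2 : ∀ a, (false, a) ∈ decC fams tbl C → a.holds M := fun a ha => by simp [key _ _ ha]
  cases r with
  | nil => exact lin_ok himp h1 h2 h3
  | cons r a =>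
    simp only [chk, List.all_eq_true] at h3
    exact hc r a fun c hc' => orc_ok himp h1 h2 (h3 c hc')

end Pool.Agent.Lib.MP_0828a1_co
end
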