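import Pool.Agent.Lib.MP_0828a1_co.TzCfg

-- part Pool.Agent.Lib.MP_0828a1_co.TzRule
section

/-! Soundness of the rules used for tight systems. -/

open Finset

set_option linter.unusedSectionVars false

namespace Pool.Agent.Lib.MP_0828a1_co

variable {I P : Type} [Fintype I] [DecidableEq P] [Fintype P]

lemma tau_biUnion {F : I → Finset P} (hF : ∀ p, ∃ i, p ∈ F i) {α : Type} [DecidableEq α]
    (s : Finset α) (f : α → Finset P) : tau F (s.biUnion f) ≤ ∑ a ∈ s, tau F (f a) := by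
  induction s using Finset.induction_on with
  | empty => simp [tau_empty]
  | insert a s ha ih =>
    rw [biUnion_insert, sum_insert ha]
    exact (tau_le_add hF subset_rfl).trans (by omega)

lemma two_far {F : I → Finset P} (hF : ∀ p, ∃ i, p ∈ F i) {K : Finset P} {b : P}
    (h : ∀ i, (F i ∩ K).Nonempty → b ∉ F i) : tau F K < tau F (K ∪ {b}) := by
  have := tau_add hF (X := K) (Y := {b}) (Z := K ∪ {b}) (fun x hx y hy ⟨i, a1, a2⟩ =>
    h i ⟨x, mem_inter.2 ⟨a1, hx⟩⟩ (mem_singleton.1 hy ▸ a2)) subset_union_left subset_union_right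
  rw [tau_single hF] at this
  omega

/-- a configuration in a minimal counterexample -/
structure TC (p : Par) (F : I → Finset P) (Y : Finset P) (bp : ℕ → P) (K : ℕ → Finset P) :
    Prop extends Cf p F Y bp K where
  min : Min F Y
  crit : ∀ j < p.c, Crit F (K j)
  conn : ∀ j < p.c, Conn F (K j)
  ne : ∀ j < p.c, (K j).Nonempty
  tight : ∀ j < p.c, rho F (K j) ≤ tau F (K j)
  ge : ∀ j < p.c, 0 ≤ ww F Y (K j)
  gc : p.g = true → ∀ j < p.c, Crit (GG F) (K j)
  th : tau F Y = p.θ + ∑ j ∈ range p.c, tau F (K j)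
  bud : ∑ j ∈ range p.c, ww F Y (K j) + 9 * inn F Y (pts p.nb bp (2 ^ p.nb - 1)) + 10 * p.nb <
    51 * p.θ + 4 * uu F Y (pts p.nb bp (2 ^ p.nb - 1))
  ea : p.ea = true → ∀ A ∈ p.kn, inn F Y (pts p.nb bp A) ≤ 2
  sp : ∀ A ∈ p.sp, ∃ W ⊆ Y, Crit F W ∧ Conn F W ∧ (∀ j < p.c, K j ⊆ W) ∧ (∃ b < p.nb, bp b ∈ W) ∧
    ∀ b < p.nb, (bp b ∈ W ↔ A.testBit b = true)

namespace TC
variable {p : Par} {F : I → Finset P} {Y : Finset P} {bp : ℕ → P} {K : ℕ → Finset P}
  (h : TC p F Y bp K)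
include h

lemma size {j : ℕ} (hj : j < p.c) : (K j).card + p.nb ≤ Y.card := by
  have h1 := card_le_card (h.pts_out hj (2 ^ p.nb - 1))
  have h2 := card_sdiff_add_card_eq_card (h.sub j hj)
  have h3 : pc p.nb (2 ^ p.nb - 1) = p.nb := by
    unfold pc
    rw [filter_true_of_mem fun b hb => by simp [mem_range.1 hb], card_range]
  rw [h.card_pts] at h1
  omega

lemma abs {j X : ℕ} (hj : j < p.c) (H : 1 ≤ (sem p F Y bp K).cnt (cmp p.nb j &&& allB p.nb X)) :
    tau F (K j ∪ pts p.nb bp X) ≤ tau F (K j) := by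
  obtain ⟨i, hi⟩ := exists_of_cn H
  change Nat.testBit _ (typ p F bp K i) = true at hi
  rw [Nat.testBit_and, Bool.and_eq_true, h.t_cmp hj, h.t_all] at hi
  obtain ⟨k, hk⟩ := hi.1
  exact absorb h.min.hF (h.crit j hj) (mem_inter.1 hk).2 (mem_inter.1 hk).1 hi.2

omit h in
lemma pts_or {X X' : ℕ} : pts p.nb bp (X ||| X') ⊆ pts p.nb bp X ∪ pts p.nb bp X' := fun x hx => by
  obtain ⟨b, a1, a2, rfl⟩ := mem_pts.1 hx
  rw [Nat.testBit_or, Bool.or_eq_true] at a2
  rcases a2 with a | a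
  exacts [mem_union_left _ (mem_pts.2 ⟨b, a1, a, rfl⟩), mem_union_right _ (mem_pts.2 ⟨b, a1, a, rfl⟩)]

lemma nab_ok {j X k : ℕ} {W : Finset P} (H : (Cond.nab j X k).holds (sem p F Y bp K))
    (hW : pts p.nb bp X ⊆ W) : tau F (K j) + k < tau F (K j ∪ W) :=
  (not_le.1 H).trans_le (tau_mono h.min.hF (union_subset_union subset_rfl hW))

lemma pts_in {b : ℕ} {W : Finset P} (hb : b ∈ bitsOf p.nb (2 ^ p.nb - 1) ∨ b < p.nb)
    (hW : bp b ∈ W) : pts p.nb bp (2 ^ b) ⊆ W := by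
  rw [h.pts_one (hb.elim (fun a => (mem_bitsOf.1 a).1) id)]; simpa using hW

lemma nab2_ok {j X X' : ℕ} (H : ∀ c ∈ nab2 p.nb j X X', c.holds (sem p F Y bp K)) {x y : P}
    (hx : x ∈ pts p.nb bp X) (hy : y ∈ pts p.nb bp X') {W : Finset P} (h1 : x ∈ W) (h2 : y ∈ W) :
    tau F (K j) + 1 ≤ tau F (K j ∪ W) := by
  obtain ⟨a, a1, a2, rfl⟩ := mem_pts.1 hx
  obtain ⟨b, b1, b2, rfl⟩ := mem_pts.1 hy
  exact h.nab_ok (H _ (List.mem_flatMap.2 ⟨a, mem_bitsOf.2 ⟨a1, a2⟩,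
    List.mem_map.2 ⟨b, mem_bitsOf.2 ⟨b1, b2⟩, rfl⟩⟩))
    (pts_or.trans (union_subset (h.pts_in (Or.inr a1) h1) (h.pts_in (Or.inr b1) h2)))

lemma cnt_D {j : ℕ} (hj : j < p.c) (X : ℕ) : (sem p F Y bp K).cnt (p.D j X) =
    cn fun i => (F i ∩ K j).Nonempty ∧ (F i ∩ pts p.nb bp X).Nonempty :=
  Cf.cnt_eq (h.t_D hj X)

lemma rule7 (a : List ℕ) : ¬ ∀ c ∈ gen1 p 7 a, c.holds (sem p F Y bp K) := by
  simp only [gen1, List.forall_mem_cons, List.forall_mem_append, List.forall_mem_map,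
    List.mem_range]
  rintro ⟨h1, h2, h3, h4⟩
  simp only [Cond.holds, decide_eq_true_eq, List.all_eq_true, List.mem_range, Bool.or_eq_true,
    List.any_eq_true] at h1 h2
  have a1 : ∀ j ∈ range p.c, tau F (K j ∪ pts p.nb bp (a.getD (2 * j + 1) 0)) ≤
      tau F (K j) + if a.getD (2 * j) 0 = 2 then 1 else 0 := fun j hj => by
    have := h3 j (mem_range.1 hj)
    generalize a.getD (2 * j) 0 = m at this
    unfold covC at this
    split at this
    · rw [show a.getD (2 * j + 1) 0 = 0 by simpa [Cond.holds] using this]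
      simp [pts]
    · exact this
    · exact this
    · exact (h.abs (mem_range.1 hj) this).trans (Nat.le_add_right _ _)
  have a2 : ∀ X ∈ (a.drop (2 * p.c)).toFinset, tau F (pts p.nb bp X) ≤ 1 := fun X hX => by
    have := h4 X (List.mem_toFinset.1 hX)
    unfold covS at this
    split_ifs at this with e
    · rcases e with e | ⟨A, e1, e2⟩
      · rw [← h.card_pts] at e
        rcases (pts p.nb bp X).eq_empty_or_nonempty with e1 | e1
        · simp [e1, tau_empty]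
        · obtain ⟨x, hx⟩ := card_eq_one.1 (le_antisymm e (card_pos.2 e1))
          rw [hx, tau_single h.min.hF]
      · obtain ⟨-, -, i, hi⟩ := h.kn A e1
        exact tau_le_one (i := i) ((pts_mono fun b _ => sub_bit e2).trans
          (hi ▸ inter_subset_left))
    · obtain ⟨i, hi⟩ := exists_of_cn this
      exact tau_le_one ((h.t_all X i).1 hi)
  have a3 := (tau_biUnion h.min.hF _ _).trans (sum_le_sum a1)
  have a4 := (tau_biUnion h.min.hF _ _).trans (sum_le_sum a2)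
  have a5 := tau_le_add h.min.hF (X := Y)
    (Y := (range p.c).biUnion fun j => K j ∪ pts p.nb bp (a.getD (2 * j + 1) 0))
    (Z := (a.drop (2 * p.c)).toFinset.biUnion (pts p.nb bp)) fun x hx => by
      rcases h.cov x hx with ⟨b, b1, rfl⟩ | ⟨j, b1, b2⟩
      · rcases h2 b b1 with ⟨j, c1, c2⟩ | ⟨X, c1, c2⟩
        · exact mem_union_left _ (mem_biUnion.2 ⟨j, mem_range.2 c1,
            mem_union_right _ ((h.mem_bp b1).2 c2)⟩)
        · exact mem_union_right _ (mem_biUnion.2 ⟨X, List.mem_toFinset.2 c1, (h.mem_bp b1).2 c2⟩)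
      · exact mem_union_left _ (mem_biUnion.2 ⟨j, mem_range.2 b1, mem_union_left _ b2⟩)
  have a6 := List.toFinset_card_le (a.drop (2 * p.c))
  have a7 := h.th
  rw [sum_add_distrib] at a3
  rw [sum_const, smul_eq_mul] at a4
  omega

lemma rule8 (j X X' q l1 l2 v : ℕ) :
    ¬ ∀ c ∈ gen1 p 8 [j, X, X', q, l1, l2, v], c.holds (sem p F Y bp K) := by
  simp only [gen1, List.forall_mem_cons, List.forall_mem_append, Cond.holds, decide_eq_true_eq]
  rintro ⟨⟨⟨hj, a1, a2, a3, a4, a5, a6⟩, b1, b2, b3, -⟩, b4⟩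
  rw [h.cnt_D hj] at b1 b2
  have := h.min.pairs (τ := Unit) (h.sub j hj) (h.tight j hj)
    (C := fun s => pts p.nb bp (cond s.2 X X')) (fun s => h.pts_out hj _) (fun s t e => ?_)
    (fun _ => q) (fun s => cond s.2 l1 l2) (fun _ => a3) (fun s => ?_) (fun s => ?_)
    (by have := h.size hj; simp; omega) fun A x hx => ?_
  · simp only [Fintype.sum_prod_type, Fintype.sum_bool, Fintype.card_unit, univ_unique,
      sum_singleton, cond_true, cond_false] at this
    change ww F Y (K j) < v at b3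
    unfold ge2 at a6
    push_cast at this
    split_ifs at this a6 <;> omega
  · obtain ⟨_, _ | _⟩ := s <;> obtain ⟨_, _ | _⟩ := t
    exacts [(e rfl).elim, (h.pts_dis a1).symm, h.pts_dis a1, (e rfl).elim]
  · obtain ⟨_, _ | _⟩ := s <;> assumption
  · obtain ⟨_, _ | _⟩ := s <;> simp only [cond_true, cond_false] <;> omega
  · rcases A.eq_empty_or_nonempty with rfl | ⟨u, hu⟩
    · simp
    · refine (Nat.add_le_add_left (card_le_univ A) _).trans
        (h.nab2_ok b4 (hx u hu true) (hx u hu false) ?_ ?_) <;>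
      exact mem_image_of_mem _ (by simp [hu])

lemma rule9 (j X X1 q l1 l2 X' X2 q' l1' l2' v : ℕ) :
    ¬ ∀ c ∈ gen1 p 9 [j, X, X1, q, l1, l2, X', X2, q', l1', l2', v], c.holds (sem p F Y bp K) := by
  simp only [gen1, List.forall_mem_cons, List.forall_mem_append, Cond.holds, decide_eq_true_eq]
  rintro ⟨⟨⟨hj, d1, d2, d3, d4, d5, d6, a2, a3, a4, a5, a3', a4', a5', a6⟩, b1, b2, b1', b2', b3, -⟩,
    b4, b5, b6⟩
  rw [h.cnt_D hj] at b1 b2 b1' b2'
  have := h.min.pairs (τ := Bool) (h.sub j hj) (h.tight j hj)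
    (C := fun s => pts p.nb bp (cond s.1 (cond s.2 X X1) (cond s.2 X' X2)))
    (fun s => h.pts_out hj _) (fun s t e => ?_)
    (fun a => cond a q q') (fun s => cond s.1 (cond s.2 l1 l2) (cond s.2 l1' l2'))
    (fun a => by cases a <;> assumption) (fun s => ?_) (fun s => ?_)
    (by have := h.size hj; simp; omega) fun A x hx => ?_
  · simp only [Fintype.sum_prod_type, Fintype.sum_bool, Fintype.card_bool, cond_true,
      cond_false] at this
    change ww F Y (K j) < v at b3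
    unfold ge2 at a6
    push_cast at this
    split_ifs at this a6 <;> omega
  · obtain ⟨_ | _, _ | _⟩ := s <;> obtain ⟨_ | _, _ | _⟩ := t <;>
    first | exact (e rfl).elim | exact h.pts_dis (by assumption)
          | exact (h.pts_dis (by assumption)).symm
  · obtain ⟨_ | _, _ | _⟩ := s <;> assumption
  · obtain ⟨_ | _, _ | _⟩ := s <;> simp only [cond_true, cond_false] <;> omega
  · have m : ∀ u ∈ A, ∀ b, x (u, b) ∈ (A ×ˢ univ).image x := fun u hu b =>
      mem_image_of_mem _ (by simp [hu])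
    by_cases e : A = univ
    · subst e
      obtain ⟨a, c1, c2, c3⟩ := mem_pts.1 (hx true (mem_univ _) true)
      obtain ⟨b, c4, c5, c6⟩ := mem_pts.1 (hx true (mem_univ _) false)
      obtain ⟨a', c1', c2', c3'⟩ := mem_pts.1 (hx false (mem_univ _) true)
      obtain ⟨b', c4', c5', c6'⟩ := mem_pts.1 (hx false (mem_univ _) false)
      exact h.nab_ok (b6 _ (List.mem_flatMap.2 ⟨a, mem_bitsOf.2 ⟨c1, c2⟩, List.mem_flatMap.2
        ⟨b, mem_bitsOf.2 ⟨c4, c5⟩, List.mem_flatMap.2 ⟨a', mem_bitsOf.2 ⟨c1', c2'⟩,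
        List.mem_map.2 ⟨b', mem_bitsOf.2 ⟨c4', c5'⟩, rfl⟩⟩⟩⟩))
        (pts_or.trans (union_subset (pts_or.trans (union_subset (pts_or.trans (union_subset
          (h.pts_in (Or.inr c1) (c3 ▸ m _ (mem_univ _) _))
          (h.pts_in (Or.inr c4) (c6 ▸ m _ (mem_univ _) _))))
          (h.pts_in (Or.inr c1') (c3' ▸ m _ (mem_univ _) _))))
          (h.pts_in (Or.inr c4') (c6' ▸ m _ (mem_univ _) _))))
    · have e1 : A.card ≤ 1 := by
        have := card_lt_card (ssubset_of_subset_of_ne (subset_univ A) e)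
        simp at this; omega
      rcases A.eq_empty_or_nonempty with rfl | ⟨u, hu⟩
      · simp
      · refine (Nat.add_le_add_left e1 _).trans ?_
        cases u
        · exact h.nab2_ok b5 (hx _ hu true) (hx _ hu false) (m _ hu _) (m _ hu _)
        · exact h.nab2_ok b4 (hx _ hu true) (hx _ hu false) (m _ hu _) (m _ hu _)

lemma rule10 (j X X1 X2 t q v : ℕ) :
    ¬ ∀ c ∈ gen1 p 10 [j, X, X1, X2, t, q, v], c.holds (sem p F Y bp K) := by
  simp only [gen1, List.forall_mem_cons, List.forall_mem_append, Cond.holds, decide_eq_true_eq]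
  rintro ⟨⟨⟨hj, hg, d1, d2, d3, a2, a3, a4, a6⟩, b1, b2, b3, b4, b5, -⟩, b6⟩
  rw [h.cnt_D hj] at b1 b2 b3 b5
  have := h.min.tri (h.sub j hj) (h.tight j hj) (h.gc hg j hj) (h.conn j hj)
    (C := fun s => pts p.nb bp (![X, X1, X2] s)) (fun s => h.pts_out hj _) (fun s t e => ?_)
    t q a3 a4 (fun s => ?_) (by have := h.size hj; omega) ?_ fun x hx => ?_
  · change ww F Y (K j) < v at b4
    omega
  · fin_cases s <;> fin_cases t <;>
    first | exact (e rfl).elim | exact h.pts_dis (by assumption)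
          | exact (h.pts_dis (by assumption)).symm
  · fin_cases s <;> simp <;> omega
  · split_ifs at b5 with e
    · exact Or.inr (b5.trans (NN_eq (F := F) _ ▸ cn_mono fun i hi => hi.1))
    · omega
  · obtain ⟨a, c1, c2, c3⟩ := mem_pts.1 (hx 0)
    obtain ⟨b, c4, c5, c6⟩ := mem_pts.1 (hx 1)
    obtain ⟨a', c1', c2', c3'⟩ := mem_pts.1 (hx 2)
    have m : ∀ s, x s ∈ univ.image x := fun s => mem_image_of_mem _ (mem_univ _)
    exact h.nab_ok (b6 _ (List.mem_flatMap.2 ⟨a, mem_bitsOf.2 ⟨c1, c2⟩, List.mem_flatMap.2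
      ⟨b, mem_bitsOf.2 ⟨c4, c5⟩, List.mem_map.2 ⟨a', mem_bitsOf.2 ⟨c1', c2'⟩, rfl⟩⟩⟩))
      (pts_or.trans (union_subset (pts_or.trans (union_subset
        (h.pts_in (Or.inr c1) (c3 ▸ m _)) (h.pts_in (Or.inr c4) (c6 ▸ m _))))
        (h.pts_in (Or.inr c1') (c3' ▸ m _))))

lemma rule11 (e U : ℕ) (vs : List ℕ) :
    ¬ ∀ c ∈ gen1 p 11 (e :: U :: vs), c.holds (sem p F Y bp K) := by
  simp only [gen1, List.forall_mem_cons, List.forall_mem_append, List.forall_mem_map,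
    List.mem_range]
  rintro ⟨⟨a1, a2, -⟩, a3, a4⟩
  simp only [Cond.holds, decide_eq_true_eq] at a1 a2
  have b1 : (sem p F Y bp K).cnt (p.D p.c (2 ^ p.nb - 1)) ≤
      inn F Y (pts p.nb bp (2 ^ p.nb - 1)) := cn_mono fun i hi => by
    change Nat.testBit _ (typ p F bp K i) = true at hi
    rw [Par.D, Nat.testBit_and, Bool.and_eq_true, Cf.t_cmpc, h.t_any, h.inside] at hi
    exact ⟨hi.2.mono (inter_subset_inter subset_rfl (h.pts_sub _)), hi.1⟩
  have b2 : uu F Y (pts p.nb bp (2 ^ p.nb - 1)) ≤ pc p.nb U := by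
    rw [← h.card_pts]
    refine card_le_card fun x hx => ?_
    obtain ⟨b, c1, -, rfl⟩ := mem_pts.1 (mem_filter.1 hx).1
    have c2 := (mem_filter.1 hx).2
    have c3 := a3 b c1
    rw [h.mem_bp c1]
    split_ifs at c3 with c4
    · refine c4.resolve_right fun ⟨c5, A, c6, c7⟩ => ?_
      obtain ⟨-, d1, i, d2⟩ := h.kn A c6
      have d3 := h.ea c5 A c6
      rw [← h.card_pts, ← d2] at d1
      have d4 : cn (fun i => 2 ≤ (F i ∩ Y).card ∧ F i ∩ Y ⊆ pts p.nb bp A) + lp F Y (bp b) ≤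
          inn F Y (pts p.nb bp A) := cn_add_le (fun i a b => by simp [b] at a)
        (fun i a => ⟨card_pos.1 (by omega), a.2⟩) fun i a => by
          simpa [a] using (h.mem_bp c1).2 c7
      have := cn_pos (p := fun i => 2 ≤ (F i ∩ Y).card ∧ F i ∩ Y ⊆ pts p.nb bp A) ⟨d1, d2.le⟩
      omega
    · simp only [Cond.holds] at c3
      rw [Cf.cnt_eq (h.t_one (Nat.pow_lt_pow_right (by norm_num) c1)), h.pts_one c1] at c3
      unfold lp at c2
      omega
  have b3 : ((∑ j ∈ range p.c, vs.getD j 0 : ℕ) : ℤ) ≤ ∑ j ∈ range p.c, ww F Y (K j) := by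
    push_cast
    refine sum_le_sum fun j hj => ?_
    have := a4 j (mem_range.1 hj)
    split_ifs at this with c
    · rw [c]; exact h.ge j (mem_range.1 hj)
    · exact this
  have := h.bud
  omega

lemma rule14 (A Jm S : ℕ) : ¬ ∀ c ∈ gen1 p 14 [A, Jm, S], c.holds (sem p F Y bp K) := by
  simp only [gen1, List.forall_mem_cons, Cond.holds, decide_eq_true_eq]
  rintro ⟨⟨a1, a2, a3⟩, a4⟩
  obtain ⟨W, b1, b2, b3, b4, ⟨b0, b5, b6⟩, b7⟩ := h.sp A a1
  set S0 := pts p.nb bp (A &&& (S ^^^ (2 ^ p.nb - 1))) with hS0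
  have c1 : ∀ j, j < p.c → Jm.testBit j = true → Hang F (W \ S0) (K j) := fun j hj hj' => by
    refine ⟨fun x hx => mem_sdiff.2 ⟨b4 j hj hx, fun e => (mem_sdiff.1 (h.pts_out hj _ e)).2 hx⟩,
      h.ne j hj, h.crit j hj, h.conn j hj, fun x hx y hy ⟨i, d1, d2⟩ => ?_⟩
    simp only [mem_sdiff] at hy
    rcases h.cov y (b1 hy.1.1) with ⟨b, d3, rfl⟩ | ⟨j', d3, d4⟩
    · have d4 : S.testBit b = true := by
        have := hy.1.2
        rw [h.mem_bp d3] at this
        simpa [(b7 b d3).1 hy.1.1, d3] using this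
      have d5 := a4 _ (List.mem_flatMap.2 ⟨j, mem_bitsOf.2 ⟨hj, hj'⟩,
        List.mem_map.2 ⟨b, mem_bitsOf.2 ⟨d3, d4⟩, rfl⟩⟩)
      have d6 : 1 ≤ (sem p F Y bp K).cnt (cmp p.nb j &&& col b) := cn_pos (i := i) (by
        change Nat.testBit _ (typ p F bp K i) = true
        rw [Nat.testBit_and, Bool.and_eq_true, h.t_cmp hj, h.t_col d3]
        exact ⟨⟨x, mem_inter.2 ⟨d1, hx⟩⟩, d2⟩)
      exact absurd (d6.trans d5) (by omega)
    · exact h.sep j hj j' d3 (fun e => hy.2 (e ▸ d4)) x hx y d4 ⟨i, d1, d2⟩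
  rcases S0.eq_empty_or_nonempty with e | e
  · obtain ⟨j, hj⟩ := card_pos.1 a2
    have hj1 := mem_range.1 (mem_filter.1 hj).1
    have := c1 j hj1 (mem_filter.1 hj).2
    rw [e, sdiff_empty] at this
    exact h.out j hj1 b0 b5 (b3 _ this.sub this.ne this.sep ▸ b6)
  · have := few_comps h.min.hF b2 b3 _ S0
      (((range p.c).filter fun j => Jm.testBit j = true).image K) rfl (fun x hx => by
        obtain ⟨b, d1, d2, rfl⟩ := mem_pts.1 hx
        rw [Nat.testBit_and, Bool.and_eq_true] at d2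
        exact (b7 b d1).2 d2.1) e fun L hL => by
          obtain ⟨j, hj, rfl⟩ := mem_image.1 hL
          exact c1 j (mem_range.1 (mem_filter.1 hj).1) (mem_filter.1 hj).2
    rw [card_image_of_injOn, h.card_pts] at this
    · unfold pc at a3 this; omega
    · intro j hj j' hj' e
      have d1 := mem_range.1 (mem_filter.1 hj).1
      by_contra hn
      obtain ⟨x, hx⟩ := h.ne j d1
      exact disjoint_left.1 ((h.sep j d1 j' (mem_range.1 (mem_filter.1 hj').1) hn).disjoint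
        h.min.hF) hx (e ▸ hx)

lemma gen1_ok (hs : ∀ x ∈ p.so, (sem p F Y bp K).cnt x.2 ≤ (sem p F Y bp K).cnt x.1) (r : ℕ)
    (a : List ℕ) : ¬ ∀ c ∈ gen1 p r a, c.holds (sem p F Y bp K) := by
  intro H
  have H' := H
  unfold gen1 at H'
  split at H'
  · simp only [List.forall_mem_cons, Cond.holds, decide_eq_true_eq] at H'
    exact H'.2.2.1 (h.abs H'.1 H'.2.1)
  · simp only [List.forall_mem_cons, Cond.holds] at H'
    exact H'.2.2.1 ((tau_mono h.min.hF (union_subset_union subset_rfl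
      (pts_mono fun b _ => sub_bit H'.1))).trans H'.2.1)
  · simp only [List.forall_mem_cons, Cond.holds, decide_eq_true_eq] at H'
    obtain ⟨⟨a1, a2, a3⟩, a4, a5, -⟩ := H'
    refine not_lt.2 a4 ((two_far h.min.hF fun i b1 b2 => ?_).trans_le (tau_mono h.min.hF
      (union_subset_union subset_rfl (singleton_subset_iff.2 ((h.mem_bp a2).2 a3)))))
    refine absurd (a5.trans' (cn_pos (i := i) ?_)) (by omega)
    change Nat.testBit _ (typ p F bp K i) = true
    rw [Nat.testBit_and, Bool.and_eq_true, h.t_cmp a1, h.t_col a2]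
    exact ⟨b1, b2⟩
  · simp only [List.forall_mem_cons, Cond.holds] at H'
    omega
  · exact h.rule7 _ H
  · exact h.rule8 _ _ _ _ _ _ _ H
  · exact h.rule9 _ _ _ _ _ _ _ _ _ _ _ _ H
  · exact h.rule10 _ _ _ _ _ _ _ H
  · exact h.rule11 _ _ _ H
  · simp only [List.forall_mem_cons, Cond.holds, decide_eq_true_eq] at H'
    have := h.ea H'.1.1 _ H'.1.2
    rw [Cf.cnt_eq (h.t_ins _)] at H'
    unfold inn at this
    omega
  · exact h.rule14 _ _ _ H
  · exact h.gen0_ok hs _ _ H'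

end TC

end Pool.Agent.Lib.MP_0828a1_co
end

-- part Pool.Agent.Lib.MP_0828a1_co.TzPar
section

/-! The configurations and their special rules. -/

namespace Pool.Agent.Lib.MP_0828a1_co

def dd (nb j X : ℕ) : ℕ := cmp nb j &&& anyB nb X

def soAT (nb j : ℕ) : List (ℕ × ℕ) :=
  [(dd nb j 1, dd nb j 2), (dd nb j 2, dd nb j 4), (dd nb j 8, dd nb j 16),
    (dd nb j 16, dd nb j 32)]

def pC0 : Par := ⟨3, 2, 3, 1, false, false, [7], [7], [], fun _ => false⟩
def pC1 : Par := ⟨4, 3, 3, 1, false, false, [7], [15], [], fun _ => false⟩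
def pC2 : Par := ⟨4, 2, 3, 1, true, false, [7], [15], [], fun _ => false⟩
def pC3 : Par := ⟨8, 4, 3, 2, true, true, [7, 56], [199, 248],
  soAT 8 0 ++ [(dd 8 0 192, dd 8 1 192), (dd 8 1 192, dd 8 2 192), (dd 8 2 192, dd 8 3 192),
    (dd 8 0 64, dd 8 0 128)], fun _ => false⟩
def pC4 : Par := ⟨7, 3, 3, 2, true, true, [7, 56], [71, 120],
  soAT 7 2 ++ [(dd 7 0 64, dd 7 1 64), (dd 7 1 64, dd 7 2 64)], fun _ => false⟩
def pC5 : Par := ⟨6, 2, 3, 2, true, true, [7, 56], [7, 56], [], fun _ => false⟩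
def pC6 : Par := ⟨7, 1, 3, 3, true, true, [7, 56], [71, 120], soAT 7 0,
  fun x => decide (x < 128) && x.testBit 6⟩
def pC7 : Par := ⟨9, 1, 3, 4, true, true, [7, 56], [455, 504],
  soAT 9 0 ++ [(col 6 &&& anyB 9 56, col 7 &&& anyB 9 56),
    (col 7 &&& anyB 9 56, col 8 &&& anyB 9 56)],
  fun x => decide (x < 512) && decide (1 ≤ pc 9 (448 &&& x)) ||
    decide (2 ≤ pc 9 (448 &&& x)) && decide (pc 9 (7 &&& x) = 0) && decide (3 ≤ pc 9 x)⟩
def bb (s : ℕ) : ℕ := anyB 7 112 &&& col s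
def ff (s : ℕ) : ℕ := col s &&& (ALL ^^^ anyB 7 (112 ^^^ 2 ^ s))
def pB4 : Par := ⟨7, 1, 4, 3, false, false, [15], [],
  [(bb 0, bb 1), (bb 1, bb 2), (bb 2, bb 3), (ff 4, ff 5), (ff 5, ff 6)],
  fun x => decide (x < 128) && decide (1 ≤ pc 7 (112 &&& x)) || decide (3 ≤ pc 7 (112 &&& x)) ||
    decide (128 < x) && decide (pc 7 (112 &&& x) = 0) && decide (pc 7 (15 &&& x) < 4)⟩

def cC4 : ℕ → List ℕ → List Cond
  | 16, [j, v, d] => [.side (decide (j < 3 ∧ 9 * d < v + 11)), .lo (dd 7 j 64) 1,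
      if v = 0 then .side true else .wlo j v, .hi (dd 7 j 63) d]
  | r, a => gen1 pC4 r a

noncomputable def cC5 (n : ℕ) (ph : Bool) : ℕ → List ℕ → List Cond
  | 16, [l, v] => [.side (decide (2 * v + 51 ≤ 14 * n + 9 * l + 1)), .lo (mkm (fun x =>
      decide (x < 64) && (decide (1 ≤ pc 6 (56 &&& x)) || decide (pc 6 x = 2))) 192) l, .whi 0 v]
  | 17, [] => [.side ph, .hi (one 6 2 7) 1]
  | r, a => gen1 pC5 r a

def near (nb L a b : ℕ) : List Cond :=
  [.side (decide (a < b ∧ (b < 3 ∨ 3 ≤ a ∧ b < 6))), .hi (anyB nb L &&& (col a ||| col b)) 0]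

def nodup (nb X : ℕ) : List Cond :=
  [.side (decide (X < 2 ^ nb ∧ pc nb X = 3)), .lo (one nb 1 X) 2]

noncomputable def cC6 (ph : Bool) : ℕ → List ℕ → List Cond
  | 16, [a, b] => near 7 64 a b
  | 17, [] => [.side ph, .hi (one 7 1 7) 1]
  | 18, [X] => .side (!ph) :: nodup 7 X
  | 19, [] => [.side (!ph), .lo (one 7 1 64) 1]
  | 20, [] => [.side (!ph), .lo (col 6 &&& mkm (fun x => decide (pc 7 x = 2)) 256) 2]
  | r, a => gen1 pC6 r a

noncomputable def cC7 : ℕ → List ℕ → List Cond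
  | 16, [a, b] => near 9 448 a b
  | 18, [X] => nodup 9 X
  | 21, [a, b] => [.side (decide (6 ≤ a ∧ a < b ∧ b < 9)), .hi (col a &&& col b) 0]
  | 22, [] => [.hi (anyB 9 448 &&& anyB 9 63) 3]
  | 23, N :: b :: s :: U => [.side (decide (s ≤ 1 ∧ 75 + 9 * (b - 4 - s) + 4 * (3 - U.length) <
        9 * N ∧ U.Nodup ∧ ∀ u ∈ U, 6 ≤ u ∧ u < 9)), .lo (anyB 9 448) N,
      .hi (anyB 9 448 &&& anyB 9 63) b,
      .lo (anyB 9 448 &&& mkm (fun x => decide (pc 9 (63 &&& x) = 1)) 1024) s] ++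
      U.map fun u => .hi (one 9 1 (2 ^ u)) 1
  | r, a => gen1 pC7 r a

def oth (X : ℕ) : List ℕ := bitsOf 4 (15 ^^^ X)

noncomputable def cB4 : ℕ → List ℕ → List Cond
  | 16, [] => [.lo (one 7 1 15) 2]
  | 17, [] => [.lo (anyB 7 112) 9]
  | 18, [Q, X, X'] => [.side (sub Q (X ||| X')), .lo (allB 7 X) 1, .lo (allB 7 X') 1, .npr Q]
  | 19, [] => [.pr 127]
  | 20, [s] => .side (decide (s < 4)) :: (oth (2 ^ s)).map fun x => .hi (bb x) 0
  | 21, [X] => .side (decide (X < 15 ∧ 2 ≤ pc 7 X)) :: .pr (112 ||| X) ::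
      (oth X).map fun x => .hi (bb x) (pc 7 X)
  | 22, [s, t] => .side (decide (s < 4 ∧ t < 4 ∧ s ≠ t)) :: .pr (112 ||| 2 ^ s) :: .hi (bb t) 0 ::
      (oth (2 ^ s)).map fun x => .hi (bb x) 1
  | 23, [s] => .side (decide (s < 4)) :: .pr (112 ||| 2 ^ s) ::
      .lo (anyB 7 112 &&& allB 7 (15 ^^^ 2 ^ s)) 1 :: (oth (2 ^ s)).map fun x => .hi (bb x) 1
  | 24, [s] => .side (decide (s < 4)) :: .hi (bb s) 0 ::
      .hi (mkm (fun x => decide (128 ≤ x) && decide (pc 7 x = 1)) 256) 0 ::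
      (oth (2 ^ s)).flatMap fun x => [.lo (bb x) 3, .hi (bb x) 3, .pr (112 ||| (15 ^^^ 2 ^ s ^^^ 2 ^ x))]
  | r, a => gen0 pB4 r a

end Pool.Agent.Lib.MP_0828a1_co
end

-- part Pool.Agent.Lib.MP_0828a1_co.TzMk
section

/-! Enumerations and the construction of configurations. -/

open Finset

set_option linter.unusedSectionVars false

namespace Pool.Agent.Lib.MP_0828a1_co

structure Enum {α : Type} (n : ℕ) (f : ℕ → α) (A : Finset α) : Prop where
  mem : ∀ a < n, f a ∈ A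
  inj : ∀ a < n, ∀ b < n, f a = f b → a = b
  sur : ∀ x ∈ A, ∃ a < n, f a = x

lemma exists_enum {α : Type} [DecidableEq α] (x0 : α) (d : α → ℕ) (A : Finset α) :
    ∃ f, Enum A.card f A ∧ ∀ a b, a ≤ b → b < A.card → d (f b) ≤ d (f a) := by
  induction A using Finset.induction_on_max_value d with
  | empty => exact ⟨fun _ => x0, ⟨by simp, by simp, by simp⟩, by simp⟩
  | insert x s hx hm ih =>
    obtain ⟨f, h1, h2⟩ := ih
    rw [card_insert_of_notMem hx]
    refine ⟨fun n => Nat.casesOn n x f, ⟨fun a ha => ?_, fun a ha b hb e => ?_, fun y hy => ?_⟩,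
      fun a b hab hb => ?_⟩
    · rcases a with _ | a
      exacts [mem_insert_self _ _, mem_insert_of_mem (h1.mem a (by omega))]
    · rcases a with _ | a <;> rcases b with _ | b
      · rfl
      · exact (hx ((show x = f b from e) ▸ h1.mem b (by omega))).elim
      · exact (hx ((show f a = x from e) ▸ h1.mem a (by omega))).elim
      · rw [h1.inj a (by omega) b (by omega) e]
    · rcases mem_insert.1 hy with rfl | hy
      · exact ⟨0, by omega, rfl⟩
      · obtain ⟨a, ha, e⟩ := h1.sur y hy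
        exact ⟨a + 1, by omega, e⟩
    · rcases a with _ | a <;> rcases b with _ | b
      · rfl
      · exact hm _ (h1.mem b (by omega))
      · omega
      · exact h2 a b (by omega) (by omega)

def cat {α : Type} (n : ℕ) (f g : ℕ → α) (b : ℕ) : α := if b < n then f b else g (b - n)

lemma Enum.cat {α : Type} [DecidableEq α] {n m : ℕ} {f g : ℕ → α} {A B : Finset α}
    (h1 : Enum n f A) (h2 : Enum m g B) (hd : Disjoint A B) : Enum (n + m) (cat n f g) (A ∪ B) := by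
  refine ⟨fun a ha => ?_, fun a ha b hb e => ?_, fun x hx => ?_⟩
  · unfold MP_0828a1_co.cat
    split_ifs with e
    exacts [mem_union_left _ (h1.mem a e), mem_union_right _ (h2.mem _ (by omega))]
  · unfold MP_0828a1_co.cat at e
    split_ifs at e with e1 e2 e2
    · exact h1.inj a e1 b e2 e
    · exact (disjoint_left.1 hd (h1.mem a e1) (e ▸ h2.mem _ (by omega))).elim
    · exact (disjoint_left.1 hd (h1.mem b e2) (e ▸ h2.mem _ (by omega))).elim
    · have := h2.inj _ (by omega) _ (by omega) e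
      omega
  · rcases mem_union.1 hx with e | e
    · obtain ⟨a, ha, rfl⟩ := h1.sur x e
      exact ⟨a, by omega, if_pos ha⟩
    · obtain ⟨a, ha, rfl⟩ := h2.sur x e
      exact ⟨n + a, by omega, by simp [MP_0828a1_co.cat]⟩

lemma Enum.sum {α M : Type} [AddCommMonoid M] {n : ℕ} {f : ℕ → α} {A : Finset α} (h : Enum n f A)
    (φ : α → M) : ∑ j ∈ range n, φ (f j) = ∑ x ∈ A, φ x :=
  sum_bij (fun j _ => f j) (fun j hj => h.mem j (mem_range.1 hj))
    (fun a ha b hb => h.inj a (mem_range.1 ha) b (mem_range.1 hb))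
    (fun x hx => let ⟨a, ha, e⟩ := h.sur x hx; ⟨a, mem_range.2 ha, e⟩) fun _ _ => rfl

lemma Enum.card {α : Type} {n : ℕ} {f : ℕ → α} {A : Finset α} (h : Enum n f A) : A.card = n := by
  simpa using (h.sum fun _ => (1 : ℕ)).symm

variable {I P : Type} [Fintype I] [DecidableEq P]

/-- a block of an enumeration is the point set of a mask -/
lemma pts_block {nb n m X : ℕ} {bp f : ℕ → P} {A : Finset P} (h : Enum m f A) (h1 : n + m ≤ nb)
    (h2 : ∀ b < m, bp (n + b) = f b) (hX : ∀ b < nb, X.testBit b = true ↔ n ≤ b ∧ b < n + m) :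
    pts nb bp X = A := by
  ext x
  rw [mem_pts]
  constructor
  · rintro ⟨b, a1, a2, rfl⟩
    obtain ⟨a3, a4⟩ := (hX b a1).1 a2
    obtain ⟨b, rfl⟩ := Nat.exists_eq_add_of_le a3
    rw [h2 b (by omega)]; exact h.mem b (by omega)
  · intro hx
    obtain ⟨b, a1, rfl⟩ := h.sur x hx
    exact ⟨n + b, by omega, (hX _ (by omega)).2 (by omega), h2 b a1⟩

lemma Enum.full {nb : ℕ} {bp : ℕ → P} {B : Finset P} (h : Enum nb bp B) :
    pts nb bp (2 ^ nb - 1) = B :=
  pts_block (n := 0) h (by omega) (by simp) fun b hb => by simp [hb]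

variable {F : I → Finset P} {Y B A T S K L : Finset P}

lemma hang_nbr (hF : ∀ p, ∃ i, p ∈ F i) {W S0 : Finset P} (hc : Crit F W) (hn : Conn F W)
    (hS : S ⊆ W) (hne : S.Nonempty) (hL : Hang F (W \ S) L) (h0 : S0 ⊆ S) (h1 : S0.card ≤ 1) :
    ∃ l ∈ L, ∃ s ∈ S, s ∉ S0 ∧ Adj F l s := by
  by_contra hx
  push Not at hx
  have h2 : Hang F (W \ S0) L := hL.extend (B := S \ S0) (sdiff_subset_sdiff subset_rfl h0)
    (fun p hp => by simp only [mem_sdiff, mem_union] at hp ⊢; tauto)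
    fun l hl s hs => hx l hl s (mem_sdiff.1 hs).1 (mem_sdiff.1 hs).2
  rcases S0.eq_empty_or_nonempty with rfl | e
  · rw [sdiff_empty] at h2
    obtain ⟨s, hs⟩ := hne
    exact (mem_sdiff.1 (hL.sub (hn L h2.sub h2.ne h2.sep ▸ hS hs))).2 hs
  · have := few_comps hF hc hn _ S0 {L} rfl (h0.trans hS) e (by simpa using h2)
    simp at this; omega

variable [Fintype P]

lemma rho_tri (hF : ∀ p, ∃ i, p ∈ F i) (hK : Crit (GG F) K) {i : I} (hA : A ⊆ F i)
    (h3 : A.card = 3) {k a : P} (hk : k ∈ K) (ha : a ∈ A) (h : Adj F k a) :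
    rho F (K ∪ A) ≤ rho F K + 1 := by
  have h1 := rho_absorb hF hK hk h
  have h2 := rho_small hF ((erase_subset a A).trans hA) (by rw [card_erase_of_mem ha]; omega)
  refine (rho_le_add hF (Y := insert a K) (Z := A.erase a) fun x hx => ?_).trans (by omega)
  simp only [mem_union, mem_insert, mem_erase] at hx ⊢
  tauto

lemma mk_tc {p : Par} {𝒜 : Finset (Finset P)} {bp : ℕ → P} {K : ℕ → Finset P}
    (h : Df F Y B p.θ 𝒜) (hK : Enum p.c K 𝒜) (hB : Enum p.nb bp B) (hd : p.d = 3)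
    (small : p.nb ≤ 11 ∧ 2 ^ p.nb * (p.c + 1) ≤ 2048)
    (gc : p.g = true → ∀ K ∈ 𝒜, Crit (GG F) K)
    (kn : ∀ A ∈ p.kn, A < 2 ^ p.nb ∧ 2 ≤ pc p.nb A ∧ ∃ i, F i ∩ Y = pts p.nb bp A)
    (ea : p.ea = true → ∀ A ∈ p.kn, inn F Y (pts p.nb bp A) ≤ 2)
    (sp : ∀ A ∈ p.sp, ∃ X, Crit F (Y \ pts p.nb bp X) ∧ Conn F (Y \ pts p.nb bp X) ∧
      (∃ b < p.nb, A.testBit b = true) ∧ ∀ b < p.nb, A.testBit b = !X.testBit b) :
    TC p F Y bp K := by
  have a := fun j hj => h.hang _ (hK.mem j hj)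
  have c : Cf p F Y bp K := ⟨hd ▸ h.min.sys, small, hB.inj, fun b hb => h.sub (hB.mem b hb),
    fun j hj => (a j hj).sub.trans sdiff_subset,
    fun j hj b hb e => (mem_sdiff.1 ((a j hj).sub e)).2 (hB.mem b hb),
    fun j hj j' hj' e => (a j hj).sep_of_ne (a j' hj') fun e' => e (hK.inj j hj j' hj' e'),
    fun x hx => (em (x ∈ B)).imp (hB.sur x) fun e => by
      obtain ⟨L, h1, h2⟩ := h.cov x (mem_sdiff.2 ⟨hx, e⟩)
      obtain ⟨j, hj, rfl⟩ := hK.sur L h1
      exact ⟨j, hj, h2⟩, kn⟩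
  refine ⟨c, h.min, fun j hj => (a j hj).crit, fun j hj => (a j hj).conn, fun j hj => (a j hj).ne,
    fun j hj => h.tight _ (hK.mem j hj), fun j hj => h.ge (hK.mem j hj),
    fun e j hj => gc e _ (hK.mem j hj), by rw [hK.sum (tau F), h.tau_sum], ?_, ea, fun A hA => ?_⟩
  · rw [hK.sum (ww F Y), hB.full, ← hB.card]; exact h.budget
  · obtain ⟨X, h1, h2, ⟨b, h3, h4⟩, h5⟩ := sp A hA
    have key : ∀ b < p.nb, (bp b ∈ Y \ pts p.nb bp X ↔ A.testBit b = true) := fun b hb => by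
      rw [mem_sdiff, c.mem_bp hb, h5 b hb]; simp [c.mem b hb]
    exact ⟨_, sdiff_subset, h1, h2, fun j hj x hx => mem_sdiff.2 ⟨c.sub j hj hx,
      fun e => (mem_sdiff.1 (c.pts_out hj _ e)).2 hx⟩, ⟨b, h3, (key b h3).2 h4⟩, key⟩

/-- a trace with three points -/
def Tp (F : I → Finset P) (Y A : Finset P) : Prop := A.card = 3 ∧ ∃ i, F i ∩ Y = A

lemma Tp.sub (h : Tp F Y A) : A ⊆ Y := let ⟨_, _, e⟩ := h; e ▸ inter_subset_right

lemma Tp.ne (h : Tp F Y A) : A.Nonempty := card_pos.1 (by rw [h.1]; omega)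

lemma Tp.set (h : Tp F Y A) : ∃ i, A ⊆ F i := let ⟨_, i, e⟩ := h; ⟨i, e ▸ inter_subset_left⟩

lemma mk_one (p : Par) {s : ℕ} {𝒜 : Finset (Finset P)} (h : Df F Y (A ∪ S) p.θ 𝒜) (hA : Tp F Y A)
    (hS : S.card = s) (hd : Disjoint A S) (hc : 𝒜.card = p.c)
    (hp : p.nb = 3 + s ∧ p.d = 3 ∧ p.kn = [7] ∧ p.sp = [2 ^ p.nb - 1] ∧ p.ea = false ∧
      2 ^ p.nb * (p.c + 1) ≤ 2048 ∧ s ≤ 1)
    (gc : p.g = true → ∀ K ∈ 𝒜, Crit (GG F) K) : ∃ bp K, TC p F Y bp K := by
  obtain ⟨x0, -⟩ := hA.ne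
  obtain ⟨K, hK, -⟩ := exists_enum ∅ (fun _ => 0) 𝒜
  obtain ⟨f, hf, -⟩ := exists_enum x0 (fun _ => 0) A
  obtain ⟨g, hg, -⟩ := exists_enum x0 (fun _ => 0) S
  obtain ⟨p1, p2, p3, p4, p5, p6, p7⟩ := hp
  rw [hA.1] at hf
  refine ⟨cat 3 f g, K, mk_tc h (hc ▸ hK) (p1 ▸ hS ▸ hf.cat hg hd) p2 ⟨by omega, p6⟩ gc ?_
    (by simp [p5]) ?_⟩
  · rw [p3, p1, List.forall_mem_singleton, pts_block (n := 0) hf (by omega)
      (fun b hb => by simp [cat, hb]) (by interval_cases s <;> decide)]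
    exact ⟨by interval_cases s <;> decide, by interval_cases s <;> decide, hA.2⟩
  · rw [p4, List.forall_mem_singleton]
    refine ⟨0, ?_, ?_, ⟨0, by omega, by simp; omega⟩, fun b hb => by simp [hb]⟩ <;>
      simp [pts, h.min.crit, h.min.conn]

/-- two disjoint triples in a minimal counterexample -/
structure Pr (F : I → Finset P) (Y A T : Finset P) : Prop where
  tA : Tp F Y A
  tT : Tp F Y T
  dis : Disjoint A T
  cA : Crit F (Y \ A)
  nA : Conn F (Y \ A)
  cT : Crit F (Y \ T)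
  nT : Conn F (Y \ T)
  iA : inn F Y A ≤ 2
  iT : inn F Y T ≤ 2

lemma Pr.symm (h : Pr F Y A T) : Pr F Y T A :=
  ⟨h.tT, h.tA, h.dis.symm, h.cT, h.nT, h.cA, h.nA, h.iT, h.iA⟩

lemma mk_two (p : Par) {s : ℕ} {𝒜 : Finset (Finset P)} {K : ℕ → Finset P} (hP : Pr F Y A T)
    (h : Df F Y (A ∪ T ∪ S) p.θ 𝒜) (hS : S.card = s) (hd : Disjoint (A ∪ T) S)
    (hK : Enum p.c K 𝒜) (hp : p.nb = 6 + s ∧ p.d = 3 ∧ p.kn = [7, 56] ∧
      p.sp = [64 * (2 ^ s - 1) + 7, 64 * (2 ^ s - 1) + 56] ∧ 2 ^ p.nb * (p.c + 1) ≤ 2048 ∧ s ≤ 3)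
    (gc : ∀ K ∈ 𝒜, Crit (GG F) K) (j : ℕ) (hj : j < p.c) (d : P → ℕ) :
    ∃ bp, TC p F Y bp K ∧ pts p.nb bp 7 = A ∧ pts p.nb bp 56 = T ∧
      pts p.nb bp (64 * (2 ^ s - 1)) = S ∧ pts p.nb bp 63 = A ∪ T ∧
      (∀ x ∈ soAT p.nb j, (sem p F Y bp K).cnt x.2 ≤ (sem p F Y bp K).cnt x.1) ∧
      ∀ a b, 6 ≤ a → a ≤ b → b < 6 + s → d (bp b) ≤ d (bp a) := by
  obtain ⟨x0, -⟩ := hP.tA.ne
  set e : P → ℕ := fun x => cn fun i => (F i ∩ K j).Nonempty ∧ x ∈ F i with he
  obtain ⟨f, hf, hf'⟩ := exists_enum x0 e A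
  obtain ⟨g, hg, hg'⟩ := exists_enum x0 e T
  obtain ⟨u, hu, hu'⟩ := exists_enum x0 d S
  obtain ⟨p1, p2, p3, p4, p6, p7⟩ := hp
  rw [hP.tA.1] at hf hf'
  rw [hP.tT.1] at hg hg'
  rw [hS] at hu hu'
  set bp := cat 6 (cat 3 f g) u with hbp
  have e1 : pts p.nb bp 7 = A := pts_block (n := 0) hf (by omega)
    (fun b hb => by simp [hbp, cat, hb, show b < 6 by omega]) (by rw [p1]; interval_cases s <;> decide)
  have e2 : pts p.nb bp 56 = T := pts_block (n := 3) hg (by omega)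
    (fun b hb => by simp [hbp, cat, show 3 + b < 6 by omega]) (by rw [p1]; interval_cases s <;> decide)
  have e3 : pts p.nb bp (64 * (2 ^ s - 1)) = S := pts_block (n := 6) hu (by omega)
    (fun b hb => by simp [hbp, cat]) (by rw [p1]; interval_cases s <;> decide)
  have e4 : pts p.nb bp 63 = A ∪ T := pts_block (n := 0) (hf.cat hg hP.dis) (by omega)
    (fun b hb => by simp [hbp, cat, hb]) (by rw [p1]; interval_cases s <;> decide)
  have tc : TC p F Y bp K := by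
    refine mk_tc h hK (p1 ▸ (hf.cat hg hP.dis).cat hu hd) p2 ⟨by omega, p6⟩ (fun _ => gc) ?_ ?_ ?_
    · simp only [p3, List.forall_mem_cons, e1, e2, hP.tA.2, hP.tT.2]
      rw [p1]; interval_cases s <;> simp <;> decide
    · simp [p3, e1, e2, hP.iA, hP.iT]
    · simp only [p4, List.forall_mem_cons]
      refine ⟨⟨56, e2 ▸ hP.cT, e2 ▸ hP.nT, ?_⟩, ⟨7, e1 ▸ hP.cA, e1 ▸ hP.nA, ?_⟩, by simp⟩ <;>
        rw [p1] <;> interval_cases s <;> decide
  have key : ∀ b < 6, (sem p F Y bp K).cnt (dd p.nb j (2 ^ b)) = e (bp b) := fun b hb => by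
    refine (tc.cnt_D hj _).trans (cn_congr fun i => ?_)
    rw [tc.pts_one (by omega)]
    exact and_congr_right fun _ => ⟨fun ⟨x, hx⟩ => mem_singleton.1 (mem_inter.1 hx).2 ▸
      (mem_inter.1 hx).1, fun hx => ⟨_, mem_inter.2 ⟨hx, mem_singleton_self _⟩⟩⟩
  refine ⟨bp, tc, e1, e2, e3, e4, ?_, fun a b h1 h2 h3 => ?_⟩
  · simp only [soAT, List.forall_mem_cons]
    refine ⟨(key 1 (by omega)).trans_le (le_trans ?_ (key 0 (by omega)).ge),
      (key 2 (by omega)).trans_le (le_trans ?_ (key 1 (by omega)).ge),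
      (key 4 (by omega)).trans_le (le_trans ?_ (key 3 (by omega)).ge),
      (key 5 (by omega)).trans_le (le_trans ?_ (key 4 (by omega)).ge), by simp⟩
    exacts [hf' 0 1 (by omega) (by omega), hf' 1 2 (by omega) (by omega),
      hg' 0 1 (by omega) (by omega), hg' 1 2 (by omega) (by omega)]
  · simp only [hbp, cat, if_neg (show ¬ a < 6 by omega), if_neg (show ¬ b < 6 by omega)]
    exact hu' _ _ (by omega) (by omega)

end Pool.Agent.Lib.MP_0828a1_co
end
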