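import Pool.Agent.Lib.MP_0828a1_co.TzMk
import Pool.Agent.Lib.MP_0828a1_co.ZC0
import Pool.Agent.Lib.MP_0828a1_co.ZC1
import Pool.Agent.Lib.MP_0828a1_co.ZC2
import Pool.Agent.Lib.MP_0828a1_co.ZC3
import Pool.Agent.Lib.MP_0828a1_co.ZC4
import Pool.Agent.Lib.MP_0828a1_co.ZC5a
import Pool.Agent.Lib.MP_0828a1_co.ZC5b
import Pool.Agent.Lib.MP_0828a1_co.ZC6a
import Pool.Agent.Lib.MP_0828a1_co.ZC6b
import Pool.Agent.Lib.MP_0828a1_co.ZC7

-- part Pool.Agent.Lib.MP_0828a1_co.TzCase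
section

/-! The configurations do not occur in a minimal counterexample. -/

open Finset

set_option linter.unusedSectionVars false

namespace Pool.Agent.Lib.MP_0828a1_co

variable {I P : Type} [Fintype I] [DecidableEq P] [Fintype P]
  {F : I → Finset P} {Y B A T S K L : Finset P} {𝒜 : Finset (Finset P)}

lemma no_C0 (h : Df F Y (A ∪ S) 1 𝒜) (hA : Tp F Y A) (hS : S.card = 0) (hd : Disjoint A S)
    (hc : 𝒜.card = 2) : False := by
  obtain ⟨bp, K, t⟩ := mk_one pC0 h hA hS hd hc (by decide) (by simp [pC0])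
  exact ZC0.refute (t.himp fun _ => rfl) (t.gen1_ok (by simp [pC0]))

lemma no_C1 (h : Df F Y (A ∪ S) 1 𝒜) (hA : Tp F Y A) (hS : S.card = 1) (hd : Disjoint A S)
    (hc : 𝒜.card = 3) : False := by
  obtain ⟨bp, K, t⟩ := mk_one pC1 h hA hS hd hc (by decide) (by simp [pC1])
  exact ZC1.refute (t.himp fun _ => rfl) (t.gen1_ok (by simp [pC1]))

lemma no_C2 (h : Df F Y (A ∪ S) 1 𝒜) (hA : Tp F Y A) (hS : S.card = 1) (hd : Disjoint A S)
    (hc : 𝒜.card = 2) (gc : ∀ K ∈ 𝒜, Crit (GG F) K) : False := by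
  obtain ⟨bp, K, t⟩ := mk_one pC2 h hA hS hd hc (by decide) fun _ => gc
  exact ZC2.refute (t.himp fun _ => rfl) (t.gen1_ok (by simp [pC2]))

lemma inter_single {X : Finset P} {b : P} : (X ∩ {b}).Nonempty ↔ b ∈ X :=
  ⟨fun ⟨_, hx⟩ => mem_singleton.1 (mem_inter.1 hx).2 ▸ (mem_inter.1 hx).1,
    fun hx => ⟨_, mem_inter.2 ⟨hx, mem_singleton_self _⟩⟩⟩

lemma no_C3 (hP : Pr F Y A T) (h : Df F Y (A ∪ T ∪ S) 2 𝒜) (hS : S.card = 2)
    (hd : Disjoint (A ∪ T) S) (hc : 𝒜.card = 4) (gc : ∀ K ∈ 𝒜, Crit (GG F) K) : False := by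
  obtain ⟨K, hK, hK'⟩ := exists_enum ∅
    (fun K => cn fun i => (F i ∩ K).Nonempty ∧ (F i ∩ S).Nonempty) 𝒜
  rw [hc] at hK hK'
  obtain ⟨bp, t, -, -, e3, -, s1, s2⟩ := mk_two pC3 hP h hS hd hK (by decide) gc 0 (by decide)
    fun x => cn fun i => (F i ∩ K 0).Nonempty ∧ (F i ∩ {x}).Nonempty
  have key : ∀ j < 4, (sem pC3 F Y bp K).cnt (dd 8 j 192) =
      cn fun i => (F i ∩ K j).Nonempty ∧ (F i ∩ S).Nonempty := fun j hj => e3 ▸ t.cnt_D hj _
  have k2 : ∀ b < 8, (sem pC3 F Y bp K).cnt (dd 8 0 (2 ^ b)) =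
      cn fun i => (F i ∩ K 0).Nonempty ∧ (F i ∩ {bp b}).Nonempty := fun b hb =>
    t.pts_one hb ▸ t.cnt_D (by decide) _
  refine ZC3.refute (t.himp fun _ => rfl) (t.gen1_ok (List.forall_mem_append.2 ⟨s1, ?_⟩))
  simp (disch := omega) only [List.forall_mem_cons, key]
  exact ⟨hK' 0 1 (by omega) (by omega), hK' 1 2 (by omega) (by omega),
    hK' 2 3 (by omega) (by omega),
    (k2 7 (by omega)).trans_le ((s2 6 7 le_rfl (by omega) (by omega)).trans (k2 6 (by omega)).ge),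
    by simp⟩

lemma Pr.nbr (hF : ∀ p, ∃ i, p ∈ F i) (hP : Pr F Y A T) (hL : Hang F (Y \ (A ∪ T ∪ S)) L)
    (hS : S ⊆ Y) (hd : Disjoint (A ∪ T) S) {S0 : Finset P} (h0 : S0 ⊆ A ∪ S) (h1 : S0.card ≤ 1) :
    ∃ l ∈ L, ∃ s ∈ A ∪ S, s ∉ S0 ∧ Adj F l s := by
  refine hang_nbr hF hP.cT hP.nT (union_subset (subset_sdiff.2 ⟨hP.tA.sub, hP.dis⟩)
    (subset_sdiff.2 ⟨hS, (hd.mono_left subset_union_right).symm⟩)) (hP.tA.ne.mono subset_union_left)
    ?_ h0 h1
  convert hL using 1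
  ext x; simp only [mem_sdiff, mem_union]; tauto

/-- a component joined with one of the triples -/
lemma Pr.rho_le (hF : ∀ p, ∃ i, p ∈ F i) (hP : Pr F Y A T) (hL : Hang F (Y \ (A ∪ T ∪ S)) L)
    (hS : S ⊆ Y) (hd : Disjoint (A ∪ T) S) (h1 : S.card ≤ 1) (gc : Crit (GG F) L) :
    rho F (L ∪ A) ≤ rho F L + 1 := by
  obtain ⟨l, a1, s, a2, a3, a4⟩ := hP.nbr hF hL hS hd subset_union_right h1
  obtain ⟨i, hi⟩ := hP.tA.set
  exact rho_tri hF gc hi hP.tA.1 a1 ((mem_union.1 a2).resolve_right a3) a4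

lemma rem (hP : Pr F Y A T) {s : P} (h : Df F Y (A ∪ T ∪ {s}) 2 𝒜)
    (hd : Disjoint (A ∪ T) {s}) (hc : 𝒜.card = 3) (gc : ∀ K ∈ 𝒜, Crit (GG F) K) (hK : K ∈ 𝒜)
    {i : I} (h1 : (F i ∩ K).Nonempty) (h2 : s ∈ F i) :
    ww F Y K + 11 ≤ 9 * cn fun i => (F i ∩ K).Nonempty ∧ (F i ∩ (A ∪ T)).Nonempty := by
  have hF := h.min.hF
  obtain ⟨K1, K2, hne, he⟩ := card_eq_two.1
    (show (𝒜.erase K).card = 2 by rw [card_erase_of_mem hK, hc])
  have m1 : K1 ∈ 𝒜.erase K := by simp [he]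
  have m2 : K2 ∈ 𝒜.erase K := by simp [he]
  have hs : ({s} : Finset P) ⊆ Y := subset_union_right.trans h.sub
  have r1 := hP.rho_le hF (h.hang _ (mem_erase.1 m1).2) hs hd (by simp) (gc _ (mem_erase.1 m1).2)
  have r2 := hP.symm.rho_le hF (union_comm A T ▸ h.hang _ (mem_erase.1 m2).2) hs
    (union_comm A T ▸ hd) (by simp) (gc _ (mem_erase.1 m2).2)
  have t1 := h.tight _ (mem_erase.1 m1).2
  have t2 := h.tight _ (mem_erase.1 m2).2
  have t3 := h.tau_sum
  rw [← add_sum_erase _ _ hK, he, sum_pair hne] at t3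
  have hKs := (h.hang K hK).sub
  have hQ : K ∪ {s} ⊆ Y := union_subset (hKs.trans sdiff_subset) hs
  obtain ⟨k, hk⟩ := h1
  have t4 := absorb hF (h.hang K hK).crit (mem_inter.1 hk).2 (mem_inter.1 hk).1 (B := {s})
    (by simpa using h2)
  have t5 : tau F Y ≤ tau F (K ∪ {s}) + tau F (Y \ (K ∪ {s})) := tau_le_add hF fun x hx => by
    simp only [mem_union, mem_sdiff]; tauto
  have t6 : rho F (Y \ (K ∪ {s})) ≤ rho F (K1 ∪ A) + rho F (K2 ∪ T) := rho_le_add hF fun x hx => by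
    by_cases e : x ∈ A ∪ T ∪ {s}
    · simp only [mem_union, mem_sdiff] at hx e ⊢; tauto
    · obtain ⟨L, a1, a2⟩ := h.cov x (mem_sdiff.2 ⟨(mem_sdiff.1 hx).1, e⟩)
      have : L ∈ 𝒜.erase K := mem_erase.2 ⟨fun e => (mem_sdiff.1 hx).2 (by simp [← e, a2]), a1⟩
      rw [he, mem_insert, mem_singleton] at this
      rcases this with rfl | rfl <;> simp [a2]
  have t7 := h.min.sub_ge (K := Y \ (K ∪ {s})) sdiff_subset
    (sdiff_ssubset hQ (by simp)).ne (by omega)
  have t8 := tau_le_rho hF (Y \ (K ∪ {s}))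
  have n1 := NN_inn (F := F) (Y := Y) (K ∪ {s})
  have n2 : cn (fun i => (F i ∩ K).Nonempty ∧ ¬ (F i ∩ (A ∪ T)).Nonempty) + lp F Y s ≤
      inn F Y (K ∪ {s}) := cn_add_le (fun i ⟨⟨x, hx⟩, _⟩ b => by
        have a1 := hKs (mem_inter.1 hx).2
        have : x ∈ F i ∩ Y := mem_inter.2 ⟨(mem_inter.1 hx).1, (mem_sdiff.1 a1).1⟩
        exact (mem_sdiff.1 a1).2 (mem_union_right _ (b ▸ this)))
      (fun i ⟨⟨x, hx⟩, b⟩ => ⟨⟨x, inter_subset_inter subset_rfl (hKs.trans sdiff_subset) hx⟩,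
        fun y hy => by
          by_contra hn
          refine (h.hang K hK).sep x (mem_inter.1 hx).2 y ?_
            ⟨i, (mem_inter.1 hx).1, (mem_inter.1 hy).1⟩
          have : y ∉ A ∪ T := fun e => b ⟨y, mem_inter.2 ⟨(mem_inter.1 hy).1, e⟩⟩
          simp only [mem_union, mem_sdiff, mem_inter] at hn hy this ⊢
          tauto⟩) fun i b => by simp [b]
  have n3 : NN F K ≤ cn (fun i => (F i ∩ K).Nonempty ∧ (F i ∩ (A ∪ T)).Nonempty) +
      cn fun i => (F i ∩ K).Nonempty ∧ ¬ (F i ∩ (A ∪ T)).Nonempty :=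
    NN_eq (F := F) K ▸ cn_le_add fun i hi => by tauto
  have u1 := uu_split (F := F) (Y := Y) hQ
  have u2 : uu F Y (K ∪ {s}) ≤ uu F Y K + if 2 ≤ lp F Y s then 1 else 0 := by
    unfold uu
    rw [filter_union, filter_singleton]
    refine (card_union_le _ _).trans ?_
    split_ifs <;> simp
  have c1 := card_sdiff_add_card_eq_card hQ
  have c2 : (K ∪ {s}).card = K.card + 1 := by
    rw [card_union_of_disjoint (disjoint_singleton_right.2 fun e =>
      (mem_sdiff.1 (hKs e)).2 (by simp)), card_singleton]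
  have := h.min.neg
  unfold ww at *
  split_ifs at u2 <;> omega

lemma no_C4 (hP : Pr F Y A T) (h : Df F Y (A ∪ T ∪ S) 2 𝒜) (hS : S.card = 1)
    (hd : Disjoint (A ∪ T) S) (hc : 𝒜.card = 3) (gc : ∀ K ∈ 𝒜, Crit (GG F) K) : False := by
  obtain ⟨K, hK, hK'⟩ := exists_enum ∅
    (fun K => cn fun i => (F i ∩ K).Nonempty ∧ (F i ∩ S).Nonempty) 𝒜
  rw [hc] at hK hK'
  obtain ⟨bp, t, -, -, e3, e4, s1, -⟩ := mk_two pC4 hP h hS hd hK (by decide) gc 2 (by decide)
    fun _ => 0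
  have key : ∀ j < 3, (sem pC4 F Y bp K).cnt (dd 7 j 64) =
      cn fun i => (F i ∩ K j).Nonempty ∧ (F i ∩ S).Nonempty := fun j hj => e3 ▸ t.cnt_D hj _
  refine ZC4.refute (t.himp fun _ => rfl) fun r a H => ?_
  unfold cC4 at H
  split at H
  · rename_i j v d
    simp only [List.forall_mem_cons] at H
    obtain ⟨a1, a2, a3, a4, -⟩ := H
    simp only [Cond.holds, decide_eq_true_eq] at a1 a2 a4
    rw [key j a1.1] at a2
    obtain ⟨i, b1, b2⟩ := exists_of_cn a2
    obtain ⟨s, rfl⟩ := card_eq_one.1 hS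
    have c1 := rem hP h hd hc gc (hK.mem j a1.1) b1 (inter_single.1 b2)
    have c2 : (sem pC4 F Y bp K).cnt (dd 7 j 63) = _ := t.cnt_D a1.1 _
    rw [e4] at c2
    have c3 := t.ge j a1.1
    split_ifs at a3
    · omega
    · change (v : ℤ) ≤ ww F Y (K j) at a3
      omega
  · refine t.gen1_ok (List.forall_mem_append.2 ⟨s1, ?_⟩) _ _ H
    simp (disch := omega) only [List.forall_mem_cons, key]
    exact ⟨hK' 0 1 (by omega) (by omega), hK' 1 2 (by omega) (by omega), by simp⟩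

/-- two triples, two components, and no triple avoiding `A` with two points in `L` -/
structure Two (F : I → Finset P) (Y A T K L : Finset P) : Prop extends Pr F Y A T where
  df : Df F Y (A ∪ T ∪ ∅) 2 {L, K}
  ne : L ≠ K
  dL : del F L = 1
  gL : Crit (GG F) L
  gK : Crit (GG F) K
  mn : ∀ i, 3 ≤ (F i ∩ Y).card → ¬ (F i ∩ A).Nonempty → (F i ∩ L).card ≤ 1

namespace Two
variable (h : Two F Y A T K L)
include h

lemma hL : Hang F (Y \ (A ∪ T ∪ ∅)) L := h.df.hang L (by simp)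
lemma hK : Hang F (Y \ (A ∪ T ∪ ∅)) K := h.df.hang K (by simp)
lemma sep : Sep F L K := h.hL.sep_of_ne h.hK h.ne
lemma sL : L ⊆ Y := h.hL.sub.trans sdiff_subset
lemma dis' : Disjoint (A ∪ T) L := disjoint_right.2 fun _ hx e =>
  (mem_sdiff.1 (h.hL.sub hx)).2 (mem_union_left _ e)
lemma cov {x : P} (hx : x ∈ Y) : x ∈ A ∪ T ∨ x ∈ L ∨ x ∈ K := by
  by_cases e : x ∈ A ∪ T
  · exact Or.inl e
  · simpa using Or.inr (a := x ∈ A ∪ T) (h.df.cov x (mem_sdiff.2 ⟨hx, by simpa using e⟩))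

lemma card_split (i : I) : (F i ∩ L).card + (F i ∩ (A ∪ T)).card ≤ (F i ∩ Y).card := by
  rw [← card_union_of_disjoint (h.dis'.symm.mono inter_subset_right inter_subset_right)]
  exact card_le_card (union_subset (inter_subset_inter subset_rfl h.sL)
    (inter_subset_inter subset_rfl (union_subset h.tA.sub h.tT.sub)))

lemma big : 14 * (L.card : ℤ) + 9 * cn (fun i => (F i ∩ L).Nonempty ∧
    ((F i ∩ T).Nonempty ∨ (F i ∩ (A ∪ T)).card = 2)) ≤ 2 * ww F Y L + 51 := by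
  have s := h.df.min.sys
  have c1 := (s.sub h.sL).up.count
  have c2 := (s.sub h.sL).nn_four
  have c3 : nn F L 3 = 0 := cn_zero fun i e => by
    have a1 := h.card_split i
    have a2 := s.sz i
    have := h.mn i (by omega) fun b => by
      have := card_pos.2 (b.mono (inter_subset_inter subset_rfl (subset_union_left (s₂ := T))))
      omega
    omega
  have c4 := two_uu (F := F) (Y := Y) L
  have c5 : cn (fun i => (F i ∩ L).Nonempty ∧ ((F i ∩ T).Nonempty ∨ (F i ∩ (A ∪ T)).card = 2)) +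
      cn (fun i => ∃ p ∈ L, F i ∩ Y = {p}) ≤ nn F L 1 := by
    refine cn_add_le (fun i ⟨a, b⟩ ⟨p, _, c⟩ => ?_) (fun i ⟨a, b⟩ => ?_) fun i ⟨p, a, b⟩ => ?_
    all_goals have a1 := h.card_split i
    · have := card_pos.2 a
      rw [c, card_singleton] at a1
      rcases b with b | b
      · have := card_pos.2 (b.mono (inter_subset_inter subset_rfl (subset_union_right (s₁ := A))))
        omega
      · omega
    · have a2 := card_pos.2 a
      have a3 := s.sz i
      rcases b with b | b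
      · by_contra hn
        obtain ⟨x, hx⟩ := b
        have a4 := card_pos.2 ⟨x, inter_subset_inter subset_rfl (subset_union_right (s₁ := A)) hx⟩
        have := h.mn i (by omega) fun ⟨y, hy⟩ => by
          have := one_lt_card.2 ⟨x, inter_subset_inter subset_rfl (subset_union_right (s₁ := A)) hx,
            y, inter_subset_inter subset_rfl subset_union_left hy, fun e =>
              disjoint_left.1 h.dis (mem_inter.1 hy).2 (e ▸ (mem_inter.1 hx).2)⟩
          omega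
        omega
      · omega
    · have : p ∈ F i ∩ Y := b ▸ mem_singleton_self p
      have := card_pos.2 ⟨p, mem_inter.2 ⟨(mem_inter.1 this).1, a⟩⟩
      rw [b, card_singleton] at a1
      omega
  have := h.dL
  unfold ww del at *
  omega

lemma no_C5 {n : ℕ} {ph : Bool} (hn : n ≤ L.card) (hp : ph = true → 2 ≤ cn fun i => F i ∩ Y = A) :
    ∃ M : Sem I, (∀ i, pC5.imp.testBit (M.typ i) = false) ∧
      ∀ r a, ¬ ∀ c ∈ cC5 n ph r a, c.holds M := by
  have hK : Enum 2 (fun j => if j = 0 then L else K) {L, K} := ⟨fun a _ => by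
    split_ifs <;> simp, fun a ha b hb e => by
      have := h.ne
      interval_cases a <;> interval_cases b <;> simp_all, fun x hx => by
      rcases mem_insert.1 hx with rfl | hx
      exacts [⟨0, by omega, rfl⟩, ⟨1, by omega, (mem_singleton.1 hx).symm⟩]⟩
  obtain ⟨bp, t, e1, e2, -, e4, -⟩ := mk_two pC5 h.toPr h.df card_empty (by simp) hK (by decide)
    (by simp [h.gL, h.gK]) 0 (by decide) fun _ => 0
  refine ⟨_, t.himp fun _ => rfl, fun r a H => ?_⟩
  unfold cC5 at H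
  split at H
  · simp only [List.forall_mem_cons, Cond.holds, decide_eq_true_eq] at H
    obtain ⟨a1, a2, a3, -⟩ := H
    have b1 := h.big
    have b2 := a2.trans (cn_mono (q := fun i => (F i ∩ L).Nonempty ∧
        ((F i ∩ T).Nonempty ∨ (F i ∩ (A ∪ T)).card = 2)) fun i hi => by
      have c := ((mkm_bit _ _ _).1 hi).2
      simp only [Bool.and_eq_true, Bool.or_eq_true, decide_eq_true_eq] at c
      refine ⟨(t.jj_eq (j := 0) (by decide) i).1
        ((Cf.typ_div i).symm.trans (Nat.div_eq_of_lt c.1)), c.2.imp (fun d => ?_) fun d => ?_⟩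
      · exact card_pos.1 (e2 ▸ d.trans (t.t_pc 56 i).le)
      · exact e4 ▸ (t.t_pc' i).symm.trans d)
    change ww F Y L < _ at a3
    omega
  · simp only [List.forall_mem_cons, Cond.holds] at H
    have b1 : (sem pC5 F Y bp _).cnt (one 6 2 7) = _ := Cf.cnt_eq (t.t_one (X := 7) (by decide))
    have := hp H.1
    rw [e1] at b1
    omega
  · exact t.gen1_ok (by simp [pC5]) _ _ H

lemma df' : Df F Y (A ∪ T ∪ L) (2 + tau F L) {K} := by
  have e : Y \ (A ∪ T ∪ L) = K := by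
    ext x
    have a1 := h.cov (x := x)
    have a2 := @h.hK.sub x
    have a3 := @disjoint_left.1 (h.sep.disjoint h.df.min.hF) x
    simp only [mem_sdiff, mem_union] at *
    tauto
  have := h.df.tau_sum
  rw [sum_pair h.ne] at this
  refine ⟨h.df.min, union_subset (union_subset h.tA.sub h.tT.sub) h.sL,
    h.tA.ne.mono (subset_union_left.trans subset_union_left), fun X hX => ?_,
    fun x hx => ⟨K, by simp, e ▸ hx⟩, fun X hX => h.df.tight X (by simp [mem_singleton.1 hX]),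
    by rw [e]; omega⟩
  rw [mem_singleton.1 hX, e]
  exact h.hK.restrict subset_rfl h.hK.sub

lemma near_ok {p : Par} {bp : ℕ → P} {K' : ℕ → Finset P} (t : Cf p F Y bp K') {m : ℕ}
    (h6 : 6 ≤ p.nb) (e1 : pts p.nb bp 7 = A) (e2 : pts p.nb bp 56 = T) (e3 : pts p.nb bp m = L)
    (a b : ℕ) : ¬ ∀ c ∈ near p.nb m a b, c.holds (sem p F Y bp K') := by
  simp only [near, List.forall_mem_cons, Cond.holds, decide_eq_true_eq]
  rintro ⟨⟨a1, a2⟩, a3, -⟩
  have key : ∀ {A T : Finset P}, Pr F Y A T → Hang F (Y \ (A ∪ T ∪ ∅)) L → bp a ∈ A → bp b ∈ A →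
      False := fun {A T} hP hL b1 b2 => by
    obtain ⟨l, c1, s, c2, c3, i, c4, c5⟩ := hP.nbr t.sys.hF hL (empty_subset _) (by simp)
      (S0 := A \ {bp a, bp b}) (sdiff_subset.trans subset_union_left) (by
        rw [card_sdiff_of_subset (insert_subset b1 (by simpa using b2)), hP.tA.1, card_pair
          fun e => a1.ne (t.inj a (by omega) b (by omega) e)])
    refine absurd (a3.trans' (cn_pos (i := i) ?_)) (by omega)
    change Nat.testBit _ (typ p F bp K' i) = true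
    rw [Nat.testBit_and, Nat.testBit_or, Bool.and_eq_true, Bool.or_eq_true, t.t_any, e3,
      t.t_col (by omega), t.t_col (by omega)]
    refine ⟨⟨l, mem_inter.2 ⟨c4, c1⟩⟩, ?_⟩
    simp only [mem_sdiff, mem_insert, mem_singleton, union_empty] at c2 c3
    by_contra hn
    exact c3 ⟨c2, fun e => hn (by rcases e with rfl | rfl <;> simp [c5])⟩
  rcases a2 with a2 | ⟨a2, a4⟩
  · refine key h.toPr h.hL ?_ ?_ <;> rw [← e1, t.mem_bp (by omega)]
    · have : a < 3 := by omega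
      interval_cases a <;> rfl
    · interval_cases b <;> rfl
  · refine key h.toPr.symm (union_comm A T ▸ h.hL) ?_ ?_ <;> rw [← e2, t.mem_bp (by omega)]
    · have : a < 6 := by omega
      interval_cases a <;> rfl
    · have : 3 ≤ b := by omega
      interval_cases b <;> rfl

omit h in
lemma nodup_ok {p : Par} {bp : ℕ → P} {K' : ℕ → Finset P} (t : Cf p F Y bp K') (hc : p.c = 1)
    (nd : ∀ X : Finset P, X.card = 3 → cn (fun i => F i ∩ Y = X) ≤ 1) (X : ℕ) :
    ¬ ∀ c ∈ nodup p.nb X, c.holds (sem p F Y bp K') := by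
  simp only [nodup, List.forall_mem_cons, Cond.holds, decide_eq_true_eq]
  rintro ⟨⟨a1, a2⟩, a3, -⟩
  rw [← hc, Cf.cnt_eq (t.t_one a1)] at a3
  have := nd _ (t.card_pts X ▸ a2)
  omega

omit h in
lemma enum_one : Enum 1 (fun _ => K) {K} :=
  ⟨by simp, fun a _ b _ _ => by omega, fun x hx => ⟨0, by omega, (mem_singleton.1 hx).symm⟩⟩

lemma not_both {i : I} (h1 : (F i ∩ K).Nonempty) (h2 : (F i ∩ L).Nonempty) : False :=
  let ⟨x, hx⟩ := h1; let ⟨y, hy⟩ := h2
  h.sep y (mem_inter.1 hy).2 x (mem_inter.1 hx).2 ⟨i, (mem_inter.1 hy).1, (mem_inter.1 hx).1⟩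

lemma ctr (h3 : 2 ≤ L.card) (J : Finset I) (h5 : J.card ≤ 5) (hne : J.Nonempty)
    (hJ : ∀ i ∈ J, (F i ∩ L).Nonempty ∧ (F i ∩ (A ∪ T)).Nonempty)
    (hs : J.card ≤ 4 ∨ ∃ i ∈ J, (F i ∩ (A ∪ T)).card ≤ 1) :
    ww F Y L + 4 * (if J.card ≤ 3 then 1 else 0 : ℕ) + 9 * J.card ≤
      3 + 9 * cn fun i => (F i ∩ L).Nonempty ∧ (F i ∩ (A ∪ T)).Nonempty := by
  have hF := h.df.min.hF
  have t1 := h.df.tau_sum
  rw [sum_pair h.ne] at t1
  have c1 := card_sdiff_add_card_eq_card h.sL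
  have hAT : A ∪ T ⊆ Y \ L := subset_sdiff.2 ⟨union_subset h.tA.sub h.tT.sub, h.dis'⟩
  have hin : ∀ i, (F i ∩ L).Nonempty → F i ∩ (Y \ L) ⊆ A ∪ T := fun i hi x hx => by
    obtain ⟨a1, a2⟩ := mem_inter.1 hx
    rcases h.cov (mem_sdiff.1 a2).1 with e | e | e
    exacts [e, ((mem_sdiff.1 a2).2 e).elim, (h.not_both ⟨x, mem_inter.2 ⟨a1, e⟩⟩ hi).elim]
  obtain ⟨i, hi⟩ := hne
  obtain ⟨z, hz⟩ := (hJ i hi).2
  have t2 : tau F Y ≤ tau F (Y \ L) + tau F L := tau_le_add hF fun x hx => by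
    simp only [mem_union, mem_sdiff]; tauto
  have t3 := h.df.tight K (by simp)
  have key : ∀ {A' T' : Finset P}, Pr F Y A' T' → A' ∪ T' = A ∪ T → z ∈ A' →
      rho F ((Y \ L).erase z) < tau F K + 3 := fun {A' T'} hP e hz => by
    have r1 := hP.symm.rho_le hF (union_comm A' T' ▸ e ▸ h.hK) (empty_subset _) (by simp)
      (by simp) h.gK
    obtain ⟨j, hj⟩ := hP.tA.set
    have r2 := rho_small hF ((erase_subset z A').trans hj)
      (by rw [card_erase_of_mem hz, hP.tA.1])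
    refine (rho_le_add hF (Y := K ∪ T') (Z := A'.erase z) fun x hx => ?_).trans_lt (by omega)
    simp only [mem_erase, mem_sdiff] at hx
    have := h.cov hx.2.1
    rw [← e] at this
    simp only [mem_union, mem_erase] at this ⊢
    tauto
  have := h.df.min.contract (Z := Y \ L) sdiff_subset (by omega) J h5 (fun i hi =>
    ⟨(hJ i hi).2.mono (inter_subset_inter subset_rfl hAT), by
      rw [Finset.sdiff_sdiff_eq_self h.sL]; exact (hJ i hi).1⟩) (t := tau F K + 3) (by omega)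
    (fun j hj C hC hjC => ?_) hi (inter_subset_inter subset_rfl hAT hz)
    ((mem_union.1 (mem_inter.1 hz).2).elim (key h.toPr rfl) (key h.toPr.symm (union_comm _ _)))
    (hs.imp id fun ⟨j, a, b⟩ => ⟨j, a, (card_le_card
      (subset_inter inter_subset_left (hin j (hJ j a).1))).trans b⟩)
  · have n1 := NN_inn (F := F) (Y := Y) L
    have n2 : NN F L ≤ cn (fun i => (F i ∩ L).Nonempty ∧ (F i ∩ (A ∪ T)).Nonempty) + inn F Y L :=
      NN_eq (F := F) L ▸ cn_le_add fun i hi => by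
        by_cases e : F i ∩ Y ⊆ L
        · exact Or.inr ⟨hi.mono (inter_subset_inter subset_rfl h.sL), e⟩
        · obtain ⟨x, a1, a2⟩ := not_subset.1 e
          exact Or.inl ⟨hi, x, mem_inter.2 ⟨(mem_inter.1 a1).1, hin i hi
            (mem_inter.2 ⟨(mem_inter.1 a1).1, mem_sdiff.2 ⟨(mem_inter.1 a1).2, a2⟩⟩)⟩⟩
    have u1 := uu_split (F := F) (Y := Y) h.sL
    have := h.df.min.neg
    unfold ww at *
    omega
  · obtain ⟨l, hl⟩ := (hJ j hj).1
    have a1 := h.hL.crit l (mem_inter.1 hl).2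
    have a2 := tau_le_cover hF (C := C) (Z := insert l (Y \ L)) (X := Y) (W := L.erase l)
      (fun x hx => (mem_insert.1 hx).elim (fun e => ⟨j, hjC, e ▸ (mem_inter.1 hl).1⟩) (hC x))
      fun x hx => by simp only [mem_union, mem_insert, mem_sdiff, mem_erase]; tauto
    omega

lemma ctr' (h3 : 2 ≤ L.card) {b : ℕ}
    (hb : cn (fun i => (F i ∩ L).Nonempty ∧ (F i ∩ (A ∪ T)).Nonempty) = b) :
    4 ≤ b ∧ ww F Y L + 33 ≤ 9 * b ∧ ((∃ i, (F i ∩ L).Nonempty ∧ (F i ∩ (A ∪ T)).card = 1) →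
      5 ≤ b → ww F Y L + 42 ≤ 9 * b) := by
  classical
  have h0 := h.df.ge (K := L) (by simp)
  obtain ⟨l, a1, s, a2, -, i, a4, a5⟩ := h.toPr.nbr h.df.min.hF h.hL (empty_subset _) (by simp)
    (empty_subset _) (by simp)
  have b1 := cn_pos (p := fun i => (F i ∩ L).Nonempty ∧ (F i ∩ (A ∪ T)).Nonempty) (i := i)
    ⟨⟨l, mem_inter.2 ⟨a4, a1⟩⟩, s, mem_inter.2 ⟨a5, mem_union_left _ (by simpa using a2)⟩⟩
  have b2 : 4 ≤ b := by
    by_contra hn
    obtain ⟨J, c1, c2⟩ := exists_sub hb.ge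
    have := h.ctr h3 J (by omega) (card_pos.1 (by omega)) c2 (Or.inl (by omega))
    rw [if_pos (by omega)] at this
    omega
  refine ⟨b2, ?_, fun ⟨j, c1, c2⟩ c3 => ?_⟩
  · obtain ⟨J, c1, c2⟩ := exists_sub (hb ▸ b2)
    have := h.ctr h3 J (by omega) (card_pos.1 (by omega)) c2 (Or.inl (by omega))
    omega
  · obtain ⟨J, d1, d2⟩ := exists_sub (hb ▸ c3)
    obtain ⟨J', d3, d4⟩ := exists_subset_card_eq (s := J.erase j) (n := 4)
      (by have := pred_card_le_card_erase (s := J) (a := j); omega)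
    have d5 : (insert j J').card = 5 := by
      rw [card_insert_of_notMem fun e => (mem_erase.1 (d3 e)).1 rfl, d4]
    have := h.ctr h3 (insert j J') d5.le (by simp) (fun i hi => (mem_insert.1 hi).elim
      (fun e => e ▸ ⟨c1, card_pos.1 (by omega)⟩) fun e => d2 i (mem_erase.1 (d3 e)).2)
      (Or.inr ⟨j, by simp, c2.le⟩)
    omega

end Two

lemma no_C6 {k : P} (h : Two F Y A T K {k}) {ph : Bool}
    (hp : ph = true → 2 ≤ cn fun i => F i ∩ Y = A)
    (hq : ph = false → (∀ X : Finset P, X.card = 3 → cn (fun i => F i ∩ Y = X) ≤ 1) ∧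
      lp F Y k = 0 ∧ cn (fun i => k ∈ F i ∧ (F i ∩ Y).card = 2) ≤ 1) :
    ∃ M : Sem I, (∀ i, pC6.imp.testBit (M.typ i) = false) ∧
      ∀ r a, ¬ ∀ c ∈ cC6 ph r a, c.holds M := by
  have hd := h.df'
  rw [tau_single h.df.min.hF] at hd
  obtain ⟨bp, t, e1, e2, e3, -, s1, -⟩ := mk_two pC6 h.toPr hd (card_singleton k) h.dis'
    Two.enum_one (by decide) (by simp [h.gK]) 0 (by decide) fun _ => 0
  have e6 : bp 6 = k := singleton_inj.1 ((t.pts_one (b := 6) (by decide)).symm.trans e3)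
  refine ⟨_, t.himp fun i => Bool.eq_false_iff.2 fun c => ?_, fun r a H => ?_⟩
  · simp only [pC6, Bool.and_eq_true, decide_eq_true_eq] at c
    exact h.not_both ((t.jj_eq (j := 0) (by decide) i).1
      ((Cf.typ_div i).symm.trans (Nat.div_eq_of_lt c.1)))
      (inter_single.2 (e6 ▸ (Cf.t_bit (p := pC6) (by decide) i).1 c.2))
  unfold cC6 at H
  split at H
  · exact h.near_ok t.toCf (by decide) e1 e2 e3 _ _ H
  · simp only [List.forall_mem_cons, Cond.holds] at H
    have b1 : (sem pC6 F Y bp _).cnt (one 7 1 7) = _ := Cf.cnt_eq (t.t_one (X := 7) (by decide))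
    have := hp H.1
    rw [e1] at b1
    omega
  · rw [List.forall_mem_cons] at H
    exact Two.nodup_ok t.toCf rfl (hq (by simpa [Cond.holds] using H.1)).1 _ H.2
  · simp only [List.forall_mem_cons, Cond.holds] at H
    have b1 : (sem pC6 F Y bp _).cnt (one 7 1 64) = _ := Cf.cnt_eq (t.t_one (X := 64) (by decide))
    have := (hq (by simpa using H.1)).2.1
    rw [show pts pC6.nb bp 64 = {k} from e3] at b1
    unfold lp at this
    omega
  · simp only [List.forall_mem_cons, Cond.holds] at H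
    have := (hq (by simpa using H.1)).2.2
    refine absurd (H.2.1.trans ((cn_mono fun i hi => ?_).trans this)) (by omega)
    change Nat.testBit _ (typ pC6 F bp _ i) = true at hi
    rw [Nat.testBit_and, Bool.and_eq_true, t.t_col (by decide), e6] at hi
    have c1 := (t.inside i).1 fun j _ c => h.not_both c (inter_single.2 hi.1)
    have c2 := (t.t_pc' i).symm.trans (of_decide_eq_true ((mkm_bit _ _ _).1 hi.2).2)
    refine ⟨hi.1, c2 ▸ congrArg card (Subset.antisymm (subset_inter inter_subset_left c1)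
      (inter_subset_inter subset_rfl (t.pts_sub _)))⟩
  · exact t.gen1_ok s1 _ _ H

lemma three_adj (hF : ∀ p, ∃ i, p ∈ F i) (hG : Crit (GG F) L) (h3 : L.card = 3)
    (h2 : rho F L ≤ 2) {a b : P} (ha : a ∈ L) (hb : b ∈ L) (hab : a ≠ b) : Adj F a b := by
  obtain ⟨c, hc⟩ := card_pos.1 (show 0 < (L \ {a, b}).card by
    rw [card_sdiff_of_subset (insert_subset ha (by simpa using hb)), card_pair hab]; omega)
  simp only [mem_sdiff, mem_insert, mem_singleton, not_or] at hc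
  have h1 := hG c hc.1
  by_contra hn
  have := tau_add (hGG hF) (X := {a}) (Y := {b}) (Z := L.erase c) (fun x hx y hy e =>
    hn (mem_singleton.1 hx ▸ mem_singleton.1 hy ▸ adj_GG.1 e))
    (by simp [ha, Ne.symm hc.2.1]) (by simp [hb, Ne.symm hc.2.2])
  rw [tau_single (hGG hF), tau_single (hGG hF)] at this
  unfold rho at h2; omega

lemma no_C7 (h : Two F Y A T K L) (h3 : L.card = 3)
    (nd : ∀ X : Finset P, X.card = 3 → cn (fun i => F i ∩ Y = X) ≤ 1) : False := by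
  have hd := h.df'
  have ht : tau F L = 2 := by have := h.dL; unfold del at this; omega
  rw [ht] at hd
  obtain ⟨bp, t, e1, e2, e3, e4, s1, s2⟩ := mk_two pC7 h.toPr hd h3 h.dis'
    Two.enum_one (by decide) (by simp [h.gK]) 0 (by decide)
    fun x => cn fun i => x ∈ F i ∧ (F i ∩ T).Nonempty
  change pts pC7.nb bp 448 = L at e3
  have hb : (sem pC7 F Y bp fun _ => K).cnt (anyB 9 448 &&& anyB 9 63) =
      cn fun i => (F i ∩ L).Nonempty ∧ (F i ∩ (A ∪ T)).Nonempty := Cf.cnt_eq fun i => by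
    rw [Nat.testBit_and, Bool.and_eq_true, ← e3, ← e4]
    exact and_congr (t.t_any _ i) (t.t_any _ i)
  have hL : ∀ b, 6 ≤ b → b < 9 → bp b ∈ L := fun b a1 a2 => by
    rw [← e3, t.mem_bp a2]; interval_cases b <;> rfl
  obtain ⟨k1, k2, k3⟩ := h.ctr' (by omega) rfl
  refine ZC7.refute (t.himp fun i => Bool.eq_false_iff.2 fun c => ?_) fun r a H => ?_
  · have a1 := t.t_pc 448 i
    have a2 := t.t_pc 7 i
    have a3 := t.t_pc' i
    rw [e3] at a1
    rw [e1] at a2
    simp only [pC7, Bool.and_eq_true, Bool.or_eq_true, decide_eq_true_eq] at c a1 a2 a3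
    rcases c with c | c
    · exact h.not_both ((t.jj_eq (j := 0) (by decide) i).1
        ((Cf.typ_div i).symm.trans (Nat.div_eq_of_lt c.1))) (card_pos.1 (by omega))
    · have := h.mn i (c.2.trans (a3.le.trans (card_le_card
        (inter_subset_inter subset_rfl (t.pts_sub _))))) fun e => by
          have := card_pos.2 e; omega
      omega
  unfold cC7 at H
  split at H
  · exact h.near_ok t.toCf (by decide) e1 e2 e3 _ _ H
  · exact Two.nodup_ok t.toCf rfl nd _ H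
  · simp only [List.forall_mem_cons, Cond.holds, decide_eq_true_eq] at H
    obtain ⟨⟨a1, a2, a3⟩, a4, -⟩ := H
    obtain ⟨i, b1, b2⟩ := three_adj t.sys.hF h.gL h3 (ht ▸ h.df.tight L (by simp))
      (hL _ a1 (by omega)) (hL _ (by omega) a3) fun e => a2.ne (t.inj _ (a2.trans a3) _ a3 e)
    refine absurd (a4.trans' (cn_pos (i := i) ?_)) (by omega)
    change Nat.testBit _ (typ pC7 F bp _ i) = true
    rw [Nat.testBit_and, Bool.and_eq_true, t.t_col (a2.trans a3), t.t_col a3]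
    exact ⟨b1, b2⟩
  · simp only [List.forall_mem_cons, Cond.holds, hb] at H
    omega
  · rename_i N b s U
    simp only [List.forall_mem_cons, List.forall_mem_append, List.forall_mem_map, Cond.holds,
      decide_eq_true_eq, hb] at H
    obtain ⟨⟨⟨a1, a2, a3, a4⟩, a5, a6, a7, -⟩, a8⟩ := H
    have b1 : (sem pC7 F Y bp fun _ => K).cnt (anyB 9 448) = NN F L :=
      NN_eq (F := F) L ▸ Cf.cnt_eq fun i => e3 ▸ t.t_any _ i
    have b2 : uu F Y L + U.length ≤ 3 := by
      rw [← h3, ← List.toFinset_card_of_nodup a3, ← card_image_of_injOn (f := bp)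
        (s := U.toFinset) fun x hx y hy => t.inj x (a4 x (List.mem_toFinset.1 hx)).2 y
          (a4 y (List.mem_toFinset.1 hy)).2, uu, ← card_union_of_disjoint]
      · refine card_le_card (union_subset (filter_subset _ _) fun x hx => ?_)
        obtain ⟨u, hu, rfl⟩ := mem_image.1 hx
        exact hL u (a4 u (List.mem_toFinset.1 hu)).1 (a4 u (List.mem_toFinset.1 hu)).2
      · refine disjoint_left.2 fun x c1 c2 => ?_
        obtain ⟨u, hu, rfl⟩ := mem_image.1 c2
        have c3 := (a4 u (List.mem_toFinset.1 hu)).2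
        have c4 : (sem pC7 F Y bp fun _ => K).cnt (one 9 1 (2 ^ u)) = lp F Y (bp u) :=
          Cf.cnt_eq fun i => t.pts_one c3 ▸ t.t_one (Nat.pow_lt_pow_right (by norm_num) c3) i
        have := a8 u (List.mem_toFinset.1 hu)
        have := (mem_filter.1 c1).2
        omega
    have b3 : s = 1 → ∃ i, (F i ∩ L).Nonempty ∧ (F i ∩ (A ∪ T)).card = 1 := fun e => by
      obtain ⟨i, hi⟩ := exists_of_cn (e ▸ a7)
      rw [Nat.testBit_and, Bool.and_eq_true] at hi
      exact ⟨i, e3 ▸ (t.t_any _ i).1 hi.1, e4 ▸ (t.t_pc 63 i).symm.trans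
        (of_decide_eq_true ((mkm_bit _ _ _).1 hi.2).2)⟩
    unfold ww at k2 k3
    rcases (show s = 0 ∨ s = 1 by omega) with e | e
    · clear b3 k3; omega
    · have := k3 (b3 e)
      clear b3 k3; omega
  · refine t.gen1_ok (List.forall_mem_append.2 ⟨s1, ?_⟩) _ _ H
    have key : ∀ b < 9, (sem pC7 F Y bp fun _ => K).cnt (col b &&& anyB 9 56) =
        cn fun i => bp b ∈ F i ∧ (F i ∩ T).Nonempty := fun b hb => Cf.cnt_eq fun i => by
      rw [Nat.testBit_and, Bool.and_eq_true, ← e2]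
      exact and_congr (t.t_col hb i) (t.t_any _ i)
    simp (disch := omega) only [List.forall_mem_cons, key]
    exact ⟨s2 6 7 le_rfl (by omega) (by omega), s2 7 8 (by omega) (by omega) (by omega), by simp⟩

end Pool.Agent.Lib.MP_0828a1_co
end

-- part Pool.Agent.Lib.MP_0828a1_co.TzT
section

/-! The inequality for tight systems. -/

open Finset

set_option linter.unusedSectionVars false

namespace Pool.Agent.Lib.MP_0828a1_co

variable {I P : Type} [Fintype I] [DecidableEq P]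
  {F : I → Finset P} {Y B A T S K L : Finset P} {𝒜 : Finset (Finset P)}

lemma hang_union (h : ∀ K ∈ 𝒜, Hang F Y K) : ∀ K ∈ 𝒜, Hang F (𝒜.biUnion id) K := fun K hK =>
  (h K hK).restrict (subset_biUnion_of_mem id hK) (biUnion_subset.2 fun L hL => (h L hL).sub)

lemma sep_union (h : ∀ K ∈ 𝒜, Hang F Y K) : Sep F (𝒜.biUnion id) (Y \ 𝒜.biUnion id) :=
  fun x hx y hy => by
    obtain ⟨K, h1, h2⟩ := mem_biUnion.1 hx
    exact (h K h1).sep x h2 y (mem_sdiff.2 ⟨(mem_sdiff.1 hy).1,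
      fun e => (mem_sdiff.1 hy).2 (mem_biUnion.2 ⟨K, h1, e⟩)⟩)

/-- components absorb all but one point of the set from which they hang -/
lemma absorb_all (hF : ∀ p, ∃ i, p ∈ F i) (hc : Crit F Y) (hn : Conn F Y) (hB : B ⊆ Y)
    (h : ∀ K ∈ 𝒜, Hang F (Y \ B) K) (he : B.card ≤ 𝒜.card + 1) {b : P} (hb : b ∈ B) :
    tau F (B.erase b ∪ 𝒜.biUnion id) ≤ tau F (𝒜.biUnion id) := by
  classical
  set nb : P → Finset (Finset P) := fun s => 𝒜.filter fun K => ∃ k ∈ K, Adj F s k with hnb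
  have hU : 𝒜.biUnion id ⊆ Y \ B := biUnion_subset.2 fun L hL => (h L hL).sub
  by_cases hall : ∀ S' : Finset (B.erase b), S'.card ≤ (S'.biUnion fun s => nb s).card
  · obtain ⟨f, hf, hf'⟩ := (all_card_le_biUnion_card_iff_existsInjective'
      (fun s : B.erase b => nb s)).1 hall
    have e : (B.erase b ∪ 𝒜.biUnion id) \ B.erase b = 𝒜.biUnion id := by
      rw [union_sdiff_cancel_left]
      exact disjoint_left.2 fun x h1 h2 => (mem_sdiff.1 (hU h2)).2 (mem_erase.1 h1).2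
    have := matched hF (B.erase b) (B.erase b ∪ 𝒜.biUnion id)
      (fun p => if h : p ∈ B.erase b then f ⟨p, h⟩ else ∅) (by
        intro a ha c hc hac
        simp only [mem_coe] at ha hc
        simp only [ha, hc, dite_true] at hac
        exact congrArg Subtype.val (hf hac)) fun s hs => by
          have := mem_filter.1 (hf' ⟨s, hs⟩)
          simp only [hs, dite_true]
          exact ⟨e.symm ▸ hang_union h _ this.1, this.2⟩
    rwa [e] at this
  · exfalso
    push Not at hall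
    obtain ⟨S0, hS0⟩ := hall
    set S' := S0.map (Function.Embedding.subtype _) with hS'
    set Nb := S0.biUnion fun s => nb s with hNb
    have hS'c : S'.card = S0.card := card_map _
    have hS'S : S' ⊆ B.erase b := fun p hp => by
      obtain ⟨q, -, rfl⟩ := mem_map.1 hp; exact q.2
    have hNY : Nb ⊆ 𝒜 := fun K hK => by
      obtain ⟨s, -, h⟩ := mem_biUnion.1 hK; exact (mem_filter.1 h).1
    have h1 := card_sdiff_add_card_eq_card hNY
    have h2 := card_sdiff_add_card_eq_card (hS'S.trans (erase_subset _ _))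
    have := few_comps hF hc hn _ (B \ S') (𝒜 \ Nb) rfl (sdiff_subset.trans hB)
      ⟨b, mem_sdiff.2 ⟨hb, fun e => (mem_erase.1 (hS'S e)).1 rfl⟩⟩ fun K hK => by
        refine (h K (mem_sdiff.1 hK).1).extend (B := S')
          (sdiff_subset_sdiff subset_rfl sdiff_subset) (fun p hp => ?_) fun p hp q hq ha => ?_
        · simp only [mem_sdiff, mem_union] at hp ⊢
          tauto
        · obtain ⟨q', hq', rfl⟩ := mem_map.1 hq
          exact (mem_sdiff.1 hK).2 (mem_biUnion.2 ⟨q', hq', mem_filter.2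
            ⟨(mem_sdiff.1 hK).1, p, hp, ha.symm⟩⟩)
    omega

lemma inn_ge (E : Finset I) (hE : ∀ i ∈ E, 2 ≤ (F i ∩ Y).card ∧ F i ∩ Y ⊆ B) :
    E.card + 2 * uu F Y B ≤ inn F Y B := by
  have h3 := two_uu (F := F) (Y := Y) B
  have h4 := card_le_cn (p := fun i => 2 ≤ (F i ∩ Y).card ∧ F i ∩ Y ⊆ B) E hE
  have h5 : cn (fun i => 2 ≤ (F i ∩ Y).card ∧ F i ∩ Y ⊆ B) +
      cn (fun i => ∃ p ∈ B, F i ∩ Y = {p}) ≤ inn F Y B :=
    cn_add_le (fun i a ⟨p, _, b⟩ => by simp [b] at a)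
      (fun i a => ⟨card_pos.1 (by omega), a.2⟩) fun i ⟨p, a, b⟩ => by simpa [b] using a
  omega

lemma uu_nn : 2 * uu F Y Y ≤ nn F Y 1 :=
  (two_uu Y).trans (cn_mono fun i ⟨p, _, e⟩ => by rw [e, card_singleton])

/-- the neighbours of a point -/
noncomputable def nbr (F : I → Finset P) (Y : Finset P) (k : P) : Finset P := by
  classical exact Y.filter fun x => x ≠ k ∧ Adj F k x

lemma mem_nbr {k x : P} : x ∈ nbr F Y k ↔ x ∈ Y ∧ x ≠ k ∧ Adj F k x := by simp [nbr]

variable [Fintype P]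

namespace Min
variable (h : Min F Y)
include h

lemma tau_tri (hA : Tp F Y A) : tau F Y = 1 + tau F (Y \ A) := by
  obtain ⟨a, ha⟩ := hA.ne
  obtain ⟨i, hi⟩ := hA.set
  have h1 := h.crit a (hA.sub ha)
  have h2 : tau F (Y \ A) ≤ tau F (Y.erase a) := tau_mono h.hF fun x hx =>
    mem_erase.2 ⟨fun e => (mem_sdiff.1 hx).2 (e ▸ ha), (mem_sdiff.1 hx).1⟩
  have h3 : tau F Y ≤ tau F A + tau F (Y \ A) := tau_le_add h.hF fun x hx => by
    simp only [mem_union, mem_sdiff]; tauto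
  have := tau_le_one hi
  omega

lemma strong (hA : Tp F Y A) (ht : rho F (Y \ A) ≤ tau F (Y \ A)) : del F Y = 0 ∧
    Crit F (Y \ A) ∧ Conn F (Y \ A) ∧ Crit (GG F) (Y \ A) ∧ inn F Y A ≤ 2 := by
  have h1 := h.tau_tri hA
  obtain ⟨S, hS, 𝒜, d, e⟩ := h.mk_df hA.sub hA.ne ht h1
  obtain ⟨h3, i, hi⟩ := hA
  have hd : Disjoint A S := (subset_sdiff.1 hS).2.symm
  have c1 := card_union_of_disjoint hd
  obtain ⟨s1, s2, s3⟩ := d.small {i} (by simp [hi, h3])
  have c2 := few_comps h.hF h.crit h.conn _ _ 𝒜 rfl d.sub d.ne d.hang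
  have c3 := d.del_le
  have c4 := card_sdiff_add_card_eq_card (Tp.sub ⟨h3, i, hi⟩)
  have c5 : del F (Y \ A) = del F Y + 1 := by unfold del; omega
  have c6 : 0 ≤ del F Y := by
    rcases tight_crit h.hF h.crit h.conn h.tight with a | a <;> omega
  rw [card_singleton] at s1 s3
  rcases (show S.card = 0 ∨ S.card = 1 by omega) with a | a
  · have c7 : 𝒜.card = 1 := by
      by_contra hn
      exact no_C0 d ⟨h3, i, hi⟩ a hd (by omega)
    obtain rfl := card_eq_zero.1 a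
    obtain ⟨K, rfl⟩ := card_eq_one.1 c7
    rw [union_empty] at d s2 s3 c1
    have c8 := d.hang K (by simp)
    obtain rfl : K = Y \ A := Subset.antisymm c8.sub fun x hx => by simpa using d.cov x hx
    exact ⟨by omega, c8.crit, c8.conn, (d.gcrit (by omega) (by simp)).2, by omega⟩
  · exfalso
    by_cases c7 : 𝒜.card = 3
    · exact no_C1 d ⟨h3, i, hi⟩ a hd c7
    · exact no_C2 d ⟨h3, i, hi⟩ a hd (by omega) fun K hK => (d.gcrit (by omega) hK).2

lemma del_zero : del F Y = 0 := by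
  refine (tight_crit h.hF h.crit h.conn h.tight).resolve_right fun ⟨h1, h2⟩ => ?_
  have h3 : nn F Y 3 = 0 := cn_zero fun i hi => by
    have hA : Tp F Y (F i ∩ Y) := ⟨hi, i, rfl⟩
    obtain ⟨a, ha⟩ := hA.ne
    have a1 := h.tau_tri hA
    have a2 := h2 a (hA.sub ha)
    have a3 : rho F (Y \ (F i ∩ Y)) ≤ rho F (Y.erase a) := rho_mono h.hF fun x hx =>
      mem_erase.2 ⟨fun e => (mem_sdiff.1 hx).2 (e ▸ ha), (mem_sdiff.1 hx).1⟩
    have a4 := h.tight
    have := (h.strong hA (by unfold rho at *; omega)).1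
    omega
  have h4 := h.sys.up.count
  have h5 := h.sys.nn_four
  have h6 := uu_nn (F := F) (Y := Y)
  have h7 := uu_le (F := F) (Y := Y) (K := Y)
  have h8 : Y.card = 1 → nn F Y 2 = 0 := fun e => cn_zero fun i hi => by
    have := card_le_card (inter_subset_right (s₁ := F i) (s₂ := Y))
    omega
  have := h.neg
  unfold ww del at *
  omega

lemma usable (hA : Tp F Y A) : rho F (Y \ A) ≤ tau F (Y \ A) := by
  classical
  by_contra hn
  have hF := h.hF
  have d0 := h.del_zero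
  have h1 := h.tau_tri hA
  obtain ⟨E, U, S, 𝒴, a1, a2, -, a4, a5, a6, a7, a8⟩ :=
    min_triples hF (Y \ A) (h.sys.sub sdiff_subset).sz
  have a9 : 1 ≤ E.card := by
    by_contra e
    rw [card_eq_zero.1 (show U.card = 0 by omega), sdiff_empty] at a5
    omega
  have hS : S ⊆ Y \ A := a6.trans sdiff_subset
  have hB : A ∪ S ⊆ Y := union_subset hA.sub (hS.trans sdiff_subset)
  have hh : ∀ K ∈ 𝒴, Hang F (Y \ (A ∪ S)) K := fun K hK => by
    convert (a7 K hK).1 using 1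
    ext x; simp only [mem_sdiff, mem_union]; tauto
  obtain ⟨a0, ha0⟩ := hA.ne
  have c1 := few_comps hF h.crit h.conn _ _ 𝒴 rfl hB ⟨a0, mem_union_left _ ha0⟩ hh
  have c2 := card_union_of_disjoint (subset_sdiff.1 hS).2.symm
  have c3 := card_sdiff_add_card_eq_card hA.sub
  have c4 := card_sdiff_add_card_eq_card a1
  have c5 : tau F (Y \ A) ≤ tau F U + tau F ((Y \ A) \ U) := tau_le_add hF fun x hx => by
    simp only [mem_union, mem_sdiff] at hx ⊢; tauto
  have c6 := tau_le_rho hF ((Y \ A) \ U)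
  have c7 := hA.1
  set W := 𝒴.biUnion id with hW
  have hW1 : W ⊆ Y \ (A ∪ S) := biUnion_subset.2 fun L hL => (hh L hL).sub
  have hW2 : W ⊆ (Y \ A) \ U := biUnion_subset.2 fun L hL => (a7 L hL).2.1
  have cov : ∀ p ∈ W, ∃ K ∈ 𝒴, p ∈ K := fun p hp => mem_biUnion.1 hp
  have w1 : del F W = 𝒴.card := by
    rw [sum_fam hF (del F) (by simp [del, tau_empty]) (fun _ _ a b => del_add hF a b) 𝒴 _
      (hang_union hh) cov, sum_congr rfl fun K hK => (a7 K hK).2.2.1]
    simp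
  have w2 : 0 ≤ ww F Y W := by
    rw [sum_fam hF (ww F Y) (by simp [ww, tau_empty, uu, NN_eq, cn_zero])
      (fun _ _ a b => ww_split hF a b) 𝒴 _ (hang_union hh) cov]
    exact sum_nonneg fun K hK => h.sub_ge ((hh K hK).sub.trans sdiff_subset) (fun e =>
      (mem_sdiff.1 ((hh K hK).sub (e ▸ hA.sub ha0))).2 (mem_union_left _ ha0)) (a7 K hK).2.2.2
  set Q := A ∪ S ∪ W with hQ
  have hQY : Q ⊆ Y := union_subset hB (hW1.trans sdiff_subset)
  have q1 : Q.card = (A ∪ S).card + W.card :=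
    card_union_of_disjoint (subset_sdiff.1 hW1).2.symm
  have q2 := card_sdiff_add_card_eq_card hQY
  have sp : Sep F W (Y \ Q) := (sep_union hh).mono subset_rfl fun x hx => by
    simp only [hQ, mem_sdiff, mem_union] at hx ⊢; tauto
  have r1 := tau_add (hGG hF) (X := W) (Y := (Y \ Q) \ U) (Z := (Y \ A) \ U)
    (sep_GG.2 (sp.mono subset_rfl sdiff_subset)) hW2 fun x hx => by
      simp only [hQ, mem_sdiff, mem_union] at hx ⊢; tauto
  have r2 := tau_le_rho hF W
  have r3 := tau_le_rho hF ((Y \ Q) \ U)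
  have r4 : tau F (Y \ Q) ≤ tau F U + tau F ((Y \ Q) \ U) := tau_le_add hF fun x hx => by
    simp only [mem_union, mem_sdiff] at hx ⊢; tauto
  unfold del at d0 w1
  have ab : ∀ b ∈ A ∪ S, ∀ C : Finset I, Covers F C (insert b (Y \ Q)) →
      tau F Y ≤ C.card + tau F W := fun b hb C hC =>
    (tau_le_cover hF hC fun x hx => by
      simp only [hQ, mem_union, mem_insert, mem_sdiff, mem_erase]; tauto).trans
      (Nat.add_le_add_left (absorb_all hF h.crit h.conn hB hh (by omega) hb) _)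
  have bd : ∀ i, (F i ∩ (Y \ Q)).Nonempty → ∀ b ∈ F i ∩ Q, b ∈ A ∪ S := fun i ⟨z, hz⟩ b hb =>
    (mem_union.1 (mem_inter.1 hb).2).resolve_right fun e =>
      sp b e z (mem_inter.1 hz).2 ⟨i, (mem_inter.1 hb).1, (mem_inter.1 hz).1⟩
  obtain ⟨C, hC, hc⟩ := exists_opt (hGG hF) Y
  have e0 := h.tight
  have e1 := card_filter_add_card_filter_not (s := C) fun x => (GG F x ∩ (Y \ Q)).Nonempty
  obtain ⟨x, hx, b, hb⟩ : ∃ x ∈ C.filter fun x => (GG F x ∩ (Y \ Q)).Nonempty,
      (GG F x ∩ Q).Nonempty := by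
    by_contra hx
    have b1 : rho F Q ≤ (C.filter fun x => ¬ (GG F x ∩ (Y \ Q)).Nonempty).card :=
      tau_le fun p hp => by
        obtain ⟨x, a, b⟩ := hc p (hQY hp)
        exact ⟨x, mem_filter.2 ⟨a, fun e => hx ⟨x, mem_filter.2 ⟨a, e⟩, p, mem_inter.2 ⟨b, hp⟩⟩⟩, b⟩
    have b2 : rho F (Y \ Q) ≤ (C.filter fun x => (GG F x ∩ (Y \ Q)).Nonempty).card :=
      tau_le fun p hp => by
        obtain ⟨x, a, b⟩ := hc p (mem_sdiff.1 hp).1
        exact ⟨x, mem_filter.2 ⟨a, p, mem_inter.2 ⟨b, hp⟩⟩, b⟩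
    have b3 := card_le_rho hF Q
    have b4 := card_le_rho hF (Y \ Q)
    unfold rho at *; omega
  obtain ⟨z, hz⟩ := (mem_filter.1 hx).2
  obtain ⟨i, hi⟩ := GG_sub x ⟨b, (mem_inter.1 hb).1⟩
  have e2 : rho F W ≤ (C.filter fun x => ¬ (GG F x ∩ (Y \ Q)).Nonempty).card :=
    tau_le fun p hp => by
      obtain ⟨x, a, b⟩ := hc p (mem_sdiff.1 (hW1 hp)).1
      exact ⟨x, mem_filter.2 ⟨a, fun ⟨y, hy⟩ => sp p hp y (mem_inter.1 hy).2
        (adj_GG.1 ⟨x, b, (mem_inter.1 hy).1⟩)⟩, b⟩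
  have e3 : rho F ((Y \ Q).erase z) ≤
      ((C.filter fun x => (GG F x ∩ (Y \ Q)).Nonempty).erase x).card := tau_le fun p hp => by
    obtain ⟨p1, p2⟩ := mem_erase.1 hp
    obtain ⟨y, a, a'⟩ := hc p (mem_sdiff.1 p2).1
    refine ⟨y, mem_erase.2 ⟨fun e => ?_, mem_filter.2 ⟨a, p, mem_inter.2 ⟨a', p2⟩⟩⟩, a'⟩
    have := two_lt_card_iff.2 ⟨p, z, b, e ▸ a', (mem_inter.1 hz).1, (mem_inter.1 hb).1, p1,
      fun e => (mem_sdiff.1 p2).2 (e ▸ (mem_inter.1 hb).2),
      fun e => (mem_sdiff.1 (mem_inter.1 hz).2).2 (e ▸ (mem_inter.1 hb).2)⟩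
    have := GG_card (F := F) x
    omega
  have e4 := card_erase_add_one hx
  have e5 : Y \ (Y \ Q) = Q := Finset.sdiff_sdiff_eq_self hQY
  have hz' : z ∈ F i ∩ (Y \ Q) := inter_subset_inter hi subset_rfl hz
  have hi' : (F i ∩ (Y \ Q)).Nonempty ∧ (F i ∩ (Y \ (Y \ Q))).Nonempty :=
    ⟨⟨z, hz'⟩, b, e5.symm ▸ inter_subset_inter hi subset_rfl hb⟩
  obtain ⟨j, hj, hj'⟩ : ∃ j, j ≠ i ∧ (F j ∩ (Y \ Q)).Nonempty ∧
      (F j ∩ (Y \ (Y \ Q))).Nonempty := by
    obtain ⟨j, j', a, b, c⟩ := exists_two (bridge hF h.crit h.conn (Z := Y \ Q) sdiff_subset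
      ⟨z, (mem_inter.1 hz).2⟩ (sdiff_ssubset hQY ⟨b, (mem_inter.1 hb).2⟩).ne)
    by_cases e : j = i
    exacts [⟨j', fun e' => a (e.trans e'.symm), c⟩, ⟨j, e, b⟩]
  obtain ⟨C0, hC0, hc0⟩ := exists_opt hF (Y \ Q)
  obtain ⟨i0, hi0⟩ := hF a0
  have t1 := ab a0 (mem_union_left _ ha0) (insert i0 C0) fun p hp => by
    rcases mem_insert.1 hp with rfl | hp
    · exact ⟨i0, mem_insert_self _ _, hi0⟩
    · obtain ⟨k, a, b⟩ := hc0 p hp
      exact ⟨k, mem_insert_of_mem a, b⟩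
  have t2 := card_insert_le i0 C0
  have k1 := h.contract (Z := Y \ Q) sdiff_subset (by omega) {j, i} (card_le_two.trans (by omega))
    (by simp only [mem_insert, mem_singleton]; rintro k (rfl | rfl) <;> assumption)
    (t := tau F (Y \ Q) + 1) le_rfl (fun k hk C hC hkC => by
      have : (F k ∩ (Y \ Q)).Nonempty ∧ (F k ∩ (Y \ (Y \ Q))).Nonempty := by
        simp only [mem_insert, mem_singleton] at hk; rcases hk with rfl | rfl <;> assumption
      obtain ⟨b, hb⟩ := this.2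
      rw [e5] at hb
      have := ab b (bd k this.1 b hb) C fun p hp => (mem_insert.1 hp).elim
        (fun e => ⟨k, hkC, e ▸ (mem_inter.1 hb).1⟩) (hC p)
      unfold rho at *; omega) (by simp) hz' (by unfold rho at *; omega)
    (Or.inl (card_le_two.trans (by omega)))
  rw [card_pair hj, if_pos (by omega)] at k1
  have n1 := NN_inn (F := F) (Y := Y) Q
  have n2 : NN F W + inn F Y (A ∪ S) ≤ inn F Y Q := by
    rw [NN_eq]
    refine cn_add_le (fun k ⟨y, hy⟩ b => ?_) (fun k ⟨y, hy⟩ => ⟨⟨y, inter_subset_inter subset_rfl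
      (hW1.trans sdiff_subset) hy⟩, fun y' hy' => ?_⟩) fun k b => ⟨b.1, b.2.trans subset_union_left⟩
    · have := mem_sdiff.1 (hW1 (mem_inter.1 hy).2)
      exact this.2 (b.2 (mem_inter.2 ⟨(mem_inter.1 hy).1, this.1⟩))
    · by_contra e
      exact sp y (mem_inter.1 hy).2 y' (mem_sdiff.2 ⟨(mem_inter.1 hy').2, e⟩)
        ⟨k, (mem_inter.1 hy).1, (mem_inter.1 hy').1⟩
  obtain ⟨-, iA, hiA⟩ := hA
  have n3 := inn_ge (F := F) (Y := Y) (B := A ∪ S) {iA} (by simp [hiA, c7])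
  have u1 := uu_split (F := F) (Y := Y) hQY
  have u2 : uu F Y Q ≤ uu F Y (A ∪ S) + uu F Y W := by
    unfold uu; rw [hQ, filter_union]; exact card_union_le _ _
  have := h.neg
  rw [card_singleton] at n3
  unfold ww rho at *
  omega

lemma pr (hA : Tp F Y A) (hT : Tp F Y T) (hd : Disjoint A T) : Pr F Y A T :=
  have a := h.strong hA (h.usable hA)
  have b := h.strong hT (h.usable hT)
  ⟨hA, hT, hd, a.2.1, a.2.2.1, b.2.1, b.2.2.1, a.2.2.2.2, b.2.2.2.2⟩

lemma pair (hA : Tp F Y A) (hT : Tp F Y T) (hd : Disjoint A T) : ∃ L K, L ≠ K ∧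
    Df F Y (A ∪ T ∪ ∅) 2 {L, K} ∧ ∀ X ∈ ({L, K} : Finset (Finset P)),
      del F X = 1 ∧ Crit (GG F) X := by
  classical
  have hP := h.pr hA hT hd
  have h1 := h.tau_tri hA
  have h2 := h.usable hA
  obtain ⟨t, ht⟩ := hT.ne
  have hTA : T ⊆ Y \ A := subset_sdiff.2 ⟨hT.sub, hd.symm⟩
  have h3 := (h.strong hA h2).2.2.2.1 t (hTA ht)
  have h4 : rho F (Y \ (A ∪ T)) ≤ rho F ((Y \ A).erase t) := rho_mono h.hF fun x hx => by
    simp only [mem_sdiff, mem_union, mem_erase] at hx ⊢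
    exact ⟨fun e => hx.2 (Or.inr (e ▸ ht)), hx.1, fun e => hx.2 (Or.inl e)⟩
  have h5 : tau F (Y \ A) ≤ tau F T + tau F (Y \ (A ∪ T)) := tau_le_add h.hF fun x hx => by
    simp only [mem_union, mem_sdiff] at hx ⊢; tauto
  obtain ⟨i, hi⟩ := hT.set
  have h6 := tau_le_one hi
  have h7 := tau_le_rho h.hF (Y \ (A ∪ T))
  have hU := union_subset hA.sub hT.sub
  obtain ⟨S, hS, 𝒜, d, e⟩ := h.mk_df (θ := 2) hU (hA.ne.mono subset_union_left)
    (by unfold rho at *; omega) (by unfold rho at *; omega)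
  have hd' : Disjoint (A ∪ T) S := (subset_sdiff.1 hS).2.symm
  have c0 := card_union_of_disjoint hd
  have c1 := card_union_of_disjoint hd'
  have c2 := card_union_of_disjoint (hd'.mono_left subset_union_right)
  have c3 := few_comps h.hF hP.cA hP.nA _ (T ∪ S) 𝒜 rfl (union_subset hTA
    (hS.trans (sdiff_subset_sdiff subset_rfl subset_union_left))) ⟨t, mem_union_left _ ht⟩
    fun K hK => by
      convert d.hang K hK using 1
      ext x; simp only [mem_sdiff, mem_union]; tauto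
  have c4 := d.del_le
  have c5 := card_sdiff_add_card_eq_card hU
  have c6 := h.del_zero
  obtain ⟨a3, iA, hiA⟩ := hA
  obtain ⟨t3, iT, hiT⟩ := hT
  have c7 : iA ≠ iT := fun e => disjoint_left.1 hd (hiA ▸ e ▸ hiT ▸ ht) ht
  have c8 := (d.small {iA, iT} (by
    simp only [mem_insert, mem_singleton]
    rintro k (rfl | rfl)
    · rw [hiA]; exact ⟨by omega, subset_union_left.trans subset_union_left⟩
    · rw [hiT]; exact ⟨by omega, subset_union_right.trans subset_union_left⟩)).1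
  rw [card_pair c7] at c8
  have c9 : del F (Y \ (A ∪ T)) = 2 := by unfold del rho at *; omega
  have gc := fun K => d.gcrit (K := K) (by omega)
  rcases (show S.card = 0 ∨ S.card = 1 ∨ S.card = 2 by omega) with a | a | a
  · obtain rfl := card_eq_zero.1 a
    obtain ⟨L, K, b, rfl⟩ := card_eq_two.1 (show 𝒜.card = 2 by omega)
    exact ⟨L, K, b, d, gc⟩
  · exact (no_C4 hP d a hd' (by omega) fun K hK => (gc K hK).2).elim
  · exact (no_C3 hP d a hd' (by omega) fun K hK => (gc K hK).2).elim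

lemma two (hA : Tp F Y A) (hT : Tp F Y T) (hd : Disjoint A T) : ∃ T K L, Two F Y A T K L := by
  classical
  have hex : ∃ n, ∃ T L K, L.card = n ∧ Tp F Y T ∧ Disjoint A T ∧ L ≠ K ∧
      Df F Y (A ∪ T ∪ ∅) 2 {L, K} ∧ ∀ X ∈ ({L, K} : Finset (Finset P)),
        del F X = 1 ∧ Crit (GG F) X := by
    obtain ⟨L, K, a⟩ := h.pair hA hT hd
    exact ⟨_, T, L, K, rfl, hT, hd, a⟩
  obtain ⟨T, L, K, hn, hT, hd, hne, d, g⟩ := Nat.find_spec hex
  have hP := h.pr hA hT hd
  refine ⟨T, K, L, hP, d, hne, (g L (by simp)).1, (g L (by simp)).2, (g K (by simp)).2,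
    fun i a1 a2 => ?_⟩
  by_contra a3
  have hL := d.hang L (by simp)
  have hK := d.hang K (by simp)
  have sL : L ⊆ Y := hL.sub.trans sdiff_subset
  set T' := F i ∩ Y with hT'
  have tT : Tp F Y T' := ⟨le_antisymm (h.sys.sz i) a1, i, rfl⟩
  have dT : Disjoint A T' := disjoint_right.2 fun x hx e =>
    a2 ⟨x, mem_inter.2 ⟨(mem_inter.1 hx).1, e⟩⟩
  obtain ⟨y, hy⟩ := card_pos.1 (show 0 < (F i ∩ L).card by omega)
  have b1 : K ⊆ Y \ (A ∪ T' ∪ ∅) := fun x hx => by
    have := hK.sub hx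
    have b : x ∉ F i := fun e => hL.sep_of_ne hK hne y (mem_inter.1 hy).2 x hx
      ⟨i, (mem_inter.1 hy).1, e⟩
    simp only [hT', mem_sdiff, mem_union, mem_inter] at this ⊢
    tauto
  have b2 : (T ∩ T').card ≤ 1 := by
    have : (F i ∩ L).card + (T ∩ T').card ≤ T'.card := by
      rw [← card_union_of_disjoint (disjoint_left.2 fun x c1 c2 => (mem_sdiff.1 (hL.sub
        (mem_inter.1 c1).2)).2 (by simp [(mem_inter.1 c2).1]))]
      exact card_le_card (union_subset (inter_subset_inter subset_rfl sL) inter_subset_right)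
    have := tT.1
    omega
  obtain ⟨k, k1, s, k2, k3, k4⟩ := hP.symm.nbr h.hF (union_comm A T ▸ hK) (empty_subset _)
    (by simp) (inter_subset_left.trans subset_union_left) b2
  have key : ∀ L' K', L' ≠ K' → Df F Y (A ∪ T' ∪ ∅) 2 {L', K'} →
      (∀ X ∈ ({L', K'} : Finset (Finset P)), del F X = 1 ∧ Crit (GG F) X) → k ∉ K' := by
    intro L' K' c1 c2 c3 c4
    have hL' := c2.hang L' (by simp)
    have hK' := c2.hang K' (by simp)
    have c5 := hK.conn.sub_of b1 hK'.sep k1 c4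
    have c6 : ∀ x ∈ T, x ∉ T' → x ∈ Y \ (A ∪ T' ∪ ∅) := fun x e1 e2 => by
      have := disjoint_right.1 hd e1
      simp only [mem_sdiff, mem_union, hT.sub e1]; simp [this, e2]
    rw [union_empty] at k2
    have c7 := hK'.sep.mem_of c4 (c6 s k2 fun e => k3 (mem_inter.2 ⟨k2, e⟩)) k4
    obtain ⟨j, hj⟩ := hT.set
    have c8 : L' ⊆ L.erase y := fun x hx => by
      have e1 := hL'.sub hx
      have e2 := disjoint_left.1 ((hL'.sep_of_ne hK' c1).disjoint h.hF) hx
      have e3 : x ∉ T' := fun e => (mem_sdiff.1 e1).2 (by simp [e])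
      have e4 : x ∉ T := fun e => e2 (hK'.sep.mem_of c7 e1 ⟨j, hj k2, hj e⟩)
      refine mem_erase.2 ⟨fun e => e3 (e ▸ inter_subset_inter subset_rfl sL hy), ?_⟩
      obtain ⟨X, e5, e6⟩ := d.cov x (by
        simp only [mem_sdiff, mem_union] at e1 ⊢; tauto)
      rcases mem_insert.1 e5 with rfl | e5
      exacts [e6, (e2 (c5 (mem_singleton.1 e5 ▸ e6))).elim]
    have c9 := card_le_card c8
    have := card_erase_add_one (mem_inter.1 hy).2
    exact Nat.find_min hex (m := L'.card) (by omega) ⟨T', L', K', rfl, tT, dT, c1, c2, c3⟩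
  obtain ⟨L', K', c1, c2, c3⟩ := h.pair hA tT dT
  obtain ⟨X, e5, e6⟩ := c2.cov k (b1 k1)
  rcases mem_insert.1 e5 with rfl | e5
  · exact key K' X c1.symm (pair_comm X K' ▸ c2) (pair_comm X K' ▸ c3) e6
  · exact key L' K' c1 c2 c3 (mem_singleton.1 e5 ▸ e6)

lemma many : 28 * (nn F Y 2 : ℤ) + 59 * nn F Y 1 + 10 ≤ 3 * nn F Y 3 + 40 * uu F Y Y := by
  have h4 := h.sys.up.count
  have h5 := h.sys.nn_four
  have h1 := h.del_zero
  have := h.neg
  unfold ww del at *
  omega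

lemma two' (hA : Tp F Y A) : ∃ T K L, Two F Y A T K L ∧ (L.card = 1 ∨ L.card = 3) := by
  classical
  by_cases hT : ∃ T, Tp F Y T ∧ Disjoint A T
  · obtain ⟨T, h1, h2⟩ := hT
    obtain ⟨T, K, L, t⟩ := h.two hA h1 h2
    refine ⟨T, K, L, t, ?_⟩
    by_contra hn
    have := t.dL
    obtain ⟨M, a, b⟩ := t.no_C5 (n := 5) (ph := false) (by unfold del at this; omega) (by simp)
    exact ZC5a.refute a b
  exfalso
  obtain ⟨h3, i, hi⟩ := hA
  have k : ∀ x ∈ A, cn (fun j => x ∈ F j ∧ j ≠ i) ≤ 4 := fun x hx => by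
    have hx' := mem_inter.1 (hi ▸ hx : x ∈ F i ∩ Y)
    have a1 := h.sys.deg x hx'.2
    have a2 := cn_add_le (p := fun j => x ∈ F j ∧ j ≠ i) (q := fun j => j = i)
      (r := fun j => x ∈ F j) (fun _ a b => a.2 b) (fun _ a => a.1) fun _ a => a ▸ hx'.1
    have a3 := cn_pos (p := fun j => j = i) rfl
    omega
  obtain ⟨a, b, c, -, -, -, rfl⟩ := card_eq_three.1 h3
  have n1 : nn F Y 3 ≤ cn (fun j => j = i) + (cn (fun j => a ∈ F j ∧ j ≠ i) +
      (cn (fun j => b ∈ F j ∧ j ≠ i) + cn fun j => c ∈ F j ∧ j ≠ i)) := by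
    refine (cn_le_add (q := fun j => (a ∈ F j ∧ j ≠ i) ∨ (b ∈ F j ∧ j ≠ i) ∨ (c ∈ F j ∧ j ≠ i))
      fun j hj => ?_).trans (Nat.add_le_add_left ((cn_le_add fun _ => id).trans
        (Nat.add_le_add_left (cn_le_add fun _ => id) _)) _)
    have := fun e => hT ⟨F j ∩ Y, ⟨hj, j, rfl⟩, e⟩
    simp only [disjoint_insert_left, disjoint_singleton_left, mem_inter] at this
    tauto
  have n2 := cn_le_card (p := fun j => j = i) {i} (by simp)
  have n3 := k a (by simp)
  have n4 := k b (by simp)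
  have n5 := k c (by simp)
  have h4 := h.sys.up.count
  have h5 := h.sys.nn_four
  have h1 := h.del_zero
  have h6 := h.many
  have h7 := uu_nn (F := F) (Y := Y)
  rw [card_singleton] at n2
  exact h.noH Y subset_rfl (by unfold del at h1; omega) (by unfold del at h1; omega)

lemma nodup (X : Finset P) (h3 : X.card = 3) : cn (fun i => F i ∩ Y = X) ≤ 1 := by
  by_contra hn
  obtain ⟨T, K, L, t, e | e⟩ := h.two' ⟨h3, exists_of_cn (by omega)⟩
  · obtain ⟨k, rfl⟩ := card_eq_one.1 e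
    obtain ⟨M, a, b⟩ := no_C6 t (ph := true) (fun _ => by omega) (by simp)
    exact ZC6a.refute a b
  · obtain ⟨M, a, b⟩ := t.no_C5 (n := 3) (ph := true) e.ge fun _ => by omega
    exact ZC5b.refute a b

lemma special (hA : Tp F Y A) : ∃ k ∈ Y, k ∉ A ∧
    (1 ≤ lp F Y k ∨ 2 ≤ cn fun i => k ∈ F i ∧ (F i ∩ Y).card = 2) ∧
    (nbr F Y k).card ≤ 6 ∧ 2 ≤ (A ∩ nbr F Y k).card ∧
    ((nbr F Y k).card = 6 → 3 ≤ (A ∩ nbr F Y k).card) := by
  obtain ⟨T, K, L, t, e | e⟩ := h.two' hA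
  swap
  · exact (no_C7 t e h.nodup).elim
  obtain ⟨k, rfl⟩ := card_eq_one.1 e
  have hk : k ∉ A ∪ T := disjoint_singleton_right.1 t.dis'
  have h1 : nbr F Y k ⊆ A ∪ T := fun x hx => by
    obtain ⟨a1, a2, a3⟩ := mem_nbr.1 hx
    rcases t.cov a1 with e | e | e
    exacts [e, (a2 (mem_singleton.1 e)).elim, (t.sep k (by simp) x e a3).elim]
  have h2 := card_union_of_disjoint t.dis
  have h3 := hA.1
  have h4 := t.tT.1
  refine ⟨k, t.sL (by simp), fun e => hk (mem_union_left _ e), ?_,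
    (card_le_card h1).trans (by omega), ?_, fun e => ?_⟩
  · by_contra hn
    obtain ⟨M, a, b⟩ := no_C6 t (ph := false) (by simp) fun _ => ⟨h.nodup, by omega, by omega⟩
    exact ZC6b.refute a b
  · by_contra hn
    obtain ⟨l, a1, s, a2, a3, a4⟩ := t.toPr.nbr h.hF t.hL (empty_subset _) (by simp)
      (S0 := A ∩ nbr F Y k) (inter_subset_left.trans subset_union_left) (by omega)
    rw [union_empty] at a2
    exact a3 (mem_inter.2 ⟨a2, mem_nbr.2 ⟨hA.sub a2, fun e => hk (mem_union_left _ (e ▸ a2)),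
      mem_singleton.1 a1 ▸ a4⟩⟩)
  · rw [eq_of_subset_of_card_le h1 (by omega), inter_eq_left.2 subset_union_left, h3]

theorem elim : False := by
  classical
  have h1 : ∀ i, ∃ k, (F i ∩ Y).card = 3 → k ∈ Y ∧ _ := fun i => by
    by_cases e : (F i ∩ Y).card = 3
    · obtain ⟨k, hk⟩ := h.special ⟨e, i, rfl⟩
      exact ⟨k, fun _ => hk⟩
    · rcases Y.eq_empty_or_nonempty with rfl | ⟨k, -⟩
      · exact absurd h.neg (by simp [ww, tau_empty, uu, NN_eq, cn_zero])
      · exact ⟨k, fun e' => (e e').elim⟩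
  choose g hg using h1
  have h2 : ∀ k ∈ Y, 3 * cn (fun i => (F i ∩ Y).card = 3 ∧ g i = k) +
      40 * (if 2 ≤ lp F Y k then 1 else 0) ≤
      14 * cn (fun i => k ∈ F i ∧ (F i ∩ Y).card = 2) + 56 * lp F Y k := fun k hk => by
    rcases Nat.eq_zero_or_pos (cn fun i => (F i ∩ Y).card = 3 ∧ g i = k) with e | e
    · split_ifs <;> omega
    obtain ⟨i0, e1, rfl⟩ := exists_of_cn e
    obtain ⟨-, -, a1, a2, -⟩ := hg i0 e1
    set k := g i0 with hk0
    set N := nbr F Y k with hN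
    have b1 := sum_cn (F := F) N fun i => k ∈ F i
    have b2 := sum_cn (F := F) N fun i => k ∉ F i
    have b3 : ∑ p ∈ N, cn (fun i => p ∈ F i ∧ k ∈ F i) + ∑ p ∈ N, cn (fun i => p ∈ F i ∧ k ∉ F i) ≤
        5 * N.card := by
      rw [← sum_add_distrib, mul_comm, ← smul_eq_mul]
      exact sum_le_card_nsmul _ _ _ fun p hp => h.sys.deg p (mem_nbr.1 hp).1 ▸
        cn_add_le (fun _ a b => b.2 a.2) (fun _ a => a.1) fun _ a => a.1
    have b4 := sum_sizes (F := F) Y (fun i => k ∈ F i) h.sys.up.sz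
    have b5 := cn_sizes (F := F) Y (fun i => k ∈ F i) h.sys.up.sz
    have b6 : cn (fun i => k ∈ F i ∧ (F i ∩ Y).Nonempty) = 5 := h.sys.deg k hk ▸
      cn_congr fun i => ⟨fun a => a.1, fun a => ⟨a, k, mem_inter.2 ⟨a, hk⟩⟩⟩
    have b7 : ∑ i ∈ univ.filter fun i => k ∈ F i, (F i ∩ Y).card ≤
        ∑ i ∈ univ.filter fun i => k ∈ F i, (F i ∩ N).card + 5 := by
      rw [← h.sys.deg k hk, cn_eq, card_eq_sum_ones (univ.filter _), ← sum_add_distrib]
      refine sum_le_sum fun i hi => (card_le_card (t := insert k (F i ∩ N)) fun x hx => ?_).trans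
        (card_insert_le _ _)
      by_cases e : x = k
      · simp [e]
      · exact mem_insert_of_mem (mem_inter.2 ⟨(mem_inter.1 hx).1, mem_nbr.2
          ⟨(mem_inter.1 hx).2, e, i, (mem_filter.1 hi).2, (mem_inter.1 hx).1⟩⟩)
    have b8 : cn (fun i => k ∈ F i ∧ (F i ∩ Y).card = 1) ≤ lp F Y k := cn_mono fun i hi => by
      obtain ⟨x, hx⟩ := card_eq_one.1 hi.2
      rw [hx, ← mem_singleton.1 (hx ▸ mem_inter.2 ⟨hi.1, hk⟩ : k ∈ ({x} : Finset P))]
    have b9 : ∀ c, (∀ i, (F i ∩ Y).card = 3 → g i = k → c ≤ (F i ∩ Y ∩ N).card) →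
        cn (fun i => (F i ∩ Y).card = 3 ∧ g i = k) * c ≤
          ∑ i ∈ univ.filter fun i => k ∉ F i, (F i ∩ N).card := fun c hc => by
      rw [cn_eq, ← smul_eq_mul]
      refine (card_nsmul_le_sum _ (fun i => (F i ∩ N).card) _ fun i hi => ?_).trans
        (sum_le_sum_of_subset fun i hi => ?_)
      · exact (hc i (mem_filter.1 hi).2.1 (mem_filter.1 hi).2.2).trans (card_le_card
          (inter_subset_inter inter_subset_left subset_rfl))
      · obtain ⟨c1, c2⟩ := (mem_filter.1 hi).2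
        exact mem_filter.2 ⟨mem_univ _, fun e => (hg i c1).2.1 (c2 ▸ mem_inter.2 ⟨e, hk⟩)⟩
    have c1 := b9 2 fun i e e' => by have := (hg i e).2.2.2.2.1; rwa [e'] at this
    have c2 : N.card = 6 → _ := fun e0 => b9 3 fun i e e' => by
      have := (hg i e).2.2.2.2.2; rw [e'] at this; exact this e0
    clear b9
    split_ifs <;> omega
  have h3 := sum_le_sum h2
  have h4 : ∑ k ∈ Y, cn (fun i => (F i ∩ Y).card = 3 ∧ g i = k) = nn F Y 3 := by
    rw [nn, cn_eq, card_eq_sum_card_fiberwise (f := g) (t := Y) fun i hi =>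
      (hg i (mem_filter.1 hi).2).1]
    exact sum_congr rfl fun k _ => by rw [cn_eq, filter_filter]
  have h5 : ∑ k ∈ Y, cn (fun i => k ∈ F i ∧ (F i ∩ Y).card = 2) = 2 * nn F Y 2 := by
    rw [sum_cn, sum_congr rfl fun i hi => (mem_filter.1 hi).2, nn, cn_eq]
    simp [mul_comm]
  have h6 : ∑ k ∈ Y, lp F Y k ≤ nn F Y 1 :=
    (sum_lp Y).le.trans (cn_mono fun i ⟨p, _, e⟩ => by rw [e, card_singleton])
  have h7 : ∑ k ∈ Y, (if 2 ≤ lp F Y k then 1 else 0) = uu F Y Y := (card_filter _ _).symm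
  simp only [sum_add_distrib, ← mul_sum, h4, h5, h7] at h3
  have := h.many
  omega

end Min

theorem tt_all (P : Type) [DecidableEq P] [Fintype P] (n : ℕ) : TT P n := by
  induction n with
  | zero => intro I _ F X h; omega
  | succ n ih =>
    intro I _ F X h1 h2 h3 h4
    by_contra hn
    exact Min.elim ⟨h2, fun I _ F X' a => ih I F X' (by omega), h3, h4, not_le.1 hn⟩

end Pool.Agent.Lib.MP_0828a1_co
end
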